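import Pool.Agent.W_03a799_h55.FinB

/-! The final statement. -/

open MeasureTheory Filter Topology ProbabilityTheory
open scoped ENNReal NNReal

namespace SHF

universe u v w

/-- nonnegative, not almost everywhere vanishing function of `L²(ℝ²)` -/
structure L2P (φ : R2 → ℝ) : Prop where
  meas : Measurable φ
  mem : MemLp φ 2 volume
  nonneg : ∀ x, 0 ≤ φ x
  ne : ¬ φ =ᵐ[volume] 0

/-- the `n`-th moment `E[(∬ φ(x) ψ(y) S(dx,dy))^n]` -/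
noncomputable def Mn {Ω₀ : Type w} [MeasurableSpace Ω₀] (Q₀ : Measure Ω₀)
    (S : Ω₀ → Measure (R2 × R2)) (φ ψ : R2 → ℝ) (n : ℕ) : ℝ≥0∞ :=
  ∫⁻ ω, (Sp S φ ψ ω) ^ n ∂Q₀

theorem shf_moments {j : R2 → ℝ} (hj : Moll j) {θ : ℝ} {β : ℝ → ℝ}
    (hβ : CritWin θ (fun ε => β ε ^ 2)) {s t : ℝ} (hst : s < t) {φ ψ : R2 → ℝ}
    (hφ : L2P φ) (hψ : L2P ψ) :
    ∃ c C : ℝ, 0 < c ∧ 0 < C ∧ ∃ n0 : ℕ, ∀ n : ℕ, n0 ≤ n →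
      ∀ (Ω₀ : Type w) [MeasurableSpace Ω₀] (Q₀ : Measure Ω₀) [IsProbabilityMeasure Q₀]
        (S : Ω₀ → Measure (R2 × R2)), IsSHF.{u, v, w} j β s t Q₀ S →
        ENNReal.ofReal (Real.exp (Real.exp (c * n))) ≤ Mn Q₀ S φ ψ n ∧
        Mn Q₀ S φ ψ n ≤ ENNReal.ofReal (Real.exp (Real.exp (C * n))) := by
  obtain ⟨c, C, hc, hC, n0, h⟩ :=
    SHF.main.{u, v, w} hj hβ hst hφ.meas hψ.meas hφ.mem hψ.mem hφ.nonneg hψ.nonneg hφ.ne hψ.ne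
  exact ⟨c, C, hc, hC, n0, fun n hn Ω₀ _ Q₀ _ S hS => (h n hn).2.1 Ω₀ Q₀ S hS⟩

end SHF
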