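import Pool.Agent.W_03a799_h55.Defs

/-! Geometry of the configuration space `XX n` (elementary identities). -/

open MeasureTheory Filter Topology
open scoped ENNReal NNReal

namespace SHF

variable {n : ℕ}

@[simp] lemma pt_apply (x : XX n) (i : Fin n) (a : Fin 2) : pt x i a = x (i, a) := rfl

lemma pt_add (x y : XX n) (i : Fin n) : pt (x + y) i = pt x i + pt y i := by
  ext a
  simp

lemma pt_sub (x y : XX n) (i : Fin n) : pt (x - y) i = pt x i - pt y i := by
  ext a
  simp

lemma pt_neg (x : XX n) (i : Fin n) : pt (-x) i = -pt x i := by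
  ext a
  simp

lemma pt_smul (c : ℝ) (x : XX n) (i : Fin n) : pt (c • x) i = c • pt x i := by
  ext a
  simp

lemma pt_es (p : Fin n × Fin n) (k : R2) (l : Fin n) :
    pt (es p k) l = if l = p.1 then k else if l = p.2 then -k else 0 := by
  ext a
  rw [pt_apply]
  simp only [es]
  split_ifs <;> simp

lemma es_add (p : Fin n × Fin n) (k l : R2) : (es p (k + l) : XX n) = es p k + es p l := by
  ext q
  simp only [es, PiLp.add_apply]
  split_ifs
  · rfl
  · ring
  · ring

lemma es_neg (p : Fin n × Fin n) (k : R2) : (es p (-k) : XX n) = -es p k := by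
  ext q
  simp only [es, PiLp.neg_apply]
  split_ifs
  · rfl
  · rfl
  · ring

lemma es_zero (p : Fin n × Fin n) : (es p 0 : XX n) = 0 := by
  ext q
  simp only [es, PiLp.zero_apply]
  split_ifs
  · rfl
  · ring
  · rfl

lemma df_add (p : Fin n × Fin n) (x y : XX n) : df p (x + y) = df p x + df p y := by
  simp only [df, pt_add]
  abel

lemma df_sub (p : Fin n × Fin n) (x y : XX n) : df p (x - y) = df p x - df p y := by
  simp only [df, pt_sub]
  abel

lemma df_smul (p : Fin n × Fin n) (c : ℝ) (x : XX n) : df p (c • x) = c • df p x := by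
  simp only [df, pt_smul, smul_sub]

lemma df_es {p : Fin n × Fin n} (hp : p.1 ≠ p.2) (k : R2) :
    df p (es p k : XX n) = (2 : ℝ) • k := by
  simp only [df, pt_es, if_true, if_neg hp.symm]
  rw [two_smul, sub_neg_eq_add]

lemma qq_add_es {p : Fin n × Fin n} (hp : p.1 ≠ p.2) (x : XX n) (k : R2) :
    qq p (x + es p k) = qq p x + k := by
  simp only [qq, df_add, df_es hp, smul_add, smul_smul]
  norm_num

lemma norm_sq_pt (x : XX n) : ‖x‖ ^ 2 = ∑ i, ‖pt x i‖ ^ 2 := by
  rw [EuclideanSpace.norm_sq_eq, Fintype.sum_prod_type]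
  refine Finset.sum_congr rfl fun i _ => ?_
  rw [EuclideanSpace.norm_sq_eq]
  rfl

lemma ne_of_prs {p : Fin n × Fin n} (hp : p ∈ prs n) : p.1 ≠ p.2 :=
  (Finset.mem_filter.1 hp).2.ne

/-- parallelogram identity: `s_σ` is the sum of the other `|x_l|²`, of `|x_i + x_j|²/2` and `m` -/
lemma sg_eq {p : Fin n × Fin n} (hp : p.1 ≠ p.2) (m : ℝ) (x : XX n) :
    sg m p x = ∑ l ∈ (Finset.univ.erase p.1).erase p.2, ‖pt x l‖ ^ 2
      + ‖pt x p.1 + pt x p.2‖ ^ 2 / 2 + m := by
  have h1 : ‖x‖ ^ 2 = ∑ l ∈ (Finset.univ.erase p.1).erase p.2, ‖pt x l‖ ^ 2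
      + ‖pt x p.1‖ ^ 2 + ‖pt x p.2‖ ^ 2 := by
    rw [norm_sq_pt, ← Finset.add_sum_erase _ _ (Finset.mem_univ p.1),
      ← Finset.add_sum_erase _ _ (Finset.mem_erase.2 ⟨hp.symm, Finset.mem_univ p.2⟩)]
    ring
  have h2 := parallelogram_law_with_norm ℝ (pt x p.1) (pt x p.2)
  simp only [sg, ss, df]
  rw [h1]
  nlinarith [h2]

lemma sg_add_es {p : Fin n × Fin n} (hp : p.1 ≠ p.2) (m : ℝ) (x : XX n) (k : R2) :
    sg m p (x + es p k) = sg m p x := by
  rw [sg_eq hp, sg_eq hp]
  congr 2
  · refine Finset.sum_congr rfl fun l hl => ?_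
    rw [Finset.mem_erase, Finset.mem_erase] at hl
    rw [pt_add, pt_es, if_neg hl.2.1, if_neg hl.1, add_zero]
  · have h1 : pt (x + es p k) p.1 + pt (x + es p k) p.2 = pt x p.1 + pt x p.2 := by
      rw [pt_add, pt_add, pt_es, pt_es, if_pos rfl, if_neg hp.symm, if_pos rfl]
      abel
    rw [h1]

lemma sg_ge {p : Fin n × Fin n} (hp : p.1 ≠ p.2) {m : ℝ} (x : XX n) : m ≤ sg m p x := by
  rw [sg_eq hp]
  have h1 : 0 ≤ ∑ l ∈ (Finset.univ.erase p.1).erase p.2, ‖pt x l‖ ^ 2 :=
    Finset.sum_nonneg fun l _ => by positivity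
  have h2 : 0 ≤ ‖pt x p.1 + pt x p.2‖ ^ 2 / 2 := by positivity
  linarith

lemma two_qq_le {p : Fin n × Fin n} (hp : p.1 ≠ p.2) (x : XX n) :
    2 * ‖qq p x‖ ^ 2 ≤ ‖x‖ ^ 2 := by
  have h1 := sg_ge hp (m := 0) x
  simp only [sg, ss] at h1
  have h2 : ‖qq p x‖ = 1 / 2 * ‖df p x‖ := by
    rw [qq, norm_smul]
    norm_num
  rw [h2]
  nlinarith

lemma Geo_inner (x y : XX n) : inner ℝ x y = ∑ i, inner ℝ (pt x i) (pt y i) := by
  simp only [PiLp.inner_apply, pt_apply]
  rw [Fintype.sum_prod_type]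

lemma inner_es {p : Fin n × Fin n} (hp : p.1 ≠ p.2) (k : R2) (x : XX n) :
    inner ℝ (es p k) x = inner ℝ k (df p x) := by
  rw [Geo_inner, ← Finset.add_sum_erase _ _ (Finset.mem_univ p.1),
    ← Finset.add_sum_erase _ _ (Finset.mem_erase.2 ⟨hp.symm, Finset.mem_univ p.2⟩)]
  have h1 : ∑ l ∈ (Finset.univ.erase p.1).erase p.2,
      inner ℝ (pt (es p k : XX n) l) (pt x l) = 0 := by
    refine Finset.sum_eq_zero fun l hl => ?_
    rw [Finset.mem_erase, Finset.mem_erase] at hl
    rw [pt_es, if_neg hl.2.1, if_neg hl.1, inner_zero_left]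
  rw [h1, pt_es, pt_es, if_pos rfl, if_neg hp.symm, if_pos rfl, add_zero, df, inner_sub_right,
    inner_neg_left]
  ring

lemma continuous_pt (i : Fin n) : Continuous (fun x : XX n => pt x i) := by
  unfold pt
  fun_prop

lemma continuous_df (p : Fin n × Fin n) : Continuous (fun x : XX n => df p x) :=
  (continuous_pt p.1).sub (continuous_pt p.2)

lemma continuous_qq (p : Fin n × Fin n) : Continuous (fun x : XX n => qq p x) := by
  unfold qq
  exact (continuous_df p).const_smul (1 / 2 : ℝ)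

lemma continuous_es (p : Fin n × Fin n) : Continuous (fun k : R2 => (es p k : XX n)) := by
  unfold es
  refine (PiLp.continuous_toLp 2 _).comp (continuous_pi fun q => ?_)
  split_ifs
  · fun_prop
  · fun_prop
  · exact continuous_const

lemma measurable_add_es (p : Fin n × Fin n) :
    Measurable (fun z : XX n × R2 => z.1 + (es p z.2 : XX n)) :=
  (continuous_fst.add ((continuous_es p).comp continuous_snd)).measurable

lemma measurable_sub_es (p : Fin n × Fin n) :
    Measurable (fun z : XX n × R2 => z.1 - (es p z.2 : XX n)) :=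
  (continuous_fst.sub ((continuous_es p).comp continuous_snd)).measurable

lemma Geo_continuous_ss (m : ℝ) : Continuous (fun x : XX n => ss m x) := by
  unfold ss
  fun_prop

lemma measurable_ss (m : ℝ) : Measurable (fun x : XX n => ss m x) :=
  (Geo_continuous_ss m).measurable

lemma measurable_sg (m : ℝ) (p : Fin n × Fin n) : Measurable (fun x : XX n => sg m p x) := by
  unfold sg
  exact ((Geo_continuous_ss m).sub (((continuous_df p).norm.pow 2).div_const 2)).measurable

lemma Geo_measurable_uu (m : ℝ) (k : Fin n) : Measurable (fun x : XX n => uu m x k) := by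
  unfold uu
  refine Measurable.pow_const ?_ _
  exact (((continuous_pt k).norm.pow 2).add ((Geo_continuous_ss m).div_const _)).measurable

lemma measurable_aa (m : ℝ) (p : Fin n × Fin n) : Measurable (fun x : XX n => aa m p x) := by
  unfold aa
  exact (measurable_sg m p).sqrt.div
    ((Geo_measurable_uu m p.1).mul (Geo_measurable_uu m p.2))

lemma measurable_WW (m : ℝ) (p : Fin n × Fin n) : Measurable (fun x : XX n => WW m p x) := by
  unfold WW
  exact Finset.measurable_fun_sum _ fun q _ =>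
    (measurable_aa m p).div ((measurable_aa m q).mul (measurable_ss m))

end SHF
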