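import Pool.Agent.W_03a799_h55.Planch
import Pool.Agent.W_03a799_h55.Geo

/-! Potential energy of `P_s g` in momentum space. -/

open MeasureTheory Filter Topology
open scoped ENNReal NNReal FourierTransform

namespace SHF

variable {n : ℕ}

lemma Apos_conj_exp (r : ℝ) : (starRingEnd ℂ) (Complex.exp (2 * Real.pi * Complex.I * (r : ℝ)))
    = Complex.exp (-(2 * Real.pi * Complex.I * (r : ℝ))) := by
  rw [← Complex.exp_conj]
  congr 1
  rw [map_mul, map_mul, map_mul, Complex.conj_I, Complex.conj_ofReal, Complex.conj_ofReal,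
    map_ofNat]
  ring

lemma Apos_norm_exp (r : ℝ) : ‖Complex.exp (2 * Real.pi * Complex.I * (r : ℝ))‖ = 1 := by
  have : (2 * Real.pi * Complex.I * (r : ℝ) : ℂ) = ((2 * Real.pi * r : ℝ) : ℂ) * Complex.I := by
    push_cast; ring
  rw [this, Complex.norm_exp_ofReal_mul_I]

lemma Apos_norm_exp' (r : ℝ) : ‖Complex.exp (-(2 * Real.pi * Complex.I * (r : ℝ)))‖ = 1 := by
  have : (-(2 * Real.pi * Complex.I * (r : ℝ)) : ℂ) = ((-(2 * Real.pi * r) : ℝ) : ℂ) * Complex.I := by
    push_cast; ring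
  rw [this, Complex.norm_exp_ofReal_mul_I]

/-- conjugated inversion -/
lemma Apos_inv {s : ℝ} (hs : 0 < s) {g : XX n → ℝ} (hg' : Nice g) (x : XX n) :
    (hg s g x : ℂ) = ∫ ξ, (starRingEnd ℂ) (𝓕 (fun x => (hg s g x : ℂ)) ξ)
        * Complex.exp (-(2 * Real.pi * Complex.I * (inner ℝ ξ x : ℝ))) := by
  have h1 := congrArg (starRingEnd ℂ) (hg_inv hs hg' x)
  rw [Complex.conj_ofReal, ← integral_conj] at h1
  rw [h1]
  congr 1
  funext ξ
  rw [map_mul, Apos_conj_exp]

lemma Apos_Fs {s : ℝ} (hs : 0 < s) {g : XX n → ℝ} (hg' : Nice g) (ξ : XX n) :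
    Fs s g ξ = ‖𝓕 (fun x => (hg s g x : ℂ)) ξ‖ₑ := by
  rw [fourier_hg hs hg', enorm_mul]
  unfold Fs Fm
  rw [ofReal_norm]
  congr 1
  rw [← ofReal_norm, Complex.norm_real, Real.norm_of_nonneg (Real.exp_pos _).le]

/-- Parseval with a modulation: `|∫ e^{2πi⟨a,x⟩} h²| ≤ ∫ |ĥ(p)| |ĥ(p - a)| dp` -/
lemma modul {s : ℝ} (hs : 0 < s) {g : XX n → ℝ} (hg' : Nice g) (a : XX n) :
    ENNReal.ofReal ‖∫ x, Complex.exp (2 * Real.pi * Complex.I * (inner ℝ a x : ℝ))
        * ((hg s g x) ^ 2 : ℝ)‖ ≤ ∫⁻ ξ, Fs s g ξ * Fs s g (ξ - a) := by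
  set H : XX n → ℂ := fun x => (hg s g x : ℂ) with hH
  have hHi : Integrable H := (hg_integrable hs hg').ofReal
  have hFi : Integrable (𝓕 H) := fourier_hg_integrable hs hg'
  have e1 : ∀ x : XX n, Complex.exp (2 * Real.pi * Complex.I * (inner ℝ a x : ℝ))
        * ((hg s g x) ^ 2 : ℝ) = ∫ ξ, (starRingEnd ℂ) (𝓕 H ξ) *
          (Complex.exp (-(2 * Real.pi * Complex.I * (inner ℝ (ξ - a) x : ℝ))) * H x) := by
    intro x
    have h1 : ((hg s g x ^ 2 : ℝ) : ℂ) = (hg s g x : ℂ) * H x := by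
      rw [hH]; push_cast; ring
    rw [h1, Apos_inv hs hg' x, ← integral_mul_const, ← integral_const_mul]
    congr 1
    funext ξ
    have h2 : Complex.exp (-(2 * Real.pi * Complex.I * (inner ℝ (ξ - a) x : ℝ))) =
        Complex.exp (-(2 * Real.pi * Complex.I * (inner ℝ ξ x : ℝ))) *
          Complex.exp (2 * Real.pi * Complex.I * (inner ℝ a x : ℝ)) := by
      rw [← Complex.exp_add, inner_sub_left]
      congr 1
      push_cast
      ring
    rw [h2]
    ring
  have e2 : ∫ x, Complex.exp (2 * Real.pi * Complex.I * (inner ℝ a x : ℝ))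
        * ((hg s g x) ^ 2 : ℝ) = ∫ ξ, (starRingEnd ℂ) (𝓕 H ξ) * 𝓕 H (ξ - a) := by
    simp_rw [e1]
    rw [integral_integral_swap]
    · congr 1
      funext ξ
      rw [integral_const_mul]
      congr 1
      rw [Real.fourier_eq']
      congr 1
      funext x
      rw [smul_eq_mul]
      congr 2
      rw [real_inner_comm]
      push_cast
      ring
    · have h3 : Integrable (fun z : XX n × XX n => (starRingEnd ℂ) (𝓕 H z.2) * H z.1)
          (volume.prod volume) := by
        have h4 : Integrable (fun ξ => (starRingEnd ℂ) (𝓕 H ξ)) := by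
          exact (Complex.conjLIE.toContinuousLinearEquiv.toContinuousLinearMap.integrable_comp hFi)
        have h5 := hHi.mul_prod h4
        refine h5.congr (Filter.Eventually.of_forall fun z => ?_)
        simp only
        ring
      have h6 : Continuous (fun z : XX n × XX n =>
          Complex.exp (-(2 * Real.pi * Complex.I * (inner ℝ (z.2 - a) z.1 : ℝ)))) := by
        fun_prop
      refine (h3.bdd_mul (c := 1) h6.aestronglyMeasurable
        (Filter.Eventually.of_forall fun z => (Apos_norm_exp' _).le)).congr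
        (Filter.Eventually.of_forall fun z => ?_)
      simp only [Function.uncurry]
      ring
  rw [e2, ofReal_norm]
  refine (enorm_integral_le_lintegral_enorm _).trans (le_of_eq ?_)
  congr 1
  funext ξ
  rw [enorm_mul, Apos_Fs hs hg', Apos_Fs hs hg']
  congr 1
  rw [← ofReal_norm, ← ofReal_norm, RCLike.norm_conj]

/-- `∫ R(x_i - x_j) (P_s g)² ≤ ∫ f ζ_σ f`, `f = |𝓕 (P_s g)|` -/
theorem apos {R ρ : R2 → ℝ} (hR0 : ∀ z, 0 ≤ R z) (hRm : Measurable R) (hρm : Measurable ρ)
    (hρ0 : ∀ k, 0 ≤ ρ k) (hρi : Integrable ρ)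
    (hinv : ∀ z, (R z : ℂ) =
      ∫ k, (ρ k : ℂ) * Complex.exp (2 * Real.pi * Complex.I * (inner ℝ k z : ℝ)))
    {p : Fin n × Fin n} (hp : p.1 ≠ p.2) {s : ℝ} (hs : 0 < s) {g : XX n → ℝ} (hg' : Nice g) :
    ∫⁻ x, ENNReal.ofReal (R (df p x)) * (PE s (fun y => ENNReal.ofReal (g y)) x) ^ 2
      ≤ ∫⁻ ξ, Fs s g ξ * zt ρ p (Fs s g) ξ := by
  obtain ⟨N, hN⟩ := hg_bdd hs hg'
  have hh0 := hg_nonneg hs hg'
  have hhi : Integrable (hg s g) := hg_integrable hs hg'
  have hhm : Measurable (hg s g) := (hg_cont hs hg').measurable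
  have hh2 : Integrable (fun x => hg s g x ^ 2) := by
    refine (hhi.bdd_mul (c := N) (hg_cont hs hg').aestronglyMeasurable
      (Filter.Eventually.of_forall fun x => ?_)).congr
        (Filter.Eventually.of_forall fun x => (pow_two _).symm)
    rw [Real.norm_of_nonneg (hh0 x)]
    exact hN x
  have hRb : ∀ z, R z ≤ ∫ k, ρ k := by
    intro z
    have h1 : R z = ‖(R z : ℂ)‖ := by rw [Complex.norm_real, Real.norm_of_nonneg (hR0 z)]
    rw [h1, hinv z]
    refine (norm_integral_le_integral_norm _).trans (le_of_eq ?_)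
    congr 1
    funext k
    rw [norm_mul, Apos_norm_exp, mul_one, Complex.norm_real, Real.norm_of_nonneg (hρ0 k)]
  have hdf : Measurable (fun x : XX n => df p x) := (continuous_df p).measurable
  have hRh : Integrable (fun x => R (df p x) * hg s g x ^ 2) := by
    refine hh2.bdd_mul (c := ∫ k, ρ k) (hRm.comp hdf).aestronglyMeasurable
      (Filter.Eventually.of_forall fun x => ?_)
    rw [Real.norm_of_nonneg (hR0 _)]
    exact hRb _
  have e1 : ∫⁻ x, ENNReal.ofReal (R (df p x)) * (PE s (fun y => ENNReal.ofReal (g y)) x) ^ 2 =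
      ENNReal.ofReal (∫ x, R (df p x) * hg s g x ^ 2) := by
    rw [ofReal_integral_eq_lintegral_ofReal hRh
      (Filter.Eventually.of_forall fun x => mul_nonneg (hR0 _) (sq_nonneg _))]
    congr 1
    funext x
    rw [PE_eq_hg hs hg', ENNReal.ofReal_mul (hR0 _), ENNReal.ofReal_pow (hh0 x)]
  have e2 : ((∫ x, R (df p x) * hg s g x ^ 2 : ℝ) : ℂ) = ∫ k, (ρ k : ℂ) *
      ∫ x : XX n, Complex.exp (2 * Real.pi * Complex.I * (inner ℝ (es p k) x : ℝ)) *
        ((hg s g x) ^ 2 : ℝ) := by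
    rw [← integral_complex_ofReal]
    have e3 : ∀ x : XX n, ((R (df p x) * hg s g x ^ 2 : ℝ) : ℂ) = ∫ k : R2, (ρ k : ℂ) *
        (Complex.exp (2 * Real.pi * Complex.I * (inner ℝ (es p k) x : ℝ)) *
          ((hg s g x) ^ 2 : ℝ)) := by
      intro x
      rw [Complex.ofReal_mul, hinv, ← integral_mul_const]
      congr 1
      funext k
      rw [inner_es hp, mul_assoc]
    simp_rw [e3]
    rw [integral_integral_swap]
    · congr 1
      funext k
      rw [integral_const_mul]
    · have h3 : Integrable (fun z : XX n × R2 => ((hg s g z.1 ^ 2 : ℝ) : ℂ) * (ρ z.2 : ℂ))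
          (volume.prod volume) := (hh2.ofReal (𝕜 := ℂ)).mul_prod (hρi.ofReal (𝕜 := ℂ))
      have h6 : Continuous (fun z : XX n × R2 =>
          Complex.exp (2 * Real.pi * Complex.I * (inner ℝ (es p z.2) z.1 : ℝ))) := by
        have h7 : Continuous fun z : XX n × R2 => (es p z.2 : XX n) :=
          (continuous_es p).comp continuous_snd
        fun_prop
      refine (h3.bdd_mul (c := 1) h6.aestronglyMeasurable
        (Filter.Eventually.of_forall fun z => (Apos_norm_exp _).le)).congr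
        (Filter.Eventually.of_forall fun z => ?_)
      simp only [Function.uncurry]
      ring
  have hI0 : 0 ≤ ∫ x, R (df p x) * hg s g x ^ 2 :=
    integral_nonneg fun x => mul_nonneg (hR0 _) (sq_nonneg _)
  have e4 : ENNReal.ofReal (∫ x, R (df p x) * hg s g x ^ 2) =
      ‖((∫ x, R (df p x) * hg s g x ^ 2 : ℝ) : ℂ)‖ₑ := by
    rw [← ofReal_norm, Complex.norm_real, Real.norm_of_nonneg hI0]
  have hFm : Measurable (Fs s g : XX n → ℝ≥0∞) := Fs_meas s hg'
  rw [e1, e4, e2]
  calc ‖∫ k, (ρ k : ℂ) * ∫ x : XX n, Complex.exp (2 * Real.pi * Complex.I *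
          (inner ℝ (es p k) x : ℝ)) * ((hg s g x) ^ 2 : ℝ)‖ₑ
      ≤ ∫⁻ k, ‖(ρ k : ℂ) * ∫ x : XX n, Complex.exp (2 * Real.pi * Complex.I *
          (inner ℝ (es p k) x : ℝ)) * ((hg s g x) ^ 2 : ℝ)‖ₑ := enorm_integral_le_lintegral_enorm _
    _ ≤ ∫⁻ k, ENNReal.ofReal (ρ k) * ∫⁻ ξ, Fs s g ξ * Fs s g (ξ - es p k) := by
        refine lintegral_mono fun k => ?_
        rw [enorm_mul]
        refine mul_le_mul' (le_of_eq ?_) ?_
        · rw [← ofReal_norm, Complex.norm_real, Real.norm_of_nonneg (hρ0 k)]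
        · rw [← ofReal_norm]
          exact modul hs hg' (es p k)
    _ = ∫⁻ k, ∫⁻ ξ, Fs s g ξ * (ENNReal.ofReal (ρ k) * Fs s g (ξ - es p k)) := by
        congr 1
        funext k
        rw [← lintegral_const_mul]
        · congr 1
          funext ξ
          ring
        · exact hFm.mul (hFm.comp (measurable_id.sub_const _))
    _ = ∫⁻ ξ, ∫⁻ k, Fs s g ξ * (ENNReal.ofReal (ρ k) * Fs s g (ξ - es p k)) := by
        rw [lintegral_lintegral_swap]
        refine Measurable.aemeasurable ?_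
        have h8 : Measurable fun z : R2 × XX n => Fs s g (z.2 - es p z.1) :=
          hFm.comp ((measurable_sub_es p).comp measurable_swap)
        exact (hFm.comp measurable_snd).mul
          ((ENNReal.measurable_ofReal.comp (hρm.comp measurable_fst)).mul h8)
    _ = ∫⁻ ξ, Fs s g ξ * zt ρ p (Fs s g) ξ := by
        congr 1
        funext ξ
        unfold zt
        rw [lintegral_const_mul]
        have h8 : Measurable fun k : R2 => Fs s g (ξ - es p k) :=
          hFm.comp ((measurable_sub_es p).comp (measurable_const.prodMk measurable_id))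
        exact (ENNReal.measurable_ofReal.comp hρm).mul h8

end SHF
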