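import Pool.Agent.W_03a799_h55.DD

/-! The critical window: choice of `λ = e^{Cn}`. -/

open MeasureTheory Filter Topology
open scoped ENNReal NNReal

namespace SHF

lemma Asy_Dc {ε lam I : ℝ} (hε : 0 < ε) (hl : 0 < lam) :
    Dc (1 / ε) lam (I / ε ^ 2) = 1 / (4 * Real.pi) * (2 * Real.log (1 / ε) +
      Real.log (4 * Real.pi ^ 2 / lam + ε ^ 2)) + I / (4 * Real.pi ^ 2) := by
  have hpi : 0 < Real.pi := Real.pi_pos
  unfold Dc
  have h1 : 1 + 4 * Real.pi ^ 2 * (1 / ε) ^ 2 / lam =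
      (1 / ε) ^ 2 * (4 * Real.pi ^ 2 / lam + ε ^ 2) := by
    field_simp
    ring
  have h2 : I / ε ^ 2 / (4 * Real.pi ^ 2 * (1 / ε) ^ 2) = I / (4 * Real.pi ^ 2) := by
    field_simp
  rw [h1, h2, Real.log_mul (by positivity) (by positivity), Real.log_pow]
  push_cast
  ring

/-- with `L = log (1/ε)`: `b = (2π/L)(1 + (θ+o(1))/L)` and
`Dc = (1/4π)(2L + log(4π²/λ + ε²)) + I/4π²`, so `b (Dc + 13 n) = 1 + (θ + (log (4π²/λ))/2 + I/2π
+ 26 π n + o(1))/L`, which is `< 1` for small `ε` when `log λ = C n` with `C` large -/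
theorem asy {θ : ℝ} {bsq : ℝ → ℝ} (hb : CritWin θ bsq) {I : ℝ} (hI : 0 ≤ I) :
    ∃ C : ℝ, 0 < C ∧ ∀ n : ℕ, 1 ≤ n → ∀ᶠ ε in 𝓝[>] (0 : ℝ),
      0 ≤ bsq ε ∧ bsq ε * (Dc (1 / ε) (Real.exp (C * n)) (I / ε ^ 2) + 13 * n) ≤ 1 := by
  have hpi : 0 < Real.pi := Real.pi_pos
  have hlog : 0 ≤ Real.log (2 * Real.pi) :=
    Real.log_nonneg (by linarith [Real.pi_gt_three])
  have hI' : 0 ≤ I / (2 * Real.pi) := by positivity
  refine ⟨2 * (|θ| + Real.log (2 * Real.pi) + I / (2 * Real.pi) + 26 * Real.pi + 1),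
    by positivity, ?_⟩
  set C : ℝ := 2 * (|θ| + Real.log (2 * Real.pi) + I / (2 * Real.pi) + 26 * Real.pi + 1) with hC
  intro n hn
  have hn1 : (1 : ℝ) ≤ n := by exact_mod_cast hn
  set lam : ℝ := Real.exp (C * n) with hlam
  have hl : 0 < lam := Real.exp_pos _
  set K0 : ℝ := 1 / 2 * Real.log (4 * Real.pi ^ 2 / lam) + I / (2 * Real.pi) +
    26 * Real.pi * n with hK0
  have hneg : θ + K0 < 0 := by
    have h1 : Real.log (4 * Real.pi ^ 2 / lam) = 2 * Real.log (2 * Real.pi) - C * n := by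
      rw [Real.log_div (by positivity) hl.ne', hlam, Real.log_exp]
      have : (4 : ℝ) * Real.pi ^ 2 = (2 * Real.pi) ^ 2 := by ring
      rw [this, Real.log_pow]
      push_cast
      ring
    rw [hK0, h1, hC]
    have h2 : θ ≤ |θ| := le_abs_self θ
    have h3 : |θ| ≤ |θ| * n := by nlinarith [abs_nonneg θ]
    have h4 : Real.log (2 * Real.pi) ≤ Real.log (2 * Real.pi) * n := by nlinarith
    have h5 : I / (2 * Real.pi) ≤ I / (2 * Real.pi) * n := by nlinarith
    nlinarith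
  have hL : Tendsto (fun ε : ℝ => Real.log (1 / ε)) (𝓝[>] 0) atTop := by
    have h1 : Tendsto (fun ε : ℝ => 1 / ε) (𝓝[>] 0) atTop := by
      simpa only [one_div] using (tendsto_inv_nhdsGT_zero (𝕜 := ℝ))
    exact Real.tendsto_log_atTop.comp h1
  have hg : Tendsto (fun ε => (bsq ε * Real.log (1 / ε) / (2 * Real.pi) - 1) *
      Real.log (1 / ε)) (𝓝[>] 0) (𝓝 θ) := hb
  have hA : Tendsto (fun ε => bsq ε * Real.log (1 / ε) / (2 * Real.pi)) (𝓝[>] 0) (𝓝 1) := by
    have h1 := hg.mul hL.inv_tendsto_atTop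
    rw [mul_zero] at h1
    have h2 := h1.add_const 1
    rw [zero_add] at h2
    refine h2.congr' ?_
    filter_upwards [hL.eventually_gt_atTop 0] with ε hε
    simp only [Pi.inv_apply]
    field_simp
    ring
  have hK : Tendsto (fun ε : ℝ => 1 / 2 * Real.log (4 * Real.pi ^ 2 / lam + ε ^ 2) +
      I / (2 * Real.pi) + 26 * Real.pi * n) (𝓝[>] 0) (𝓝 K0) := by
    have h1 : Tendsto (fun ε : ℝ => 4 * Real.pi ^ 2 / lam + ε ^ 2) (𝓝[>] 0)
        (𝓝 (4 * Real.pi ^ 2 / lam)) := by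
      have h2 : Continuous fun ε : ℝ => 4 * Real.pi ^ 2 / lam + ε ^ 2 := by fun_prop
      have h3 := h2.tendsto 0
      simp only [ne_eq, OfNat.ofNat_ne_zero, not_false_eq_true, zero_pow, add_zero] at h3
      exact h3.mono_left nhdsWithin_le_nhds
    have h2 := h1.log (by positivity)
    exact ((h2.const_mul (1 / 2)).add_const _).add_const _
  have hT := hg.add (hA.mul hK)
  rw [one_mul] at hT
  filter_upwards [hL.eventually_gt_atTop 0, hT.eventually_lt_const hneg,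
    hA.eventually_const_lt (show (1 / 2 : ℝ) < 1 by norm_num), self_mem_nhdsWithin] with ε h1 h2 h3 h4
  have hε : 0 < ε := h4
  set L : ℝ := Real.log (1 / ε) with hLdef
  set B : ℝ := bsq ε with hB
  have hB0 : 0 < B := by
    by_contra hcon
    have h5 : B * L / (2 * Real.pi) ≤ 0 :=
      div_nonpos_of_nonpos_of_nonneg (mul_nonpos_of_nonpos_of_nonneg (not_lt.1 hcon) h1.le)
        (by positivity)
    linarith
  refine ⟨hB0.le, ?_⟩
  rw [Asy_Dc hε hl]
  set M : ℝ := Real.log (4 * Real.pi ^ 2 / lam + ε ^ 2) with hM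
  have h6 : (B * (1 / (4 * Real.pi) * (2 * L + M) + I / (4 * Real.pi ^ 2) + 13 * n) - 1) * L =
      (B * L / (2 * Real.pi) - 1) * L + B * L / (2 * Real.pi) *
        (1 / 2 * M + I / (2 * Real.pi) + 26 * Real.pi * n) := by
    field_simp
    ring
  have h7 : (B * (1 / (4 * Real.pi) * (2 * L + M) + I / (4 * Real.pi ^ 2) + 13 * n) - 1) * L < 0 := by
    rw [h6]
    exact h2
  have h8 := neg_of_mul_neg_left h7 h1.le
  linarith


end SHF
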