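import Pool.Agent.W_03a799_h55.Heat

/-! Discrete Feynman-Kac formula. -/

open MeasureTheory Filter Topology ProbabilityTheory
open scoped ENNReal NNReal

namespace SHF

/-- the Gaussian measure with density `hk s` -/
noncomputable def gam {E : Type*} [NormedAddCommGroup E] [InnerProductSpace ℝ E]
    [FiniteDimensional ℝ E] [MeasurableSpace E] [BorelSpace E] (s : ℝ) : Measure E :=
  volume.withDensity (fun x => ENNReal.ofReal (hk s x))

section analytic

variable {E : Type*} [NormedAddCommGroup E] [InnerProductSpace ℝ E]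
  [FiniteDimensional ℝ E] [MeasurableSpace E] [BorelSpace E]

lemma gam_prob {s : ℝ} (hs : 0 < s) : IsProbabilityMeasure (gam s : Measure E) := by
  refine ⟨?_⟩
  unfold gam
  rw [withDensity_apply _ MeasurableSet.univ, Measure.restrict_univ, hk_lint hs]

/-- `P_s g (x) = ∫ g(x + z) γ_s(dz)` -/
lemma PE_eq_gam {s : ℝ} (hs : 0 < s) {g : E → ℝ≥0∞} (hg : Measurable g) (x : E) :
    PE s g x = ∫⁻ z, g (x + z) ∂(gam s) := by
  have hm : Measurable (fun z : E => ENNReal.ofReal (hk s z)) :=
    (ENNReal.continuous_ofReal.comp (hk_cont s)).measurable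
  have hgx : Measurable (fun z : E => g (x + z)) := hg.comp (measurable_const.add measurable_id)
  unfold gam
  rw [lintegral_withDensity_eq_lintegral_mul _ hm hgx]
  unfold PE
  rw [← lintegral_add_left_eq_self (fun y : E => ENNReal.ofReal (hk s (x - y)) * g y) x]
  refine lintegral_congr fun z => ?_
  have e : x - (x + z) = -z := by abel
  rw [e, hk_neg]
  rfl

theorem BMA_KT_meas (τ : ℝ) {V : E → ℝ} (hV : Measurable V) {g : E → ℝ≥0∞}
    (hg : Measurable g) : Measurable (KT τ V g) := by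
  unfold KT
  refine PE_meas τ ?_
  exact ((Real.measurable_exp.comp (measurable_const.mul hV)).ennreal_ofReal).mul hg

theorem BMA_KT_iter_meas (τ : ℝ) {V : E → ℝ} (hV : Measurable V) {g : E → ℝ≥0∞}
    (hg : Measurable g) (m : ℕ) : Measurable ((KT τ V)^[m] g) := by
  induction m with
  | zero => exact hg
  | succ m ih =>
    rw [Function.iterate_succ_apply']
    exact BMA_KT_meas τ hV ih

theorem BMA_filter_succ (m : ℕ) (k : Fin m) (ξ : Fin (m + 1) → E) :
    ∑ l ∈ Finset.univ.filter (fun l => l ≤ k.succ), ξ l =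
      ξ 0 + ∑ l ∈ Finset.univ.filter (fun l => l ≤ k), ξ l.succ := by
  rw [Finset.sum_filter, Fin.sum_univ_succ, if_pos (Fin.zero_le _), Finset.sum_filter]
  congr 1
  refine Finset.sum_congr rfl fun l _ => ?_
  simp only [Fin.succ_le_succ_iff]

theorem BMA_filter_zero (m : ℕ) (ξ : Fin (m + 1) → E) :
    ∑ l ∈ Finset.univ.filter (fun l => l ≤ (0 : Fin (m + 1))), ξ l = ξ 0 := by
  rw [Finset.sum_filter, Fin.sum_univ_succ, if_pos le_rfl]
  rw [Finset.sum_eq_zero, add_zero]
  intro l _
  rw [if_neg]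
  exact not_le.2 (Fin.succ_pos l)

/-- iterated integral over independent increments; induction on `m` with `Fin.cons`
(`MeasurableEquiv.piFinSuccAbove`, `measurePreserving_piFinSuccAbove`) -/
theorem iter_pi {τ : ℝ} (hτ : 0 < τ) {V : E → ℝ} (hV : Measurable V) {Ψ : E → ℝ≥0∞}
    (hΨ : Measurable Ψ) (m : ℕ) (x : E) :
    ∫⁻ ξ : Fin m → E, Ψ (x + ∑ k, ξ k) *
        ∏ k : Fin m, ENNReal.ofReal (Real.exp (τ * V (x + ∑ l ∈ Finset.univ.filter (· ≤ k), ξ l)))
        ∂(Measure.pi fun _ => gam τ)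
      = (KT τ V)^[m] Ψ x := by
  haveI : IsProbabilityMeasure (gam τ : Measure E) := gam_prob hτ
  induction m generalizing x with
  | zero =>
    rw [Measure.pi_of_empty _ (fun _ => (0 : E)), lintegral_dirac]
    simp
  | succ m ih =>
    have hw : Measurable (fun y : E => ENNReal.ofReal (Real.exp (τ * V y))) :=
      (Real.measurable_exp.comp (measurable_const.mul hV)).ennreal_ofReal
    have hmp := measurePreserving_piFinSuccAbove (fun _ : Fin (m + 1) => (gam τ : Measure E)) 0
    -- the integrand after splitting off the first coordinate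
    let G : E × (Fin m → E) → ℝ≥0∞ := fun z =>
      ENNReal.ofReal (Real.exp (τ * V (x + z.1))) *
        (Ψ ((x + z.1) + ∑ k, z.2 k) * ∏ k : Fin m, ENNReal.ofReal (Real.exp
          (τ * V ((x + z.1) + ∑ l ∈ Finset.univ.filter (· ≤ k), z.2 l))))
    have hG : Measurable G := by
      refine (hw.comp (measurable_const.add measurable_fst)).mul ((hΨ.comp ?_).mul ?_)
      · exact (measurable_const.add measurable_fst).add
          (Finset.measurable_sum _ fun k _ => (measurable_pi_apply k).comp measurable_snd)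
      · refine Finset.measurable_prod _ fun k _ => ?_
        refine hw.comp ?_
        exact (measurable_const.add measurable_fst).add
          (Finset.measurable_sum _ fun k _ => (measurable_pi_apply k).comp measurable_snd)
    have hint : ∀ ξ : Fin (m + 1) → E, Ψ (x + ∑ k, ξ k) *
        ∏ k : Fin (m + 1), ENNReal.ofReal (Real.exp
          (τ * V (x + ∑ l ∈ Finset.univ.filter (· ≤ k), ξ l))) =
        G (MeasurableEquiv.piFinSuccAbove (fun _ => E) 0 ξ) := by
      intro ξ
      have e1 : (MeasurableEquiv.piFinSuccAbove (fun _ => E) 0 ξ) = (ξ 0, fun k => ξ k.succ) := by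
        rfl
      rw [e1]
      show _ = ENNReal.ofReal (Real.exp (τ * V (x + ξ 0))) *
        (Ψ ((x + ξ 0) + ∑ k : Fin m, ξ k.succ) * ∏ k : Fin m, ENNReal.ofReal (Real.exp
          (τ * V ((x + ξ 0) + ∑ l ∈ Finset.univ.filter (· ≤ k), ξ l.succ))))
      rw [Fin.sum_univ_succ, Fin.prod_univ_succ, BMA_filter_zero, ← add_assoc]
      simp only [BMA_filter_succ, ← add_assoc]
      ring
    rw [lintegral_congr hint]
    have h2 := hmp.lintegral_comp hG
    rw [h2, lintegral_prod _ hG.aemeasurable, Function.iterate_succ_apply']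
    show _ = PE τ (fun y => ENNReal.ofReal (Real.exp (τ * V y)) * (KT τ V)^[m] Ψ y) x
    have hwg : Measurable (fun y : E => ENNReal.ofReal (Real.exp (τ * V y)) * (KT τ V)^[m] Ψ y) :=
      hw.mul (BMA_KT_iter_meas τ hV hΨ m)
    rw [PE_eq_gam hτ hwg x]
    refine lintegral_congr fun z => ?_
    rw [← ih (x + z), ← lintegral_const_mul]
    refine Measurable.mul (hΨ.comp ?_) ?_
    · exact measurable_const.add (Finset.measurable_sum _ fun k _ => measurable_pi_apply k)
    · refine Finset.measurable_prod _ fun k _ => ?_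
      refine hw.comp ?_
      exact measurable_const.add (Finset.measurable_sum _ fun k _ => measurable_pi_apply k)

end analytic

variable {n : ℕ} {Ω : Type*} [MeasurableSpace Ω] {W : Fin n × Fin 2 → ℝ≥0 → Ω → ℝ}
  {P : Measure Ω}

lemma pth_aemeasurable (hW : BMfam W P) (s : ℝ≥0) : AEMeasurable (pth W s) P := by
  have h : AEMeasurable (fun ω (p : Fin n × Fin 2) => W p s ω) P :=
    aemeasurable_pi_lambda _ fun p => (hW.bm p).toIsPreBrownianReal.aemeasurable s
  exact (WithLp.measurable_toLp 2 _).comp_aemeasurable h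

/-- the product of Gaussian laws has the product density -/
theorem BMA_prod_dens {ι : Type*} [Fintype ι] {v : ℝ≥0} (hv : v ≠ 0) :
    Measure.pi (fun _ : ι => gaussianReal 0 v) = (volume : Measure (ι → ℝ)).withDensity
      (fun x => ENNReal.ofReal (∏ i, gaussianPDFReal 0 v (x i))) := by
  refine Measure.pi_eq fun s hs => ?_
  rw [withDensity_apply _ (MeasurableSet.univ_pi hs)]
  have h1 : (volume : Measure (ι → ℝ)).restrict (Set.univ.pi s) =
      Measure.pi (fun i => (volume : Measure ℝ).restrict (s i)) := by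
    rw [volume_pi, Measure.restrict_pi_pi]
  rw [h1, ← ofReal_integral_eq_lintegral_ofReal]
  · rw [integral_fintype_prod_eq_prod (𝕜 := ℝ) (fun (_ : ι) (y : ℝ) => gaussianPDFReal 0 v y),
      ENNReal.ofReal_prod_of_nonneg]
    · refine Finset.prod_congr rfl fun i _ => ?_
      rw [gaussianReal_apply_eq_integral 0 hv]
    · intro i _
      exact integral_nonneg fun y => gaussianPDFReal_nonneg 0 v y
  · exact Integrable.fintype_prod (f := fun (_ : ι) (y : ℝ) => gaussianPDFReal 0 v y)
      fun i => (integrable_gaussianPDFReal 0 v).restrict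
  · exact Filter.Eventually.of_forall fun x =>
      Finset.prod_nonneg fun i _ => gaussianPDFReal_nonneg 0 v (x i)

theorem BMA_hk_eq {ι : Type*} [Fintype ι] {v : ℝ≥0} (hv : v ≠ 0) (x : ι → ℝ) :
    hk (v : ℝ) (WithLp.toLp 2 x : EuclideanSpace ℝ ι) = ∏ i, gaussianPDFReal 0 v (x i) := by
  have hv' : (0 : ℝ) < v := by positivity
  have h2 : (0 : ℝ) < 2 * Real.pi * v := by positivity
  unfold hk
  simp only [gaussianPDFReal]
  rw [Finset.prod_mul_distrib, Finset.prod_const, ← Real.exp_sum, EuclideanSpace.norm_sq_eq,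
    finrank_euclideanSpace]
  congr 1
  · rw [Real.sqrt_eq_rpow, ← Real.rpow_neg h2.le, ← Real.rpow_natCast, ← Real.rpow_mul h2.le]
    congr 1
    rw [Finset.card_univ]
    ring
  · congr 1
    rw [← Finset.sum_neg_distrib, Finset.sum_div]
    refine Finset.sum_congr rfl fun i _ => ?_
    rw [Real.norm_eq_abs, sq_abs, sub_zero]

theorem BMA_gam_pi {ι : Type*} [Fintype ι] {v : ℝ≥0} (hv : v ≠ 0) :
    Measure.map (WithLp.toLp 2) (Measure.pi (fun _ : ι => gaussianReal 0 v)) =
      (gam (v : ℝ) : Measure (EuclideanSpace ℝ ι)) := by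
  have hm : Measurable (fun z : EuclideanSpace ℝ ι => ENNReal.ofReal (hk (v : ℝ) z)) :=
    (ENNReal.continuous_ofReal.comp (hk_cont _)).measurable
  ext S hS
  rw [Measure.map_apply (WithLp.measurable_toLp 2 _) hS, BMA_prod_dens hv,
    withDensity_apply _ ((WithLp.measurable_toLp 2 _) hS)]
  unfold gam
  rw [withDensity_apply _ hS, ← (PiLp.volume_preserving_toLp ι).setLIntegral_comp_preimage hS hm]
  refine lintegral_congr fun x => ?_
  rw [BMA_hk_eq hv]

theorem BMA_nndist (s τ : ℝ≥0) : nndist ((s + τ : ℝ≥0) : ℝ) (s : ℝ) = τ := by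
  apply NNReal.eq
  rw [coe_nndist, Real.dist_eq]
  push_cast
  rw [add_sub_cancel_left, NNReal.abs_eq]

theorem BMA_incr_real {X : ℝ≥0 → Ω → ℝ} (hX : IsBrownianReal X P) (s τ : ℝ≥0) :
    Measure.map (fun ω => X (s + τ) ω - X s ω) P = gaussianReal 0 τ := by
  have h := (hX.toIsPreBrownianReal.hasLaw_sub (s + τ) s).map_eq
  have e := BMA_nndist s τ
  rw [show (nndist (s + τ : ℝ≥0).1 s.1) = τ from e] at h
  exact h

/-- exchange of the two indices -/
theorem BMA_swap {ι κ : Type*} [Fintype ι] [Fintype κ] (ν : Measure ℝ) [IsProbabilityMeasure ν] :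
    Measure.map (fun (f : ι → κ → ℝ) (k : κ) (i : ι) => f i k)
      (Measure.pi fun _ : ι => Measure.pi fun _ : κ => ν) =
      Measure.pi (fun _ : κ => Measure.pi fun _ : ι => ν) := by
  symm
  have hmeas : Measurable (fun (f : ι → κ → ℝ) (k : κ) (i : ι) => f i k) := by
    refine measurable_pi_lambda _ fun k => measurable_pi_lambda _ fun i => ?_
    exact (measurable_pi_apply k).comp (measurable_pi_apply i)
  refine Measure.pi_eq_generateFrom
    (C := fun _ => Set.pi Set.univ '' Set.pi Set.univ fun _ => {s : Set ℝ | MeasurableSet s})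
    (fun _ => generateFrom_pi) (fun _ => isPiSystem_pi) (fun _ => ?_) ?_
  · refine ⟨fun _ => Set.univ, fun _ => ⟨fun _ => Set.univ, ?_, ?_⟩, fun _ => measure_lt_top _ _,
      Set.iUnion_const _⟩
    · intro i _
      show MeasurableSet (Set.univ : Set ℝ)
      exact MeasurableSet.univ
    · exact Set.pi_univ _
  · intro s hs
    choose T hT hTs using hs
    have hTm : ∀ k i, MeasurableSet (T k i) := fun k i => hT k i (Set.mem_univ i)
    have hsm : ∀ k, MeasurableSet (s k) := fun k => by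
      rw [← hTs k]
      exact MeasurableSet.univ_pi (hTm k)
    rw [Measure.map_apply hmeas (MeasurableSet.univ_pi hsm)]
    have e1 : (fun (f : ι → κ → ℝ) (k : κ) (i : ι) => f i k) ⁻¹' Set.univ.pi s =
        Set.univ.pi (fun i => Set.univ.pi (fun k => T k i)) := by
      ext f
      simp only [Set.mem_preimage, Set.mem_univ_pi, ← hTs]
      exact forall_comm
    rw [e1, Measure.pi_pi]
    simp only [← hTs, Measure.pi_pi]
    exact Finset.prod_comm

/-- one increment of the family has law `γ_τ` -/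
lemma incr_law (hW : BMfam W P) (s : ℝ≥0) {τ : ℝ≥0} (hτ : 0 < τ) :
    Measure.map (fun ω => pth W (s + τ) ω - pth W s ω) P = (gam (τ : ℝ) : Measure (XX n)) := by
  have h0 : iIndepFun (fun (p : Fin n × Fin 2) ω => W p (s + τ) ω - W p s ω) P :=
    hW.ind.comp (fun _ f => f (s + τ) - f s)
      fun _ => (measurable_pi_apply _).sub (measurable_pi_apply _)
  have hm : ∀ p : Fin n × Fin 2, AEMeasurable (fun ω => W p (s + τ) ω - W p s ω) P := fun p =>
    ((hW.bm p).toIsPreBrownianReal.aemeasurable _).sub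
      ((hW.bm p).toIsPreBrownianReal.aemeasurable _)
  have h1 := h0.map_fun_eq_pi_map hm
  have h2 : ∀ p : Fin n × Fin 2, Measure.map (fun ω => W p (s + τ) ω - W p s ω) P =
      gaussianReal 0 τ := fun p => BMA_incr_real (hW.bm p) s τ
  simp only [h2] at h1
  rw [← BMA_gam_pi hτ.ne', ← h1, AEMeasurable.map_map_of_aemeasurable
    (WithLp.measurable_toLp 2 _).aemeasurable (aemeasurable_pi_lambda _ hm)]
  rfl

/-- the increments over consecutive intervals of length `τ` are independent with law `γ_τ` -/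
theorem incr_joint (hW : BMfam W P) {τ : ℝ≥0} (hτ : 0 < τ) (m : ℕ) :
    Measure.map (fun ω (k : Fin m) => pth W (((k : ℕ) + 1 : ℝ≥0) * τ) ω - pth W ((k : ℕ) * τ) ω) P
      = Measure.pi (fun _ => (gam (τ : ℝ) : Measure (XX n))) := by
  haveI : IsProbabilityMeasure (gam (τ : ℝ) : Measure (XX n)) := gam_prob hτ
  have hm : ∀ (p : Fin n × Fin 2) (k : Fin m), AEMeasurable
      (fun ω => W p (((k : ℕ) + 1 : ℝ≥0) * τ) ω - W p ((k : ℕ) * τ) ω) P := fun p k =>
    ((hW.bm p).toIsPreBrownianReal.aemeasurable _).sub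
      ((hW.bm p).toIsPreBrownianReal.aemeasurable _)
  have hm' : ∀ p : Fin n × Fin 2, AEMeasurable
      (fun ω (k : Fin m) => W p (((k : ℕ) + 1 : ℝ≥0) * τ) ω - W p ((k : ℕ) * τ) ω) P := fun p =>
    aemeasurable_pi_lambda _ (hm p)
  have h0 : iIndepFun (fun (p : Fin n × Fin 2) ω (k : Fin m) =>
      W p (((k : ℕ) + 1 : ℝ≥0) * τ) ω - W p ((k : ℕ) * τ) ω) P :=
    hW.ind.comp (fun _ f (k : Fin m) => f (((k : ℕ) + 1 : ℝ≥0) * τ) - f ((k : ℕ) * τ))
      fun _ => measurable_pi_lambda _ fun k => (measurable_pi_apply _).sub (measurable_pi_apply _)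
  have h1 := h0.map_fun_eq_pi_map hm'
  have h2 : ∀ p : Fin n × Fin 2, Measure.map (fun ω (k : Fin m) =>
      W p (((k : ℕ) + 1 : ℝ≥0) * τ) ω - W p ((k : ℕ) * τ) ω) P =
      Measure.pi (fun _ : Fin m => gaussianReal 0 τ) := by
    intro p
    have h3 : iIndepFun (fun (k : Fin m) ω =>
        W p (((k : ℕ) + 1 : ℝ≥0) * τ) ω - W p ((k : ℕ) * τ) ω) P := by
      have h4 := (hW.bm p).toIsPreBrownianReal.hasIndepIncrements m
        (fun k : Fin (m + 1) => ((k : ℕ) : ℝ≥0) * τ) (by
          intro a b hab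
          exact mul_le_mul_left (by exact_mod_cast hab) _)
      have e : (fun (k : Fin m) ω =>
          W p (((k : ℕ) + 1 : ℝ≥0) * τ) ω - W p ((k : ℕ) * τ) ω) =
          (fun (k : Fin m) ω => W p (((k.succ : Fin (m + 1)) : ℕ) * τ) ω -
            W p (((k.castSucc : Fin (m + 1)) : ℕ) * τ) ω) := by
        funext k ω
        rw [Fin.val_succ, Fin.val_castSucc]
        push_cast
        rfl
      rw [e]
      exact h4
    rw [h3.map_fun_eq_pi_map (hm p)]
    congr 1
    funext k
    have e2 : (((k : ℕ) + 1 : ℝ≥0) * τ) = (k : ℕ) * τ + τ := by ring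
    simp only [e2]
    exact BMA_incr_real (hW.bm p) _ τ
  simp only [h2] at h1
  have h5 : Measure.map (fun ω (k : Fin m) (p : Fin n × Fin 2) =>
      W p (((k : ℕ) + 1 : ℝ≥0) * τ) ω - W p ((k : ℕ) * τ) ω) P =
      Measure.pi (fun _ : Fin m => Measure.pi fun _ : Fin n × Fin 2 => gaussianReal 0 τ) := by
    rw [← BMA_swap, ← h1, AEMeasurable.map_map_of_aemeasurable _ (aemeasurable_pi_lambda _ hm')]
    · rfl
    · refine (measurable_pi_lambda _ fun k => measurable_pi_lambda _ fun i => ?_).aemeasurable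
      exact (measurable_pi_apply k).comp (measurable_pi_apply i)
  have h6 : Measure.map (fun (g : Fin m → (Fin n × Fin 2 → ℝ)) (k : Fin m) =>
      (WithLp.toLp 2 (g k) : XX n))
      (Measure.pi (fun _ : Fin m => Measure.pi fun _ : Fin n × Fin 2 => gaussianReal 0 τ)) =
      Measure.pi (fun _ => (gam (τ : ℝ) : Measure (XX n))) := by
    haveI : ∀ _ : Fin m, SigmaFinite (Measure.map (WithLp.toLp 2)
        (Measure.pi fun _ : Fin n × Fin 2 => gaussianReal 0 τ)) := fun _ => by
      rw [BMA_gam_pi hτ.ne']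
      infer_instance
    rw [Measure.pi_map_pi (f := fun (_ : Fin m) (y : Fin n × Fin 2 → ℝ) =>
      (WithLp.toLp 2 y : XX n)) fun _ => (WithLp.measurable_toLp 2 _).aemeasurable]
    simp only [BMA_gam_pi hτ.ne']
  rw [← h6, ← h5, AEMeasurable.map_map_of_aemeasurable]
  · rfl
  · exact (measurable_pi_lambda _ fun k =>
      (WithLp.measurable_toLp 2 _).comp (measurable_pi_apply k)).aemeasurable
  · exact aemeasurable_pi_lambda _ fun k => aemeasurable_pi_lambda _ fun p => hm p k

theorem BMA_zero (hW : BMfam W P) : ∀ᵐ ω ∂P, pth W 0 ω = 0 := by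
  have h : ∀ᵐ ω ∂P, ∀ p : Fin n × Fin 2, W p 0 ω = 0 :=
    ae_all_iff.2 fun p => (hW.bm p).toIsPreBrownianReal.eval_zero_ae_eq_zero
  filter_upwards [h] with ω hω
  ext p
  exact hω p

theorem BMA_tele {F : Type*} [AddCommGroup F] (a : ℕ → F) (m : ℕ) :
    ∑ k : Fin m, (a ((k : ℕ) + 1) - a k) = a m - a 0 := by
  rw [Fin.sum_univ_eq_sum_range (fun k => a (k + 1) - a k) m, Finset.sum_range_sub]

theorem BMA_tele_le {F : Type*} [AddCommGroup F] (a : ℕ → F) (m : ℕ) (k : Fin m) :
    ∑ l ∈ Finset.univ.filter (fun l : Fin m => l ≤ k), (a ((l : ℕ) + 1) - a l) =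
      a ((k : ℕ) + 1) - a 0 := by
  rw [← Finset.sum_range_sub a ((k : ℕ) + 1)]
  refine Finset.sum_bij (fun l _ => (l : ℕ)) ?_ ?_ ?_ ?_
  · intro l hl
    rw [Finset.mem_filter] at hl
    rw [Finset.mem_range]
    have : (l : ℕ) ≤ (k : ℕ) := hl.2
    omega
  · intro l _ l' _ h
    exact Fin.ext h
  · intro b hb
    rw [Finset.mem_range] at hb
    have hk := k.2
    refine ⟨⟨b, by omega⟩, ?_, rfl⟩
    rw [Finset.mem_filter]
    refine ⟨Finset.mem_univ _, ?_⟩
    rw [Fin.le_def]
    show b ≤ (k : ℕ)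
    omega
  · intro l _
    rfl

/-- **discrete Feynman-Kac formula** -/
theorem fk_disc (hW : BMfam W P) {τ : ℝ≥0} (hτ : 0 < τ) {V : XX n → ℝ} (hV : Measurable V)
    {Ψ : XX n → ℝ≥0∞} (hΨ : Measurable Ψ) (m : ℕ) (x : XX n) :
    ∫⁻ ω, Ψ (x + pth W (m * τ) ω) *
        ∏ k ∈ Finset.range m, ENNReal.ofReal (Real.exp (τ * V (x + pth W ((k + 1) * τ) ω))) ∂P
      = (KT (τ : ℝ) V)^[m] Ψ x := by
  have hτ' : (0 : ℝ) < τ := hτ
  have hw : Measurable (fun y : XX n => ENNReal.ofReal (Real.exp (τ * V y))) :=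
    (Real.measurable_exp.comp (measurable_const.mul hV)).ennreal_ofReal
  rw [← iter_pi hτ' hV hΨ m x, ← incr_joint hW hτ m, lintegral_map']
  · refine lintegral_congr_ae ?_
    filter_upwards [BMA_zero hW] with ω hω
    have e1 : ∑ k : Fin m, (pth W (((k : ℕ) + 1 : ℝ≥0) * τ) ω - pth W ((k : ℕ) * τ) ω) =
        pth W (m * τ) ω := by
      have h := BMA_tele (fun k : ℕ => pth W ((k : ℝ≥0) * τ) ω) m
      simp only [Nat.cast_add, Nat.cast_one, Nat.cast_zero, zero_mul, hω, sub_zero] at h
      exact h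
    have e2 : ∀ k : Fin m, ∑ l ∈ Finset.univ.filter (fun l : Fin m => l ≤ k),
        (pth W (((l : ℕ) + 1 : ℝ≥0) * τ) ω - pth W ((l : ℕ) * τ) ω) =
        pth W (((k : ℕ) + 1 : ℝ≥0) * τ) ω := by
      intro k
      have h := BMA_tele_le (fun k : ℕ => pth W ((k : ℝ≥0) * τ) ω) m k
      simp only [Nat.cast_add, Nat.cast_one, Nat.cast_zero, zero_mul, hω, sub_zero] at h
      exact h
    simp only [e1, e2]
    rw [Finset.prod_range]
  · refine Measurable.aemeasurable ?_
    refine Measurable.mul (hΨ.comp ?_) ?_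
    · exact measurable_const.add (Finset.measurable_sum _ fun k _ => measurable_pi_apply k)
    · refine Finset.measurable_prod _ fun k _ => ?_
      refine hw.comp ?_
      exact measurable_const.add (Finset.measurable_sum _ fun k _ => measurable_pi_apply k)
  · exact aemeasurable_pi_lambda _ fun k =>
      (pth_aemeasurable hW _).sub (pth_aemeasurable hW _)

end SHF
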