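import Mathlib

/-!
# The critical 2d stochastic heat flow: mollifier, noise covariance, critical window
-/

open MeasureTheory Filter Topology ProbabilityTheory
open scoped ENNReal NNReal

namespace SHF

/-- the plane -/
abbrev R2 := EuclideanSpace ℝ (Fin 2)

/-- smooth compactly supported probability density -/
structure Moll (j : R2 → ℝ) : Prop where
  smooth : ContDiff ℝ (⊤ : ℕ∞) j
  supp : HasCompactSupport j
  nonneg : ∀ x, 0 ≤ j x
  mass : ∫ x, j x = 1

/-- the mollifier at scale `ε` -/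
noncomputable def je (j : R2 → ℝ) (ε : ℝ) (x : R2) : ℝ := (ε ^ 2)⁻¹ * j (ε⁻¹ • x)

/-- spatial covariance of the mollified noise `ξ * j_ε` -/
noncomputable def Re (j : R2 → ℝ) (ε : ℝ) (z : R2) : ℝ := ∫ y, je j ε (z + y) * je j ε y

/-- the critical window `β_ε² = (2π / log(1/ε)) (1 + (θ + o(1)) / log(1/ε))` -/
def CritWin (θ : ℝ) (bsq : ℝ → ℝ) : Prop :=
  Tendsto (fun ε => (bsq ε * Real.log (1 / ε) / (2 * Real.pi) - 1) * Real.log (1 / ε))
    (𝓝[>] 0) (𝓝 θ)

end SHF
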