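import Pool.Agent.W_03a799_h55.LIn

/-! The functional `cI`. -/

open MeasureTheory Filter Topology ProbabilityTheory
open scoped ENNReal NNReal

namespace SHF

/-- the Gaussian weight of `cI` -/
noncomputable def CIaW (t1 : ℝ) (y : R2) : ℝ≥0∞ :=
  ENNReal.ofReal (1 / (2 * Real.pi * t1) * Real.exp (-‖y‖ ^ 2 / t1))

lemma CIa_meas (t1 : ℝ) : Measurable (CIaW t1) := by
  unfold CIaW
  fun_prop

lemma CIa_pos {t1 : ℝ} (ht : 0 < t1) (y : R2) : 0 < CIaW t1 y := by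
  unfold CIaW
  have := Real.pi_pos
  have h := Real.exp_pos (-‖y‖ ^ 2 / t1)
  exact ENNReal.ofReal_pos.2 (by positivity)

lemma CIa_eq {t1 : ℝ} (ht : 0 < t1) (y : R2) :
    1 / (2 * Real.pi * t1) * Real.exp (-‖y‖ ^ 2 / t1) = 1 / 2 * hk (t1 / 2) y := by
  have hpi := Real.pi_pos
  unfold hk
  have h1 : (Module.finrank ℝ R2 : ℝ) = 2 := by simp
  have h2 : (2 * Real.pi * (t1 / 2)) ^ (-(Module.finrank ℝ R2 : ℝ) / 2) =
      (Real.pi * t1)⁻¹ := by
    rw [h1, show -(2 : ℝ) / 2 = -1 by norm_num, Real.rpow_neg_one]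
    congr 1
    ring
  have h3 : -‖y‖ ^ 2 / (2 * (t1 / 2)) = -‖y‖ ^ 2 / t1 := by
    congr 1
    ring
  rw [h2, h3]
  field_simp

lemma CIa_sq {t1 : ℝ} (ht : 0 < t1) : ∫⁻ y, (CIaW t1 y) ^ 2 < ∞ := by
  have hpi := Real.pi_pos
  set c : ℝ := 1 / (2 * Real.pi * t1) with hc
  have hc0 : 0 < c := by positivity
  have hle : ∀ y, (CIaW t1 y) ^ 2 ≤ ENNReal.ofReal c * ENNReal.ofReal (hk (t1 / 2) y) := by
    intro y
    have h0 : 0 < hk (t1 / 2) y := hk_pos (by positivity) y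
    have h1 : CIaW t1 y ≤ ENNReal.ofReal c := by
      unfold CIaW
      refine ENNReal.ofReal_le_ofReal ?_
      have : Real.exp (-‖y‖ ^ 2 / t1) ≤ 1 := by
        refine Real.exp_le_one_iff.2 ?_
        rw [neg_div]
        have : 0 ≤ ‖y‖ ^ 2 / t1 := by positivity
        linarith
      calc c * Real.exp (-‖y‖ ^ 2 / t1) ≤ c * 1 := by gcongr
        _ = c := mul_one _
    have h2 : CIaW t1 y ≤ ENNReal.ofReal (hk (t1 / 2) y) := by
      unfold CIaW
      rw [CIa_eq ht]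
      exact ENNReal.ofReal_le_ofReal (by linarith)
    rw [sq]
    gcongr
  calc ∫⁻ y, (CIaW t1 y) ^ 2
      ≤ ∫⁻ y, ENNReal.ofReal c * ENNReal.ofReal (hk (t1 / 2) y) := lintegral_mono hle
    _ = ENNReal.ofReal c * ∫⁻ y : R2, ENNReal.ofReal (hk (t1 / 2) y) :=
        lintegral_const_mul' _ _ ENNReal.ofReal_ne_top
    _ = ENNReal.ofReal c := by rw [hk_lint (by positivity), mul_one]
    _ < ∞ := ENNReal.ofReal_lt_top

lemma CIa_holder (t1 : ℝ) {g : R2 → ℝ≥0∞} (hg : Measurable g) :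
    ∫⁻ y, CIaW t1 y * g y ≤
      (∫⁻ y, (CIaW t1 y) ^ 2) ^ ((1 : ℝ) / 2) * (∫⁻ y, (g y) ^ 2) ^ ((1 : ℝ) / 2) := by
  have h := ENNReal.lintegral_mul_le_Lp_mul_Lq (volume : Measure R2)
    Real.HolderConjugate.two_two (CIa_meas t1).aemeasurable hg.aemeasurable
  simpa only [Pi.mul_apply, ENNReal.rpow_two] using h

lemma cI_pos {t1 : ℝ} (ht : 0 < t1) {f : R2 → ℝ} (hf : Measurable f) (hf0 : ∀ x, 0 ≤ f x)
    (hne : ¬ f =ᵐ[volume] 0) : 0 < cI t1 f := by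
  rw [pos_iff_ne_zero]
  intro h0
  have hm : Measurable (fun y => CIaW t1 y * ENNReal.ofReal (f y)) :=
    (CIa_meas t1).mul (ENNReal.measurable_ofReal.comp hf)
  have h1 : ∫⁻ y, CIaW t1 y * ENNReal.ofReal (f y) = 0 := h0
  rw [lintegral_eq_zero_iff hm] at h1
  apply hne
  filter_upwards [h1] with y hy
  have hy' : CIaW t1 y * ENNReal.ofReal (f y) = 0 := hy
  rcases mul_eq_zero.1 hy' with h | h
  · exact absurd h (CIa_pos ht y).ne'
  · exact le_antisymm (ENNReal.ofReal_eq_zero.1 h) (hf0 y)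

lemma cI_lt_top {t1 : ℝ} (ht : 0 < t1) {f : R2 → ℝ} (hf : Measurable f)
    (hf2 : ∫⁻ x, (ENNReal.ofReal (f x)) ^ 2 < ∞) : cI t1 f < ∞ := by
  refine (CIa_holder t1 (ENNReal.measurable_ofReal.comp hf)).trans_lt ?_
  exact ENNReal.mul_lt_top (ENNReal.rpow_lt_top_of_nonneg (by norm_num) (CIa_sq ht).ne)
    (ENNReal.rpow_lt_top_of_nonneg (by norm_num) hf2.ne)

/-- `|cI f_k - cI f| ≤ C ‖f_k - f‖₂` -/
lemma cI_tendsto {t1 : ℝ} (ht : 0 < t1) {f : R2 → ℝ} (hf : Measurable f) (hf0 : ∀ x, 0 ≤ f x)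
    (hf2 : ∫⁻ x, (ENNReal.ofReal (f x)) ^ 2 < ∞) {fk : ℕ → R2 → ℝ}
    (hfk : ∀ k, Measurable (fk k)) (hfk0 : ∀ k x, 0 ≤ fk k x)
    (hfl : Tendsto (fun k => ∫⁻ x, (ENNReal.ofReal |fk k x - f x|) ^ 2) atTop (𝓝 0)) :
    Tendsto (fun k => cI t1 (fk k)) atTop (𝓝 (cI t1 f)) := by
  set D : ℕ → ℝ≥0∞ := fun k => ∫⁻ y, CIaW t1 y * ENNReal.ofReal |fk k y - f y| with hD
  have hDm : ∀ k, Measurable (fun y => ENNReal.ofReal |fk k y - f y|) := fun k =>
    ENNReal.measurable_ofReal.comp (((hfk k).sub hf).abs)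
  have hD0 : Tendsto D atTop (𝓝 0) := by
    have h1 : Tendsto (fun k => (∫⁻ y, (CIaW t1 y) ^ 2) ^ ((1 : ℝ) / 2) *
        (∫⁻ y, (ENNReal.ofReal |fk k y - f y|) ^ 2) ^ ((1 : ℝ) / 2)) atTop (𝓝 0) := by
      have h2 : Tendsto (fun k => (∫⁻ y, (ENNReal.ofReal |fk k y - f y|) ^ 2) ^ ((1 : ℝ) / 2))
          atTop (𝓝 (0 ^ ((1 : ℝ) / 2))) := hfl.ennrpow_const _
      rw [ENNReal.zero_rpow_of_pos (by norm_num)] at h2
      have h3 := ENNReal.Tendsto.const_mul (a := (∫⁻ y, (CIaW t1 y) ^ 2) ^ ((1 : ℝ) / 2)) h2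
        (Or.inr (ENNReal.rpow_lt_top_of_nonneg (by norm_num) (CIa_sq ht).ne).ne)
      rwa [mul_zero] at h3
    exact tendsto_of_tendsto_of_tendsto_of_le_of_le tendsto_const_nhds h1 (fun k => zero_le)
      (fun k => CIa_holder t1 (hDm k))
  have hu : ∀ k, cI t1 (fk k) ≤ cI t1 f + D k := by
    intro k
    have hm : Measurable (fun y => CIaW t1 y * ENNReal.ofReal (f y)) :=
      (CIa_meas t1).mul (ENNReal.measurable_ofReal.comp hf)
    calc cI t1 (fk k) = ∫⁻ y, CIaW t1 y * ENNReal.ofReal (fk k y) := rfl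
      _ ≤ ∫⁻ y, (CIaW t1 y * ENNReal.ofReal (f y) +
          CIaW t1 y * ENNReal.ofReal |fk k y - f y|) := by
        refine lintegral_mono fun y => ?_
        rw [← mul_add, ← ENNReal.ofReal_add (hf0 y) (abs_nonneg _)]
        gcongr
        linarith [le_abs_self (fk k y - f y)]
      _ = cI t1 f + D k := lintegral_add_left hm _
  have hl : ∀ k, cI t1 f - D k ≤ cI t1 (fk k) := by
    intro k
    rw [tsub_le_iff_right]
    have hm : Measurable (fun y => CIaW t1 y * ENNReal.ofReal (fk k y)) :=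
      (CIa_meas t1).mul (ENNReal.measurable_ofReal.comp (hfk k))
    calc cI t1 f = ∫⁻ y, CIaW t1 y * ENNReal.ofReal (f y) := rfl
      _ ≤ ∫⁻ y, (CIaW t1 y * ENNReal.ofReal (fk k y) +
          CIaW t1 y * ENNReal.ofReal |fk k y - f y|) := by
        refine lintegral_mono fun y => ?_
        rw [← mul_add, ← ENNReal.ofReal_add (hfk0 k y) (abs_nonneg _)]
        gcongr
        linarith [neg_abs_le (fk k y - f y)]
      _ = cI t1 (fk k) + D k := lintegral_add_left hm _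
  have hfin : cI t1 f ≠ ∞ := by
    refine ((CIa_holder t1 (ENNReal.measurable_ofReal.comp hf)).trans_lt ?_).ne
    exact ENNReal.mul_lt_top (ENNReal.rpow_lt_top_of_nonneg (by norm_num) (CIa_sq ht).ne)
      (ENNReal.rpow_lt_top_of_nonneg (by norm_num) hf2.ne)
  have hU : Tendsto (fun k => cI t1 f + D k) atTop (𝓝 (cI t1 f)) := by
    have := tendsto_const_nhds (x := cI t1 f).add hD0
    rwa [add_zero] at this
  have hL : Tendsto (fun k => cI t1 f - D k) atTop (𝓝 (cI t1 f)) := by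
    have := ENNReal.Tendsto.sub (tendsto_const_nhds (x := cI t1 f)) hD0 (Or.inl hfin)
    rwa [tsub_zero] at this
  exact tendsto_of_tendsto_of_tendsto_of_le_of_le hL hU hl hu

end SHF
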