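import Pool.Agent.W_03a799_h55.Defs

/-! The logarithmic integral. -/

open MeasureTheory Filter Topology
open scoped ENNReal

namespace SHF

lemma DD_aux1 {K lam : ℝ} (hl : 0 < lam) :
    ∫ y in (0 : ℝ)..K, y * (4 * Real.pi ^ 2 * y ^ 2 + lam)⁻¹
      = 1 / (8 * Real.pi ^ 2) * Real.log (1 + 4 * Real.pi ^ 2 * K ^ 2 / lam) := by
  have hpi : 0 < Real.pi := Real.pi_pos
  have hpos : ∀ y : ℝ, 0 < 4 * Real.pi ^ 2 * y ^ 2 + lam := fun y => by positivity
  have hd : ∀ y ∈ Set.uIcc 0 K, HasDerivAt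
      (fun y => 1 / (8 * Real.pi ^ 2) * Real.log (4 * Real.pi ^ 2 * y ^ 2 + lam))
      (y * (4 * Real.pi ^ 2 * y ^ 2 + lam)⁻¹) y := by
    intro y _
    have h1 : HasDerivAt (fun y : ℝ => 4 * Real.pi ^ 2 * y ^ 2 + lam)
        (4 * Real.pi ^ 2 * (2 * y)) y := by
      have := ((hasDerivAt_pow 2 y).const_mul (4 * Real.pi ^ 2)).add_const lam
      simpa using this
    have h2 := (h1.log (hpos y).ne').const_mul (1 / (8 * Real.pi ^ 2))
    have h4 : y * (4 * Real.pi ^ 2 * y ^ 2 + lam)⁻¹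
        = 1 / (8 * Real.pi ^ 2) * (4 * Real.pi ^ 2 * (2 * y) / (4 * Real.pi ^ 2 * y ^ 2 + lam)) := by
      rw [div_eq_mul_inv (4 * Real.pi ^ 2 * (2 * y)), ← mul_assoc]
      congr 1
      field_simp
      ring
    rw [h4]
    exact h2
  have hc : Continuous fun y : ℝ => y * (4 * Real.pi ^ 2 * y ^ 2 + lam)⁻¹ := by
    refine continuous_id.mul (Continuous.inv₀ (by fun_prop) fun y => (hpos y).ne')
  rw [intervalIntegral.integral_eq_sub_of_hasDerivAt hd (hc.intervalIntegrable _ _)]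
  have h3 : 1 + 4 * Real.pi ^ 2 * K ^ 2 / lam = (4 * Real.pi ^ 2 * K ^ 2 + lam) / lam := by
    field_simp
    ring
  rw [h3, Real.log_div (hpos K).ne' hl.ne']
  simp
  ring

/-- `∫_{|l| < K} dl / (4π²|l|² + λ) = (1/4π) log (1 + 4π²K²/λ)` (only `≤` is needed) -/
lemma log_int {K lam : ℝ} (hK : 0 < K) (hl : 0 < lam) :
    ∫⁻ l in Metric.ball (0 : R2) K, ENNReal.ofReal (4 * Real.pi ^ 2 * ‖l‖ ^ 2 + lam)⁻¹
      ≤ ENNReal.ofReal (1 / (4 * Real.pi) * Real.log (1 + 4 * Real.pi ^ 2 * K ^ 2 / lam)) := by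
  have hpi : 0 < Real.pi := Real.pi_pos
  have hpos : ∀ y : ℝ, 0 < 4 * Real.pi ^ 2 * y ^ 2 + lam := fun y => by positivity
  have hcont : Continuous fun l : R2 => (4 * Real.pi ^ 2 * ‖l‖ ^ 2 + lam)⁻¹ :=
    Continuous.inv₀ (by fun_prop) fun l => (hpos _).ne'
  have hint : IntegrableOn (fun l : R2 => (4 * Real.pi ^ 2 * ‖l‖ ^ 2 + lam)⁻¹)
      (Metric.ball (0 : R2) K) :=
    (hcont.continuousOn.integrableOn_compact (isCompact_closedBall (0 : R2) K)).mono_set
      Metric.ball_subset_closedBall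
  rw [← ofReal_integral_eq_lintegral_ofReal hint
    (Filter.Eventually.of_forall fun l => (inv_pos.2 (hpos _)).le)]
  refine ENNReal.ofReal_le_ofReal (le_of_eq ?_)
  have h1 : ∫ l in Metric.ball (0 : R2) K, (4 * Real.pi ^ 2 * ‖l‖ ^ 2 + lam)⁻¹
      = ∫ l : R2, (Set.Iio K).indicator
          (fun y : ℝ => (4 * Real.pi ^ 2 * y ^ 2 + lam)⁻¹) ‖l‖ := by
    rw [← integral_indicator measurableSet_ball]
    congr 1
    ext l
    by_cases h : ‖l‖ < K
    · rw [Set.indicator_of_mem (by simpa using h), Set.indicator_of_mem (by simpa using h)]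
    · rw [Set.indicator_of_notMem (by simpa using h), Set.indicator_of_notMem (by simpa using h)]
  rw [h1, integral_fun_norm_addHaar]
  have h2 : (volume : Measure R2).real (Metric.ball 0 1) = Real.pi := by
    rw [Measure.real, EuclideanSpace.volume_ball_fin_two]
    simp [hpi.le]
  rw [h2, finrank_euclideanSpace_fin]
  have h3 : ∫ y in Set.Ioi (0 : ℝ), y ^ (2 - 1) • (Set.Iio K).indicator
          (fun y : ℝ => (4 * Real.pi ^ 2 * y ^ 2 + lam)⁻¹) y
      = ∫ y in (0 : ℝ)..K, y * (4 * Real.pi ^ 2 * y ^ 2 + lam)⁻¹ := by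
    rw [intervalIntegral.integral_of_le hK.le, integral_Ioc_eq_integral_Ioo,
      ← integral_indicator measurableSet_Ioi, ← integral_indicator measurableSet_Ioo]
    congr 1
    ext y
    by_cases h : 0 < y
    · by_cases h' : y < K
      · rw [Set.indicator_of_mem (by simpa using h), Set.indicator_of_mem (by simpa using h'),
          Set.indicator_of_mem (by simpa using And.intro h h')]
        simp
      · rw [Set.indicator_of_mem (by simpa using h), Set.indicator_of_notMem (by simpa using h'),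
          Set.indicator_of_notMem (by simp only [Set.mem_Ioo, not_and]; exact fun _ => h')]
        simp
    · rw [Set.indicator_of_notMem (by simpa using h),
          Set.indicator_of_notMem (by simp only [Set.mem_Ioo, not_and]; exact fun h'' => absurd h'' h)]
  rw [h3, DD_aux1 hl]
  simp only [nsmul_eq_mul, smul_eq_mul]
  field_simp
  push_cast
  ring

/-- the constant `D` -/
noncomputable def Dc (K lam I : ℝ) : ℝ :=
  1 / (4 * Real.pi) * Real.log (1 + 4 * Real.pi ^ 2 * K ^ 2 / lam) + I / (4 * Real.pi ^ 2 * K ^ 2)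

theorem DD_le {ρ : R2 → ℝ} (hm : Measurable ρ) (h0 : ∀ k, 0 ≤ ρ k) (h1 : ∀ k, ρ k ≤ 1)
    {I K lam : ℝ} (hI0 : 0 ≤ I) (hI : ∫⁻ k, ENNReal.ofReal (ρ k) ≤ ENNReal.ofReal I)
    (hK : 0 < K) (hl : 0 < lam) (q : R2) :
    ∫⁻ l : R2, ENNReal.ofReal (ρ (q - l)) * ENNReal.ofReal (4 * Real.pi ^ 2 * ‖l‖ ^ 2 + lam)⁻¹
      ≤ ENNReal.ofReal (Dc K lam I) := by
  have hpi : 0 < Real.pi := Real.pi_pos
  have hpos : ∀ y : ℝ, 0 < 4 * Real.pi ^ 2 * y ^ 2 + lam := fun y => by positivity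
  rw [← lintegral_add_compl _ (measurableSet_ball (x := (0 : R2)) (ε := K)), Dc,
    ENNReal.ofReal_add _ (by positivity)]
  · refine add_le_add ?_ ?_
    · refine le_trans (lintegral_mono fun l => ?_) (log_int hK hl)
      refine le_trans (mul_le_mul_left (ENNReal.ofReal_le_one.2 (h1 (q - l))) _) ?_
      rw [one_mul]
    · have h2 : ∀ l ∈ (Metric.ball (0 : R2) K)ᶜ,
          ENNReal.ofReal (ρ (q - l)) * ENNReal.ofReal (4 * Real.pi ^ 2 * ‖l‖ ^ 2 + lam)⁻¹
            ≤ ENNReal.ofReal (ρ (q - l)) * ENNReal.ofReal (4 * Real.pi ^ 2 * K ^ 2)⁻¹ := by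
        intro l hl'
        have h3 : K ≤ ‖l‖ := by simpa using hl'
        gcongr
        have : K ^ 2 ≤ ‖l‖ ^ 2 := by gcongr
        nlinarith [mul_le_mul_of_nonneg_left this (by positivity : 0 ≤ 4 * Real.pi ^ 2)]
      calc ∫⁻ l in (Metric.ball (0 : R2) K)ᶜ,
            ENNReal.ofReal (ρ (q - l)) * ENNReal.ofReal (4 * Real.pi ^ 2 * ‖l‖ ^ 2 + lam)⁻¹
          ≤ ∫⁻ l in (Metric.ball (0 : R2) K)ᶜ,
            ENNReal.ofReal (ρ (q - l)) * ENNReal.ofReal (4 * Real.pi ^ 2 * K ^ 2)⁻¹ :=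
            setLIntegral_mono' measurableSet_ball.compl h2
        _ ≤ ∫⁻ l : R2, ENNReal.ofReal (ρ (q - l)) * ENNReal.ofReal (4 * Real.pi ^ 2 * K ^ 2)⁻¹ :=
            setLIntegral_le_lintegral _ _
        _ = (∫⁻ l : R2, ENNReal.ofReal (ρ (q - l))) * ENNReal.ofReal (4 * Real.pi ^ 2 * K ^ 2)⁻¹ :=
            lintegral_mul_const _ (by fun_prop)
        _ = (∫⁻ l : R2, ENNReal.ofReal (ρ l)) * ENNReal.ofReal (4 * Real.pi ^ 2 * K ^ 2)⁻¹ := by
            rw [lintegral_sub_left_eq_self (fun l => ENNReal.ofReal (ρ l)) q]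
        _ ≤ ENNReal.ofReal I * ENNReal.ofReal (4 * Real.pi ^ 2 * K ^ 2)⁻¹ := by gcongr
        _ = ENNReal.ofReal (I / (4 * Real.pi ^ 2 * K ^ 2)) := by
            rw [← ENNReal.ofReal_mul hI0, div_eq_mul_inv]
  · refine mul_nonneg (by positivity) (Real.log_nonneg ?_)
    have : 0 ≤ 4 * Real.pi ^ 2 * K ^ 2 / lam := by positivity
    linarith

end SHF
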