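import Pool.Agent.W_03a799_h55.Base

/-!
# Moments of the critical 2d stochastic heat flow: basic definitions

`n` Brownian particles in the plane; configuration space `XX n`.  Everything that is
nonnegative is `ℝ≥0∞`-valued (lower Lebesgue integrals), so no integrability is needed.
-/

open MeasureTheory Filter Topology ProbabilityTheory
open scoped ENNReal NNReal FourierTransform

namespace SHF

/-- configurations of `n` points of the plane -/
abbrev XX (n : ℕ) := EuclideanSpace ℝ (Fin n × Fin 2)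

variable {n : ℕ}

/-- the `i`-th point of a configuration -/
noncomputable def pt (x : XX n) (i : Fin n) : R2 := WithLp.toLp 2 (fun a => x (i, a))

/-- the pairs `i < j` -/
def prs (n : ℕ) : Finset (Fin n × Fin n) := Finset.univ.filter (fun p => p.1 < p.2)

/-- `es p k`: the configuration with `k` at place `p.1` and `-k` at place `p.2` -/
noncomputable def es (p : Fin n × Fin n) (k : R2) : XX n :=
  WithLp.toLp 2 (fun q => if q.1 = p.1 then k q.2 else if q.1 = p.2 then -k q.2 else 0)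

/-- `x_i - x_j` -/
noncomputable def df (p : Fin n × Fin n) (x : XX n) : R2 := pt x p.1 - pt x p.2

/-- `(x_i - x_j) / 2` -/
noncomputable def qq (p : Fin n × Fin n) (x : XX n) : R2 := (1 / 2 : ℝ) • df p x

/-- the pair potential `b ∑_{i<j} R (x_i - x_j)` -/
noncomputable def VV (b : ℝ) (R : R2 → ℝ) (x : XX n) : ℝ := b * ∑ p ∈ prs n, R (df p x)

/-- Gaussian density with covariance `s` times the identity -/
noncomputable def hk {E : Type*} [NormedAddCommGroup E] [InnerProductSpace ℝ E]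
    (s : ℝ) (x : E) : ℝ :=
  (2 * Real.pi * s) ^ (-(Module.finrank ℝ E : ℝ) / 2) * Real.exp (-‖x‖ ^ 2 / (2 * s))

/-- heat operator -/
noncomputable def PE {E : Type*} [NormedAddCommGroup E] [InnerProductSpace ℝ E]
    [FiniteDimensional ℝ E] [MeasurableSpace E] [BorelSpace E]
    (s : ℝ) (g : E → ℝ≥0∞) (x : E) : ℝ≥0∞ :=
  ∫⁻ y, ENNReal.ofReal (hk s (x - y)) * g y

/-- one Trotter step: multiply by `exp (τ V)`, then heat operator at time `τ` -/
noncomputable def KT {E : Type*} [NormedAddCommGroup E] [InnerProductSpace ℝ E]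
    [FiniteDimensional ℝ E] [MeasurableSpace E] [BorelSpace E]
    (τ : ℝ) (V : E → ℝ) (g : E → ℝ≥0∞) : E → ℝ≥0∞ :=
  PE τ (fun y => ENNReal.ofReal (Real.exp (τ * V y)) * g y)

/-- Fourier transform of `Re j ε` -/
noncomputable def rh (j : R2 → ℝ) (ε : ℝ) (k : R2) : ℝ :=
  ‖𝓕 (fun x => (j x : ℂ)) (ε • k)‖ ^ 2

/-- the point of `XX n` reached by the Brownian family at time `s` -/
noncomputable def pth {Ω : Type*} (W : Fin n × Fin 2 → ℝ≥0 → Ω → ℝ) (s : ℝ≥0) (ω : Ω) : XX n :=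
  WithLp.toLp 2 (fun p => W p s ω)

/-- `n` independent planar Brownian motions (`2n` independent real ones) -/
structure BMfam {Ω : Type*} [MeasurableSpace Ω] (W : Fin n × Fin 2 → ℝ≥0 → Ω → ℝ)
    (P : Measure Ω) : Prop where
  bm : ∀ p, IsBrownianReal (W p) P
  ind : iIndepFun (fun p ω (s : ℝ≥0) => W p s ω) P

/-- tensor power `∏ φ(x_i)` -/
noncomputable def tens (φ : R2 → ℝ) (x : XX n) : ℝ≥0∞ := ∏ i, ENNReal.ofReal (φ (pt x i))

/-- Feynman-Kac expression of the `n`-th moment -/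
noncomputable def Mom {Ω : Type*} [MeasurableSpace Ω] (W : Fin n × Fin 2 → ℝ≥0 → Ω → ℝ)
    (P : Measure Ω) (b : ℝ) (R : R2 → ℝ) (t : ℝ≥0) (φ ψ : R2 → ℝ) : ℝ≥0∞ :=
  ∫⁻ x : XX n, tens φ x * ∫⁻ ω, tens ψ (x + pth W t ω) *
    ENNReal.ofReal (Real.exp (∫ s in (0 : ℝ)..t, VV b R (x + pth W s.toNNReal ω))) ∂P

/-! ### momentum space weights -/

/-- `s = ‖x‖² + m` -/
noncomputable def ss (m : ℝ) (x : XX n) : ℝ := ‖x‖ ^ 2 + m

/-- `s_σ = s - |x_i - x_j|² / 2` -/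
noncomputable def sg (m : ℝ) (p : Fin n × Fin n) (x : XX n) : ℝ := ss m x - ‖df p x‖ ^ 2 / 2

/-- `u_k = (|x_k|² + s/n)^{3/4}` -/
noncomputable def uu (m : ℝ) (x : XX n) (k : Fin n) : ℝ :=
  (‖pt x k‖ ^ 2 + ss m x / n) ^ ((3 : ℝ) / 4)

/-- `a_σ = s_σ^{1/2} / (u_i u_j)` -/
noncomputable def aa (m : ℝ) (p : Fin n × Fin n) (x : XX n) : ℝ :=
  Real.sqrt (sg m p x) / (uu m x p.1 * uu m x p.2)

/-- `∑_{ν ≠ σ} a_σ / (a_ν s)` -/
noncomputable def WW (m : ℝ) (p : Fin n × Fin n) (x : XX n) : ℝ :=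
  ∑ q ∈ (prs n).erase p, aa m p x / (aa m q x * ss m x)

/-- the majorant of one particle -/
noncomputable def Gf (n : ℕ) (κ y : ℝ) : ℝ :=
  2 * Real.sqrt (n * κ) * (y + κ / n) ^ (-(3 : ℝ) / 2)
    + 16 * κ * y ^ (-(1 : ℝ) / 2) * (y + κ / n) ^ (-(3 : ℝ) / 2)

/-! ### positive definite kernels -/

/-- bilinear form of the kernel `ρ(k - k')` -/
noncomputable def Bf (ρ : R2 → ℝ) (g h : R2 → ℝ≥0∞) : ℝ≥0∞ :=
  ∫⁻ k, ∫⁻ l, ENNReal.ofReal (ρ (k - l)) * g k * h l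

/-- what is used of `ρ` = Fourier transform of `R_ε` -/
structure PD (ρ : R2 → ℝ) : Prop where
  meas : Measurable ρ
  nonneg : ∀ k, 0 ≤ ρ k
  le_one : ∀ k, ρ k ≤ 1
  even : ∀ k, ρ (-k) = ρ k
  int : ∫⁻ k, ENNReal.ofReal (ρ k) < ∞
  cs : ∀ g h : R2 → ℝ≥0∞, Measurable g → Measurable h →
    (Bf ρ g h) ^ 2 ≤ Bf ρ g g * Bf ρ h h
  cs0 : ∀ g : R2 → ℝ≥0∞, Measurable g → ∀ q : R2,
    (∫⁻ k, ENNReal.ofReal (ρ (q - k)) * g k) ^ 2 ≤ Bf ρ g g

/-- `ζ_σ f (x) = ∫ ρ(k) f(x - D_σ k) dk` -/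
noncomputable def zt (ρ : R2 → ℝ) (p : Fin n × Fin n) (f : XX n → ℝ≥0∞) (x : XX n) : ℝ≥0∞ :=
  ∫⁻ k, ENNReal.ofReal (ρ k) * f (x - es p k)

/-- `F_σ² (x)`: the form of `ρ` on the fibre of `x` -/
noncomputable def FF (ρ : R2 → ℝ) (p : Fin n × Fin n) (f : XX n → ℝ≥0∞) (x : XX n) : ℝ≥0∞ :=
  Bf ρ (fun k => f (x + es p k)) (fun k => f (x + es p k))

end SHF
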