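import Pool.Agent.W_03a799_h55.Geo

/-! Fibres of `es p`: Fubini and translation invariance. -/

open MeasureTheory Filter Topology
open scoped ENNReal

namespace SHF

variable {n : ℕ}

/-- `∫ Ξ = ∫ θ(q(x)) ∫ Ξ(x + es p k) dk dx` : insert `1 = ∫ θ(q(x) + k) dk`, swap, translate -/
theorem window {θ : R2 → ℝ≥0∞} (hθm : Measurable θ) (hθ : ∫⁻ k, θ k = 1)
    {p : Fin n × Fin n} (hp : p.1 ≠ p.2) {Ξ : XX n → ℝ≥0∞} (hΞ : Measurable Ξ) :
    ∫⁻ x, Ξ x = ∫⁻ x, θ (qq p x) * ∫⁻ k, Ξ (x + es p k) := by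
  have hm1 : Measurable fun z : XX n × R2 => θ (qq p z.1) * Ξ (z.1 + es p z.2) :=
    (hθm.comp ((continuous_qq p).measurable.comp measurable_fst)).mul
      (hΞ.comp (measurable_add_es p))
  have hm2 : Measurable fun z : XX n × R2 => θ (qq p z.1 - z.2) * Ξ z.1 :=
    (hθm.comp (((continuous_qq p).measurable.comp measurable_fst).sub measurable_snd)).mul
      (hΞ.comp measurable_fst)
  have h1 : ∫⁻ x : XX n, θ (qq p x) * ∫⁻ k, Ξ (x + es p k) =
      ∫⁻ x : XX n, ∫⁻ k, θ (qq p x) * Ξ (x + es p k) := by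
    refine lintegral_congr fun x => ?_
    rw [lintegral_const_mul]
    exact hΞ.comp ((measurable_add_es p).comp measurable_prodMk_left)
  rw [h1, lintegral_lintegral_swap hm1.aemeasurable]
  have h2 : ∀ k : R2, ∫⁻ x : XX n, θ (qq p x) * Ξ (x + es p k) =
      ∫⁻ x : XX n, θ (qq p x - k) * Ξ x := by
    intro k
    have h3 := lintegral_add_right_eq_self (μ := (volume : Measure (XX n)))
      (fun x : XX n => θ (qq p x - k) * Ξ x) (es p k)
    rw [← h3]
    refine lintegral_congr fun x => ?_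
    rw [qq_add_es hp, add_sub_cancel_right]
  simp only [h2]
  rw [← lintegral_lintegral_swap (f := fun (x : XX n) (k : R2) => θ (qq p x - k) * Ξ x)
    hm2.aemeasurable]
  refine lintegral_congr fun x => ?_
  have hm3 : Measurable fun k : R2 => θ (qq p x - k) :=
    hθm.comp (measurable_const.sub measurable_id)
  rw [lintegral_mul_const _ hm3]
  have h4 := lintegral_sub_left_eq_self (μ := (volume : Measure R2)) θ (qq p x)
  rw [h4, hθ, one_mul]

theorem window_le {θ : R2 → ℝ≥0∞} (hθm : Measurable θ) (hθ : ∫⁻ k, θ k = 1)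
    {p : Fin n × Fin n} (hp : p.1 ≠ p.2) {w G : XX n → ℝ≥0∞} (hw : Measurable w)
    (hG : Measurable G) (hinv : ∀ x k, G (x + es p k) = G x) {C : ℝ≥0∞}
    (hC : ∀ x, ∫⁻ k, w (x + es p k) ≤ C) :
    ∫⁻ x, w x * G x ≤ C * ∫⁻ x, θ (qq p x) * G x := by
  have hwin := window hθm hθ hp (hw.mul hG)
  simp only [Pi.mul_apply] at hwin
  rw [hwin]
  have h1 : ∀ x : XX n, θ (qq p x) * ∫⁻ k, w (x + es p k) * G (x + es p k) ≤
      C * (θ (qq p x) * G x) := by
    intro x
    have h2 : ∫⁻ k, w (x + es p k) * G (x + es p k) = (∫⁻ k, w (x + es p k)) * G x := by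
      rw [← lintegral_mul_const]
      · refine lintegral_congr fun k => ?_
        rw [hinv]
      · exact hw.comp ((measurable_add_es p).comp measurable_prodMk_left)
    rw [h2]
    calc θ (qq p x) * ((∫⁻ k, w (x + es p k)) * G x) ≤ θ (qq p x) * (C * G x) :=
          mul_le_mul' le_rfl (mul_le_mul' (hC x) le_rfl)
      _ = C * (θ (qq p x) * G x) := by ring
  refine (lintegral_mono h1).trans ?_
  rw [lintegral_const_mul]
  exact (hθm.comp (continuous_qq p).measurable).mul hG

end SHF
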