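import Pool.Agent.W_03a799_h55.PSD
import Pool.Agent.W_03a799_h55.WinA

/-! The functions `ζ_σ` and `F_σ²` on the configuration space. -/

open MeasureTheory Filter Topology
open scoped ENNReal

namespace SHF

variable {n : ℕ}

lemma DgA_es_sub (p : Fin n × Fin n) (k l : R2) : (es p (k - l) : XX n) = es p k - es p l := by
  rw [sub_eq_add_neg, es_add, es_neg, ← sub_eq_add_neg]

lemma DgA_meas_fib (p : Fin n × Fin n) {f : XX n → ℝ≥0∞} (hf : Measurable f) (x : XX n) :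
    Measurable fun k : R2 => f (x + es p k) :=
  hf.comp ((continuous_es p).measurable.const_add x)

lemma DgA_meas_rho {ρ : R2 → ℝ} (hρ : PD ρ) : Measurable fun k : R2 => ENNReal.ofReal (ρ k) :=
  ENNReal.measurable_ofReal.comp hρ.meas

lemma zt_meas {ρ : R2 → ℝ} (hρ : PD ρ) (p : Fin n × Fin n) {f : XX n → ℝ≥0∞}
    (hf : Measurable f) : Measurable (zt ρ p f) := by
  unfold zt
  refine Measurable.lintegral_prod_right' (f := fun z : XX n × R2 =>
    ENNReal.ofReal (ρ z.2) * f (z.1 - es p z.2)) ?_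
  exact ((DgA_meas_rho hρ).comp measurable_snd).mul (hf.comp (measurable_sub_es p))

lemma FF_meas {ρ : R2 → ℝ} (hρ : PD ρ) (p : Fin n × Fin n) {f : XX n → ℝ≥0∞}
    (hf : Measurable f) : Measurable (FF ρ p f) := by
  unfold FF Bf
  refine Measurable.lintegral_prod_right' (f := fun z : XX n × R2 =>
    ∫⁻ l, ENNReal.ofReal (ρ (z.2 - l)) * f (z.1 + es p z.2) * f (z.1 + es p l)) ?_
  refine Measurable.lintegral_prod_right' (f := fun y : (XX n × R2) × R2 =>
    ENNReal.ofReal (ρ (y.1.2 - y.2)) * f (y.1.1 + es p y.1.2) * f (y.1.1 + es p y.2)) ?_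
  have h1 : Measurable fun y : (XX n × R2) × R2 => ENNReal.ofReal (ρ (y.1.2 - y.2)) :=
    (DgA_meas_rho hρ).comp ((measurable_snd.comp measurable_fst).sub measurable_snd)
  have h2 : Measurable fun y : (XX n × R2) × R2 => f (y.1.1 + es p y.1.2) :=
    hf.comp ((measurable_add_es p).comp measurable_fst)
  have h3 : Measurable fun y : (XX n × R2) × R2 => f (y.1.1 + es p y.2) :=
    hf.comp ((measurable_add_es p).comp
      ((measurable_fst.comp measurable_fst).prodMk measurable_snd))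
  exact (h1.mul h2).mul h3

/-- `ζ_σ` along a fibre is the convolution with `ρ` -/
lemma zt_fib {ρ : R2 → ℝ} (hρ : PD ρ) (p : Fin n × Fin n) {f : XX n → ℝ≥0∞}
    (hf : Measurable f) (x : XX n) (k : R2) :
    zt ρ p f (x + es p k) = ∫⁻ l, ENNReal.ofReal (ρ (k - l)) * f (x + es p l) := by
  unfold zt
  rw [← lintegral_sub_left_eq_self (μ := (volume : Measure R2))
    (fun k' : R2 => ENNReal.ofReal (ρ k') * f (x + es p k - es p k')) k]
  refine lintegral_congr fun l => ?_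
  rw [DgA_es_sub]
  congr 2
  abel

lemma zt_sq_le {ρ : R2 → ℝ} (hρ : PD ρ) (p : Fin n × Fin n) {f : XX n → ℝ≥0∞}
    (hf : Measurable f) (x : XX n) : (zt ρ p f x) ^ 2 ≤ FF ρ p f x := by
  have h1 := zt_fib hρ p hf x 0
  rw [es_zero, add_zero] at h1
  rw [h1]
  exact hρ.cs0 (fun l => f (x + es p l)) (DgA_meas_fib p hf x) 0

lemma FF_inv {ρ : R2 → ℝ} (hρ : PD ρ) (p : Fin n × Fin n) {f : XX n → ℝ≥0∞}
    (hf : Measurable f) (x : XX n) (k : R2) : FF ρ p f (x + es p k) = FF ρ p f x := by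
  unfold FF Bf
  set g : R2 → ℝ≥0∞ := fun a => f (x + es p a) with hg
  have h1 : ∀ a, f (x + es p k + es p a) = g (k + a) := by
    intro a
    rw [hg]
    show _ = f (x + es p (k + a))
    rw [es_add, add_assoc]
  simp only [h1]
  have h2 : ∀ a : R2, ∫⁻ l, ENNReal.ofReal (ρ (a - l)) * g (k + a) * g (k + l) =
      ∫⁻ l, ENNReal.ofReal (ρ ((k + a) - l)) * g (k + a) * g l := by
    intro a
    rw [← lintegral_add_left_eq_self (μ := (volume : Measure R2))
      (fun l : R2 => ENNReal.ofReal (ρ ((k + a) - l)) * g (k + a) * g l) k]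
    refine lintegral_congr fun l => ?_
    rw [add_sub_add_left_eq_sub]
  simp only [h2]
  rw [lintegral_add_left_eq_self (μ := (volume : Measure R2))
    (fun a : R2 => ∫⁻ l, ENNReal.ofReal (ρ (a - l)) * g a * g l) k]

/-- `∫ f ζ_σ = ∫ θ(q_σ) F_σ²` (window lemma with `Ξ = f ζ_σ` and `zt_fib`) -/
lemma AA_eq {ρ : R2 → ℝ} (hρ : PD ρ) {p : Fin n × Fin n} (hp : p.1 ≠ p.2)
    {f : XX n → ℝ≥0∞} (hf : Measurable f) {θ : R2 → ℝ≥0∞} (hθm : Measurable θ)
    (hθ : ∫⁻ k, θ k = 1) :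
    ∫⁻ x, f x * zt ρ p f x = ∫⁻ x, θ (qq p x) * FF ρ p f x := by
  rw [window hθm hθ hp (Ξ := fun x => f x * zt ρ p f x) (hf.mul (zt_meas hρ p hf))]
  refine lintegral_congr fun x => ?_
  congr 1
  unfold FF Bf
  refine lintegral_congr fun k => ?_
  show f (x + es p k) * zt ρ p f (x + es p k) = _
  rw [zt_fib hρ p hf x k, ← lintegral_const_mul]
  · refine lintegral_congr fun l => ?_
    ring
  · exact ((DgA_meas_rho hρ).comp (measurable_const.sub measurable_id)).mul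
      (DgA_meas_fib p hf x)

/-- diagonal terms: window lemma with `Ξ = w ζ_σ²` and `dg2` -/
lemma diag_le {ρ : R2 → ℝ} (hρ : PD ρ) {p : Fin n × Fin n} (hp : p.1 ≠ p.2)
    {f : XX n → ℝ≥0∞} (hf : Measurable f) {θ : R2 → ℝ≥0∞} (hθm : Measurable θ)
    (hθ : ∫⁻ k, θ k = 1) {w : XX n → ℝ≥0∞} (hw : Measurable w) (hwf : ∀ x, w x ≠ ∞)
    {D : ℝ≥0∞} (hD0 : D ≠ 0)
    (hD : ∀ x k, ∫⁻ l, ENNReal.ofReal (ρ (k - l)) * w (x + es p l) ≤ D) :
    ∫⁻ x, w x * (zt ρ p f x) ^ 2 ≤ D * ∫⁻ x, θ (qq p x) * FF ρ p f x := by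
  rw [window hθm hθ hp (Ξ := fun x => w x * (zt ρ p f x) ^ 2)
    (hw.mul ((zt_meas hρ p hf).pow_const 2))]
  have hm : Measurable fun x : XX n => θ (qq p x) * FF ρ p f x :=
    (hθm.comp (continuous_qq p).measurable).mul (FF_meas hρ p hf)
  rw [← lintegral_const_mul D hm]
  refine lintegral_mono fun x => ?_
  show θ (qq p x) * _ ≤ D * (θ (qq p x) * FF ρ p f x)
  rw [mul_left_comm]
  refine mul_le_mul_right ?_ _
  have h1 := dg2 hρ (g := fun k => f (x + es p k)) (w := fun k => w (x + es p k))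
    (DgA_meas_fib p hf x) (DgA_meas_fib p hw x) (fun k => hwf _) (hD x) hD0
  refine le_trans (le_of_eq ?_) h1
  refine lintegral_congr fun k => ?_
  rw [zt_fib hρ p hf x k]

end SHF
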