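import Pool.Agent.W_03a799_h55.Heat

/-! Trotter products: `L²` bound from the one step bound. -/

open MeasureTheory Filter Topology
open scoped ENNReal NNReal

namespace SHF

variable {E : Type*} [NormedAddCommGroup E] [InnerProductSpace ℝ E]
  [FiniteDimensional ℝ E] [MeasurableSpace E] [BorelSpace E]

omit [NormedAddCommGroup E] [InnerProductSpace ℝ E] [FiniteDimensional ℝ E] [BorelSpace E] in
lemma Trot_wm {τ : ℝ} {V : E → ℝ} (hV : Measurable V) :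
    Measurable fun y => ENNReal.ofReal (Real.exp (τ * V y)) :=
  (Real.measurable_exp.comp (hV.const_mul τ)).ennreal_ofReal

lemma KT_meas {τ : ℝ} {V : E → ℝ} (hV : Measurable V) {g : E → ℝ≥0∞} (hg : Measurable g) :
    Measurable (KT τ V g) :=
  PE_meas τ ((Trot_wm hV).mul hg)

lemma KT_iter_meas {τ : ℝ} {V : E → ℝ} (hV : Measurable V) {g : E → ℝ≥0∞} (hg : Measurable g)
    (m : ℕ) : Measurable ((KT τ V)^[m] g) := by
  induction m with
  | zero => exact hg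
  | succ m ih =>
    rw [Function.iterate_succ_apply']
    exact KT_meas hV ih

lemma KT_mono {τ : ℝ} {V : E → ℝ} {g h : E → ℝ≥0∞} (hgh : ∀ x, g x ≤ h x) (x : E) :
    KT τ V g x ≤ KT τ V h x :=
  PE_mono τ (fun y => mul_le_mul_right (hgh y) _) x

lemma KT_iter_mono {τ : ℝ} {V : E → ℝ} {g h : E → ℝ≥0∞} (hgh : ∀ x, g x ≤ h x) (m : ℕ) (x : E) :
    (KT τ V)^[m] g x ≤ (KT τ V)^[m] h x := by
  induction m generalizing x with
  | zero => exact hgh x
  | succ m ih =>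
    rw [Function.iterate_succ_apply', Function.iterate_succ_apply']
    exact KT_mono ih x

/-- Cauchy-Schwarz in `ℝ≥0∞` -/
lemma cs_lint {f g : E → ℝ≥0∞} (hf : Measurable f) (hg : Measurable g) :
    (∫⁻ x, f x * g x) ^ 2 ≤ (∫⁻ x, (f x) ^ 2) * ∫⁻ x, (g x) ^ 2 := by
  have h1 := ENNReal.lintegral_mul_le_Lp_mul_Lq (volume : Measure E)
    Real.HolderConjugate.two_two hf.aemeasurable hg.aemeasurable
  have h2 : ∀ f : E → ℝ≥0∞, (∫⁻ x, f x ^ (2 : ℝ)) = ∫⁻ x, (f x) ^ 2 := by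
    intro f
    refine lintegral_congr fun x => ?_
    exact ENNReal.rpow_two (f x)
  rw [h2 f, h2 g] at h1
  have h3 : (∫⁻ x, f x * g x) ^ 2 ≤ ((∫⁻ x, (f x) ^ 2) ^ (1 / (2 : ℝ)) *
      (∫⁻ x, (g x) ^ 2) ^ (1 / (2 : ℝ))) ^ 2 := pow_le_pow_left' h1 2
  refine h3.trans (le_of_eq ?_)
  have h4 : ∀ a : ℝ≥0∞, (a ^ (1 / (2 : ℝ))) ^ 2 = a := by
    intro a
    rw [← ENNReal.rpow_natCast, ← ENNReal.rpow_mul]
    norm_num
  rw [mul_pow, h4, h4]

omit [NormedAddCommGroup E] [InnerProductSpace ℝ E] [FiniteDimensional ℝ E] [MeasurableSpace E]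
  [BorelSpace E] in
lemma Trot_half {τ : ℝ} (V : E → ℝ) (y : E) :
    ENNReal.ofReal (Real.exp (τ * V y / 2)) ^ 2 = ENNReal.ofReal (Real.exp (τ * V y)) := by
  rw [sq, ← ENNReal.ofReal_mul (Real.exp_pos _).le, ← Real.exp_add]
  congr 2
  ring

omit [NormedAddCommGroup E] [InnerProductSpace ℝ E] [FiniteDimensional ℝ E] [BorelSpace E] in
lemma Trot_hm {τ : ℝ} {V : E → ℝ} (hV : Measurable V) :
    Measurable fun y => ENNReal.ofReal (Real.exp (τ * V y / 2)) :=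
  (Real.measurable_exp.comp ((hV.const_mul τ).div_const 2)).ennreal_ofReal

/-- multiplication by the square root of the weight -/
lemma Trot_sq_le {V : E → ℝ} {v : ℝ} (hv : ∀ x, V x ≤ v) {τ : ℝ} (hτ : 0 < τ)
    (h : E → ℝ≥0∞) :
    ∫⁻ x, (ENNReal.ofReal (Real.exp (τ * V x / 2)) * h x) ^ 2 ≤
      ENNReal.ofReal (Real.exp (τ * v)) * ∫⁻ x, (h x) ^ 2 := by
  rw [← lintegral_const_mul' _ _ ENNReal.ofReal_ne_top]
  refine lintegral_mono fun x => ?_
  show (ENNReal.ofReal (Real.exp (τ * V x / 2)) * h x) ^ 2 ≤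
    ENNReal.ofReal (Real.exp (τ * v)) * (h x) ^ 2
  rw [mul_pow, Trot_half]
  refine mul_le_mul_left ?_ _
  refine ENNReal.ofReal_le_ofReal (Real.exp_le_exp.2 ?_)
  exact mul_le_mul_of_nonneg_left (hv x) hτ.le

/-- adjoint bound: `∫ (P_{τ/2} e^{τV/2} h)² ≤ c ∫ h²`. With `A h = P_{τ/2}(e^{τV/2} h)`:
`∫ (A h)² = ∫ h · e^{τV/2} P_{τ/2} (A h)`, Cauchy-Schwarz and `hstep`; `∫ (A h)²` is finite when
`∫ h²` is, because `V` is bounded. -/
lemma adj_bound {V : E → ℝ} (hVm : Measurable V) (hV0 : ∀ x, 0 ≤ V x) {v : ℝ}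
    (hv : ∀ x, V x ≤ v) {τ : ℝ} (hτ : 0 < τ) {c : ℝ} (hc : 1 ≤ c)
    (hstep : ∀ g : E → ℝ≥0∞, Measurable g →
      ∫⁻ x, ENNReal.ofReal (Real.exp (τ * V x)) * (PE (τ / 2) g x) ^ 2
        ≤ ENNReal.ofReal c * ∫⁻ x, (g x) ^ 2) {h : E → ℝ≥0∞} (hh : Measurable h) :
    ∫⁻ x, (PE (τ / 2) (fun y => ENNReal.ofReal (Real.exp (τ * V y / 2)) * h y) x) ^ 2
      ≤ ENNReal.ofReal c * ∫⁻ x, (h x) ^ 2 := by
  set w : E → ℝ≥0∞ := fun y => ENNReal.ofReal (Real.exp (τ * V y / 2)) with hw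
  have hwm : Measurable w := Trot_hm hVm
  have hwh : Measurable fun y => w y * h y := hwm.mul hh
  set A : E → ℝ≥0∞ := PE (τ / 2) (fun y => w y * h y) with hA
  have hAm : Measurable A := PE_meas _ hwh
  set X : ℝ≥0∞ := ∫⁻ x, (A x) ^ 2 with hX
  set Y : ℝ≥0∞ := ∫⁻ x, (h x) ^ 2 with hY
  have hc0 : ENNReal.ofReal c ≠ 0 := (ENNReal.ofReal_pos.2 (by linarith)).ne'
  rcases eq_or_ne Y ∞ with hYt | hYt
  · rw [hYt, ENNReal.mul_top hc0]
    exact le_top
  have hXt : X ≠ ∞ := by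
    have h1 : X ≤ ENNReal.ofReal (Real.exp (τ * v)) * Y :=
      (PE_contr (by positivity) hwh).trans (Trot_sq_le hv hτ h)
    exact ne_top_of_le_ne_top (ENNReal.mul_ne_top ENNReal.ofReal_ne_top hYt) h1
  rcases eq_or_ne X 0 with hX0 | hX0
  · rw [hX0]
    exact zero_le
  have h1 : X = ∫⁻ x, (w x * PE (τ / 2) A x) * h x := by
    have h2 := PE_symm (τ / 2) hAm hwh
    have h3 : X = ∫⁻ x, A x * PE (τ / 2) (fun y => w y * h y) x := by
      rw [hX]
      refine lintegral_congr fun x => ?_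
      rw [sq]
    rw [h3, h2]
    refine lintegral_congr fun x => ?_
    ring
  have h2 : X ^ 2 ≤ (∫⁻ x, (w x * PE (τ / 2) A x) ^ 2) * Y := by
    have h3 := cs_lint (hwm.mul (PE_meas (τ / 2) hAm)) hh
    rw [h1]
    exact h3
  have h3 : (∫⁻ x, (w x * PE (τ / 2) A x) ^ 2) ≤ ENNReal.ofReal c * X := by
    have h4 := hstep A hAm
    have h5 : (∫⁻ x, (w x * PE (τ / 2) A x) ^ 2) =
        ∫⁻ x, ENNReal.ofReal (Real.exp (τ * V x)) * (PE (τ / 2) A x) ^ 2 := by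
      refine lintegral_congr fun x => ?_
      rw [mul_pow, hw, Trot_half]
    rw [h5]
    exact h4
  have h4 : X * X ≤ X * (ENNReal.ofReal c * Y) := by
    calc X * X = X ^ 2 := (sq X).symm
      _ ≤ (ENNReal.ofReal c * X) * Y := h2.trans (mul_le_mul_left h3 _)
      _ = X * (ENNReal.ofReal c * Y) := by ring
  exact (ENNReal.mul_le_mul_iff_right hX0 hXt).1 h4

/-- with `A' g = e^{τV/2} P_{τ/2} g` and `A h = P_{τ/2}(e^{τV/2} h)` one has
`e^{τV/2} K^m Ψ = (A' A)^m (e^{τV/2} Ψ)` (semigroup), and both `A`, `A'` have `L²` norm² `≤ c` -/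
theorem trot_upper {V : E → ℝ} (hVm : Measurable V) (hV0 : ∀ x, 0 ≤ V x) {v : ℝ}
    (hv : ∀ x, V x ≤ v) {τ : ℝ} (hτ : 0 < τ) {c : ℝ} (hc : 1 ≤ c)
    (hstep : ∀ g : E → ℝ≥0∞, Measurable g →
      ∫⁻ x, ENNReal.ofReal (Real.exp (τ * V x)) * (PE (τ / 2) g x) ^ 2
        ≤ ENNReal.ofReal c * ∫⁻ x, (g x) ^ 2) {Ψ : E → ℝ≥0∞} (hΨ : Measurable Ψ) (m : ℕ) :
    ∫⁻ x, ((KT τ V)^[m] Ψ x) ^ 2
      ≤ ENNReal.ofReal (c ^ (2 * m) * Real.exp (τ * v)) * ∫⁻ x, (Ψ x) ^ 2 := by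
  set w : E → ℝ≥0∞ := fun y => ENNReal.ofReal (Real.exp (τ * V y / 2)) with hw
  have hwm : Measurable w := Trot_hm hVm
  have hc0 : 0 ≤ c := by linarith
  have key : ∀ m : ℕ, ∫⁻ x, (w x * (KT τ V)^[m] Ψ x) ^ 2 ≤
      ENNReal.ofReal (c ^ (2 * m)) * ∫⁻ x, (w x * Ψ x) ^ 2 := by
    intro m
    induction m with
    | zero => simp
    | succ m ih =>
      set g : E → ℝ≥0∞ := (KT τ V)^[m] Ψ with hg
      have hgm : Measurable g := KT_iter_meas hVm hΨ m
      have hwg : Measurable fun y => w y * g y := hwm.mul hgm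
      set A : E → ℝ≥0∞ := PE (τ / 2) (fun y => w y * (w y * g y)) with hA
      have hAm : Measurable A := PE_meas _ (hwm.mul hwg)
      have hwwg : Measurable fun y => w y * (w y * g y) := hwm.mul hwg
      have h1 : (KT τ V)^[m + 1] Ψ = PE (τ / 2) A := by
        rw [Function.iterate_succ_apply', ← hg, hA, PE_semigroup (by positivity)
          (by positivity) hwwg]
        unfold KT
        have h2 : (fun y => ENNReal.ofReal (Real.exp (τ * V y)) * g y) =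
            fun y => w y * (w y * g y) := by
          funext y
          rw [← mul_assoc, ← sq, hw, Trot_half]
        rw [h2]
        congr 1
        ring
      rw [h1]
      have h2 : ∫⁻ x, (w x * PE (τ / 2) A x) ^ 2 ≤ ENNReal.ofReal c * ∫⁻ x, (A x) ^ 2 := by
        have h4 := hstep A hAm
        have h5 : (∫⁻ x, (w x * PE (τ / 2) A x) ^ 2) =
            ∫⁻ x, ENNReal.ofReal (Real.exp (τ * V x)) * (PE (τ / 2) A x) ^ 2 := by
          refine lintegral_congr fun x => ?_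
          rw [mul_pow, hw, Trot_half]
        rw [h5]
        exact h4
      have h3 : ∫⁻ x, (A x) ^ 2 ≤ ENNReal.ofReal c * ∫⁻ x, (w x * g x) ^ 2 :=
        adj_bound hVm hV0 hv hτ hc hstep hwg
      calc ∫⁻ x, (w x * PE (τ / 2) A x) ^ 2
          ≤ ENNReal.ofReal c * (ENNReal.ofReal c * (ENNReal.ofReal (c ^ (2 * m)) *
            ∫⁻ x, (w x * Ψ x) ^ 2)) :=
            h2.trans (mul_le_mul_right (h3.trans (mul_le_mul_right ih _)) _)
        _ = ENNReal.ofReal (c ^ (2 * (m + 1))) * ∫⁻ x, (w x * Ψ x) ^ 2 := by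
          rw [← mul_assoc, ← mul_assoc, ← ENNReal.ofReal_mul hc0,
            ← ENNReal.ofReal_mul (mul_nonneg hc0 hc0)]
          congr 2
          ring
  have h1 : ∫⁻ x, ((KT τ V)^[m] Ψ x) ^ 2 ≤ ∫⁻ x, (w x * (KT τ V)^[m] Ψ x) ^ 2 := by
    refine lintegral_mono fun x => ?_
    refine pow_le_pow_left' ?_ 2
    refine le_mul_of_one_le_left' ?_
    rw [hw]
    refine ENNReal.one_le_ofReal.2 (Real.one_le_exp ?_)
    have := hV0 x
    positivity
  refine h1.trans ((key m).trans ?_)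
  rw [ENNReal.ofReal_mul (pow_nonneg hc0 _), mul_assoc]
  exact mul_le_mul_right (Trot_sq_le hv hτ Ψ) _

end SHF
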