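import Pool.Agent.W_03a799_h55.BMA
import Pool.Agent.W_03a799_h55.Trot

/-! Continuous Feynman-Kac formula as the limit of the discrete ones. -/

open MeasureTheory Filter Topology ProbabilityTheory
open scoped ENNReal NNReal

namespace SHF

variable {n : ℕ} {Ω : Type*} [MeasurableSpace Ω] {W : Fin n × Fin 2 → ℝ≥0 → Ω → ℝ}
  {P : Measure Ω}

/-- Riemann sums of a function continuous on `[0,t]` -/
lemma riemann {t : ℝ} (ht : 0 < t) {f : ℝ → ℝ} (hf : ContinuousOn f (Set.Icc 0 t)) :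
    Tendsto (fun m : ℕ => ∑ k ∈ Finset.range (m + 1), t / (m + 1) * f ((k + 1) * (t / (m + 1))))
      atTop (𝓝 (∫ s in (0 : ℝ)..t, f s)) := by
  rw [Metric.tendsto_atTop]
  intro ε hε
  have huc := isCompact_Icc.uniformContinuousOn_of_continuous hf
  rw [Metric.uniformContinuousOn_iff] at huc
  obtain ⟨δ, hδ, H⟩ := huc (ε / (2 * t)) (by positivity)
  obtain ⟨N, hN⟩ := exists_nat_gt (t / δ)
  refine ⟨N, fun m hm => ?_⟩
  have hm1 : (0 : ℝ) < (m : ℝ) + 1 := by positivity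
  obtain ⟨h, hh⟩ : ∃ h : ℝ, h = t / (m + 1) := ⟨_, rfl⟩
  rw [← hh]
  have hh0 : 0 < h := by rw [hh]; positivity
  have hhδ : h < δ := by
    rw [hh, div_lt_iff₀ hm1]
    rw [div_lt_iff₀ hδ] at hN
    have h1 : (N : ℝ) ≤ m := by exact_mod_cast hm
    nlinarith
  have hmt : ((m + 1 : ℕ) : ℝ) * h = t := by
    rw [hh]
    push_cast
    field_simp
  have hpt : ∀ k : ℕ, k ≤ m + 1 → (k : ℝ) * h ∈ Set.Icc 0 t := by
    intro k hk
    constructor
    · positivity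
    · rw [← hmt]
      have h1 : (k : ℝ) ≤ ((m + 1 : ℕ) : ℝ) := by exact_mod_cast hk
      exact mul_le_mul_of_nonneg_right h1 hh0.le
  have hle : ∀ k : ℕ, (k : ℝ) * h ≤ ((k + 1 : ℕ) : ℝ) * h := by
    intro k
    have h1 : (k : ℝ) ≤ ((k + 1 : ℕ) : ℝ) := by exact_mod_cast Nat.le_succ k
    exact mul_le_mul_of_nonneg_right h1 hh0.le
  have hint : ∀ k < m + 1, IntervalIntegrable f volume ((k : ℝ) * h) (((k + 1 : ℕ) : ℝ) * h) := by
    intro k hk
    apply ContinuousOn.intervalIntegrable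
    rw [Set.uIcc_of_le (hle k)]
    exact hf.mono (Set.Icc_subset_Icc (hpt k (by omega)).1 (hpt (k + 1) (by omega)).2)
  have hsum := intervalIntegral.sum_integral_adjacent_intervals
    (a := fun k : ℕ => (k : ℝ) * h) hint
  have e0 : (((0 : ℕ) : ℝ)) * h = 0 := by simp
  have hsum' : ∑ k ∈ Finset.range (m + 1), ∫ s in ((k : ℝ) * h)..(((k + 1 : ℕ) : ℝ) * h), f s =
      ∫ s in (0 : ℝ)..t, f s := by
    have h2 := hsum
    simp only [hmt, e0] at h2
    exact h2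
  rw [← hsum', Real.dist_eq, ← Finset.sum_sub_distrib]
  have hterm : ∀ k ∈ Finset.range (m + 1),
      |h * f ((k + 1) * h) - ∫ s in ((k : ℝ) * h)..(((k + 1 : ℕ) : ℝ) * h), f s| ≤
        ε / (2 * t) * h := by
    intro k hk
    rw [Finset.mem_range] at hk
    have hba : ((k + 1 : ℕ) : ℝ) * h - (k : ℝ) * h = h := by
      push_cast
      ring
    have hc : h * f ((k + 1) * h) =
        ∫ s in ((k : ℝ) * h)..(((k + 1 : ℕ) : ℝ) * h), f ((k + 1) * h) := by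
      rw [intervalIntegral.integral_const, hba, smul_eq_mul]
    rw [hc, ← intervalIntegral.integral_sub intervalIntegrable_const (hint k hk)]
    have h3 := intervalIntegral.norm_integral_le_of_norm_le_const
      (a := (k : ℝ) * h) (b := ((k + 1 : ℕ) : ℝ) * h)
      (f := fun s => f ((k + 1) * h) - f s) (C := ε / (2 * t)) (by
        intro s hs
        rw [Set.uIoc_of_le (hle k)] at hs
        have hs1 : s ∈ Set.Icc 0 t :=
          ⟨(hpt k (by omega)).1.trans hs.1.le, hs.2.trans (hpt (k + 1) (by omega)).2⟩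
        have hs2 : ((k : ℝ) + 1) * h ∈ Set.Icc 0 t := by
          have := hpt (k + 1) (by omega)
          push_cast at this
          exact this
        have hd : dist (((k : ℝ) + 1) * h) s < δ := by
          rw [Real.dist_eq, abs_lt]
          have h5 := hs.1
          have h6 := hs.2
          push_cast at h6
          constructor
          · linarith
          · nlinarith
        have h4 := H _ hs2 _ hs1 hd
        rw [Real.dist_eq] at h4
        rw [Real.norm_eq_abs]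
        exact h4.le)
    rw [hba, Real.norm_eq_abs, abs_of_pos hh0] at h3
    exact h3
  calc |∑ k ∈ Finset.range (m + 1), (h * f ((k + 1) * h) -
        ∫ s in ((k : ℝ) * h)..(((k + 1 : ℕ) : ℝ) * h), f s)|
      ≤ ∑ k ∈ Finset.range (m + 1), |h * f ((k + 1) * h) -
        ∫ s in ((k : ℝ) * h)..(((k + 1 : ℕ) : ℝ) * h), f s| := Finset.abs_sum_le_sum_abs _ _
    _ ≤ ∑ _k ∈ Finset.range (m + 1), ε / (2 * t) * h := Finset.sum_le_sum hterm
    _ = ε / (2 * t) * (((m + 1 : ℕ) : ℝ) * h) := by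
        rw [Finset.sum_const, Finset.card_range, nsmul_eq_mul]
        ring
    _ = ε / 2 := by
        rw [hmt]
        field_simp
    _ < ε := by linarith

/-- law of the path at time `t` -/
lemma FKL_PE (hW : BMfam W P) {t : ℝ≥0} (ht : 0 < t) {Ψ : XX n → ℝ≥0∞} (hΨ : Measurable Ψ)
    (x : XX n) : ∫⁻ ω, Ψ (x + pth W t ω) ∂P = PE (t : ℝ) Ψ x := by
  have h := fk_disc hW ht (V := fun _ => (0 : ℝ)) measurable_const hΨ 1 x
  simp only [Nat.cast_one, one_mul, Finset.prod_range_one, mul_zero, Real.exp_zero,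
    ENNReal.ofReal_one, mul_one, Function.iterate_one] at h
  rw [h]
  unfold KT
  simp only [mul_zero, Real.exp_zero, ENNReal.ofReal_one, one_mul]

/-- the integrand of the `m`-th step -/
lemma FKL_disc (hW : BMfam W P) {V : XX n → ℝ} (hV : Measurable V) {t : ℝ≥0} (ht : 0 < t)
    {Ψ : XX n → ℝ≥0∞} (hΨ : Measurable Ψ) (m : ℕ) (x : XX n) :
    (KT ((t : ℝ) / (m + 1)) V)^[m + 1] Ψ x =
      ∫⁻ ω, Ψ (x + pth W t ω) * ENNReal.ofReal (Real.exp (∑ k ∈ Finset.range (m + 1),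
        (t : ℝ) / (m + 1) * V (x + pth W (((k : ℝ) + 1) * ((t : ℝ) / (m + 1))).toNNReal ω))) ∂P := by
  obtain ⟨τ, hτ⟩ : ∃ τ : ℝ≥0, τ = t / (m + 1) := ⟨_, rfl⟩
  have hτ0 : 0 < τ := by
    rw [hτ]
    positivity
  have hτr : (t : ℝ) / (m + 1) = (τ : ℝ) := by
    rw [hτ]
    push_cast
    rfl
  have hmt : ((m + 1 : ℕ) : ℝ≥0) * τ = t := by
    rw [hτ]
    push_cast
    have : ((m : ℝ≥0) + 1) ≠ 0 := by positivity
    field_simp
  have h := fk_disc hW hτ0 hV hΨ (m + 1) x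
  rw [hτr, ← h]
  refine lintegral_congr fun ω => ?_
  rw [hmt, ← ENNReal.ofReal_prod_of_nonneg (fun k _ => (Real.exp_pos _).le), Real.exp_sum]
  congr 2
  refine Finset.prod_congr rfl fun k _ => ?_
  have e : (((k : ℝ) + 1) * (τ : ℝ)).toNNReal = ((k : ℝ≥0) + 1) * τ := by
    have : ((k : ℝ) + 1) * (τ : ℝ) = ((((k : ℝ≥0) + 1) * τ : ℝ≥0) : ℝ) := by
      push_cast
      rfl
    rw [this, Real.toNNReal_coe]
  rw [e]

lemma FKL_sum_le {V : XX n → ℝ} {v : ℝ} (hv : ∀ x, V x ≤ v) (t : ℝ≥0) (m : ℕ)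
    (y : ℕ → XX n) :
    ∑ k ∈ Finset.range (m + 1), (t : ℝ) / (m + 1) * V (y k) ≤ t * v := by
  have hm1 : (0 : ℝ) < (m : ℝ) + 1 := by positivity
  calc ∑ k ∈ Finset.range (m + 1), (t : ℝ) / (m + 1) * V (y k)
      ≤ ∑ _k ∈ Finset.range (m + 1), (t : ℝ) / (m + 1) * v :=
        Finset.sum_le_sum fun k _ => mul_le_mul_of_nonneg_left (hv _) (by positivity)
    _ = t * v := by
        rw [Finset.sum_const, Finset.card_range, nsmul_eq_mul]
        push_cast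
        field_simp

lemma FKL_le (hW : BMfam W P) {V : XX n → ℝ} (hV : Measurable V) {v : ℝ}
    (hv : ∀ x, V x ≤ v) {t : ℝ≥0} (ht : 0 < t) {Ψ : XX n → ℝ≥0∞} (hΨ : Measurable Ψ) (m : ℕ)
    (x : XX n) :
    (KT ((t : ℝ) / (m + 1)) V)^[m + 1] Ψ x ≤ ENNReal.ofReal (Real.exp (t * v)) * PE (t : ℝ) Ψ x := by
  rw [FKL_disc hW hV ht hΨ m x, ← FKL_PE hW ht hΨ x, ← lintegral_const_mul' _ _ ENNReal.ofReal_ne_top]
  refine lintegral_mono fun ω => ?_
  show Ψ (x + pth W t ω) * _ ≤ _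
  rw [mul_comm (ENNReal.ofReal (Real.exp (t * v)))]
  refine mul_le_mul_right ?_ _
  exact ENNReal.ofReal_le_ofReal (Real.exp_le_exp.2 (FKL_sum_le hv t m _))

/-- convergence for a fixed starting point -/
lemma FKL_fix (hW : BMfam W P) {V : XX n → ℝ} (hVc : Continuous V) {v : ℝ}
    (hv : ∀ x, V x ≤ v) {t : ℝ≥0} (ht : 0 < t) {Ψ : XX n → ℝ≥0∞} (hΨ : Measurable Ψ)
    (x : XX n) (hx : PE (t : ℝ) Ψ x ≠ ∞) :
    Tendsto (fun m : ℕ => (KT ((t : ℝ) / (m + 1)) V)^[m + 1] Ψ x) atTop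
      (𝓝 (∫⁻ ω, Ψ (x + pth W t ω) *
        ENNReal.ofReal (Real.exp (∫ s in (0 : ℝ)..t, V (x + pth W s.toNNReal ω))) ∂P)) := by
  simp only [FKL_disc hW hVc.measurable ht hΨ _ x]
  refine tendsto_lintegral_of_dominated_convergence'
    (fun ω => ENNReal.ofReal (Real.exp (t * v)) * Ψ (x + pth W t ω)) ?_ ?_ ?_ ?_
  · intro m
    have h1 : ∀ s : ℝ≥0, AEMeasurable (fun ω => x + pth W s ω) P := fun s =>
      (pth_aemeasurable hW s).const_add x
    refine (hΨ.comp_aemeasurable (h1 t)).mul ?_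
    refine ENNReal.measurable_ofReal.comp_aemeasurable ?_
    refine Real.measurable_exp.comp_aemeasurable ?_
    refine Finset.aemeasurable_fun_sum _ fun k _ => ?_
    exact (hVc.measurable.comp_aemeasurable (h1 _)).const_mul _
  · intro m
    refine Filter.Eventually.of_forall fun ω => ?_
    show Ψ (x + pth W t ω) * _ ≤ ENNReal.ofReal (Real.exp (t * v)) * Ψ (x + pth W t ω)
    rw [mul_comm (ENNReal.ofReal (Real.exp (t * v)))]
    refine mul_le_mul_right ?_ _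
    exact ENNReal.ofReal_le_ofReal (Real.exp_le_exp.2 (FKL_sum_le hv t m _))
  · rw [lintegral_const_mul' _ _ ENNReal.ofReal_ne_top, FKL_PE hW ht hΨ x]
    exact ENNReal.mul_ne_top ENNReal.ofReal_ne_top hx
  · have hc : ∀ᵐ ω ∂P, ∀ p : Fin n × Fin 2, Continuous (fun s : ℝ≥0 => W p s ω) :=
      ae_all_iff.2 fun p => (hW.bm p).cont
    filter_upwards [hc] with ω hω
    have hpc : Continuous (fun s : ℝ≥0 => pth W s ω) := by
      unfold pth
      exact (PiLp.continuous_toLp 2 _).comp (continuous_pi fun p => hω p)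
    have hfc : Continuous (fun s : ℝ => V (x + pth W s.toNNReal ω)) :=
      hVc.comp (continuous_const.add (hpc.comp continuous_real_toNNReal))
    have h1 := riemann (t := (t : ℝ)) (by exact_mod_cast ht) hfc.continuousOn
    have h2 : Tendsto (fun m : ℕ => ENNReal.ofReal (Real.exp (∑ k ∈ Finset.range (m + 1),
        (t : ℝ) / (m + 1) * V (x + pth W (((k : ℝ) + 1) * ((t : ℝ) / (m + 1))).toNNReal ω))))
        atTop (𝓝 (ENNReal.ofReal (Real.exp
          (∫ s in (0 : ℝ)..t, V (x + pth W s.toNNReal ω))))) :=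
      (ENNReal.continuous_ofReal.tendsto _).comp ((Real.continuous_exp.tendsto _).comp h1)
    refine ENNReal.Tendsto.const_mul h2 (Or.inl ?_)
    exact (ENNReal.ofReal_pos.2 (Real.exp_pos _)).ne'

/-- dominated convergence, first in `ω` (for fixed `x` with `P_t Ψ(x) < ∞`), then in `x`:
everything is dominated by `e^{tv} Ψ(x + W_t)` resp. `e^{tv} Φ P_t Ψ`, and
`∫ Φ P_t Ψ ≤ ‖Φ‖ ‖Ψ‖ < ∞` -/
theorem fk_lim (hW : BMfam W P) {V : XX n → ℝ} (hVc : Continuous V) (hV0 : ∀ x, 0 ≤ V x)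
    {v : ℝ} (hv : ∀ x, V x ≤ v) {t : ℝ≥0} (ht : 0 < t) {Φ Ψ : XX n → ℝ≥0∞}
    (hΦ : Measurable Φ) (hΨ : Measurable Ψ) (hΦ2 : ∫⁻ x, (Φ x) ^ 2 < ∞)
    (hΨ2 : ∫⁻ x, (Ψ x) ^ 2 < ∞) :
    Tendsto (fun m : ℕ => ∫⁻ x, Φ x * (KT ((t : ℝ) / (m + 1)) V)^[m + 1] Ψ x) atTop
      (𝓝 (∫⁻ x, Φ x * ∫⁻ ω, Ψ (x + pth W t ω) *
        ENNReal.ofReal (Real.exp (∫ s in (0 : ℝ)..t, V (x + pth W s.toNNReal ω))) ∂P)) := by
  have htr : (0 : ℝ) < (t : ℝ) := by exact_mod_cast ht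
  obtain ⟨c, hc⟩ : ∃ c : ℝ≥0∞, c = ENNReal.ofReal (Real.exp (t * v)) := ⟨_, rfl⟩
  have hc0 : c ≠ 0 := by
    rw [hc]
    exact (ENNReal.ofReal_pos.2 (Real.exp_pos _)).ne'
  have hct : c ≠ ∞ := by
    rw [hc]
    exact ENNReal.ofReal_ne_top
  have hPm : Measurable (PE (t : ℝ) Ψ) := PE_meas _ hΨ
  have hfin0 : ∫⁻ x, Φ x * PE (t : ℝ) Ψ x < ∞ := by
    have h1 := cs_lint hΦ hPm
    have h2 := PE_contr htr hΨ
    by_contra h3
    rw [not_lt, top_le_iff] at h3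
    rw [h3] at h1
    have h4 : (∫⁻ x, (Φ x) ^ 2) * ∫⁻ x, (PE (t : ℝ) Ψ x) ^ 2 < ∞ :=
      ENNReal.mul_lt_top hΦ2 (h2.trans_lt hΨ2)
    have h5 : (∞ : ℝ≥0∞) ^ 2 = ∞ := by simp
    rw [h5] at h1
    exact absurd (h1.trans_lt h4) (lt_irrefl _)
  have hfin : ∫⁻ x, Φ x * (c * PE (t : ℝ) Ψ x) < ∞ := by
    have h1 : ∀ x, Φ x * (c * PE (t : ℝ) Ψ x) = c * (Φ x * PE (t : ℝ) Ψ x) := fun x => by ring
    simp only [h1]
    rw [lintegral_const_mul' _ _ hct]
    exact ENNReal.mul_lt_top hct.lt_top hfin0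
  refine tendsto_lintegral_of_dominated_convergence
    (fun x => Φ x * (c * PE (t : ℝ) Ψ x)) ?_ ?_ hfin.ne ?_
  · intro m
    exact hΦ.mul (KT_iter_meas hVc.measurable hΨ _)
  · intro m
    refine Filter.Eventually.of_forall fun x => ?_
    refine mul_le_mul_right ?_ _
    rw [hc]
    exact FKL_le hW hVc.measurable hv ht hΨ m x
  · have a1 : ∀ᵐ x : XX n, Φ x * (c * PE (t : ℝ) Ψ x) < ∞ :=
      ae_lt_top (hΦ.mul (measurable_const.mul hPm)) hfin.ne
    have a2 : ∀ᵐ x : XX n, (Φ x) ^ 2 < ∞ := ae_lt_top (hΦ.pow_const 2) hΦ2.ne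
    filter_upwards [a1, a2] with x h1 h2
    by_cases h0 : Φ x = 0
    · simp only [h0, zero_mul]
      exact tendsto_const_nhds
    · have hx : PE (t : ℝ) Ψ x ≠ ∞ := by
        intro h3
        rw [h3, ENNReal.mul_top hc0, ENNReal.mul_top h0] at h1
        exact absurd h1 (lt_irrefl _)
      have hΦx : Φ x ≠ ∞ := by
        intro h3
        rw [h3] at h2
        simp at h2
      exact ENNReal.Tendsto.const_mul (FKL_fix hW hVc hv ht hΨ x hx) (Or.inr hΦx)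

end SHF
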