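import Pool.Agent.W_03a799_h55.Defs

/-! Two explicit integrals in the plane. -/

open MeasureTheory Filter Topology
open scoped ENNReal

namespace SHF

/-- polar coordinates -/
lemma IntA_polar {f g : ℝ → ℝ} {l m : ℝ} (hf : ∀ y, 0 ≤ f y)
    (hfg : ∀ y, 0 < y → y * f y = g y) {G : ℝ → ℝ}
    (hG : ∀ y, 0 ≤ y → HasDerivAt G (g y) y) (hg : ∀ y, 0 < y → 0 ≤ g y)
    (hl : Tendsto G atTop (𝓝 l)) (hm : l - G 0 = m) :
    ∫⁻ z : R2, ENNReal.ofReal (f ‖z‖) = ENNReal.ofReal (2 * Real.pi * m) := by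
  have h1 : IntegrableOn g (Set.Ioi 0) :=
    integrableOn_Ioi_deriv_of_nonneg' (fun x hx => hG x hx) (fun x hx => hg x hx) hl
  have h2 : ∫ y in Set.Ioi (0 : ℝ), g y = m := by
    rw [integral_Ioi_of_hasDerivAt_of_nonneg' (fun x hx => hG x hx) (fun x hx => hg x hx) hl, hm]
  have hdim : Module.finrank ℝ R2 = 2 := finrank_euclideanSpace_fin
  have h3 : ∀ y ∈ Set.Ioi (0 : ℝ), y ^ (Module.finrank ℝ R2 - 1) • f y = g y := by
    intro y hy
    rw [hdim, smul_eq_mul]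
    simpa using hfg y hy
  have h4 : Integrable (fun z : R2 => f ‖z‖) := by
    rw [integrable_fun_norm_addHaar (μ := (volume : Measure R2))]
    exact (integrableOn_congr_fun h3 measurableSet_Ioi).2 h1
  rw [← ofReal_integral_eq_lintegral_ofReal h4 (Eventually.of_forall fun z => hf _)]
  congr 1
  rw [integral_fun_norm_addHaar (μ := (volume : Measure R2)), setIntegral_congr_fun measurableSet_Ioi h3,
    h2, hdim]
  have h5 : (volume : Measure R2).real (Metric.ball 0 1) = Real.pi := by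
    rw [Measure.real, EuclideanSpace.volume_ball_fin_two]
    simp [Real.pi_pos.le]
  rw [h5]
  simp only [nsmul_eq_mul, smul_eq_mul]
  push_cast
  ring

lemma IntA_pos {a : ℝ} (ha : 0 < a) (y : ℝ) : 0 < y ^ 2 + a := by positivity

lemma IntA_deriv {a : ℝ} (ha : 0 < a) (y : ℝ) :
    HasDerivAt (fun y : ℝ => (y ^ 2 + a) ^ (-(1 : ℝ) / 2)) (-(y * (y ^ 2 + a) ^ (-(3 : ℝ) / 2))) y := by
  have h1 : HasDerivAt (fun y : ℝ => y ^ 2 + a) (2 * y) y := by
    simpa using (hasDerivAt_pow 2 y).add_const a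
  have h2 := h1.rpow_const (p := -(1 : ℝ) / 2) (Or.inl (IntA_pos ha y).ne')
  have h3 : 2 * y * (-(1 : ℝ) / 2) * (y ^ 2 + a) ^ (-(1 : ℝ) / 2 - 1) =
      -(y * (y ^ 2 + a) ^ (-(3 : ℝ) / 2)) := by
    have h4 : -(1 : ℝ) / 2 - 1 = -(3 : ℝ) / 2 := by norm_num
    rw [h4]
    ring
  rw [h3] at h2
  exact h2

lemma IntA_tendsto {a : ℝ} :
    Tendsto (fun y : ℝ => (y ^ 2 + a) ^ (-(1 : ℝ) / 2)) atTop (𝓝 0) := by
  have h1 : Tendsto (fun y : ℝ => y ^ 2 + a) atTop atTop :=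
    tendsto_atTop_add_const_right _ _ (tendsto_pow_atTop two_ne_zero)
  have h2 := (tendsto_rpow_neg_atTop (show (0 : ℝ) < 1 / 2 by norm_num)).comp h1
  refine h2.congr fun y => ?_
  rw [Function.comp_apply, neg_div]

/-- `∫_{R²} (|z|² + a)^{-3/2} dz = 2π / √a` -/
lemma int_one {a : ℝ} (ha : 0 < a) :
    ∫⁻ z : R2, ENNReal.ofReal ((‖z‖ ^ 2 + a) ^ (-(3 : ℝ) / 2))
      = ENNReal.ofReal (2 * Real.pi / Real.sqrt a) := by
  have h := IntA_polar (f := fun y => (y ^ 2 + a) ^ (-(3 : ℝ) / 2))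
    (g := fun y => y * (y ^ 2 + a) ^ (-(3 : ℝ) / 2)) (l := 0) (m := 1 / Real.sqrt a)
    (G := fun y => -(y ^ 2 + a) ^ (-(1 : ℝ) / 2))
    (fun y => Real.rpow_nonneg (IntA_pos ha y).le _) (fun y _ => rfl)
    (fun y _ => by
      have h1 := (IntA_deriv ha y).neg
      rw [neg_neg] at h1
      exact h1)
    (fun y hy => mul_nonneg hy.le (Real.rpow_nonneg (IntA_pos ha y).le _))
    (by simpa using (IntA_tendsto (a := a)).neg) (by
      have h1 : ((0 : ℝ) ^ 2 + a) ^ (-(1 : ℝ) / 2) = 1 / Real.sqrt a := by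
        rw [zero_pow two_ne_zero, zero_add, Real.sqrt_eq_rpow, neg_div, Real.rpow_neg ha.le]
        exact (one_div _).symm
      show 0 - -((0 : ℝ) ^ 2 + a) ^ (-(1 : ℝ) / 2) = 1 / Real.sqrt a
      rw [h1]
      ring)
  rw [h]
  congr 1
  ring

/-- `∫_{R²} |z|^{-1} (|z|² + a)^{-3/2} dz = 2π / a` -/
lemma int_two {a : ℝ} (ha : 0 < a) :
    ∫⁻ z : R2, ENNReal.ofReal ((‖z‖ ^ 2) ^ (-(1 : ℝ) / 2) * (‖z‖ ^ 2 + a) ^ (-(3 : ℝ) / 2))
      = ENNReal.ofReal (2 * Real.pi / a) := by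
  have h := IntA_polar (f := fun y => (y ^ 2) ^ (-(1 : ℝ) / 2) * (y ^ 2 + a) ^ (-(3 : ℝ) / 2))
    (g := fun y => (y ^ 2 + a) ^ (-(3 : ℝ) / 2)) (l := 1 / a) (m := 1 / a)
    (G := fun y => 1 / a * (y * (y ^ 2 + a) ^ (-(1 : ℝ) / 2)))
    (fun y => mul_nonneg (Real.rpow_nonneg (sq_nonneg y) _)
      (Real.rpow_nonneg (IntA_pos ha y).le _)) (fun y hy => by
        have h1 : (y ^ 2) ^ (-(1 : ℝ) / 2) = y⁻¹ := by
          rw [← Real.rpow_natCast, ← Real.rpow_mul hy.le]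
          norm_num
          exact Real.rpow_neg_one y
        rw [h1, ← mul_assoc, mul_inv_cancel₀ hy.ne', one_mul])
    (fun y _ => by
      have h1 := ((hasDerivAt_id y).mul (IntA_deriv ha y)).const_mul (1 / a)
      have h2 : (y ^ 2 + a) ^ (-(1 : ℝ) / 2) = (y ^ 2 + a) * (y ^ 2 + a) ^ (-(3 : ℝ) / 2) := by
        have h3 : -(1 : ℝ) / 2 = 1 + -(3 : ℝ) / 2 := by norm_num
        rw [h3, Real.rpow_add (IntA_pos ha y), Real.rpow_one]
      have h4 : 1 / a * (1 * (y ^ 2 + a) ^ (-(1 : ℝ) / 2) +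
          id y * -(y * (y ^ 2 + a) ^ (-(3 : ℝ) / 2))) = (y ^ 2 + a) ^ (-(3 : ℝ) / 2) := by
        rw [h2, id]
        field_simp
        ring
      rw [h4] at h1
      exact h1)
    (fun y _ => Real.rpow_nonneg (IntA_pos ha y).le _)
    (by
      have h1 : Tendsto (fun y : ℝ => (1 + a * (y ^ 2)⁻¹) ^ (-(1 : ℝ) / 2)) atTop (𝓝 1) := by
        have h2 : Tendsto (fun y : ℝ => 1 + a * (y ^ 2)⁻¹) atTop (𝓝 1) := by
          have h3 : Tendsto (fun y : ℝ => (y ^ 2)⁻¹) atTop (𝓝 0) :=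
            tendsto_inv_atTop_zero.comp (tendsto_pow_atTop two_ne_zero)
          simpa using (h3.const_mul a).const_add 1
        have h3 := h2.rpow_const (p := -(1 : ℝ) / 2) (Or.inl one_ne_zero)
        rwa [Real.one_rpow] at h3
      have h2 : Tendsto (fun y : ℝ => 1 / a * (1 + a * (y ^ 2)⁻¹) ^ (-(1 : ℝ) / 2)) atTop
          (𝓝 (1 / a)) := by
        simpa using h1.const_mul (1 / a)
      refine h2.congr' ?_
      filter_upwards [eventually_gt_atTop 0] with y hy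
      congr 1
      have h3 : y ^ 2 + a = y ^ 2 * (1 + a * (y ^ 2)⁻¹) := by
        field_simp
      have h4 : (y ^ 2) ^ (-(1 : ℝ) / 2) = y⁻¹ := by
        rw [← Real.rpow_natCast, ← Real.rpow_mul hy.le]
        norm_num
        exact Real.rpow_neg_one y
      rw [h3, Real.mul_rpow (by positivity) (by positivity), h4, ← mul_assoc,
        mul_inv_cancel₀ hy.ne', one_mul])
    (by simp)
  rw [h]
  congr 1
  ring

/-- total mass of the majorant -/
theorem int_Gf {n : ℕ} (hn : 1 ≤ n) {κ : ℝ} (hκ : 0 < κ) :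
    ∫⁻ z : R2, ENNReal.ofReal (Gf n κ (‖z‖ ^ 2)) ≤ ENNReal.ofReal (36 * Real.pi * n) := by
  have hn0 : (0 : ℝ) < n := by exact_mod_cast hn
  have ha : 0 < κ / n := div_pos hκ hn0
  have h1 : ∀ z : R2, ENNReal.ofReal (Gf n κ (‖z‖ ^ 2)) =
      ENNReal.ofReal (2 * Real.sqrt (n * κ)) *
        ENNReal.ofReal ((‖z‖ ^ 2 + κ / n) ^ (-(3 : ℝ) / 2)) +
      ENNReal.ofReal (16 * κ) * ENNReal.ofReal ((‖z‖ ^ 2) ^ (-(1 : ℝ) / 2) *
        (‖z‖ ^ 2 + κ / n) ^ (-(3 : ℝ) / 2)) := by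
    intro z
    rw [← ENNReal.ofReal_mul (by positivity), ← ENNReal.ofReal_mul (by positivity),
      ← ENNReal.ofReal_add (by positivity) (by positivity), Gf]
    congr 1
    ring
  have hm1 : Measurable fun z : R2 =>
      ENNReal.ofReal ((‖z‖ ^ 2 + κ / n) ^ (-(3 : ℝ) / 2)) :=
    (((measurable_norm.pow_const 2).add_const _).pow_const _).ennreal_ofReal
  have hm2 : Measurable fun z : R2 =>
      ENNReal.ofReal ((‖z‖ ^ 2) ^ (-(1 : ℝ) / 2) * (‖z‖ ^ 2 + κ / n) ^ (-(3 : ℝ) / 2)) :=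
    (((measurable_norm.pow_const 2).pow_const _).mul
      (((measurable_norm.pow_const 2).add_const _).pow_const _)).ennreal_ofReal
  simp only [h1]
  rw [lintegral_add_left (hm1.const_mul _), lintegral_const_mul _ hm1, lintegral_const_mul _ hm2,
    int_one ha, int_two ha, ← ENNReal.ofReal_mul (by positivity),
    ← ENNReal.ofReal_mul (by positivity), ← ENNReal.ofReal_add (by positivity) (by positivity)]
  refine le_of_eq ?_
  congr 1
  have h2 : Real.sqrt (n * κ) = n * Real.sqrt (κ / n) := by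
    have h3 : (n : ℝ) * κ = (n : ℝ) ^ 2 * (κ / n) := by
      field_simp
    rw [h3, Real.sqrt_mul (by positivity), Real.sqrt_sq hn0.le]
  have h4 : Real.sqrt (κ / n) ≠ 0 := (Real.sqrt_pos.2 ha).ne'
  rw [h2]
  field_simp
  ring

end SHF
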