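import Pool.Agent.W_03a799_h55.WtB
import Pool.Agent.W_03a799_h55.IntA

/-! The fibre integral of the weights. -/

open MeasureTheory Filter Topology
open scoped ENNReal

namespace SHF

variable {n : ℕ}

theorem FibA_meas (n : ℕ) (κ : ℝ) : Measurable fun y : ℝ => Gf n κ y := by
  unfold Gf
  fun_prop

/-- `WW_le` for almost every `k`, `sg` constant on the fibre, translation invariance, `int_Gf` -/
theorem fib_le {m : ℝ} (hm : 0 < m) (hn : 2 ≤ n) {p : Fin n × Fin n} (hp : p ∈ prs n)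
    (x : XX n) :
    ∫⁻ k : R2, ENNReal.ofReal (WW m p (x + es p k)) ≤ ENNReal.ofReal (72 * Real.pi * n) := by
  have hne : p.1 ≠ p.2 := ne_of_prs hp
  set κ : ℝ := sg m p x with hκ
  have hκ0 : 0 < κ := sg_pos hm hp x
  have hp1 : ∀ k : R2, pt (x + es p k) p.1 = pt x p.1 + k := by
    intro k
    rw [pt_add, pt_es, if_pos rfl]
  have hp2 : ∀ k : R2, pt (x + es p k) p.2 = pt x p.2 - k := by
    intro k
    rw [pt_add, pt_es, if_neg hne.symm, if_pos rfl, sub_eq_add_neg]
  have hae : ∀ᵐ k : R2, ENNReal.ofReal (WW m p (x + es p k)) ≤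
      ENNReal.ofReal (Gf n κ (‖pt x p.1 + k‖ ^ 2)) +
        ENNReal.ofReal (Gf n κ (‖pt x p.2 - k‖ ^ 2)) := by
    have h0 : ∀ᵐ k : R2, k ∉ ({-pt x p.1, pt x p.2} : Set R2) := by
      rw [ae_iff]
      simp only [not_not]
      exact (Set.toFinite ({-pt x p.1, pt x p.2} : Set R2)).measure_zero _
    filter_upwards [h0] with k hk
    have hk1 : pt x p.1 + k ≠ 0 := by
      intro h
      apply hk
      left
      exact (neg_eq_of_add_eq_zero_right h).symm
    have hk2 : pt x p.2 - k ≠ 0 := by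
      intro h
      apply hk
      right
      exact (sub_eq_zero.1 h).symm
    have h3 := WW_le hm hn hp (x := x + es p k) (by rw [hp1]; exact norm_pos_iff.2 hk1)
      (by rw [hp2]; exact norm_pos_iff.2 hk2)
    rw [sg_add_es hne, hp1, hp2] at h3
    exact (ENNReal.ofReal_le_ofReal h3).trans ENNReal.ofReal_add_le
  refine (lintegral_mono_ae hae).trans ?_
  have hm1 : Measurable fun k : R2 => ENNReal.ofReal (Gf n κ (‖pt x p.1 + k‖ ^ 2)) := by
    refine ENNReal.measurable_ofReal.comp ((FibA_meas n κ).comp ?_)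
    fun_prop
  rw [lintegral_add_left hm1]
  have h1 : ∫⁻ k : R2, ENNReal.ofReal (Gf n κ (‖pt x p.1 + k‖ ^ 2)) =
      ∫⁻ z : R2, ENNReal.ofReal (Gf n κ (‖z‖ ^ 2)) :=
    lintegral_add_left_eq_self (μ := (volume : Measure R2))
      (fun z : R2 => ENNReal.ofReal (Gf n κ (‖z‖ ^ 2))) (pt x p.1)
  have h2 : ∫⁻ k : R2, ENNReal.ofReal (Gf n κ (‖pt x p.2 - k‖ ^ 2)) =
      ∫⁻ z : R2, ENNReal.ofReal (Gf n κ (‖z‖ ^ 2)) :=
    lintegral_sub_left_eq_self (μ := (volume : Measure R2))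
      (fun z : R2 => ENNReal.ofReal (Gf n κ (‖z‖ ^ 2))) (pt x p.2)
  rw [h1, h2]
  have h4 := int_Gf (n := n) (by omega) hκ0
  refine (add_le_add h4 h4).trans (le_of_eq ?_)
  rw [← ENNReal.ofReal_add (by positivity) (by positivity)]
  congr 1
  ring


end SHF
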