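import Pool.Agent.W_03a799_h55.Flow
import Pool.Agent.W_03a799_h55.Defs

/-! Independent copies on the product space. -/

open MeasureTheory Filter Topology ProbabilityTheory
open scoped ENNReal NNReal

namespace SHF

/-- `n` independent copies of `B` on the product space -/
def WN {Ω : Type*} (n : ℕ) (B : Fin 2 → ℝ≥0 → Ω → ℝ) (p : Fin n × Fin 2) (r : ℝ≥0)
    (ω : Fin n → Ω) : ℝ := B p.2 r (ω p.1)

variable {Ω : Type*} [MeasurableSpace Ω] {P : Measure Ω}

lemma pos_cont {B : Fin 2 → ℝ≥0 → Ω → ℝ} (hB : BM2 B P) : ∀ᵐ ω ∂P, Continuous (pos B ω) := by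
  have h1 : ∀ᵐ ω ∂P, ∀ a, Continuous (B a · ω) := ae_all_iff.2 fun a => (hB.bm a).cont
  filter_upwards [h1] with ω hω
  unfold pos
  exact (PiLp.continuous_toLp 2 _).comp (continuous_pi hω)

lemma FlC_eval [IsProbabilityMeasure P] {X : Type*} (n : ℕ) (i : Fin n) (f : Ω → X)
    (A : Set X) :
    (Measure.pi fun _ : Fin n => P) ((fun ω : Fin n → Ω => f (ω i)) ⁻¹' A) = P (f ⁻¹' A) := by
  classical
  have h1 : (fun ω : Fin n → Ω => f (ω i)) ⁻¹' A =
      Set.univ.pi fun k : Fin n => if k = i then f ⁻¹' A else Set.univ := by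
    ext ω
    simp only [Set.mem_preimage, Set.mem_univ_pi]
    constructor
    · intro h k
      split_ifs with hk
      · rw [hk]
        exact h
      · exact Set.mem_univ _
    · intro h
      have := h i
      rwa [if_pos rfl] at this
  rw [h1, Measure.pi_pi, Finset.prod_eq_single i]
  · rw [if_pos rfl]
  · intro k _ hk
    rw [if_neg hk, measure_univ]
  · intro h
    exact absurd (Finset.mem_univ i) h

/-- `WN n B` is a family of `2n` independent Brownian motions under `P^{⊗n}`: each coordinate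
has the law of `B` (measure preserving evaluation); independence over `Fin n` of the product
measure combined with independence over `Fin 2` -/
theorem WN_fam [IsProbabilityMeasure P] {B : Fin 2 → ℝ≥0 → Ω → ℝ} (hB : BM2 B P) (n : ℕ) :
    BMfam (WN n B) (Measure.pi fun _ : Fin n => P) := by
  classical
  refine ⟨fun p => ⟨⟨fun I => ?_⟩, ?_⟩, ?_⟩
  · exact ((hB.bm p.2).hasLaw I).comp
      (measurePreserving_eval (fun _ : Fin n => P) p.1).hasLaw
  · exact (Measure.quasiMeasurePreserving_eval (fun _ : Fin n => P) p.1).ae (hB.bm p.2).cont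
  · rw [iIndepFun_iff_measure_inter_preimage_eq_mul]
    intro S sets hsets
    set A : Fin n → Fin 2 → Set (ℝ≥0 → ℝ) := fun i a =>
      if (i, a) ∈ S then sets (i, a) else Set.univ with hA
    have hAm : ∀ i a, MeasurableSet (A i a) := by
      intro i a
      rw [hA]
      dsimp only
      split_ifs with h
      · exact hsets _ h
      · exact MeasurableSet.univ
    have h1 : (⋂ p ∈ S, (fun (ω : Fin n → Ω) (s : ℝ≥0) => WN n B p s ω) ⁻¹' sets p) =
        Set.univ.pi fun i => ⋂ a ∈ (Finset.univ : Finset (Fin 2)),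
          (fun (ω : Ω) (r : ℝ≥0) => B a r ω) ⁻¹' A i a := by
      ext ω
      simp only [Set.mem_iInter, Set.mem_preimage, Set.mem_univ_pi]
      constructor
      · intro h i a _
        rw [hA]
        dsimp only
        split_ifs with hia
        · exact h (i, a) hia
        · exact Set.mem_univ _
      · rintro h ⟨i, a⟩ hia
        have h2 := h i a (Finset.mem_univ a)
        rw [hA] at h2
        dsimp only at h2
        rw [if_pos hia] at h2
        exact h2
    rw [h1, Measure.pi_pi]
    have h2 : ∀ i : Fin n, P (⋂ a ∈ (Finset.univ : Finset (Fin 2)),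
        (fun (ω : Ω) (r : ℝ≥0) => B a r ω) ⁻¹' A i a) =
        ∏ a, P ((fun (ω : Ω) (r : ℝ≥0) => B a r ω) ⁻¹' A i a) := fun i =>
      hB.ind.measure_inter_preimage_eq_mul Finset.univ fun a _ => hAm i a
    simp only [h2]
    have h3 : ∀ p ∈ S, (Measure.pi fun _ : Fin n => P)
        ((fun (ω : Fin n → Ω) (s : ℝ≥0) => WN n B p s ω) ⁻¹' sets p) =
        P ((fun (ω : Ω) (r : ℝ≥0) => B p.2 r ω) ⁻¹' A p.1 p.2) := by
      intro p hp
      have h4 : A p.1 p.2 = sets p := if_pos hp
      rw [h4]
      exact FlC_eval n p.1 (fun (ω : Ω) (r : ℝ≥0) => B p.2 r ω) (sets p)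
    rw [Finset.prod_congr rfl h3, ← Fintype.prod_prod_type' (f := fun i a =>
      P ((fun (ω : Ω) (r : ℝ≥0) => B a r ω) ⁻¹' A i a))]
    symm
    refine Finset.prod_subset (Finset.subset_univ S) fun p _ hp => ?_
    have h4 : A p.1 p.2 = Set.univ := if_neg hp
    rw [h4, Set.preimage_univ, measure_univ]

end SHF
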