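import Pool.Agent.W_03a799_h55.Geo

/-! Product functions on `XX n`. -/

open MeasureTheory Filter Topology
open scoped ENNReal NNReal

namespace SHF

variable {n : ℕ}

lemma Prd_prod {α : Type*} [MeasurableSpace α] (μ : Measure α) [SigmaFinite μ] (n : ℕ)
    (F : Fin n → α → ℝ≥0∞) (hF : ∀ i, Measurable (F i)) :
    ∫⁻ x : Fin n → α, ∏ i, F i (x i) ∂(Measure.pi fun _ => μ) = ∏ i, ∫⁻ y, F i y ∂μ := by
  induction n with
  | zero => simp
  | succ n ih =>
    have h1 := (measurePreserving_piFinSuccAbove (fun _ : Fin (n + 1) => μ) 0).symm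
    have hm : Measurable fun x : Fin (n + 1) → α => ∏ i, F i (x i) :=
      Finset.measurable_prod _ fun i _ => (hF i).comp (measurable_pi_apply i)
    rw [← h1.lintegral_comp hm]
    have h2 : ∀ z : α × (Fin n → α), ∏ i, F i
        ((MeasurableEquiv.piFinSuccAbove (fun _ : Fin (n + 1) => α) 0).symm z i) =
        F 0 z.1 * ∏ i : Fin n, F i.succ (z.2 i) := by
      intro z
      rw [Fin.prod_univ_succ]
      rfl
    simp only [h2]
    have h3 : Measurable fun y : Fin n → α => ∏ i : Fin n, F i.succ (y i) :=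
      Finset.measurable_prod _ fun i _ => (hF i.succ).comp (measurable_pi_apply i)
    have h4 := lintegral_prod_mul (μ := μ) (ν := Measure.pi fun _ : Fin n => μ)
      (f := F 0) (g := fun y : Fin n → α => ∏ i : Fin n, F i.succ (y i))
      (hF 0).aemeasurable h3.aemeasurable
    rw [Fin.prod_univ_succ, ← ih (fun i => F i.succ) fun i => hF i.succ]
    exact h4

lemma Prd_curry (n : ℕ) :
    MeasurePreserving (fun (x : Fin n × Fin 2 → ℝ) (i : Fin n) (a : Fin 2) => x (i, a)) volume
      (Measure.pi fun _ : Fin n => (volume : Measure (Fin 2 → ℝ))) := by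
  have hm : Measurable (fun (x : Fin n × Fin 2 → ℝ) (i : Fin n) (a : Fin 2) => x (i, a)) :=
    measurable_pi_lambda _ fun i => measurable_pi_lambda _ fun a => measurable_pi_apply _
  refine ⟨hm, ?_⟩
  symm
  refine Measure.pi_eq_generateFrom
    (C := fun _ => Set.pi Set.univ '' Set.pi Set.univ fun _ : Fin 2 => {s : Set ℝ | MeasurableSet s})
    (fun _ => generateFrom_pi) (fun _ => isPiSystem_pi) (fun _ => ?_) ?_
  · exact Measure.FiniteSpanningSetsIn.pi fun _ => Measure.toFiniteSpanningSetsIn _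
  · intro s hs
    have hs' : ∀ i, ∃ I : Fin 2 → Set ℝ, (∀ a, MeasurableSet (I a)) ∧ Set.pi Set.univ I = s i := by
      intro i
      obtain ⟨I, hI, h⟩ := hs i
      exact ⟨I, fun a => hI a (Set.mem_univ a), h⟩
    choose I hI hIs using hs'
    have hsm : ∀ i, MeasurableSet (s i) := fun i => by
      rw [← hIs i]
      exact MeasurableSet.univ_pi (hI i)
    rw [Measure.map_apply hm (MeasurableSet.univ_pi hsm)]
    have h1 : (fun (x : Fin n × Fin 2 → ℝ) (i : Fin n) (a : Fin 2) => x (i, a)) ⁻¹'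
        Set.pi Set.univ s = Set.pi Set.univ fun p : Fin n × Fin 2 => I p.1 p.2 := by
      ext x
      simp only [Set.mem_preimage, Set.mem_univ_pi, ← hIs]
      exact ⟨fun h p => h p.1 p.2, fun h i a => h (i, a)⟩
    rw [h1, volume_pi_pi, Fintype.prod_prod_type]
    refine Finset.prod_congr rfl fun i _ => ?_
    rw [← hIs i, volume_pi_pi]

lemma Prd_mp (n : ℕ) : MeasurePreserving (fun (x : XX n) (i : Fin n) => pt x i) volume
    (Measure.pi fun _ : Fin n => (volume : Measure R2)) := by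
  have h1 := PiLp.volume_preserving_ofLp (Fin n × Fin 2)
  have h2 := measurePreserving_pi (fun _ : Fin n => (volume : Measure (Fin 2 → ℝ)))
    (fun _ : Fin n => (volume : Measure R2))
    fun _ => PiLp.volume_preserving_toLp (Fin 2)
  exact h2.comp ((Prd_curry n).comp h1)

lemma lint_tens {F : Fin n → R2 → ℝ≥0∞} (hF : ∀ i, Measurable (F i)) :
    ∫⁻ x : XX n, ∏ i, F i (pt x i) = ∏ i, ∫⁻ y, F i y := by
  have hm : Measurable fun x : Fin n → R2 => ∏ i, F i (x i) :=
    Finset.measurable_prod _ fun i _ => (hF i).comp (measurable_pi_apply i)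
  rw [← Prd_prod volume n F hF]
  exact (Prd_mp n).lintegral_comp hm

lemma tens_meas {φ : R2 → ℝ} (hφ : Measurable φ) : Measurable (tens φ : XX n → ℝ≥0∞) := by
  have h1 : (tens φ : XX n → ℝ≥0∞) = fun x => ∏ i, ENNReal.ofReal (φ (pt x i)) := rfl
  rw [h1]
  exact Finset.measurable_prod _ fun i _ =>
    (hφ.comp (continuous_pt i).measurable).ennreal_ofReal

lemma tens_sq {φ : R2 → ℝ} (hφ : Measurable φ) :
    ∫⁻ x : XX n, (tens φ x) ^ 2 = (∫⁻ y, (ENNReal.ofReal (φ y)) ^ 2) ^ n := by
  have h1 : ∀ x : XX n, (tens φ x) ^ 2 = ∏ i, (fun _ : Fin n => fun y : R2 =>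
      (ENNReal.ofReal (φ y)) ^ 2) i (pt x i) := by
    intro x
    rw [tens, ← Finset.prod_pow]
  simp only [h1]
  rw [lint_tens (F := fun _ : Fin n => fun y : R2 => (ENNReal.ofReal (φ y)) ^ 2)
    fun _ => hφ.ennreal_ofReal.pow_const 2]
  rw [Finset.prod_const, Finset.card_univ, Fintype.card_fin]

end SHF
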