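import Pool.Agent.W_03a799_h55.MSA
import Pool.Agent.W_03a799_h55.Apos

/-! One Trotter step: `∫ exp(τV) (P_{τ/2} g)² ≤ (1 + λτ + O(τ²)) ∫ g²`. -/

open MeasureTheory Filter Topology
open scoped ENNReal NNReal FourierTransform

namespace SHF

variable {n : ℕ}

lemma VV_nonneg {b : ℝ} (hb : 0 ≤ b) {R : R2 → ℝ} (hR : ∀ z, 0 ≤ R z) (x : XX n) :
    0 ≤ VV b R x := mul_nonneg hb (Finset.sum_nonneg fun _ _ => hR _)

lemma VV_le {b : ℝ} (hb : 0 ≤ b) {R : R2 → ℝ} {C : ℝ} (hC : 0 ≤ C) (hR : ∀ z, R z ≤ C)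
    (x : XX n) : VV b R x ≤ b * n ^ 2 * C := by
  unfold VV
  rw [mul_assoc]
  refine mul_le_mul_of_nonneg_left ?_ hb
  have h1 : ∑ p ∈ prs n, R (df p x) ≤ ∑ _p ∈ prs n, C := Finset.sum_le_sum fun _ _ => hR _
  rw [Finset.sum_const, nsmul_eq_mul] at h1
  refine h1.trans (mul_le_mul_of_nonneg_right ?_ hC)
  have h2 : (prs n).card ≤ n ^ 2 := by
    refine (Finset.card_le_univ _).trans (le_of_eq ?_)
    rw [Fintype.card_prod, Fintype.card_fin, sq]
  exact_mod_cast h2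

lemma VV_cont {b : ℝ} {R : R2 → ℝ} (hR : Continuous R) : Continuous (VV b R : XX n → ℝ) := by
  unfold VV
  exact continuous_const.mul (continuous_finsetSum _ fun p _ => hR.comp (continuous_df p))

/-- everything that is used of the potential -/
structure Pot (n : ℕ) (R ρ : R2 → ℝ) (b lam : ℝ) : Prop where
  hR0 : ∀ z, 0 ≤ R z
  hRc : Continuous R
  pd : PD ρ
  inv : ∀ z, (R z : ℂ) =
      ∫ k, (ρ k : ℂ) * Complex.exp (2 * Real.pi * Complex.I * (inner ℝ k z : ℝ))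
  hb : 0 ≤ b
  hl : 0 < lam
  form : ∀ f : XX n → ℝ≥0∞, Measurable f →
    ENNReal.ofReal b * AA ρ f ≤ ∫⁻ x, ENNReal.ofReal (Sk lam x) * (f x) ^ 2

/-- the form inequality for `P_s g` (from `apos` and `form` with `f = Fs s g`) -/
lemma form_pos {R ρ : R2 → ℝ} {b lam : ℝ} (h : Pot n R ρ b lam) {s : ℝ} (hs : 0 < s)
    {g : XX n → ℝ} (hg' : Nice g) :
    ∫⁻ x, ENNReal.ofReal (VV b R x) * (PE s (fun y => ENNReal.ofReal (g y)) x) ^ 2
      ≤ ∫⁻ ξ, ENNReal.ofReal (Sk lam ξ) * (Fs s g ξ) ^ 2 := by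
  refine le_trans ?_ (h.form (Fs s g) (Fs_meas s hg'))
  set P : XX n → ℝ≥0∞ := fun x => (PE s (fun y => ENNReal.ofReal (g y)) x) ^ 2 with hP
  have hPm : Measurable P := (PE_meas s hg'.meas.ennreal_ofReal).pow_const 2
  have hρi : Integrable ρ := by
    refine ⟨h.pd.meas.aestronglyMeasurable, ?_⟩
    rw [hasFiniteIntegral_iff_ofReal (ae_of_all _ h.pd.nonneg)]
    exact h.pd.int
  have hm : ∀ p ∈ prs n, Measurable fun x : XX n => ENNReal.ofReal (R (df p x)) * P x :=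
    fun p _ => ((h.hRc.comp (continuous_df p)).measurable.ennreal_ofReal).mul hPm
  have h1 : ∀ x : XX n, ENNReal.ofReal (VV b R x) * P x =
      ENNReal.ofReal b * ∑ p ∈ prs n, ENNReal.ofReal (R (df p x)) * P x := by
    intro x
    unfold VV
    rw [ENNReal.ofReal_mul h.hb, ENNReal.ofReal_sum_of_nonneg (fun p _ => h.hR0 _),
      mul_assoc, Finset.sum_mul]
  calc ∫⁻ x, ENNReal.ofReal (VV b R x) * P x
      = ∫⁻ x, ENNReal.ofReal b * ∑ p ∈ prs n, ENNReal.ofReal (R (df p x)) * P x :=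
        lintegral_congr h1
    _ = ENNReal.ofReal b * ∑ p ∈ prs n, ∫⁻ x, ENNReal.ofReal (R (df p x)) * P x := by
        rw [lintegral_const_mul _ (Finset.measurable_sum _ hm), lintegral_finsetSum _ hm]
    _ ≤ ENNReal.ofReal b * AA ρ (Fs s g) := by
        refine mul_le_mul_right (Finset.sum_le_sum fun p hp => ?_) _
        exact apos h.hR0 h.hRc.measurable h.pd.meas h.pd.nonneg hρi h.inv (ne_of_prs hp) hs hg'

/-- scalar inequality `(1 + τ S) exp(-4π²(τ/2)|ξ|²) ≤ 1 + λτ`, with `x = 2π²τ|ξ|²`: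
`(1 + x + λτ) e^{-x} ≤ 1 + λτ` -/
lemma scal_le {x y : ℝ} (hx : 0 ≤ x) (hy : 0 ≤ y) : (1 + x + y) * Real.exp (-x) ≤ 1 + y := by
  have h1 : (1 + x) * Real.exp (-x) ≤ 1 := by
    have h2 : 1 + x ≤ Real.exp x := by linarith [Real.add_one_le_exp x]
    calc (1 + x) * Real.exp (-x) ≤ Real.exp x * Real.exp (-x) :=
          mul_le_mul_of_nonneg_right h2 (Real.exp_pos _).le
      _ = 1 := by rw [← Real.exp_add, add_neg_cancel, Real.exp_zero]
  have h3 : Real.exp (-x) ≤ 1 := Real.exp_le_one_iff.2 (by linarith)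
  have h4 : y * Real.exp (-x) ≤ y := mul_le_of_le_one_right hy h3
  calc (1 + x + y) * Real.exp (-x) = (1 + x) * Real.exp (-x) + y * Real.exp (-x) := by ring
    _ ≤ 1 + y := add_le_add h1 h4

/-- `e^x ≤ 1 + x + v² e^v` for `0 ≤ x ≤ v` -/
lemma exp_le_quad {x v : ℝ} (hx : 0 ≤ x) (hv : x ≤ v) :
    Real.exp x ≤ 1 + x + v ^ 2 * Real.exp v := by
  have h1 : (1 - x) * Real.exp x ≤ 1 := by
    have h2 : 1 - x ≤ Real.exp (-x) := by linarith [Real.add_one_le_exp (-x)]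
    calc (1 - x) * Real.exp x ≤ Real.exp (-x) * Real.exp x :=
          mul_le_mul_of_nonneg_right h2 (Real.exp_pos _).le
      _ = 1 := by rw [← Real.exp_add, neg_add_cancel, Real.exp_zero]
  have h3 : Real.exp x - 1 ≤ x * Real.exp x := by linarith
  have h4 : Real.exp x - 1 - x ≤ x ^ 2 * Real.exp x := by
    have h5 : x * (Real.exp x - 1) ≤ x * (x * Real.exp x) := mul_le_mul_of_nonneg_left h3 hx
    nlinarith
  have h6 : x ^ 2 * Real.exp x ≤ v ^ 2 * Real.exp v := by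
    refine mul_le_mul ?_ (Real.exp_le_exp.2 hv) (Real.exp_pos _).le (sq_nonneg _)
    exact pow_le_pow_left₀ hx hv 2
  linarith

lemma step_nice {R ρ : R2 → ℝ} {b lam : ℝ} (h : Pot n R ρ b lam) {τ v : ℝ} (hτ : 0 < τ)
    (hv : ∀ x : XX n, VV b R x ≤ v) {g : XX n → ℝ} (hg' : Nice g) :
    ∫⁻ x, ENNReal.ofReal (Real.exp (τ * VV b R x))
        * (PE (τ / 2) (fun y => ENNReal.ofReal (g y)) x) ^ 2
      ≤ ENNReal.ofReal (1 + lam * τ + (τ * v) ^ 2 * Real.exp (τ * v))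
        * ∫⁻ x, (ENNReal.ofReal (g x)) ^ 2 := by
  have hs : 0 < τ / 2 := by positivity
  set c : ℝ := (τ * v) ^ 2 * Real.exp (τ * v) with hc
  have hc0 : 0 ≤ c := by positivity
  set P : XX n → ℝ≥0∞ := fun x => (PE (τ / 2) (fun y => ENNReal.ofReal (g y)) x) ^ 2 with hP
  have hPm : Measurable P := (PE_meas (τ / 2) hg'.meas.ennreal_ofReal).pow_const 2
  have hV0 : ∀ x : XX n, 0 ≤ VV b R x := fun x => VV_nonneg h.hb h.hR0 x
  have hVm : Measurable fun x : XX n => ENNReal.ofReal (VV b R x) :=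
    (VV_cont h.hRc).measurable.ennreal_ofReal
  have hSm : Measurable (fun x : XX n => ENNReal.ofReal (Sk lam x)) :=
    (MSA_Sk_meas lam).ennreal_ofReal
  have hFm2 : Measurable fun ξ : XX n => (Fs (τ / 2) g ξ) ^ 2 := (Fs_meas _ hg').pow_const 2
  have hVP : Measurable fun x : XX n => ENNReal.ofReal (VV b R x) * P x := hVm.mul hPm
  have hSF : Measurable fun ξ : XX n => ENNReal.ofReal (Sk lam ξ) * (Fs (τ / 2) g ξ) ^ 2 :=
    hSm.mul hFm2
  have h1 : ∀ x : XX n, ENNReal.ofReal (Real.exp (τ * VV b R x)) * P x ≤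
      ENNReal.ofReal (1 + c) * P x + ENNReal.ofReal τ * (ENNReal.ofReal (VV b R x) * P x) := by
    intro x
    have h2 : Real.exp (τ * VV b R x) ≤ 1 + τ * VV b R x + (τ * v) ^ 2 * Real.exp (τ * v) :=
      exp_le_quad (mul_nonneg hτ.le (hV0 x)) (mul_le_mul_of_nonneg_left (hv x) hτ.le)
    have h3 : ENNReal.ofReal (Real.exp (τ * VV b R x)) ≤
        ENNReal.ofReal (1 + c) + ENNReal.ofReal τ * ENNReal.ofReal (VV b R x) := by
      rw [← ENNReal.ofReal_mul hτ.le, ← ENNReal.ofReal_add (by positivity)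
        (mul_nonneg hτ.le (hV0 x))]
      refine ENNReal.ofReal_le_ofReal (h2.trans (le_of_eq ?_))
      rw [hc]
      ring
    calc _ ≤ (ENNReal.ofReal (1 + c) + ENNReal.ofReal τ * ENNReal.ofReal (VV b R x)) * P x :=
          mul_le_mul_left h3 _
      _ = _ := by rw [add_mul, mul_assoc]
  have h4 : ∀ ξ : XX n, ENNReal.ofReal (1 + c) * (Fs (τ / 2) g ξ) ^ 2 +
      ENNReal.ofReal τ * (ENNReal.ofReal (Sk lam ξ) * (Fs (τ / 2) g ξ) ^ 2) ≤
      ENNReal.ofReal (1 + lam * τ + c) * (Fm g ξ) ^ 2 := by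
    intro ξ
    have hx : 0 ≤ 2 * Real.pi ^ 2 * τ * ‖ξ‖ ^ 2 := by positivity
    have hS0 : 0 ≤ Sk lam ξ := (MSA_Sk_pos h.hl ξ).le
    have h5 : (Fs (τ / 2) g ξ) ^ 2 =
        ENNReal.ofReal (Real.exp (-(2 * Real.pi ^ 2 * τ * ‖ξ‖ ^ 2))) * (Fm g ξ) ^ 2 := by
      unfold Fs
      rw [mul_pow, ← ENNReal.ofReal_pow (Real.exp_pos _).le, ← Real.exp_nat_mul]
      congr 3
      push_cast
      ring
    have h6 : (1 + c) * Real.exp (-(2 * Real.pi ^ 2 * τ * ‖ξ‖ ^ 2)) +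
        τ * (Sk lam ξ * Real.exp (-(2 * Real.pi ^ 2 * τ * ‖ξ‖ ^ 2))) ≤ 1 + lam * τ + c := by
      have h7 := scal_le hx (mul_nonneg h.hl.le hτ.le)
      have h8 : Real.exp (-(2 * Real.pi ^ 2 * τ * ‖ξ‖ ^ 2)) ≤ 1 :=
        Real.exp_le_one_iff.2 (by linarith)
      have h9 : c * Real.exp (-(2 * Real.pi ^ 2 * τ * ‖ξ‖ ^ 2)) ≤ c :=
        mul_le_of_le_one_right hc0 h8
      unfold Sk
      calc _ = (1 + 2 * Real.pi ^ 2 * τ * ‖ξ‖ ^ 2 + lam * τ) *
            Real.exp (-(2 * Real.pi ^ 2 * τ * ‖ξ‖ ^ 2)) +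
            c * Real.exp (-(2 * Real.pi ^ 2 * τ * ‖ξ‖ ^ 2)) := by ring
        _ ≤ 1 + lam * τ + c := add_le_add h7 h9
    rw [h5]
    calc _ = ENNReal.ofReal ((1 + c) * Real.exp (-(2 * Real.pi ^ 2 * τ * ‖ξ‖ ^ 2)) +
        τ * (Sk lam ξ * Real.exp (-(2 * Real.pi ^ 2 * τ * ‖ξ‖ ^ 2)))) * (Fm g ξ) ^ 2 := by
          have hA : 0 ≤ (1 + c) * Real.exp (-(2 * Real.pi ^ 2 * τ * ‖ξ‖ ^ 2)) := by positivity
          have hB : 0 ≤ τ * (Sk lam ξ * Real.exp (-(2 * Real.pi ^ 2 * τ * ‖ξ‖ ^ 2))) := by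
            positivity
          rw [ENNReal.ofReal_add hA hB,
            ENNReal.ofReal_mul (by positivity : (0 : ℝ) ≤ 1 + c), ENNReal.ofReal_mul hτ.le,
            ENNReal.ofReal_mul hS0]
          ring
      _ ≤ _ := mul_le_mul_left (ENNReal.ofReal_le_ofReal h6) _
  calc ∫⁻ x, ENNReal.ofReal (Real.exp (τ * VV b R x)) * P x
      ≤ ∫⁻ x, (ENNReal.ofReal (1 + c) * P x +
          ENNReal.ofReal τ * (ENNReal.ofReal (VV b R x) * P x)) := lintegral_mono h1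
    _ = ENNReal.ofReal (1 + c) * (∫⁻ x, P x) +
          ENNReal.ofReal τ * ∫⁻ x, ENNReal.ofReal (VV b R x) * P x := by
        rw [lintegral_add_left (hPm.const_mul _), lintegral_const_mul _ hPm,
          lintegral_const_mul _ hVP]
    _ ≤ ENNReal.ofReal (1 + c) * (∫⁻ ξ, (Fs (τ / 2) g ξ) ^ 2) +
          ENNReal.ofReal τ * ∫⁻ ξ, ENNReal.ofReal (Sk lam ξ) * (Fs (τ / 2) g ξ) ^ 2 := by
        refine add_le_add (mul_le_mul_right (le_of_eq ?_) _) (mul_le_mul_right ?_ _)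
        · exact planch_s hs hg'
        · exact form_pos h hs hg'
    _ = ∫⁻ ξ, (ENNReal.ofReal (1 + c) * (Fs (τ / 2) g ξ) ^ 2 +
          ENNReal.ofReal τ * (ENNReal.ofReal (Sk lam ξ) * (Fs (τ / 2) g ξ) ^ 2)) := by
        rw [lintegral_add_left (hFm2.const_mul _), lintegral_const_mul _ hFm2,
          lintegral_const_mul _ hSF]
    _ ≤ ∫⁻ ξ, ENNReal.ofReal (1 + lam * τ + c) * (Fm g ξ) ^ 2 := lintegral_mono h4
    _ = ENNReal.ofReal (1 + lam * τ + c) * ∫⁻ ξ, (Fm g ξ) ^ 2 :=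
        lintegral_const_mul _ ((Fm_meas hg').pow_const 2)
    _ ≤ _ := mul_le_mul_right (planch_0 hg') _

lemma Step_nice {g : XX n → ℝ≥0∞} (hg' : Measurable g) (N : ℕ) :
    Nice (fun x => (tru g N x).toReal) := by
  refine ⟨(MSA_tru_meas hg' N).ennreal_toReal, fun _ => ENNReal.toReal_nonneg,
    ⟨N, fun x => ?_⟩, ⟨N, fun x hx => ?_⟩⟩
  · have h1 : tru g N x ≤ (N : ℝ≥0∞) := by
      simp only [tru]
      split_ifs
      · exact min_le_right _ _
      · exact zero_le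
    have h2 := ENNReal.toReal_mono (ENNReal.natCast_ne_top N) h1
    rwa [ENNReal.toReal_natCast] at h2
  · simp only [tru]
    rw [if_neg (not_le.mpr hx), ENNReal.toReal_zero]

lemma Step_ofReal (g : XX n → ℝ≥0∞) (N : ℕ) (x : XX n) :
    ENNReal.ofReal (tru g N x).toReal = tru g N x := by
  refine ENNReal.ofReal_toReal (ne_top_of_le_ne_top (ENNReal.natCast_ne_top N) ?_)
  simp only [tru]
  split_ifs
  · exact min_le_right _ _
  · exact zero_le

/-- general `g`: monotone limit of truncations -/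
theorem step {R ρ : R2 → ℝ} {b lam : ℝ} (h : Pot n R ρ b lam) {τ v : ℝ} (hτ : 0 < τ)
    (hv : ∀ x : XX n, VV b R x ≤ v) {g : XX n → ℝ≥0∞} (hg' : Measurable g) :
    ∫⁻ x, ENNReal.ofReal (Real.exp (τ * VV b R x)) * (PE (τ / 2) g x) ^ 2
      ≤ ENNReal.ofReal (1 + lam * τ + (τ * v) ^ 2 * Real.exp (τ * v)) * ∫⁻ x, (g x) ^ 2 := by
  have hmono : Monotone (fun N => tru g N) := fun N M hNM x => MSA_tru_mono g x hNM
  have hPE : ∀ x, PE (τ / 2) g x = ⨆ N, PE (τ / 2) (tru g N) x := by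
    intro x
    rw [← PE_iSup (τ / 2) (fun N => MSA_tru_meas hg' N) hmono x]
    congr 1
    funext y
    exact (MSA_tru_sup g y).symm
  have hPmono : ∀ x, Monotone fun N => PE (τ / 2) (tru g N) x :=
    fun x N M hNM => PE_mono _ (hmono hNM) x
  have hem : Measurable fun x : XX n => ENNReal.ofReal (Real.exp (τ * VV b R x)) :=
    (Real.continuous_exp.comp (continuous_const.mul (VV_cont h.hRc))).measurable.ennreal_ofReal
  have h1 : ∀ x : XX n, ENNReal.ofReal (Real.exp (τ * VV b R x)) * (PE (τ / 2) g x) ^ 2 =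
      ⨆ N, ENNReal.ofReal (Real.exp (τ * VV b R x)) * (PE (τ / 2) (tru g N) x) ^ 2 := by
    intro x
    rw [hPE x, sq, MSA_iSup_mul (hPmono x) (hPmono x), ENNReal.mul_iSup]
    simp only [sq]
  rw [lintegral_congr h1, lintegral_iSup]
  · refine iSup_le fun N => ?_
    have h2 := step_nice h hτ hv (Step_nice hg' N)
    simp only [Step_ofReal] at h2
    refine h2.trans (mul_le_mul_right (lintegral_mono fun x => ?_) _)
    exact pow_le_pow_left' (MSA_tru_le g N x) 2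
  · intro N
    exact hem.mul ((PE_meas _ (MSA_tru_meas hg' N)).pow_const 2)
  · intro N M hNM x
    exact mul_le_mul_right (pow_le_pow_left' (hPmono x hNM) 2) _

end SHF
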