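import Pool.Agent.W_03a799_h55.FlB
import Pool.Agent.W_03a799_h55.FlC
import Pool.Agent.W_03a799_h55.Geo
import Pool.Agent.W_03a799_h55.Step
import Pool.Agent.W_03a799_h55.Prd

/-! The moments of the mollified flow are the Feynman-Kac moments. -/

open MeasureTheory Filter Topology ProbabilityTheory
open scoped ENNReal NNReal

namespace SHF

/-- `XX n` and `Fin n → R2` -/
lemma lint_XX {n : ℕ} {F : (Fin n → R2) → ℝ≥0∞} (hF : Measurable F) :
    ∫⁻ x : XX n, F (fun i => pt x i) = ∫⁻ y : Fin n → R2, F y :=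
  (Prd_mp n).lintegral_comp hF

lemma FlD_prod {α : Type*} [MeasurableSpace α] {μ : Measure α} [SigmaFinite μ] {n : ℕ}
    {F : Fin n → α → ℝ≥0∞} (hF : ∀ i, AEMeasurable (F i) μ) :
    ∏ i, ∫⁻ a, F i a ∂μ = ∫⁻ a : Fin n → α, ∏ i, F i (a i) ∂(Measure.pi fun _ => μ) := by
  have h1 := Prd_prod μ n (fun i => (hF i).mk (F i)) fun i => (hF i).measurable_mk
  have h2 : ∏ i, ∫⁻ a, F i a ∂μ = ∏ i, ∫⁻ a, (hF i).mk (F i) a ∂μ :=
    Finset.prod_congr rfl fun i _ => lintegral_congr_ae (hF i).ae_eq_mk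
  rw [h2, ← h1]
  refine lintegral_congr_ae ?_
  have h3 : ∀ᵐ a ∂(Measure.pi fun _ : Fin n => μ), ∀ i, F i (a i) = (hF i).mk (F i) (a i) := by
    rw [ae_all_iff]
    intro i
    exact (Measure.quasiMeasurePreserving_eval (fun _ : Fin n => μ) i).ae (hF i).ae_eq_mk
  filter_upwards [h3] with a ha
  exact Finset.prod_congr rfl fun i _ => (ha i).symm

/-- power of an integral as an integral over the product space -/
lemma lint_pow {α : Type*} [MeasurableSpace α] {μ : Measure α} [SigmaFinite μ] {f : α → ℝ≥0∞}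
    (hf : AEMeasurable f μ) (n : ℕ) :
    (∫⁻ a, f a ∂μ) ^ n = ∫⁻ a : Fin n → α, ∏ i, f (a i) ∂(Measure.pi fun _ => μ) := by
  rw [← FlD_prod (F := fun _ : Fin n => f) fun _ => hf, Finset.prod_const, Finset.card_univ,
    Fintype.card_fin]

variable {Ω Ω' : Type*} [MeasurableSpace Ω] [MeasurableSpace Ω'] {P : Measure Ω}
  {Q : Measure Ω'}

/-- the integrand of `ZZ`, with a measurable version `p` of the end point -/
noncomputable def FlD_g (ψ : R2 → ℝ) (H : R2 → Ω → Ω' → ℝ) (c : ℝ) (p : Ω → R2) (x : R2) (ω : Ω)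
    (ω' : Ω') : ℝ≥0∞ :=
  ENNReal.ofReal (ψ (x + p ω)) * ENNReal.ofReal (Real.exp (H x ω ω' - c))

lemma FlD_g_meas {ψ : R2 → ℝ} (hψ : Measurable ψ) {H : R2 → Ω → Ω' → ℝ}
    (hH : Measurable (fun z : R2 × Ω × Ω' => H z.1 z.2.1 z.2.2)) (c : ℝ) {p : Ω → R2}
    (hp : Measurable p) :
    Measurable fun z : R2 × Ω × Ω' => FlD_g ψ H c p z.1 z.2.1 z.2.2 := by
  have h1 : Measurable fun z : R2 × Ω × Ω' => ENNReal.ofReal (ψ (z.1 + p z.2.1)) :=
    (hψ.comp (measurable_fst.add (hp.comp (measurable_fst.comp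
      measurable_snd)))).ennreal_ofReal
  have h2 : Measurable fun z : R2 × Ω × Ω' =>
      ENNReal.ofReal (Real.exp (H z.1 z.2.1 z.2.2 - c)) :=
    (Real.measurable_exp.comp (hH.sub_const c)).ennreal_ofReal
  exact h1.mul h2

lemma FlD_pos {B : Fin 2 → ℝ≥0 → Ω → ℝ} (hB : BM2 B P) (τ : ℝ≥0) :
    ∃ p : Ω → R2, Measurable p ∧ ∀ᵐ ω ∂P, pos B ω τ = p ω := by
  have h : AEMeasurable (fun ω (a : Fin 2) => B a τ ω) P :=
    aemeasurable_pi_lambda _ fun a => (hB.bm a).toIsPreBrownianReal.aemeasurable τ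
  have h1 : AEMeasurable (fun ω => pos B ω τ) P :=
    (WithLp.measurable_toLp 2 _).comp_aemeasurable h
  exact ⟨h1.mk _, h1.measurable_mk, h1.ae_eq_mk⟩

omit [MeasurableSpace Ω'] in
lemma FlD_ZZ {j : R2 → ℝ} {β ε s t : ℝ} {B : Fin 2 → ℝ≥0 → Ω → ℝ} {H : R2 → Ω → Ω' → ℝ}
    {φ ψ : R2 → ℝ} {p : Ω → R2} (hp : ∀ᵐ ω ∂P, pos B ω (t - s).toNNReal = p ω) (ω' : Ω') :
    ZZ j β ε s t B P H φ ψ ω' = ∫⁻ x, ENNReal.ofReal (φ x) *
      ∫⁻ ω, FlD_g ψ H (β ^ 2 * (t - s) * Re j ε 0 / 2) p x ω ω' ∂P := by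
  unfold ZZ
  refine lintegral_congr fun x => ?_
  congr 1
  refine lintegral_congr_ae ?_
  filter_upwards [hp] with ω hω
  rw [hω]
  rfl

lemma FlD_K_meas [IsProbabilityMeasure P] {ψ : R2 → ℝ} (hψ : Measurable ψ) {H : R2 → Ω → Ω' → ℝ}
    (hH : Measurable (fun z : R2 × Ω × Ω' => H z.1 z.2.1 z.2.2)) (c : ℝ) {p : Ω → R2}
    (hp : Measurable p) :
    Measurable fun z : R2 × Ω' => ∫⁻ ω, FlD_g ψ H c p z.1 ω z.2 ∂P := by
  have h1 : Measurable (Function.uncurry fun (z : R2 × Ω') (ω : Ω) =>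
      FlD_g ψ H c p z.1 ω z.2) :=
    (FlD_g_meas hψ hH c hp).comp
      (f := fun w : (R2 × Ω') × Ω => (w.1.1, w.2, w.1.2)) (by fun_prop)
  exact h1.lintegral_prod_right

/-- measurability of `Z` -/
lemma ZZ_meas [IsProbabilityMeasure P] [IsProbabilityMeasure Q] {j : R2 → ℝ} (hj : Moll j)
    {β ε s t : ℝ} {B : Fin 2 → ℝ≥0 → Ω → ℝ} (hB : BM2 B P)
    {N : WNoise Q} {H : R2 → Ω → Ω' → ℝ} (hH : Along j β ε s t B N H) {φ ψ : R2 → ℝ}
    (hφ : Measurable φ) (hψ : Measurable ψ) :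
    AEMeasurable (ZZ j β ε s t B P H φ ψ) Q := by
  obtain ⟨p, hpm, hp⟩ := FlD_pos hB (t - s).toNNReal
  have h1 : ZZ j β ε s t B P H φ ψ = fun ω' => ∫⁻ x, ENNReal.ofReal (φ x) *
      ∫⁻ ω, FlD_g ψ H (β ^ 2 * (t - s) * Re j ε 0 / 2) p x ω ω' ∂P :=
    funext fun ω' => FlD_ZZ hp ω'
  rw [h1]
  have h2 := FlD_K_meas (P := P) hψ hH.meas (β ^ 2 * (t - s) * Re j ε 0 / 2) hpm
  have h3 : Measurable (Function.uncurry fun (ω' : Ω') (x : R2) => ENNReal.ofReal (φ x) *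
      ∫⁻ ω, FlD_g ψ H (β ^ 2 * (t - s) * Re j ε 0 / 2) p x ω ω' ∂P) := by
    refine Measurable.mul ?_ ?_
    · exact (hφ.comp measurable_snd).ennreal_ofReal
    · exact h2.comp (f := fun w : Ω' × R2 => (w.2, w.1)) (by fun_prop)
  exact h3.lintegral_prod_right.aemeasurable

/-- **moment formula**: `E Z^n = Mom`. Write `Z = ∫ φ(x) ψ(x + B) exp(..) d(x,ω)` over
`volume.prod P`, take the `n`-th power by `lint_pow` (or twice, over `x` and over `ω`), exchange
with the integral over `ω'` (Tonelli), use `along_prod` for almost every `ω` -/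
theorem mom_formula [IsProbabilityMeasure P] [IsProbabilityMeasure Q] {j : R2 → ℝ} (hj : Moll j)
    {β ε s t : ℝ} (hε : 0 < ε) (hst : s < t) {B : Fin 2 → ℝ≥0 → Ω → ℝ} (hB : BM2 B P)
    {N : WNoise Q} {H : R2 → Ω → Ω' → ℝ} (hH : Along j β ε s t B N H) (n : ℕ) {φ ψ : R2 → ℝ}
    (hφ : Measurable φ) (hψ : Measurable ψ) :
    ∫⁻ ω', (ZZ j β ε s t B P H φ ψ ω') ^ n ∂Q
      = Mom (WN n B) (Measure.pi fun _ : Fin n => P) (β ^ 2) (Re j ε) (t - s).toNNReal φ ψ := by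
  obtain ⟨p, hpm, hp⟩ := FlD_pos hB (t - s).toNNReal
  set c : ℝ := β ^ 2 * (t - s) * Re j ε 0 / 2 with hc
  set g : R2 → Ω → Ω' → ℝ≥0∞ := FlD_g ψ H c p with hg
  have hgm : Measurable fun z : R2 × Ω × Ω' => g z.1 z.2.1 z.2.2 := FlD_g_meas hψ hH.meas c hpm
  have hKm : Measurable fun z : R2 × Ω' => ∫⁻ ω, g z.1 ω z.2 ∂P :=
    FlD_K_meas (P := P) hψ hH.meas c hpm
  -- the `n`-fold integrand
  have hTm : Measurable fun z : (Fin n → R2) × (Fin n → Ω) × Ω' =>
      ∏ i, g (z.1 i) (z.2.1 i) z.2.2 := by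
    refine Finset.measurable_prod _ fun i _ => ?_
    exact hgm.comp (f := fun z : (Fin n → R2) × (Fin n → Ω) × Ω' => (z.1 i, z.2.1 i, z.2.2))
      (by fun_prop)
  have hφm : Measurable fun y : Fin n → R2 => ∏ i, ENNReal.ofReal (φ (y i)) :=
    Finset.measurable_prod _ fun i _ => (hφ.comp (measurable_pi_apply i)).ennreal_ofReal
  have hgy : ∀ (x : R2) (ω' : Ω'), Measurable fun ω => g x ω ω' := fun x ω' =>
    hgm.comp (f := fun ω : Ω => (x, ω, ω')) (by fun_prop)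
  have h1 : ∀ ω', (ZZ j β ε s t B P H φ ψ ω') ^ n = ∫⁻ y : Fin n → R2,
      (∏ i, ENNReal.ofReal (φ (y i))) *
        ∫⁻ ω : Fin n → Ω, ∏ i, g (y i) (ω i) ω' ∂(Measure.pi fun _ => P) := by
    intro ω'
    rw [FlD_ZZ hp ω', lint_pow]
    · refine lintegral_congr fun y => ?_
      rw [Finset.prod_mul_distrib]
      congr 1
      exact FlD_prod (F := fun i ω => g (y i) ω ω') fun i => (hgy (y i) ω').aemeasurable
    · refine Measurable.aemeasurable ?_
      exact hφ.ennreal_ofReal.mul (hKm.comp (f := fun x : R2 => (x, ω')) (by fun_prop))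
  have hI1 : Measurable (Function.uncurry fun (z : (Fin n → R2) × Ω') (ω : Fin n → Ω) =>
      ∏ i, g (z.1 i) (ω i) z.2) :=
    hTm.comp (f := fun w : ((Fin n → R2) × Ω') × (Fin n → Ω) => (w.1.1, w.2, w.1.2))
      (by fun_prop)
  have hI2 : Measurable fun z : (Fin n → R2) × Ω' =>
      ∫⁻ ω : Fin n → Ω, ∏ i, g (z.1 i) (ω i) z.2 ∂(Measure.pi fun _ => P) :=
    hI1.lintegral_prod_right
  have h2 : ∫⁻ ω', (ZZ j β ε s t B P H φ ψ ω') ^ n ∂Q = ∫⁻ y : Fin n → R2,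
      (∏ i, ENNReal.ofReal (φ (y i))) *
        ∫⁻ ω : Fin n → Ω, ∫⁻ ω', ∏ i, g (y i) (ω i) ω' ∂Q ∂(Measure.pi fun _ => P) := by
    simp_rw [h1]
    rw [lintegral_lintegral_swap]
    · refine lintegral_congr fun y => ?_
      rw [lintegral_const_mul]
      · congr 1
        refine lintegral_lintegral_swap (Measurable.aemeasurable ?_)
        exact hTm.comp (f := fun w : Ω' × (Fin n → Ω) => (y, w.2, w.1)) (by fun_prop)
      · exact hI2.comp (f := fun ω' : Ω' => (y, ω')) (by fun_prop)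
    · refine Measurable.aemeasurable ?_
      refine Measurable.mul ?_ ?_
      · exact hφm.comp measurable_snd
      · exact hI2.comp (f := fun w : Ω' × (Fin n → R2) => (w.2, w.1)) (by fun_prop)
  have hI3 : Measurable (Function.uncurry fun (y : Fin n → R2) (ω : Fin n → Ω) =>
      ∫⁻ ω', ∏ i, g (y i) (ω i) ω' ∂Q) := by
    have h3 : Measurable (Function.uncurry fun (z : (Fin n → R2) × (Fin n → Ω)) (ω' : Ω') =>
        ∏ i, g (z.1 i) (z.2 i) ω') :=
      hTm.comp (f := fun w : ((Fin n → R2) × (Fin n → Ω)) × Ω' => (w.1.1, w.1.2, w.2))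
        (by fun_prop)
    exact h3.lintegral_prod_right
  have hF : Measurable fun y : Fin n → R2 => (∏ i, ENNReal.ofReal (φ (y i))) *
      ∫⁻ ω : Fin n → Ω, ∫⁻ ω', ∏ i, g (y i) (ω i) ω' ∂Q ∂(Measure.pi fun _ => P) :=
    hφm.mul hI3.lintegral_prod_right
  rw [h2, ← lint_XX hF]
  unfold Mom
  refine lintegral_congr fun x => ?_
  have h4 : tens φ x = ∏ i, ENNReal.ofReal (φ (pt x i)) := rfl
  rw [h4]
  congr 1
  -- almost every `ω` is good
  have h5 : ∀ᵐ ω ∂(Measure.pi fun _ : Fin n => P), ∀ i,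
      Continuous (pos B (ω i)) ∧ pos B (ω i) (t - s).toNNReal = p (ω i) := by
    rw [ae_all_iff]
    intro i
    exact (Measure.quasiMeasurePreserving_eval (fun _ : Fin n => P) i).ae
      ((pos_cont hB).and hp)
  refine lintegral_congr_ae ?_
  filter_upwards [h5] with ω hω
  have hts : ((t - s).toNNReal : ℝ) = t - s := Real.coe_toNNReal _ (by linarith)
  have h6 : ∫⁻ ω', ∏ i, g (pt x i) (ω i) ω' ∂Q =
      (∏ i, ENNReal.ofReal (ψ (pt x i + p (ω i)))) *
        ∫⁻ ω', ∏ i, ENNReal.ofReal (Real.exp (H (pt x i) (ω i) ω' - c)) ∂Q := by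
    rw [← lintegral_const_mul]
    · refine lintegral_congr fun ω' => ?_
      rw [← Finset.prod_mul_distrib]
      rfl
    · refine Finset.measurable_prod _ fun i _ => ?_
      refine (Real.measurable_exp.comp (Measurable.sub_const ?_ c)).ennreal_ofReal
      exact hH.meas.comp (f := fun ω' : Ω' => (pt x i, ω i, ω')) (by fun_prop)
  rw [h6, along_prod hj hε hst.le hH (fun i => pt x i) ω fun i => (hω i).1]
  congr 1
  · unfold tens
    refine Finset.prod_congr rfl fun i _ => ?_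
    rw [← (hω i).2, pt_add]
    rfl
  · congr 2
    rw [hts]
    have h7 : ∀ r : ℝ, VV (β ^ 2) (Re j ε) (x + pth (WN n B) r.toNNReal ω) =
        β ^ 2 * ∑ q ∈ prs n, Re j ε (pt x q.1 + pos B (ω q.1) r.toNNReal -
          (pt x q.2 + pos B (ω q.2) r.toNNReal)) := by
      intro r
      unfold VV
      congr 1
    simp only [h7]
    rw [intervalIntegral.integral_const_mul, intervalIntegral.integral_finsetSum]
    intro q _
    refine Continuous.intervalIntegrable ?_ _ _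
    have hR := Re_cont hj hε
    refine hR.comp ?_
    exact (continuous_const.add ((hω q.1).1.comp continuous_real_toNNReal)).sub
      (continuous_const.add ((hω q.2).1.comp continuous_real_toNNReal))

end SHF
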