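import Pool.Agent.W_03a799_h55.Trot

/-! Symmetric Trotter operator and doubling of time. -/

open MeasureTheory Filter Topology
open scoped ENNReal NNReal

namespace SHF

variable {E : Type*} [NormedAddCommGroup E] [InnerProductSpace ℝ E]
  [FiniteDimensional ℝ E] [MeasurableSpace E] [BorelSpace E]

/-- `B g = e^{τV/2} P_τ (e^{τV/2} g)` -/
noncomputable def BT (τ : ℝ) (V : E → ℝ) (g : E → ℝ≥0∞) : E → ℝ≥0∞ := fun x =>
  ENNReal.ofReal (Real.exp (τ * V x / 2))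
    * PE τ (fun y => ENNReal.ofReal (Real.exp (τ * V y / 2)) * g y) x

private lemma LDb_w {τ : ℝ} {V : E → ℝ} (hV : Measurable V) :
    Measurable fun x => ENNReal.ofReal (Real.exp (τ * V x / 2)) :=
  (((hV.const_mul τ).div_const 2).exp).ennreal_ofReal

private lemma LDb_meas1 {τ : ℝ} {V : E → ℝ} (hV : Measurable V) {g : E → ℝ≥0∞}
    (hg : Measurable g) : Measurable (BT τ V g) :=
  (LDb_w hV).mul (PE_meas τ ((LDb_w hV).mul hg))

lemma BT_meas {τ : ℝ} {V : E → ℝ} (hV : Measurable V) {g : E → ℝ≥0∞} (hg : Measurable g)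
    (m : ℕ) : Measurable ((BT τ V)^[m] g) := by
  induction m with
  | zero => exact hg
  | succ m ih =>
    rw [Function.iterate_succ_apply']
    exact LDb_meas1 hV ih

private lemma LDb_mono {τ : ℝ} {V : E → ℝ} {g h : E → ℝ≥0∞} (hgh : ∀ x, g x ≤ h x) (x : E) :
    BT τ V g x ≤ BT τ V h x :=
  mul_le_mul_right (PE_mono τ (fun y => mul_le_mul_right (hgh y) _) x) _

private lemma LDb_iter_mono {τ : ℝ} {V : E → ℝ} {g h : E → ℝ≥0∞} (hgh : ∀ x, g x ≤ h x) (m : ℕ)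
    (x : E) : (BT τ V)^[m] g x ≤ (BT τ V)^[m] h x := by
  induction m generalizing x with
  | zero => exact hgh x
  | succ m ih =>
    rw [Function.iterate_succ_apply', Function.iterate_succ_apply']
    exact LDb_mono ih x

lemma BT_symm {τ : ℝ} {V : E → ℝ} (hV : Measurable V) {f g : E → ℝ≥0∞} (hf : Measurable f)
    (hg : Measurable g) : ∫⁻ x, f x * BT τ V g x = ∫⁻ x, BT τ V f x * g x := by
  have h := PE_symm τ ((LDb_w (τ := τ) hV).mul hf) ((LDb_w (τ := τ) hV).mul hg)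
  calc ∫⁻ x, f x * BT τ V g x
      = ∫⁻ x, (ENNReal.ofReal (Real.exp (τ * V x / 2)) * f x) *
          PE τ (fun y => ENNReal.ofReal (Real.exp (τ * V y / 2)) * g y) x := by
        refine lintegral_congr fun x => ?_
        unfold BT
        ring
    _ = ∫⁻ x, PE τ (fun y => ENNReal.ofReal (Real.exp (τ * V y / 2)) * f y) x *
          (ENNReal.ofReal (Real.exp (τ * V x / 2)) * g x) := h
    _ = ∫⁻ x, BT τ V f x * g x := by
        refine lintegral_congr fun x => ?_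
        unfold BT
        ring

private lemma LDb_iter_symm {τ : ℝ} {V : E → ℝ} (hV : Measurable V) (m : ℕ) :
    ∀ {f g : E → ℝ≥0∞}, Measurable f → Measurable g →
      ∫⁻ x, f x * (BT τ V)^[m] g x = ∫⁻ x, (BT τ V)^[m] f x * g x := by
  induction m with
  | zero => intro f g _ _; rfl
  | succ m ih =>
    intro f g hf hg
    rw [Function.iterate_succ_apply', Function.iterate_succ_apply,
      BT_symm hV hf (BT_meas hV hg m), ih (LDb_meas1 hV hf) hg]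

/-- `⟨G, B^m G⟩² ≤ ⟨G, B^{2m} G⟩ ⟨G, G⟩` -/
lemma dbl {τ : ℝ} {V : E → ℝ} (hV : Measurable V) {G : E → ℝ≥0∞} (hG : Measurable G) (m : ℕ) :
    (∫⁻ x, G x * (BT τ V)^[m] G x) ^ 2
      ≤ (∫⁻ x, G x * (BT τ V)^[2 * m] G x) * ∫⁻ x, (G x) ^ 2 := by
  have h1 : ∫⁻ x, G x * (BT τ V)^[2 * m] G x = ∫⁻ x, ((BT τ V)^[m] G x) ^ 2 := by
    rw [two_mul, Function.iterate_add_apply, LDb_iter_symm hV m hG (BT_meas hV hG m)]
    exact lintegral_congr fun x => (sq _).symm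
  rw [h1, mul_comm (∫⁻ x, ((BT τ V)^[m] G x) ^ 2)]
  exact cs_lint hG (BT_meas hV hG m)

/-- iterated doubling: a lower bound `q` for the ratio becomes `q^{2^K}` -/
theorem dbl_iter {τ : ℝ} {V : E → ℝ} (hV : Measurable V) {G : E → ℝ≥0∞} (hG : Measurable G)
    (hG0 : ∫⁻ x, (G x) ^ 2 ≠ 0) (hGf : ∫⁻ x, (G x) ^ 2 ≠ ∞) {q : ℝ≥0∞} {m : ℕ}
    (hq : q * ∫⁻ x, (G x) ^ 2 ≤ ∫⁻ x, G x * (BT τ V)^[m] G x) (K : ℕ) :
    q ^ (2 ^ K) * ∫⁻ x, (G x) ^ 2 ≤ ∫⁻ x, G x * (BT τ V)^[2 ^ K * m] G x := by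
  induction K with
  | zero =>
    rw [pow_zero, pow_one, one_mul]
    exact hq
  | succ K ih =>
    set N := ∫⁻ x, (G x) ^ 2 with hN
    have h1 := dbl (τ := τ) hV hG (2 ^ K * m)
    have h2 : 2 * (2 ^ K * m) = 2 ^ (K + 1) * m := by ring
    rw [h2, ← hN] at h1
    have h3 : (q ^ (2 ^ K) * N) ^ 2 ≤ (∫⁻ x, G x * (BT τ V)^[2 ^ (K + 1) * m] G x) * N :=
      (pow_le_pow_left' ih 2).trans h1
    have h4 : (q ^ (2 ^ K) * N) ^ 2 = (q ^ (2 ^ (K + 1)) * N) * N := by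
      rw [mul_pow, ← pow_mul, pow_succ 2 K, sq N, mul_assoc]
    rw [h4] at h3
    exact (ENNReal.mul_le_mul_iff_left hG0 hGf).1 h3

private lemma LDb_exp {τ a : ℝ} : ENNReal.ofReal (Real.exp (τ * a)) =
    ENNReal.ofReal (Real.exp (τ * a / 2)) * ENNReal.ofReal (Real.exp (τ * a / 2)) := by
  rw [← ENNReal.ofReal_mul (Real.exp_pos _).le, ← Real.exp_add]
  congr 2
  ring

/-- `e^{τV/2} K^m g = B^m (e^{τV/2} g)` -/
lemma KT_BT {τ : ℝ} (V : E → ℝ) (g : E → ℝ≥0∞) (m : ℕ) (x : E) :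
    ENNReal.ofReal (Real.exp (τ * V x / 2)) * (KT τ V)^[m] g x
      = (BT τ V)^[m] (fun y => ENNReal.ofReal (Real.exp (τ * V y / 2)) * g y) x := by
  induction m generalizing x with
  | zero => rfl
  | succ m ih =>
    rw [Function.iterate_succ_apply', Function.iterate_succ_apply']
    unfold BT KT
    congr 2
    funext y
    rw [LDb_exp, mul_assoc]
    congr 1
    exact ih y

private lemma LDb_one_le {τ : ℝ} (hτ : 0 < τ) {a : ℝ} (ha : 0 ≤ a) :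
    1 ≤ ENNReal.ofReal (Real.exp (τ * a / 2)) := by
  rw [← ENNReal.ofReal_one]
  exact ENNReal.ofReal_le_ofReal (Real.one_le_exp (by positivity))

private lemma LDb_le_mul {τ : ℝ} (hτ : 0 < τ) {a : ℝ} (ha : 0 ≤ a) (b : ℝ≥0∞) :
    b ≤ ENNReal.ofReal (Real.exp (τ * a / 2)) * b := by
  calc b = 1 * b := (one_mul b).symm
    _ ≤ _ := mul_le_mul_left (LDb_one_le hτ ha) b

/-- `B^m g ≤ e^{τv/2} K^m g` -/
lemma BT_le_KT {τ : ℝ} (hτ : 0 < τ) {V : E → ℝ} (hV0 : ∀ x, 0 ≤ V x) {v : ℝ}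
    (hv : ∀ x, V x ≤ v) (g : E → ℝ≥0∞) (m : ℕ) (x : E) :
    (BT τ V)^[m] g x ≤ ENNReal.ofReal (Real.exp (τ * v / 2)) * (KT τ V)^[m] g x := by
  refine (LDb_iter_mono (fun y => LDb_le_mul hτ (hV0 y) (g y)) m x).trans ?_
  rw [← KT_BT]
  refine mul_le_mul_left (ENNReal.ofReal_le_ofReal (Real.exp_le_exp.2 ?_)) _
  have := mul_le_mul_of_nonneg_left (hv x) hτ.le
  linarith

/-- `K^k (P_τ g) ≤ B^{k+1} g` -/
lemma KT_le_BT {τ : ℝ} (hτ : 0 < τ) {V : E → ℝ} (hV0 : ∀ x, 0 ≤ V x) (g : E → ℝ≥0∞) (k : ℕ)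
    (x : E) : (KT τ V)^[k] (PE τ g) x ≤ (BT τ V)^[k + 1] g x := by
  refine (LDb_le_mul hτ (hV0 x) _).trans ?_
  rw [KT_BT, Function.iterate_succ_apply]
  refine LDb_iter_mono (fun y => ?_) k x
  exact mul_le_mul_right (PE_mono τ (fun z => LDb_le_mul hτ (hV0 z) (g z)) y) _

/-- `P^m g ≤ K^m g` -/
lemma PE_le_KT {τ : ℝ} (hτ : 0 < τ) {V : E → ℝ} (hV0 : ∀ x, 0 ≤ V x) (g : E → ℝ≥0∞) (m : ℕ)
    (x : E) : (PE τ)^[m] g x ≤ (KT τ V)^[m] g x := by
  induction m generalizing x with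
  | zero => exact le_rfl
  | succ m ih =>
    rw [Function.iterate_succ_apply', Function.iterate_succ_apply']
    refine PE_mono τ (fun y => (ih y).trans ?_) x
    rw [LDb_exp, mul_assoc]
    exact (LDb_le_mul hτ (hV0 y) _).trans (LDb_le_mul hτ (hV0 y) _)

end SHF
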