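import Pool.Agent.W_03a799_h55.LNd
import Pool.Agent.W_03a799_h55.LDb

/-! Lower bound for one block of `N` steps. -/

open MeasureTheory Filter Topology
open scoped ENNReal NNReal

namespace SHF

variable {n : ℕ}

lemma card_prs (n : ℕ) : ((prs n).card : ℝ) = n * (n - 1) / 2 := by
  have h0 : (prs n).card = ∑ p : Fin n × Fin n, if p.1 < p.2 then 1 else 0 := by
    rw [prs, Finset.card_filter]
  have h1 : (∑ p : Fin n × Fin n, if p.2 < p.1 then 1 else 0) =
      ∑ p : Fin n × Fin n, if p.1 < p.2 then 1 else 0 :=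
    Fintype.sum_equiv (Equiv.prodComm (Fin n) (Fin n)) _ _ (fun p => rfl)
  have h2 : (∑ p : Fin n × Fin n, if p.1 = p.2 then 1 else 0) = n := by
    rw [Fintype.sum_prod_type]
    simp
  have h3 : ((∑ p : Fin n × Fin n, if p.1 < p.2 then 1 else 0) +
      (∑ p : Fin n × Fin n, if p.2 < p.1 then 1 else 0)) +
      (∑ p : Fin n × Fin n, if p.1 = p.2 then 1 else 0) = n * n := by
    rw [← Finset.sum_add_distrib, ← Finset.sum_add_distrib]
    have : ∀ p : Fin n × Fin n, (((if p.1 < p.2 then 1 else 0) + (if p.2 < p.1 then 1 else 0)) +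
        (if p.1 = p.2 then 1 else 0) : ℕ) = 1 := by
      intro p
      rcases lt_trichotomy p.1 p.2 with h | h | h
      · simp [h, h.not_gt, h.ne]
      · simp [h]
      · simp [h, h.not_gt, h.ne']
    rw [Finset.sum_congr rfl (fun p _ => this p)]
    simp
  rw [h1, h2, ← h0] at h3
  have h4 : (((prs n).card + (prs n).card + n : ℕ) : ℝ) = ((n * n : ℕ) : ℝ) := by rw [h3]
  push_cast at h4
  linarith

lemma KT_const_mul {E : Type*} [NormedAddCommGroup E] [InnerProductSpace ℝ E]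
    [FiniteDimensional ℝ E] [MeasurableSpace E] [BorelSpace E] {τ : ℝ} {V : E → ℝ}
    (hV : Measurable V) {g : E → ℝ≥0∞} (hg : Measurable g) (c : ℝ≥0∞) (m : ℕ) (x : E) :
    (KT τ V)^[m] (fun y => c * g y) x = c * (KT τ V)^[m] g x := by
  induction m generalizing x with
  | zero => rfl
  | succ m ih =>
    rw [Function.iterate_succ_apply', Function.iterate_succ_apply']
    have h1 : (KT τ V)^[m] (fun y => c * g y) = fun y => c * (KT τ V)^[m] g y := funext ih
    rw [h1]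
    have hm : Measurable (fun y => ENNReal.ofReal (Real.exp (τ * V y)) * (KT τ V)^[m] g y) :=
      ((Real.measurable_exp.comp (hV.const_mul τ)).ennreal_ofReal).mul (KT_iter_meas hV hg m)
    have h2 := PE_const_mul τ hm c x
    change PE τ (fun y => ENNReal.ofReal (Real.exp (τ * V y)) * (c * (KT τ V)^[m] g y)) x =
      c * PE τ (fun y => ENNReal.ofReal (Real.exp (τ * V y)) * (KT τ V)^[m] g y) x
    rw [← h2]
    congr 1
    funext y
    ring

lemma LOne_VV_nonneg {R : R2 → ℝ} {b : ℝ} (hb : 0 ≤ b) (hR : ∀ z, 0 ≤ R z) (x : XX n) :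
    0 ≤ VV b R x := mul_nonneg hb (Finset.sum_nonneg fun _ _ => hR _)

lemma LOne_df_meas (p : Fin n × Fin n) : Measurable (df p : XX n → R2) := by
  have : Continuous (df p : XX n → R2) := by
    unfold df pt
    fun_prop
  exact this.measurable

lemma LOne_VV_meas {R : R2 → ℝ} {b : ℝ} (hR : Measurable R) : Measurable (VV b R : XX n → ℝ) := by
  unfold VV
  refine Measurable.const_mul ?_ _
  exact Finset.measurable_sum _ fun p _ => hR.comp (LOne_df_meas p)

lemma LOne_PE_iter {τ w : ℝ} (hτ : 0 < τ) (hw : 0 < w) (k : ℕ) (x : XX n) :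
    ENNReal.ofReal (Real.exp (-(n * (k * τ) / w))) * Ga w x ≤ (PE τ)^[k] (Ga w) x := by
  cases k with
  | zero => simp
  | succ k =>
    rw [PE_iterate hτ (Ga_meas w)]
    have h := PE_Ga (n := n) (u := (k + 1 : ℝ) * τ) (w := w) (by positivity) hw x
    push_cast
    exact h

/-- `B^N G ≥ K^{N-1} P_τ G ≥ e^{-nτ/w} K^{N-1} G ≥ e^{-nτ/w} (P^{N-1} G + ∑_p D_{N-1})`, then
`PE_Ga`, `int_Dn`, `card_prs` -/
theorem one_block {R : R2 → ℝ} {a : ℝ} (hR : Cov R a) {τ b w : ℝ} (hτ : 0 < τ) (hb : 0 ≤ b)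
    (hw : 0 < w) {N : ℕ} (hN : 1 ≤ N) {U : ℕ → ℝ} (hU : Volt τ b a w (N - 1) U) :
    ENNReal.ofReal (Real.exp (-(n * (N * τ) / w)) * (1 + (n * (n - 1) / 2)
        * (τ * b * ∑ i ∈ Finset.range (N - 1), U i)
        * (1 / (2 * Real.pi * w) * Real.exp (-(a ^ 2 / (2 * w)))))) * ∫⁻ x : XX n, (Ga w x) ^ 2
      ≤ ∫⁻ x : XX n, Ga w x * (BT τ (VV b R))^[N] (Ga w) x := by
  obtain ⟨k, rfl⟩ : ∃ k, N = k + 1 := ⟨N - 1, by omega⟩
  have hk : k + 1 - 1 = k := rfl
  rw [hk] at hU ⊢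
  have hVm : Measurable (VV b R : XX n → ℝ) := LOne_VV_meas hR.meas
  have hV0 : ∀ x : XX n, 0 ≤ VV b R x := LOne_VV_nonneg hb hR.nonneg
  set c₁ : ℝ≥0∞ := ENNReal.ofReal (Real.exp (-(n * τ / w))) with hc₁
  set c₂ : ℝ≥0∞ := ENNReal.ofReal (Real.exp (-(n * (k * τ) / w))) with hc₂
  set D : Fin n × Fin n → XX n → ℝ≥0∞ := fun p =>
    Dn τ (fun y => ENNReal.ofReal (τ * b * R (df p y))) (Ga w) k with hD
  have hrm : ∀ p : Fin n × Fin n, Measurable (fun y : XX n => ENNReal.ofReal (τ * b * R (df p y))) :=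
    fun p => ((hR.meas.comp (LOne_df_meas p)).const_mul (τ * b)).ennreal_ofReal
  have hDm : ∀ p, Measurable (D p) := fun p => Dn_meas τ (hrm p) (Ga_meas w) k
  -- pointwise bound
  have hpt : ∀ x : XX n, c₁ * (c₂ * Ga w x + ∑ p ∈ prs n, D p x) ≤ (BT τ (VV b R))^[k + 1] (Ga w) x := by
    intro x
    refine le_trans ?_ (KT_le_BT hτ hV0 (Ga w) k x)
    have h1 : (KT τ (VV b R))^[k] (fun y => c₁ * Ga w y) x ≤ (KT τ (VV b R))^[k] (PE τ (Ga w)) x :=
      KT_iter_mono (fun y => PE_Ga hτ hw y) k x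
    refine le_trans ?_ h1
    rw [KT_const_mul hVm (Ga_meas w)]
    refine mul_le_mul_right ?_ _
    refine le_trans ?_ (du_lower hτ hb hR.nonneg hR.meas (Ga_meas w) k x)
    exact add_le_add (LOne_PE_iter hτ hw k x) le_rfl
  -- integrate
  have hint : ∫⁻ x : XX n, Ga w x * (c₁ * (c₂ * Ga w x + ∑ p ∈ prs n, D p x)) ≤
      ∫⁻ x : XX n, Ga w x * (BT τ (VV b R))^[k + 1] (Ga w) x :=
    lintegral_mono fun x => mul_le_mul_right (hpt x) _
  refine le_trans ?_ hint
  have hGm : Measurable (Ga w : XX n → ℝ≥0∞) := Ga_meas w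
  have hG2m : Measurable (fun x : XX n => (Ga w x) ^ 2) := hGm.pow_const 2
  have heq : ∫⁻ x : XX n, Ga w x * (c₁ * (c₂ * Ga w x + ∑ p ∈ prs n, D p x)) =
      c₁ * (c₂ * (∫⁻ x : XX n, (Ga w x) ^ 2) + ∑ p ∈ prs n, ∫⁻ x : XX n, Ga w x * D p x) := by
    have h1 : ∀ x : XX n, Ga w x * (c₁ * (c₂ * Ga w x + ∑ p ∈ prs n, D p x)) =
        c₁ * (c₂ * (Ga w x) ^ 2 + ∑ p ∈ prs n, Ga w x * D p x) := by
      intro x
      rw [mul_add, mul_add, mul_add, Finset.mul_sum, Finset.mul_sum, Finset.mul_sum]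
      congr 1
      · ring
      · refine Finset.sum_congr rfl fun p _ => ?_
        ring
    rw [lintegral_congr h1, lintegral_const_mul, lintegral_add_left (hG2m.const_mul c₂),
      lintegral_const_mul _ hG2m, lintegral_finsetSum]
    · intro p _
      exact hGm.mul (hDm p)
    · exact (hG2m.const_mul c₂).add (Finset.measurable_sum _ fun p _ => hGm.mul (hDm p))
  rw [heq]
  set I : ℝ≥0∞ := ∫⁻ x : XX n, (Ga w x) ^ 2 with hI
  set q : ℝ := (τ * b * ∑ i ∈ Finset.range k, U i)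
        * (1 / (2 * Real.pi * w) * Real.exp (-(a ^ 2 / (2 * w)))) with hq
  have hq0 : 0 ≤ q := by
    refine mul_nonneg (mul_nonneg (by positivity) (Finset.sum_nonneg fun i _ => hU.1 i)) ?_
    positivity
  have hsum : (ENNReal.ofReal ((prs n).card * (Real.exp (-(n * (k * τ) / w)) * q))) * I ≤
      ∑ p ∈ prs n, ∫⁻ x : XX n, Ga w x * D p x := by
    have h1 : ∀ p ∈ prs n, ENNReal.ofReal (Real.exp (-(n * (k * τ) / w)) * q) * I ≤
        ∫⁻ x : XX n, Ga w x * D p x := by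
      intro p hp
      have hpne : p.1 ≠ p.2 := by
        rw [prs, Finset.mem_filter] at hp
        exact hp.2.ne
      have h := int_Dn hR hτ hb hw hpne hU (le_refl k)
      rw [hq, ← mul_assoc]
      exact h
    have h2 := Finset.sum_le_sum h1
    rw [Finset.sum_const, nsmul_eq_mul, ← mul_assoc] at h2
    rw [ENNReal.ofReal_mul (Nat.cast_nonneg _), ENNReal.ofReal_natCast]
    exact h2
  have hfin : ENNReal.ofReal (Real.exp (-(n * (((k + 1 : ℕ) : ℝ) * τ) / w)) * (1 + (n * (n - 1) / 2)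
        * (τ * b * ∑ i ∈ Finset.range k, U i)
        * (1 / (2 * Real.pi * w) * Real.exp (-(a ^ 2 / (2 * w)))))) =
      c₁ * (c₂ + ENNReal.ofReal ((prs n).card * (Real.exp (-(n * (k * τ) / w)) * q))) := by
    rw [hc₁, hc₂, ← ENNReal.ofReal_add (Real.exp_pos _).le
      (mul_nonneg (Nat.cast_nonneg _) (mul_nonneg (Real.exp_pos _).le hq0)),
      ← ENNReal.ofReal_mul (Real.exp_pos _).le, card_prs]
    congr 1
    have he : Real.exp (-(n * (((k + 1 : ℕ) : ℝ) * τ) / w)) =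
        Real.exp (-(n * τ / w)) * Real.exp (-(n * (k * τ) / w)) := by
      rw [← Real.exp_add]
      congr 1
      push_cast
      ring
    rw [he, hq]
    ring
  rw [hfin, mul_assoc, add_mul]
  exact mul_le_mul_right (add_le_add (le_refl (c₂ * I)) hsum) _

end SHF
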