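import Pool.Agent.W_03a799_h55.Defs

/-! Choice of the parameters in the lower bound (scalar inequalities). -/

open MeasureTheory Filter Topology

namespace SHF

theorem LPar_r : Real.exp (Real.log 2 / 2) < 2 := by
  have h : Real.log 2 / 2 < Real.log 2 := by
    have := Real.log_pos (by norm_num : (1:ℝ) < 2)
    linarith
  calc Real.exp (Real.log 2 / 2) < Real.exp (Real.log 2) := Real.exp_lt_exp.2 h
    _ = 2 := Real.exp_log (by norm_num)

theorem LPar_ev (A B : ℝ) : ∀ᶠ D : ℕ in atTop,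
    Real.exp (Real.log 2 / 2) ^ D + A + B * D + A * D ^ 2 ≤ 2 ^ D * Real.log (3 / 2) := by
  have h1 : Tendsto (fun D : ℕ => (Real.exp (Real.log 2 / 2) / 2) ^ D) atTop (𝓝 0) :=
    tendsto_pow_atTop_nhds_zero_of_lt_one (by positivity)
      (by have := LPar_r; linarith)
  have h2 : ∀ k : ℕ, Tendsto (fun D : ℕ => (D : ℝ) ^ k / (2 : ℝ) ^ D) atTop (𝓝 0) := fun k =>
    tendsto_pow_const_div_const_pow_of_one_lt k (by norm_num)
  have h3 : Tendsto (fun D : ℕ => (Real.exp (Real.log 2 / 2) / 2) ^ D +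
      A * ((D : ℝ) ^ 0 / (2 : ℝ) ^ D) + B * ((D : ℝ) ^ 1 / (2 : ℝ) ^ D) +
      A * ((D : ℝ) ^ 2 / (2 : ℝ) ^ D)) atTop (𝓝 (0 + A * 0 + B * 0 + A * 0)) :=
    ((h1.add ((h2 0).const_mul A)).add ((h2 1).const_mul B)).add ((h2 2).const_mul A)
  have hl : 0 + A * 0 + B * 0 + A * 0 < Real.log (3 / 2) := by
    have := Real.log_pos (by norm_num : (1:ℝ) < 3 / 2)
    linarith
  filter_upwards [h3.eventually_lt_const hl] with D hD
  have hp : (0:ℝ) < 2 ^ D := by positivity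
  have h4 := mul_le_mul_of_nonneg_left hD.le hp.le
  refine le_trans (le_of_eq ?_) h4
  rw [div_pow]
  field_simp

theorem LPar_ev' (A B : ℝ) : ∀ᶠ K : ℕ in atTop, A + B * K ≤ 2 ^ K := by
  have h2 : ∀ k : ℕ, Tendsto (fun D : ℕ => (D : ℝ) ^ k / (2 : ℝ) ^ D) atTop (𝓝 0) := fun k =>
    tendsto_pow_const_div_const_pow_of_one_lt k (by norm_num)
  have h3 : Tendsto (fun D : ℕ => A * ((D : ℝ) ^ 0 / (2 : ℝ) ^ D) +
      B * ((D : ℝ) ^ 1 / (2 : ℝ) ^ D)) atTop (𝓝 (A * 0 + B * 0)) :=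
    ((h2 0).const_mul A).add ((h2 1).const_mul B)
  have hl : A * 0 + B * 0 < 1 := by norm_num
  filter_upwards [h3.eventually_lt_const hl] with D hD
  have hp : (0:ℝ) < 2 ^ D := by positivity
  have h4 := mul_le_mul_of_nonneg_left hD.le hp.le
  rw [mul_one] at h4
  refine le_trans (le_of_eq ?_) h4
  field_simp

theorem LPar_lin {A B : ℝ} (hB : 0 < B) : ∀ᶠ K : ℕ in atTop, A ≤ B * K := by
  have h : Tendsto (fun K : ℕ => B * (K : ℝ)) atTop atTop :=
    tendsto_natCast_atTop_atTop.const_mul_atTop hB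
  exact h.eventually_ge_atTop A

theorem LPar_sum (m : ℕ) : ∑ i ∈ Finset.range m, (i : ℝ) = m * (m - 1) / 2 := by
  induction m with
  | zero => simp
  | succ m ih =>
    rw [Finset.sum_range_succ, ih]
    push_cast
    ring

/-- take `K = n / 64` (integer division); `log (1/s) = (K+2) log 2 - log t`, the last inequality
because `(3/2)^(2^(K+1))` beats `α^{2n} (π n t 2^{-K-2})^n = e^{-O(n²)}` -/
theorem par {t C1 α : ℝ} (ht : 0 < t) (hC : 0 < C1) (hα : 0 < α) :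
    ∃ c : ℝ, 0 < c ∧ ∃ n0 : ℕ, 2 ≤ n0 ∧ ∀ n : ℕ, n0 ≤ n → ∃ K : ℕ,
      t / 2 ^ (K + 2) ≤ 1 ∧ n * (t / 2 ^ (K + 2)) ≤ t / 8 ∧
      32 ≤ ((n : ℝ) - 1) * (1 / (Real.log (1 / (t / 2 ^ (K + 2))) + C1)) ∧
      Real.exp (Real.exp (c * n)) ≤
        (1 / 2) * α ^ n * α ^ n * (Real.pi * (n * (t / 2 ^ (K + 2)))) ^ n
          * ((3 : ℝ) / 2) ^ (2 ^ (K + 1)) := by
  have hl2 : 0 < Real.log 2 := Real.log_pos (by norm_num)
  have hl2' : Real.log 2 < 0.6932 := by
    have := Real.log_two_lt_d9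
    linarith
  obtain ⟨G, hG⟩ : ∃ G : ℝ, G = |Real.log (α * α * Real.pi * t)| := ⟨_, rfl⟩
  have hG0 : 0 ≤ G := by rw [hG]; exact abs_nonneg _
  have E1 := LPar_ev' t 0
  have E2 := LPar_ev' 128 128
  have E3 := LPar_lin (A := 1 + 32 * (2 * 0.6932 - Real.log t + C1)) (B := 41)
    (by norm_num)
  have E4 := (tendsto_add_atTop_nat 1).eventually (LPar_ev (64 * Real.log 2)
    (64 * G + 64 * Real.log 2))
  obtain ⟨K0, hK0⟩ := (E1.and (E2.and (E3.and E4))).exists_forall_of_atTop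
  refine ⟨Real.log 2 / 128, by positivity, 64 * K0 + 64, by omega, fun n hn => ⟨n / 64, ?_⟩⟩
  have hKK : K0 ≤ n / 64 := by omega
  have hle : 64 * (n / 64) ≤ n := by omega
  have hlt : n ≤ 64 * (n / 64 + 1) := by omega
  obtain ⟨K, hK⟩ : ∃ K, K = n / 64 := ⟨_, rfl⟩
  rw [← hK] at hKK hle hlt ⊢
  obtain ⟨e1, e2, e3, e4⟩ := hK0 K hKK
  have hle' : 64 * (K : ℝ) ≤ n := by exact_mod_cast hle
  have hlt' : (n : ℝ) ≤ 64 * (K + 1) := by exact_mod_cast hlt
  have hn1 : (1 : ℝ) ≤ n := by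
    have : 1 ≤ n := by omega
    exact_mod_cast this
  have hp : (0:ℝ) < 2 ^ K := by positivity
  have hp2 : (2:ℝ) ^ (K + 2) = 4 * 2 ^ K := by rw [pow_add]; norm_num; ring
  have hs1 : t / 2 ^ (K + 2) ≤ 1 := by
    rw [div_le_one (by positivity), hp2]
    linarith
  have hspos : 0 < t / 2 ^ (K + 2) := by positivity
  refine ⟨hs1, ?_, ?_, ?_⟩
  · rw [hp2, ← mul_div_assoc, div_le_iff₀ (by positivity)]
    have h1 : (n : ℝ) * t ≤ 64 * (K + 1) * t := mul_le_mul_of_nonneg_right hlt' ht.le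
    have h2 := mul_le_mul_of_nonneg_right e2 ht.le
    linarith
  · have hlog : Real.log (1 / (t / 2 ^ (K + 2))) = (K + 2) * Real.log 2 - Real.log t := by
      rw [one_div, inv_div, Real.log_div (by positivity) ht.ne', Real.log_pow]
      push_cast
      ring
    have hlog0 : 0 ≤ Real.log (1 / (t / 2 ^ (K + 2))) := by
      apply Real.log_nonneg
      rw [le_div_iff₀ hspos]
      linarith
    have hpos : 0 < Real.log (1 / (t / 2 ^ (K + 2))) + C1 := by linarith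
    rw [mul_one_div, le_div_iff₀ hpos, hlog]
    have h3 : ((K : ℝ) + 2) * Real.log 2 ≤ (K + 2) * 0.6932 :=
      mul_le_mul_of_nonneg_left hl2'.le (by positivity)
    have hK0' : (0 : ℝ) ≤ K := Nat.cast_nonneg K
    linarith
  · have hD : ((K + 1 : ℕ) : ℝ) = K + 1 := by push_cast; ring
    rw [hD] at e4
    have hbase : 0 < Real.pi * (n * (t / 2 ^ (K + 2))) := by positivity
    have hexp : Real.exp (Real.log 2 / 128 * n) ≤ Real.exp (Real.log 2 / 2) ^ (K + 1) := by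
      rw [← Real.exp_nat_mul, hD]
      apply Real.exp_le_exp.2
      have h5 := mul_le_mul_of_nonneg_left hlt' (by positivity : 0 ≤ Real.log 2 / 128)
      linarith
    rw [← Real.le_log_iff_exp_le (by positivity)]
    have hlogR : Real.log ((1 / 2) * α ^ n * α ^ n * (Real.pi * (n * (t / 2 ^ (K + 2)))) ^ n
          * ((3 : ℝ) / 2) ^ (2 ^ (K + 1))) =
        -Real.log 2 + n * (Real.log (α * α * Real.pi * t) + Real.log n - (K + 2) * Real.log 2) +
        2 ^ (K + 1) * Real.log (3 / 2) := by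
      have hb : (1 / 2) * α ^ n * α ^ n * (Real.pi * (n * (t / 2 ^ (K + 2)))) ^ n
          * ((3 : ℝ) / 2) ^ (2 ^ (K + 1)) =
          2⁻¹ * ((α * α * Real.pi * t) * n / 2 ^ (K + 2)) ^ n * ((3 : ℝ) / 2) ^ (2 ^ (K + 1)) := by
        have : (α * α * Real.pi * t) * n / 2 ^ (K + 2) =
            α * (α * (Real.pi * (n * (t / 2 ^ (K + 2))))) := by ring
        rw [this, mul_pow, mul_pow α]
        ring
      have hq : 0 < (α * α * Real.pi * t) * n / 2 ^ (K + 2) := by positivity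
      have hq1 : 0 < (α * α * Real.pi * t) := by positivity
      have hn0 : (0 : ℝ) < n := by linarith
      rw [hb, Real.log_mul (by positivity) (by positivity), Real.log_mul (by norm_num)
        (by positivity), Real.log_inv, Real.log_pow, Real.log_pow, Real.log_div (by positivity)
        (by positivity), Real.log_mul hq1.ne' hn0.ne', Real.log_pow]
      push_cast
      ring
    rw [hlogR]
    have hlogn : 0 ≤ Real.log n := Real.log_nonneg hn1
    have hGa : -G ≤ Real.log (α * α * Real.pi * t) := by rw [hG]; exact neg_abs_le _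
    have hQ : 0 ≤ G + (K + 2) * Real.log 2 := by positivity
    have h6 : -(64 * ((K : ℝ) + 1) * (G + (K + 2) * Real.log 2)) ≤
        n * (Real.log (α * α * Real.pi * t) + Real.log n - (K + 2) * Real.log 2) := by
      have h7 : (n : ℝ) * (G + (K + 2) * Real.log 2) ≤
          64 * (K + 1) * (G + (K + 2) * Real.log 2) := mul_le_mul_of_nonneg_right hlt' hQ
      have h8 : (n : ℝ) * -(G + (K + 2) * Real.log 2) ≤
          n * (Real.log (α * α * Real.pi * t) + Real.log n - (K + 2) * Real.log 2) :=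
        mul_le_mul_of_nonneg_left (by linarith) (by linarith)
      linarith
    have h9 : 64 * ((K : ℝ) + 1) * (G + (K + 2) * Real.log 2) =
        (64 * G + 64 * Real.log 2) * (K + 1) + 64 * Real.log 2 * (K + 1) ^ 2 := by ring
    linarith

/-- the ratio of one block is at least `3/2`: with `w = n s`, `τ = s/N`,
`U_i = κ L/s · iτ`, it equals
`e⁻¹ (1 + ((n-1)κ/4) (bL/2π) (1-1/N)(1-2/N) e^{-(aε)²/(2w)}) ≥ e⁻¹ (1 + 4) ≥ 3/2` -/
theorem ratio {θ : ℝ} {bsq : ℝ → ℝ} (hb : CritWin θ bsq) {a s κ : ℝ} (ha : 0 < a) (hs : 0 < s)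
    (hκ : 0 < κ) {n : ℕ} (hn : 2 ≤ n) (h32 : 32 ≤ ((n : ℝ) - 1) * κ) :
    ∀ᶠ ε in 𝓝[>] (0 : ℝ), ∀ N : ℕ, 20 ≤ N →
      3 / 2 ≤ Real.exp (-(n * (N * (s / N)) / (n * s))) * (1 + (n * (n - 1) / 2)
        * (s / N * bsq ε * ∑ i ∈ Finset.range (N - 1), κ * Real.log (1 / ε) / s * (i * (s / N)))
        * (1 / (2 * Real.pi * (n * s)) * Real.exp (-((a * ε) ^ 2 / (2 * (n * s)))))) := by
  have hn2 : (2 : ℝ) ≤ n := by exact_mod_cast hn
  have hnpos : (0 : ℝ) < n := by linarith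
  have hLinf : Tendsto (fun ε : ℝ => Real.log (1 / ε)) (𝓝[>] (0 : ℝ)) atTop := by
    simp only [one_div]
    exact Real.tendsto_log_atTop.comp tendsto_inv_nhdsGT_zero
  have hb0 : Tendsto (fun ε => bsq ε * Real.log (1 / ε) / (2 * Real.pi) - 1) (𝓝[>] 0) (𝓝 0) := by
    have h1 := hb.mul hLinf.inv_tendsto_atTop
    rw [mul_zero] at h1
    refine h1.congr' ?_
    filter_upwards [hLinf.eventually_gt_atTop 0] with ε hε
    simp only [Pi.inv_apply]
    rw [mul_assoc, mul_inv_cancel₀ hε.ne', mul_one]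
  have he : Tendsto (fun ε : ℝ => Real.exp (-((a * ε) ^ 2 / (2 * (n * s))))) (𝓝[>] (0 : ℝ))
      (𝓝 1) := by
    have hc : Continuous fun ε : ℝ => Real.exp (-((a * ε) ^ 2 / (2 * (n * s)))) := by fun_prop
    have h2 := (hc.tendsto 0).mono_left (nhdsWithin_le_nhds (s := Set.Ioi (0:ℝ)))
    simpa using h2
  filter_upwards [hb0.eventually_const_lt (by norm_num : (-0.1 : ℝ) < 0),
    he.eventually_const_lt (by norm_num : (0.9 : ℝ) < 1)] with ε h3 h4 N hN
  have hN20 : (20 : ℝ) ≤ N := by exact_mod_cast hN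
  have hNpos : (0 : ℝ) < N := by linarith
  set E := Real.exp (-((a * ε) ^ 2 / (2 * (n * s)))) with hE
  set L := Real.log (1 / ε) with hL
  have e1 : (n : ℝ) * (N * (s / N)) / (n * s) = 1 := by
    field_simp
  have e2 : ∑ i ∈ Finset.range (N - 1), κ * L / s * (i * (s / N)) =
      κ * L / N * (((N : ℝ) - 1) * (N - 2) / 2) := by
    have h5 : ∀ i : ℕ, κ * L / s * (i * (s / N)) = κ * L / N * (i : ℝ) := by
      intro i
      field_simp
    rw [Finset.sum_congr rfl fun i _ => h5 i, ← Finset.mul_sum, LPar_sum,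
      Nat.cast_sub (by omega)]
    push_cast
    ring
  rw [e1, e2]
  have e3 : ((n : ℝ) * (n - 1) / 2) * (s / N * bsq ε * (κ * L / N * (((N : ℝ) - 1) * (N - 2) / 2)))
      * (1 / (2 * Real.pi * (n * s)) * E) =
      ((n : ℝ) - 1) * κ / 4 * (bsq ε * L / (2 * Real.pi)) * ((1 - 1 / N) * (1 - 2 / N)) * E := by
    have hpi := Real.pi_pos
    field_simp
    ring
  rw [e3]
  have hx : 0.9 ≤ bsq ε * L / (2 * Real.pi) := by linarith
  have hy : (0.95 : ℝ) ≤ 1 - 1 / N := by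
    have : (1 : ℝ) / N ≤ 1 / 20 := one_div_le_one_div_of_le (by norm_num) hN20
    linarith
  have hz : (0.9 : ℝ) ≤ 1 - 2 / N := by
    have : (2 : ℝ) / N ≤ 2 / 20 := div_le_div_of_nonneg_left (by norm_num) (by norm_num) hN20
    linarith
  have hw : (8 : ℝ) ≤ ((n : ℝ) - 1) * κ / 4 := by linarith
  have hprod : (4 : ℝ) ≤ ((n : ℝ) - 1) * κ / 4 * (bsq ε * L / (2 * Real.pi)) *
      ((1 - 1 / N) * (1 - 2 / N)) * E := by
    calc (4 : ℝ) ≤ 8 * 0.9 * (0.95 * 0.9) * 0.9 := by norm_num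
      _ ≤ ((n : ℝ) - 1) * κ / 4 * (bsq ε * L / (2 * Real.pi)) *
      ((1 - 1 / N) * (1 - 2 / N)) * E := by
        gcongr
  have hexp1 : (3 / 10 : ℝ) ≤ Real.exp (-1) := by
    rw [Real.exp_neg]
    have := Real.exp_one_lt_d9
    have h6 := one_div_le_one_div_of_le (Real.exp_pos 1) this.le
    rw [one_div (Real.exp 1)] at h6
    refine le_trans ?_ h6
    norm_num
  calc (3 / 2 : ℝ) ≤ 3 / 10 * (1 + 4) := by norm_num
    _ ≤ Real.exp (-1) * (1 + ((n : ℝ) - 1) * κ / 4 * (bsq ε * L / (2 * Real.pi)) *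
      ((1 - 1 / N) * (1 - 2 / N)) * E) := by
        gcongr

end SHF
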