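import Pool.Agent.W_03a799_h55.LNd

/-! The linear subsolution `U_l = c l τ` of the discrete Volterra inequality. -/

open MeasureTheory Filter Topology
open scoped ENNReal NNReal

namespace SHF

lemma LVs_aux1 {A : ℝ} (hA : 1 ≤ A) {l0 : ℕ} (h1 : A ≤ l0) (h2 : (l0 : ℝ) ≤ 2 * A) (l : ℕ)
    (hl : l0 ≤ l) :
    Real.log (l / A) - 1 - (1 + A) * (1 / l0 - 1 / l)
      ≤ ∑ i ∈ Finset.range l, 1 / ((i : ℝ) + 1) * Real.exp (-(A / (i + 1))) := by
  have hA0 : 0 < A := by linarith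
  have hl0 : (0 : ℝ) < l0 := by linarith
  induction l, hl using Nat.le_induction with
  | base =>
    have h3 : Real.log ((l0 : ℝ) / A) ≤ 1 := by
      have h4 : (l0 : ℝ) / A ≤ Real.exp 1 := by
        have h5 : (l0 : ℝ) / A ≤ 2 := by
          rw [div_le_iff₀ hA0]; exact h2
        have h6 := Real.add_one_le_exp (1 : ℝ)
        linarith
      have h7 := Real.log_le_log (by positivity) h4
      rwa [Real.log_exp] at h7
    have h8 : 0 ≤ ∑ i ∈ Finset.range l0, 1 / ((i : ℝ) + 1) * Real.exp (-(A / (i + 1))) :=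
      Finset.sum_nonneg (fun i _ => by positivity)
    have h9 : (1 + A) * (1 / (l0 : ℝ) - 1 / l0) = 0 := by ring
    rw [h9]
    linarith
  | succ l hl ih =>
    have hlp : (0 : ℝ) < l := lt_of_lt_of_le hl0 (by exact_mod_cast hl)
    rw [Finset.sum_range_succ]
    have h3 : 1 - A / ((l : ℝ) + 1) ≤ Real.exp (-(A / (l + 1))) := by
      have := Real.add_one_le_exp (-(A / ((l : ℝ) + 1)))
      linarith
    have h4 : 1 / ((l : ℝ) + 1) * (1 - A / ((l : ℝ) + 1))
        ≤ 1 / ((l : ℝ) + 1) * Real.exp (-(A / (l + 1))) :=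
      mul_le_mul_of_nonneg_left h3 (by positivity)
    have h5 : Real.log (((l : ℝ) + 1) / A) ≤ Real.log (l / A) + 1 / l := by
      have h6 : ((l : ℝ) + 1) / A = (l / A) * (1 + 1 / l) := by
        field_simp
      rw [h6, Real.log_mul (by positivity) (by positivity)]
      have h7 := Real.log_le_sub_one_of_pos (x := 1 + 1 / (l : ℝ)) (by positivity)
      linarith
    have h8 : A / (((l : ℝ) + 1) * (l + 1)) ≤ A / ((l : ℝ) * (l + 1)) := by
      apply div_le_div_of_nonneg_left hA0.le (by positivity)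
      exact mul_le_mul_of_nonneg_right (by linarith) (by positivity)
    have h9 : 1 / ((l : ℝ) + 1) * (1 - A / ((l : ℝ) + 1)) =
        1 / ((l : ℝ) + 1) - A / (((l : ℝ) + 1) * (l + 1)) := by
      field_simp
    have h10 : 1 / (l : ℝ) - 1 / ((l : ℝ) + 1) = 1 / ((l : ℝ) * (l + 1)) := by
      field_simp
      ring
    have h11 : A / ((l : ℝ) * (l + 1)) = A * (1 / (l : ℝ) - 1 / ((l : ℝ) + 1)) := by
      rw [h10]; ring
    push_cast
    rw [h9] at h4
    nlinarith [h4, h5, h8, h11, ih]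

/-- `∑_{i<l} τ f((i+1)τ) ≥ (1/4π)(log (lτ/a²) - 3)` when `τ ≤ a²`: use `e^{-x} ≥ 1 - x`, start at
`i+1 ≥ i₀ := ⌈a²/τ⌉ + 1`, `∑_{i₀}^{l} 1/i ≥ log((l+1)/i₀)`, `i₀ ≤ 3a²/τ`,
`∑_{i ≥ i₀} (a²/τ)/i² ≤ 1`, `log 3 + 1 ≤ 3`; if `l < i₀` the right side is negative -/
lemma fk_sum_ge {a τ : ℝ} (ha : 0 < a) (hτ : 0 < τ) (hτa : τ ≤ a ^ 2) {l : ℕ} (hl : 1 ≤ l) :
    1 / (4 * Real.pi) * (Real.log (l * τ / a ^ 2) - 3)
      ≤ ∑ i ∈ Finset.range l, τ * fk a ((i + 1) * τ) := by
  have hpi := Real.pi_pos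
  set A : ℝ := a ^ 2 / τ with hAd
  have hA : 1 ≤ A := by
    rw [hAd, le_div_iff₀ hτ]; linarith
  have hA0 : 0 < A := by linarith
  have e1 : ∀ i : ℕ, τ * fk a ((i + 1) * τ) =
      1 / (4 * Real.pi) * (1 / ((i : ℝ) + 1) * Real.exp (-(A / (i + 1)))) := by
    intro i
    have e2 : a ^ 2 / (((i : ℝ) + 1) * τ) = A / (i + 1) := by
      rw [hAd]; field_simp
    rw [fk, e2]
    field_simp
  have e3 : (l : ℝ) * τ / a ^ 2 = l / A := by
    rw [hAd]; field_simp
  rw [Finset.sum_congr rfl (fun i _ => e1 i), ← Finset.mul_sum, e3]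
  apply mul_le_mul_of_nonneg_left _ (by positivity)
  have hlp : (0 : ℝ) < l := by exact_mod_cast hl
  have h8 : 0 ≤ ∑ i ∈ Finset.range l, 1 / ((i : ℝ) + 1) * Real.exp (-(A / (i + 1))) :=
    Finset.sum_nonneg (fun i _ => by positivity)
  by_cases hc : l < ⌈A⌉₊
  · have h1 : (l : ℝ) < A := Nat.lt_ceil.1 hc
    have h2 : Real.log (l / A) ≤ 0 :=
      Real.log_nonpos (by positivity) (by rw [div_le_one hA0]; exact h1.le)
    linarith
  · have hc' : ⌈A⌉₊ ≤ l := not_lt.1 hc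
    have h1 : A ≤ ⌈A⌉₊ := Nat.le_ceil A
    have h2 : (⌈A⌉₊ : ℝ) < A + 1 := Nat.ceil_lt_add_one hA0.le
    have h3 := LVs_aux1 hA h1 (by linarith) l hc'
    have h4 : (1 + A) * (1 / (⌈A⌉₊ : ℝ) - 1 / l) ≤ 2 := by
      have h5 : (0 : ℝ) < ⌈A⌉₊ := by linarith
      have h6 : (1 + A) * (1 / (⌈A⌉₊ : ℝ) - 1 / l) ≤ (1 + A) * (1 / (⌈A⌉₊ : ℝ)) := by
        apply mul_le_mul_of_nonneg_left _ (by linarith)
        have : (0 : ℝ) ≤ 1 / l := by positivity
        linarith
      have h7 : (1 + A) * (1 / (⌈A⌉₊ : ℝ)) ≤ 2 := by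
        rw [mul_one_div, div_le_iff₀ h5]
        linarith
      linarith
    linarith

/-- `∑_{i<l} τ f((i+1)τ) (i+1)τ ≤ lτ/(4π)` -/
lemma fk_sum_le {a τ : ℝ} (ha : 0 < a) (hτ : 0 < τ) (l : ℕ) :
    ∑ i ∈ Finset.range l, τ * fk a ((i + 1) * τ) * ((i + 1) * τ) ≤ l * τ / (4 * Real.pi) := by
  have hpi := Real.pi_pos
  have h1 : ∀ i ∈ Finset.range l, τ * fk a ((i + 1) * τ) * ((i + 1) * τ) ≤ τ / (4 * Real.pi) := by
    intro i _
    have e1 : τ * fk a ((i + 1) * τ) * ((i + 1) * τ) =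
        τ / (4 * Real.pi) * Real.exp (-(a ^ 2 / (((i : ℝ) + 1) * τ))) := by
      rw [fk]; field_simp
    rw [e1]
    apply mul_le_of_le_one_right (by positivity)
    rw [Real.exp_le_one_iff]
    have : 0 ≤ a ^ 2 / (((i : ℝ) + 1) * τ) := by positivity
    linarith
  calc _ ≤ ∑ i ∈ Finset.range l, τ / (4 * Real.pi) := Finset.sum_le_sum h1
    _ = _ := by rw [Finset.sum_const, Finset.card_range, nsmul_eq_mul]; ring

/-- the linear function is a subsolution if
`c x (1 - b e^{-a²/w} (1/4π) (log (x/a²) - 4)) ≤ 1` at `x = lτ` -/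
theorem volt_lin {τ b a w c : ℝ} (ha : 0 < a) (hτ : 0 < τ) (hτa : τ ≤ a ^ 2) (hb : 0 ≤ b)
    (hc : 0 ≤ c) (M : ℕ)
    (h : ∀ l : ℕ, 1 ≤ l → l ≤ M → c * (l * τ) * (1 - b * Real.exp (-(a ^ 2 / w))
      * (1 / (4 * Real.pi) * (Real.log (l * τ / a ^ 2) - 4))) ≤ 1) :
    Volt τ b a w M (fun l => c * (l * τ)) := by
  have hpi := Real.pi_pos
  refine ⟨fun l => by positivity, ?_⟩
  intro l hl
  rcases Nat.eq_zero_or_pos l with h0 | h0
  · subst h0
    simp
  · have h1 := h l h0 hl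
    have h2 := fk_sum_ge ha hτ hτa (l := l) h0
    have h3 := fk_sum_le ha hτ (a := a) l
    set E : ℝ := Real.exp (-(a ^ 2 / w)) with hE
    have hE0 : 0 < E := Real.exp_pos _
    have e1 : ∑ i ∈ Finset.range l,
        τ * b * E * fk a ((i + 1) * τ) * (c * (((l - 1 - i : ℕ) : ℝ) * τ)) =
        c * b * E * (l * τ * (∑ i ∈ Finset.range l, τ * fk a ((i + 1) * τ))
          - ∑ i ∈ Finset.range l, τ * fk a ((i + 1) * τ) * ((i + 1) * τ)) := by
      rw [Finset.mul_sum, ← Finset.sum_sub_distrib, Finset.mul_sum]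
      apply Finset.sum_congr rfl
      intro i hi
      have hi' : i + 1 ≤ l := Finset.mem_range.1 hi
      have e2 : ((l - 1 - i : ℕ) : ℝ) = (l : ℝ) - (i + 1) := by
        have : l - 1 - i = l - (i + 1) := by omega
        rw [this, Nat.cast_sub hi']
        push_cast
        ring
      rw [e2]
      ring
    show c * (l * τ) ≤ 1 + ∑ i ∈ Finset.range l,
        τ * b * E * fk a ((i + 1) * τ) * (c * (((l - 1 - i : ℕ) : ℝ) * τ))
    rw [e1]
    have hlt : 0 ≤ (l : ℝ) * τ := by positivity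
    have h4 : (l : ℝ) * τ * (1 / (4 * Real.pi) * (Real.log (l * τ / a ^ 2) - 4))
        ≤ l * τ * (∑ i ∈ Finset.range l, τ * fk a ((i + 1) * τ))
          - ∑ i ∈ Finset.range l, τ * fk a ((i + 1) * τ) * ((i + 1) * τ) := by
      have h5 := mul_le_mul_of_nonneg_left h2 hlt
      have e3 : (l : ℝ) * τ * (1 / (4 * Real.pi) * (Real.log (l * τ / a ^ 2) - 4)) =
          l * τ * (1 / (4 * Real.pi) * (Real.log (l * τ / a ^ 2) - 3))
            - l * τ / (4 * Real.pi) := by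
        ring
      rw [e3]
      linarith
    have h6 := mul_le_mul_of_nonneg_left h4 (show 0 ≤ c * b * E by positivity)
    have e4 : c * (l * τ) * (1 - b * E
      * (1 / (4 * Real.pi) * (Real.log (l * τ / a ^ 2) - 4))) =
      c * (l * τ) - c * b * E *
        ((l : ℝ) * τ * (1 / (4 * Real.pi) * (Real.log (l * τ / a ^ 2) - 4))) := by
      ring
    rw [e4] at h1
    linarith

lemma LVs_aux2 {x s : ℝ} (hx : 0 < x) (hxs : x ≤ s) (hs : 0 < s) (hs1 : s ≤ 1) :
    x / s * Real.log (1 / x) ≤ 1 + Real.log (1 / s) := by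
  have hy : 0 < x / s := by positivity
  have hy1 : x / s ≤ 1 := by rw [div_le_one hs]; exact hxs
  have e1 : Real.log (1 / x) = Real.log (s / x) + Real.log (1 / s) := by
    rw [← Real.log_mul (by positivity) (by positivity)]
    congr 1
    field_simp
  have h1 : Real.log (s / x) ≤ s / x - 1 := Real.log_le_sub_one_of_pos (by positivity)
  have h2 : x / s * Real.log (s / x) ≤ 1 := by
    have h3 := mul_le_mul_of_nonneg_left h1 hy.le
    have e2 : x / s * (s / x - 1) = 1 - x / s := by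
      field_simp
    rw [e2] at h3
    linarith
  have h4 : 0 ≤ Real.log (1 / s) := Real.log_nonneg (by rw [le_div_iff₀ hs]; linarith)
  have h5 : x / s * Real.log (1 / s) ≤ Real.log (1 / s) := mul_le_of_le_one_left h4 hy1
  rw [e1, mul_add]
  linarith

/-- critical window: with `L = log (1/ε)`, `κ = 1/(log (1/s) + C₁)`, `c = κ L / s` the condition
of `volt_lin` holds for all `x ∈ (0, s]` when `ε` is small.
`1 - (BL/2π)(1 + (log x - C₀)/(2L)) ≤ (|θ| + 1 + |C₀| + log (1/x))/L` and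
`(x/s) log (1/x) ≤ 1 + log (1/s)`. -/
theorem volt_asy {θ : ℝ} {bsq : ℝ → ℝ} (hb : CritWin θ bsq) {a : ℝ} (ha : 0 < a) :
    ∃ C1 : ℝ, 0 < C1 ∧ ∀ s : ℝ, 0 < s → s ≤ 1 → ∀ w : ℝ, 0 < w → ∀ᶠ ε in 𝓝[>] (0 : ℝ),
      ∀ x : ℝ, 0 < x → x ≤ s →
        (1 / (Real.log (1 / s) + C1)) * Real.log (1 / ε) / s * x
          * (1 - bsq ε * Real.exp (-((a * ε) ^ 2 / w))
            * (1 / (4 * Real.pi) * (Real.log (x / (a * ε) ^ 2) - 4))) ≤ 1 := by
  have hpi := Real.pi_pos
  set C0 : ℝ := 2 * Real.log a + 4 with hC0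
  refine ⟨|θ| + |C0| + 2, by positivity, ?_⟩
  intro s hs hs1 w hw
  -- the logarithm tends to infinity
  have hL : Tendsto (fun ε : ℝ => Real.log (1 / ε)) (𝓝[>] 0) atTop := by
    have h1 : Tendsto (fun ε : ℝ => Real.log ε) (𝓝[>] 0) atBot := Real.tendsto_log_nhdsGT_zero
    have h2 : Tendsto (fun ε : ℝ => -Real.log ε) (𝓝[>] 0) atTop :=
      tendsto_neg_atBot_atTop.comp h1
    refine h2.congr (fun ε => ?_)
    rw [one_div, Real.log_inv]
  have hsq : Tendsto (fun ε : ℝ => (a * ε) ^ 2 / w * Real.log (1 / ε)) (𝓝[>] 0) (𝓝 0) := by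
    have h1 : Tendsto (fun ε : ℝ => Real.log ε * ε) (𝓝[>] 0) (𝓝 0) := by
      have := (Real.continuous_mul_log.tendsto 0).mono_left (nhdsWithin_le_nhds (s := Set.Ioi 0))
      simp only [Real.log_zero, mul_zero] at this
      exact this.congr (fun ε => mul_comm _ _)
    have h2 : Tendsto (fun ε : ℝ => ε) (𝓝[>] 0) (𝓝 0) := tendsto_nhdsWithin_of_tendsto_nhds
      tendsto_id
    have h3 := (h1.mul h2).const_mul (-(a ^ 2 / w))
    simp only [mul_zero] at h3
    refine h3.congr (fun ε => ?_)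
    rw [one_div, Real.log_inv]
    ring
  have hth : ∀ᶠ ε in 𝓝[>] (0 : ℝ),
      |(bsq ε * Real.log (1 / ε) / (2 * Real.pi) - 1) * Real.log (1 / ε) - θ| < 1 / 2 := by
    have := hb
    unfold CritWin at this
    rw [Metric.tendsto_nhds] at this
    have h1 := this (1 / 2) (by norm_num)
    filter_upwards [h1] with ε hε
    rwa [Real.dist_eq] at hε
  have hsq' : ∀ᶠ ε in 𝓝[>] (0 : ℝ), |(a * ε) ^ 2 / w * Real.log (1 / ε)| < 1 / 4 := by
    rw [Metric.tendsto_nhds] at hsq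
    have h1 := hsq (1 / 4) (by norm_num)
    filter_upwards [h1] with ε hε
    rwa [Real.dist_eq, sub_zero] at hε
  filter_upwards [hth, hsq', hL.eventually_ge_atTop (|θ| + 1), self_mem_nhdsWithin]
    with ε h1 h2 h3 h4 x hx hxs
  have hε : 0 < ε := h4
  set L : ℝ := Real.log (1 / ε) with hLd
  have hL0 : 0 < L := by
    have := abs_nonneg θ
    linarith
  set β : ℝ := bsq ε * L / (2 * Real.pi) with hβ
  set B : ℝ := Real.exp (-((a * ε) ^ 2 / w)) with hB
  have hB0 : 0 < B := Real.exp_pos _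
  have hB1 : B ≤ 1 := by
    rw [hB, Real.exp_le_one_iff]
    have : 0 ≤ (a * ε) ^ 2 / w := by positivity
    linarith
  have hB2 : (1 - B) * L ≤ 1 / 4 := by
    have h5 := Real.add_one_le_exp (-((a * ε) ^ 2 / w))
    have h6 : 1 - B ≤ (a * ε) ^ 2 / w := by
      rw [hB]; linarith
    have h7 := mul_le_mul_of_nonneg_right h6 hL0.le
    have h8 := (abs_lt.1 h2).2
    linarith
  have h5 := abs_lt.1 h1
  have hθ := abs_le.1 (le_refl |θ|)
  -- bounds for β
  have hβ1 : (1 - β) * L ≤ |θ| + 1 / 2 := by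
    have : (β - 1) * L = -((1 - β) * L) := by ring
    rw [this] at h5
    linarith [h5.1]
  have hβ2 : (β - 1) * L ≤ |θ| + 1 / 2 := by linarith [h5.2]
  have hβ3 : β ≤ 2 := by
    by_contra hcon
    push Not at hcon
    have h6 : 1 * L ≤ (β - 1) * L := mul_le_mul_of_nonneg_right (by linarith) hL0.le
    linarith
  have hβ4 : 0 ≤ β := by
    by_contra hcon
    push Not at hcon
    have h6 : 1 * L ≤ (1 - β) * L := mul_le_mul_of_nonneg_right (by linarith) hL0.le
    linarith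
  -- rewriting the bracket
  have e1 : Real.log (x / (a * ε) ^ 2) = Real.log x - 2 * Real.log a + 2 * L := by
    rw [Real.log_div (by positivity) (by positivity), Real.log_pow, Real.log_mul (by positivity)
      (by positivity), hLd, one_div, Real.log_inv]
    push_cast
    ring
  have e2 : bsq ε * B * (1 / (4 * Real.pi) * (Real.log (x / (a * ε) ^ 2) - 4)) * L =
      β * B * (L + (Real.log x - C0) / 2) := by
    rw [e1, hβ, hC0]
    field_simp
    ring
  have hx1 : x ≤ 1 := le_trans hxs hs1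
  have hlx : 0 ≤ Real.log (1 / x) := Real.log_nonneg (by rw [le_div_iff₀ hx]; linarith)
  have hlx' : Real.log x = -Real.log (1 / x) := by rw [one_div, Real.log_inv]; ring
  have h6 : L * (1 - bsq ε * B * (1 / (4 * Real.pi) * (Real.log (x / (a * ε) ^ 2) - 4)))
      ≤ |θ| + 1 + |C0| + Real.log (1 / x) := by
    have e3 : L * (1 - bsq ε * B * (1 / (4 * Real.pi) * (Real.log (x / (a * ε) ^ 2) - 4))) =
        (1 - β) * L + β * ((1 - B) * L) + β * B / 2 * (Real.log (1 / x) + C0) := by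
      have : L * (1 - bsq ε * B * (1 / (4 * Real.pi) * (Real.log (x / (a * ε) ^ 2) - 4))) =
        L - bsq ε * B * (1 / (4 * Real.pi) * (Real.log (x / (a * ε) ^ 2) - 4)) * L := by ring
      rw [this, e2, hlx']
      ring
    rw [e3]
    have h7 : β * ((1 - B) * L) ≤ 1 / 2 := by
      have h8 : β * ((1 - B) * L) ≤ 2 * ((1 - B) * L) := by
        apply mul_le_mul_of_nonneg_right hβ3
        have : 0 ≤ 1 - B := by linarith
        positivity
      linarith
    have h9 : β * B / 2 ≤ 1 := by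
      have : β * B ≤ 2 * 1 := mul_le_mul hβ3 hB1 hB0.le (by norm_num)
      linarith
    have h10 : 0 ≤ β * B / 2 := by positivity
    have h11 : β * B / 2 * (Real.log (1 / x) + C0) ≤ Real.log (1 / x) + |C0| := by
      calc β * B / 2 * (Real.log (1 / x) + C0) ≤ β * B / 2 * (Real.log (1 / x) + |C0|) :=
            mul_le_mul_of_nonneg_left (by linarith [le_abs_self C0]) h10
        _ ≤ 1 * (Real.log (1 / x) + |C0|) :=
            mul_le_mul_of_nonneg_right h9 (by positivity)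
        _ = _ := one_mul _
    linarith
  have hls : 0 ≤ Real.log (1 / s) := Real.log_nonneg (by rw [le_div_iff₀ hs]; linarith)
  have hden : 0 < Real.log (1 / s) + (|θ| + |C0| + 2) := by positivity
  have e4 : (1 / (Real.log (1 / s) + (|θ| + |C0| + 2))) * L / s * x
          * (1 - bsq ε * B * (1 / (4 * Real.pi) * (Real.log (x / (a * ε) ^ 2) - 4))) =
      (x / s * (L * (1 - bsq ε * B * (1 / (4 * Real.pi) * (Real.log (x / (a * ε) ^ 2) - 4)))))
        / (Real.log (1 / s) + (|θ| + |C0| + 2)) := by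
    field_simp
  rw [e4, div_le_one hden]
  have hy1 : x / s ≤ 1 := by rw [div_le_one hs]; exact hxs
  have hy0 : 0 < x / s := by positivity
  calc x / s * (L * (1 - bsq ε * B * (1 / (4 * Real.pi) * (Real.log (x / (a * ε) ^ 2) - 4))))
      ≤ x / s * (|θ| + 1 + |C0| + Real.log (1 / x)) := mul_le_mul_of_nonneg_left h6 hy0.le
    _ = x / s * (|θ| + 1 + |C0|) + x / s * Real.log (1 / x) := by ring
    _ ≤ (|θ| + 1 + |C0|) + (1 + Real.log (1 / s)) := by
        apply add_le_add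
        · exact mul_le_of_le_one_left (by positivity) hy1
        · exact LVs_aux2 hx hxs hs hs1
    _ = _ := by ring

end SHF
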