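import Pool.Agent.W_03a799_h55.Defs

/-! The covariance `R_ε` of the mollified noise: elementary properties. -/

open MeasureTheory Filter Topology
open scoped ENNReal NNReal FourierTransform

namespace SHF

lemma RhoA_bound {j : R2 → ℝ} (hj : Moll j) : ∃ M : ℝ, 0 < M ∧ ∀ x, j x ≤ M := by
  obtain ⟨M, hM⟩ := hj.smooth.continuous.bounded_above_of_compact_support hj.supp
  refine ⟨|M| + 1, by positivity, fun x => ?_⟩
  have h1 := hM x
  have h2 := le_abs_self (j x)
  have h3 := le_abs_self M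
  rw [Real.norm_eq_abs] at h1
  linarith

lemma RhoA_ball {j : R2 → ℝ} (hj : Moll j) : ∃ r : ℝ, 0 < r ∧ ∀ x, r < ‖x‖ → j x = 0 := by
  obtain ⟨r, hr⟩ := hj.supp.isCompact.isBounded.exists_norm_le
  refine ⟨|r| + 1, by positivity, fun x hx => ?_⟩
  by_contra h
  have h1 := hr x (subset_tsupport j h)
  have h2 := le_abs_self r
  linarith

lemma je_nonneg {j : R2 → ℝ} (hj : Moll j) (ε : ℝ) (x : R2) : 0 ≤ je j ε x :=
  mul_nonneg (by positivity) (hj.nonneg _)

lemma je_cont {j : R2 → ℝ} (hj : Moll j) (ε : ℝ) : Continuous (je j ε) :=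
  continuous_const.mul (hj.smooth.continuous.comp (continuous_const_smul ε⁻¹))

lemma RhoA_je_zero {j : R2 → ℝ} {r : ℝ} (hr : ∀ x, r < ‖x‖ → j x = 0) {ε : ℝ} (hε : 0 < ε)
    (x : R2) (hx : r * ε < ‖x‖) : je j ε x = 0 := by
  unfold je
  rw [hr, mul_zero]
  rw [norm_smul, norm_inv, Real.norm_of_nonneg hε.le, inv_mul_eq_div, lt_div_iff₀ hε]
  exact hx

lemma RhoA_je_supp {j : R2 → ℝ} (hj : Moll j) {ε : ℝ} (hε : 0 < ε) :
    HasCompactSupport (je j ε) := by
  obtain ⟨r, _, hr⟩ := RhoA_ball hj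
  refine HasCompactSupport.intro (isCompact_closedBall (0 : R2) (r * ε)) fun x hx => ?_
  refine RhoA_je_zero hr hε x ?_
  rw [Metric.mem_closedBall, dist_zero_right, not_le] at hx
  exact hx

lemma RhoA_je_bound {j : R2 → ℝ} {M : ℝ} (hM : ∀ x, j x ≤ M) (ε : ℝ) (x : R2) :
    je j ε x ≤ (ε ^ 2)⁻¹ * M :=
  mul_le_mul_of_nonneg_left (hM _) (by positivity)

lemma je_int {j : R2 → ℝ} (hj : Moll j) {ε : ℝ} (hε : 0 < ε) : Integrable (je j ε) :=
  (je_cont hj ε).integrable_of_hasCompactSupport (RhoA_je_supp hj hε)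

lemma je_mass {j : R2 → ℝ} (hj : Moll j) {ε : ℝ} (hε : 0 < ε) : ∫ x, je j ε x = 1 := by
  unfold je
  rw [integral_const_mul, Measure.integral_comp_smul, hj.mass, finrank_euclideanSpace_fin,
    inv_pow, inv_inv, abs_of_nonneg (by positivity), smul_eq_mul, mul_one,
    inv_mul_cancel₀ (by positivity)]

lemma Re_nonneg {j : R2 → ℝ} (hj : Moll j) (ε : ℝ) (z : R2) : 0 ≤ Re j ε z :=
  integral_nonneg fun y => mul_nonneg (je_nonneg hj ε _) (je_nonneg hj ε _)

lemma RhoA_cont1 {j : R2 → ℝ} (hj : Moll j) (ε : ℝ) (z : R2) :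
    Continuous fun y => je j ε (z + y) * je j ε y :=
  ((je_cont hj ε).comp (continuous_const.add continuous_id)).mul (je_cont hj ε)

lemma RhoA_int1 {j : R2 → ℝ} (hj : Moll j) {ε : ℝ} (hε : 0 < ε) (z : R2) :
    Integrable fun y => je j ε (z + y) * je j ε y :=
  (RhoA_cont1 hj ε z).integrable_of_hasCompactSupport (RhoA_je_supp hj hε).mul_left

lemma Re_cont {j : R2 → ℝ} (hj : Moll j) {ε : ℝ} (hε : 0 < ε) : Continuous (Re j ε) := by
  obtain ⟨M, hM0, hM⟩ := RhoA_bound hj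
  refine continuous_of_dominated (F := fun z y => je j ε (z + y) * je j ε y)
    (bound := fun y => (ε ^ 2)⁻¹ * M * je j ε y)
    (fun z => (RhoA_cont1 hj ε z).aestronglyMeasurable) (fun z => ?_)
    ((je_int hj hε).const_mul _) ?_
  · refine Eventually.of_forall fun y => ?_
    rw [Real.norm_of_nonneg (mul_nonneg (je_nonneg hj ε _) (je_nonneg hj ε _))]
    exact mul_le_mul_of_nonneg_right (RhoA_je_bound hM ε _) (je_nonneg hj ε _)
  · refine Eventually.of_forall fun _ => ?_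
    exact ((je_cont hj ε).comp (continuous_id.add continuous_const)).mul continuous_const

/-- `R_ε ≤ C ε^{-2}` -/
lemma Re_bdd {j : R2 → ℝ} (hj : Moll j) :
    ∃ C : ℝ, 0 < C ∧ ∀ ε : ℝ, 0 < ε → ∀ z, Re j ε z ≤ C / ε ^ 2 := by
  obtain ⟨M, hM0, hM⟩ := RhoA_bound hj
  refine ⟨M, hM0, fun ε hε z => ?_⟩
  have h1 : Re j ε z ≤ ∫ y, (ε ^ 2)⁻¹ * M * je j ε y := by
    refine integral_mono (RhoA_int1 hj hε z) ((je_int hj hε).const_mul _) fun y => ?_
    exact mul_le_mul_of_nonneg_right (RhoA_je_bound hM ε _) (je_nonneg hj ε _)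
  rw [integral_const_mul, je_mass hj hε, mul_one] at h1
  rw [div_eq_inv_mul]
  exact h1

/-- `R_ε` is supported in a ball of radius `a ε` -/
lemma Re_supp {j : R2 → ℝ} (hj : Moll j) :
    ∃ a : ℝ, 0 < a ∧ ∀ ε : ℝ, 0 < ε → ∀ z, a * ε < ‖z‖ → Re j ε z = 0 := by
  obtain ⟨r, hr0, hr⟩ := RhoA_ball hj
  refine ⟨2 * r, by positivity, fun ε hε z hz => ?_⟩
  have h1 : ∀ y, je j ε (z + y) * je j ε y = 0 := by
    intro y
    by_cases h : r * ε < ‖y‖
    · rw [RhoA_je_zero hr hε y h, mul_zero]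
    · have h2 : r * ε < ‖z + y‖ := by
        have h3 : ‖z‖ ≤ ‖z + y‖ + ‖y‖ := by
          have h4 := norm_sub_le (z + y) y
          rwa [add_sub_cancel_right] at h4
        linarith
      rw [RhoA_je_zero hr hε _ h2, zero_mul]
  unfold Re
  simp only [h1]
  exact integral_zero _ _

lemma Re_integrable {j : R2 → ℝ} (hj : Moll j) {ε : ℝ} (hε : 0 < ε) : Integrable (Re j ε) := by
  obtain ⟨a, _, ha⟩ := Re_supp hj
  refine (Re_cont hj hε).integrable_of_hasCompactSupport ?_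
  refine HasCompactSupport.intro (isCompact_closedBall (0 : R2) (a * ε)) fun x hx => ?_
  rw [Metric.mem_closedBall, dist_zero_right, not_le] at hx
  exact ha ε hε x hx

lemma RhoA_je_lint {j : R2 → ℝ} (hj : Moll j) {ε : ℝ} (hε : 0 < ε) :
    ∫⁻ x, ENNReal.ofReal (je j ε x) = 1 := by
  rw [← ofReal_integral_eq_lintegral_ofReal (je_int hj hε)
    (Eventually.of_forall fun x => je_nonneg hj ε x), je_mass hj hε, ENNReal.ofReal_one]

lemma Re_lint {j : R2 → ℝ} (hj : Moll j) {ε : ℝ} (hε : 0 < ε) :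
    ∫⁻ z, ENNReal.ofReal (Re j ε z) = 1 := by
  have h1 : ∀ z, ENNReal.ofReal (Re j ε z) =
      ∫⁻ y, ENNReal.ofReal (je j ε (z + y)) * ENNReal.ofReal (je j ε y) := by
    intro z
    unfold Re
    rw [ofReal_integral_eq_lintegral_ofReal (RhoA_int1 hj hε z)
      (Eventually.of_forall fun x => mul_nonneg (je_nonneg hj ε _) (je_nonneg hj ε _))]
    refine lintegral_congr fun y => ?_
    rw [ENNReal.ofReal_mul (je_nonneg hj ε _)]
  simp only [h1]
  have hm : Measurable fun y => ENNReal.ofReal (je j ε y) :=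
    ENNReal.measurable_ofReal.comp (je_cont hj ε).measurable
  rw [lintegral_lintegral_swap]
  · have h2 : ∀ y, ∫⁻ z, ENNReal.ofReal (je j ε (z + y)) * ENNReal.ofReal (je j ε y) =
        ENNReal.ofReal (je j ε y) := by
      intro y
      have hm2 : Measurable fun z => ENNReal.ofReal (je j ε (z + y)) :=
        hm.comp (measurable_add_const y)
      rw [lintegral_mul_const _ hm2,
        lintegral_add_right_eq_self (fun z => ENNReal.ofReal (je j ε z)) y, RhoA_je_lint hj hε,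
        one_mul]
    simp only [h2]
    exact RhoA_je_lint hj hε
  · refine Measurable.aemeasurable ?_
    exact (hm.comp (measurable_fst.add measurable_snd)).mul (hm.comp measurable_snd)

lemma Re_mass {j : R2 → ℝ} (hj : Moll j) {ε : ℝ} (hε : 0 < ε) : ∫ z, Re j ε z = 1 := by
  rw [integral_eq_lintegral_of_nonneg_ae (Eventually.of_forall fun z => Re_nonneg hj ε z)
    (Re_cont hj hε).aestronglyMeasurable, Re_lint hj hε, ENNReal.toReal_one]

end SHF
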