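import Pool.Agent.W_03a799_h55.LPre
import Pool.Agent.W_03a799_h55.LPar
import Pool.Agent.W_03a799_h55.LOne
import Pool.Agent.W_03a799_h55.LVs
import Pool.Agent.W_03a799_h55.FKL
import Pool.Agent.W_03a799_h55.Step
import Pool.Agent.W_03a799_h55.RhoA

/-! Lower bound. -/

open MeasureTheory Filter Topology
open scoped ENNReal NNReal

namespace SHF

universe u

lemma Lower_bsq {θ : ℝ} {bsq : ℝ → ℝ} (hb : CritWin θ bsq) :
    ∀ᶠ ε in 𝓝[>] (0 : ℝ), 0 < ε ∧ 0 ≤ bsq ε ∧ 0 < Real.log (1 / ε) := by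
  have hLinf : Tendsto (fun ε : ℝ => Real.log (1 / ε)) (𝓝[>] (0 : ℝ)) atTop := by
    simp only [one_div]
    exact Real.tendsto_log_atTop.comp tendsto_inv_nhdsGT_zero
  have hb0 : Tendsto (fun ε => bsq ε * Real.log (1 / ε) / (2 * Real.pi) - 1) (𝓝[>] 0) (𝓝 0) := by
    have h1 := hb.mul hLinf.inv_tendsto_atTop
    rw [mul_zero] at h1
    refine h1.congr' ?_
    filter_upwards [hLinf.eventually_gt_atTop 0] with ε hε
    simp only [Pi.inv_apply]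
    rw [mul_assoc, mul_inv_cancel₀ hε.ne', mul_one]
  filter_upwards [hb0.eventually_const_lt (by norm_num : (-1 : ℝ) < 0),
    hLinf.eventually_gt_atTop 0, self_mem_nhdsWithin] with ε h1 h2 h3
  refine ⟨h3, ?_, h2⟩
  by_contra hc
  have h4 : bsq ε * Real.log (1 / ε) / (2 * Real.pi) ≤ 0 := by
    have := Real.pi_pos
    exact div_nonpos_of_nonpos_of_nonneg
      (mul_nonpos_of_nonpos_of_nonneg (not_le.1 hc).le h2.le) (by positivity)
  linarith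

lemma Lower_step {n : ℕ} {R : R2 → ℝ} {a b s w v α : ℝ} (hR : Cov R a) (hRc : Continuous R)
    (hb : 0 ≤ b) (hs : 0 < s) (hw : 0 < w) (hv : ∀ x : XX n, VV b R x ≤ v) {K N : ℕ}
    (hN : 1 ≤ N) (hws : w ≤ 2 ^ K * s / 2) (hτv : s / N * v ≤ 1) {U : ℕ → ℝ}
    (hU : Volt (s / N) b a w (N - 1) U)
    (h32 : 3 / 2 ≤ Real.exp (-(n * (N * (s / N)) / w)) * (1 + (n * (n - 1) / 2)
        * (s / N * b * ∑ i ∈ Finset.range (N - 1), U i)
        * (1 / (2 * Real.pi * w) * Real.exp (-(a ^ 2 / (2 * w))))))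
    {φ ψ : R2 → ℝ} (hφ : Measurable φ) (hψ : Measurable ψ) (hα : 0 < α)
    (hcφ : ENNReal.ofReal α ≤ cI (2 ^ K * s) φ) (hcψ : ENNReal.ofReal α ≤ cI (2 ^ K * s) ψ) :
    ENNReal.ofReal ((1 / 2) * α ^ n * α ^ n * (Real.pi * w) ^ n * ((3 : ℝ) / 2) ^ (2 ^ (K + 1)))
      ≤ ∫⁻ x : XX n, tens φ x * (KT (s / N) (VV b R))^[4 * (2 ^ K * N)] (tens ψ) x := by
  have hN0 : (0 : ℝ) < N := by exact_mod_cast hN
  have hτ : 0 < s / N := by positivity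
  have hV : Continuous (VV b R : XX n → ℝ) := VV_cont hRc
  have hVm : Measurable (VV b R : XX n → ℝ) := hV.measurable
  have hV0 : ∀ x : XX n, 0 ≤ VV b R x := fun x => VV_nonneg hb hR.nonneg x
  have hG : ∫⁻ x : XX n, (Ga w x) ^ 2 = ENNReal.ofReal ((Real.pi * w) ^ n) := int_Ga_sq hw
  have hpw : 0 < (Real.pi * w) ^ n := by
    have := Real.pi_pos
    positivity
  have hG0 : ∫⁻ x : XX n, (Ga w x) ^ 2 ≠ 0 := by
    rw [hG]
    exact (ENNReal.ofReal_pos.2 hpw).ne'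
  have hGf : ∫⁻ x : XX n, (Ga w x) ^ 2 ≠ ∞ := by
    rw [hG]
    exact ENNReal.ofReal_ne_top
  have h1 := one_block (n := n) hR hτ hb hw hN hU
  have h2 : ENNReal.ofReal (3 / 2) * ∫⁻ x : XX n, (Ga w x) ^ 2
      ≤ ∫⁻ x : XX n, Ga w x * (BT (s / N) (VV b R))^[N] (Ga w) x :=
    le_trans (mul_le_mul' (ENNReal.ofReal_le_ofReal h32) le_rfl) h1
  have h3 := dbl_iter hVm (Ga_meas w) hG0 hGf h2 (K + 1)
  have hm1 : 1 ≤ 2 ^ K * N := Nat.mul_pos (by positivity) hN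
  have hcast : ((2 ^ K * N : ℕ) : ℝ) * (s / N) = 2 ^ K * s := by
    push_cast
    field_simp
  have h4 := lower_pre (n := n) hVm hV0 hv hτ hw hm1 (by rw [hcast]; exact hws) hφ hψ
  rw [hcast] at h4
  have hexp : 2 * (2 ^ K * N) = 2 ^ (K + 1) * N := by ring
  rw [hexp] at h4
  refine le_trans ?_ h4
  have h5 : (1 / 2 : ℝ) ≤ Real.exp (-(s / N * v / 2)) := by
    have := Real.add_one_le_exp (-(s / N * v / 2))
    linarith
  have e1 : ENNReal.ofReal ((1 / 2) * α ^ n * α ^ n * (Real.pi * w) ^ n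
      * ((3 : ℝ) / 2) ^ (2 ^ (K + 1))) =
      ENNReal.ofReal α ^ n * ENNReal.ofReal α ^ n * ENNReal.ofReal (1 / 2) *
        (ENNReal.ofReal (3 / 2) ^ (2 ^ (K + 1)) * ENNReal.ofReal ((Real.pi * w) ^ n)) := by
    rw [← ENNReal.ofReal_pow hα.le, ← ENNReal.ofReal_pow (by norm_num : (0 : ℝ) ≤ 3 / 2),
      ← ENNReal.ofReal_mul (by positivity), ← ENNReal.ofReal_mul (by positivity),
      ← ENNReal.ofReal_mul (by positivity), ← ENNReal.ofReal_mul (by positivity)]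
    congr 1
    ring
  rw [e1, ← hG]
  exact mul_le_mul' (mul_le_mul' (mul_le_mul' (pow_le_pow_left' hcφ n) (pow_le_pow_left' hcψ n))
    (ENNReal.ofReal_le_ofReal h5)) h3

/-- **lower bound**, uniform in the initial data with `cI ≥ α` -/
theorem lower_final {j : R2 → ℝ} (hj : Moll j) {θ : ℝ} {bsq : ℝ → ℝ} (hb : CritWin θ bsq)
    {t : ℝ≥0} (ht : 0 < t) {α : ℝ} (hα : 0 < α) :
    ∃ c : ℝ, 0 < c ∧ ∃ n0 : ℕ, 2 ≤ n0 ∧ ∀ n : ℕ, n0 ≤ n → ∀ᶠ ε in 𝓝[>] (0 : ℝ),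
      ∀ (Ω : Type u) [MeasurableSpace Ω] (W : Fin n × Fin 2 → ℝ≥0 → Ω → ℝ) (P : Measure Ω),
      BMfam W P → ∀ φ ψ : R2 → ℝ, Measurable φ → Measurable ψ →
      ∫⁻ x, (ENNReal.ofReal (φ x)) ^ 2 < ∞ → ∫⁻ x, (ENNReal.ofReal (ψ x)) ^ 2 < ∞ →
      ENNReal.ofReal α ≤ cI (t / 4) φ → ENNReal.ofReal α ≤ cI (t / 4) ψ →
      ENNReal.ofReal (Real.exp (Real.exp (c * n))) ≤ Mom W P (bsq ε) (Re j ε) t φ ψ := by
  obtain ⟨a0, ha0, hsupp⟩ := Re_supp hj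
  obtain ⟨M, hM0, hM⟩ := Re_bdd hj
  obtain ⟨C1, hC1, hvolt⟩ := volt_asy hb ha0
  have ht' : (0 : ℝ) < t := by exact_mod_cast ht
  obtain ⟨c, hc, n0, hn0, hpar⟩ := par (α := α) ht' hC1 hα
  refine ⟨c, hc, n0, hn0, fun n hn => ?_⟩
  obtain ⟨K, hK1, hK2, hK3, hK4⟩ := hpar n hn
  have hn2 : 2 ≤ n := hn0.trans hn
  have hn0' : (0 : ℝ) < n := by exact_mod_cast (by omega : 0 < n)
  obtain ⟨s, hs_def⟩ : ∃ s : ℝ, s = (t : ℝ) / 2 ^ (K + 2) := ⟨_, rfl⟩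
  rw [← hs_def] at hK1 hK2 hK3 hK4
  have hs : 0 < s := by rw [hs_def]; positivity
  have hst : 2 ^ K * s = (t : ℝ) / 4 := by
    rw [hs_def, pow_add]
    field_simp
    norm_num
  obtain ⟨κ, hκ_def⟩ : ∃ κ : ℝ, κ = 1 / (Real.log (1 / s) + C1) := ⟨_, rfl⟩
  have hlog : 0 ≤ Real.log (1 / s) := Real.log_nonneg ((one_le_div hs).2 hK1)
  have hκ : 0 < κ := by rw [hκ_def]; positivity
  rw [← hκ_def] at hK3
  have hw : 0 < (n : ℝ) * s := by positivity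
  filter_upwards [hvolt s hs hK1 (n * s) hw, ratio hb ha0 hs hκ hn2 hK3, Lower_bsq hb]
    with ε h1 h2 h3
  obtain ⟨hε, hbε, hLε⟩ := h3
  rw [← hκ_def] at h1
  intro Ω _ W P hW φ ψ hφ hψ hφ2 hψ2 hcφ hcψ
  have hRc := Re_cont hj hε
  have hCov : Cov (Re j ε) (a0 * ε) :=
    ⟨hRc.measurable, Re_nonneg hj ε, Re_lint hj hε, by positivity, fun z hz => hsupp ε hε z hz⟩
  obtain ⟨v, hv_def⟩ : ∃ v : ℝ, v = bsq ε * n ^ 2 * (M / ε ^ 2) := ⟨_, rfl⟩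
  have hv : ∀ x : XX n, VV (bsq ε) (Re j ε) x ≤ v := fun x => by
    rw [hv_def]
    exact VV_le hbε (by positivity) (hM ε hε) x
  have hlim := fk_lim hW (VV_cont hRc) (fun x => VV_nonneg hbε (Re_nonneg hj ε) x) hv ht
    (tens_meas hφ) (tens_meas hψ)
    (by rw [tens_sq hφ]; exact ENNReal.pow_lt_top hφ2)
    (by rw [tens_sq hψ]; exact ENNReal.pow_lt_top hψ2)
  refine ge_of_tendsto_of_frequently hlim ?_
  rw [Filter.frequently_atTop]
  intro m0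
  obtain ⟨N, hN20, hNm, hNa, hNv⟩ : ∃ N : ℕ, 20 ≤ N ∧ m0 + 1 ≤ N ∧ s / N ≤ (a0 * ε) ^ 2 ∧
      s / N * v ≤ 1 := by
    have hl1 : Tendsto (fun N : ℕ => s / (N : ℝ)) atTop (𝓝 0) :=
      tendsto_const_div_atTop_nhds_zero_nat s
    have hl2 : Tendsto (fun N : ℕ => s / (N : ℝ) * v) atTop (𝓝 0) := by
      simpa using hl1.mul_const v
    have e1 := hl1.eventually_le_const (show (0 : ℝ) < (a0 * ε) ^ 2 by positivity)
    have e2 := hl2.eventually_le_const (show (0 : ℝ) < 1 by norm_num)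
    obtain ⟨N, hN⟩ := (e1.and (e2.and ((eventually_ge_atTop 20).and
      (eventually_ge_atTop (m0 + 1))))).exists
    exact ⟨N, hN.2.2.1, hN.2.2.2, hN.1, hN.2.1⟩
  have hN1 : 1 ≤ N := by omega
  have hNr : (0 : ℝ) < N := by exact_mod_cast hN1
  have hpos : 0 < 4 * (2 ^ K * N) := by positivity
  obtain ⟨m, hm⟩ : ∃ m : ℕ, 4 * (2 ^ K * N) = m + 1 := ⟨4 * (2 ^ K * N) - 1, by omega⟩
  have hmr : (m : ℝ) + 1 = 4 * (2 ^ K * N) := by exact_mod_cast hm.symm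
  have hτ : (t : ℝ) / (m + 1) = s / N := by
    rw [hmr]
    have h4 : (t : ℝ) = 4 * (2 ^ K * s) := by rw [hst]; ring
    rw [h4]
    field_simp
  refine ⟨m, ?_, ?_⟩
  · have h4 : 1 ≤ 2 ^ K := Nat.one_le_two_pow
    nlinarith
  rw [hτ, ← hm]
  have hvl : Volt (s / N) (bsq ε) (a0 * ε) (n * s) (N - 1)
      (fun l => κ * Real.log (1 / ε) / s * (l * (s / N))) := by
    refine volt_lin (by positivity) (by positivity) hNa hbε (by positivity) (N - 1) ?_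
    intro l hl1 hl2
    refine h1 (l * (s / N)) ?_ ?_
    · have : (0 : ℝ) < l := by exact_mod_cast hl1
      positivity
    · have h5 : (l : ℝ) ≤ N := by exact_mod_cast (hl2.trans (Nat.sub_le N 1))
      calc (l : ℝ) * (s / N) ≤ N * (s / N) := by gcongr
        _ = s := by field_simp
  have hmain := Lower_step (n := n) (K := K) (N := N) (α := α) hCov hRc hbε hs hw hv hN1
    (by rw [hst]; linarith) hNv hvl (h2 N hN20) hφ hψ hα
    (by rw [hst]; exact hcφ) (by rw [hst]; exact hcψ)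
  exact le_trans (ENNReal.ofReal_le_ofReal hK4) hmain

end SHF
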