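import Pool.Agent.W_03a799_h55.RhoA

/-! The Fourier transform `rh j ε` of the covariance `R_ε`. -/

open MeasureTheory Filter Topology
open scoped ENNReal NNReal FourierTransform

namespace SHF

open scoped SchwartzMap in
/-- `j` as a complex Schwartz function -/
lemma RhoB_schwartz {j : R2 → ℝ} (hj : Moll j) :
    ∃ S : 𝓢(R2, ℂ), ∀ x, S x = (j x : ℂ) := by
  have h1 : HasCompactSupport (fun x => (j x : ℂ)) := hj.supp.comp_left (g := fun r : ℝ => (r : ℂ)) (by simp)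
  have h2 : ContDiff ℝ (⊤ : ℕ∞) (fun x => (j x : ℂ)) := Complex.ofRealCLM.contDiff.comp hj.smooth
  exact ⟨h1.toSchwartzMap h2, fun x => rfl⟩

open scoped SchwartzMap in
/-- `𝓕 j` as a complex Schwartz function -/
lemma RhoB_fschwartz {j : R2 → ℝ} (hj : Moll j) :
    ∃ S : 𝓢(R2, ℂ), ∀ x, S x = 𝓕 (fun x => (j x : ℂ)) x := by
  obtain ⟨S, hS⟩ := RhoB_schwartz hj
  refine ⟨𝓕 S, fun x => ?_⟩
  have h0 : (fun x => (j x : ℂ)) = S := by
    funext y
    exact (hS y).symm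
  rw [SchwartzMap.fourier_coe, h0]

lemma RhoB_int {j : R2 → ℝ} (hj : Moll j) : Integrable (fun x => (j x : ℂ)) := by
  obtain ⟨S, hS⟩ := RhoB_schwartz hj
  have := S.integrable (μ := volume)
  refine this.congr (Eventually.of_forall fun x => hS x)

lemma RhoB_cont {j : R2 → ℝ} (hj : Moll j) : Continuous (𝓕 (fun x => (j x : ℂ))) := by
  obtain ⟨S, hS⟩ := RhoB_fschwartz hj
  have : (𝓕 (fun x => (j x : ℂ))) = S := by ext x; exact (hS x).symm
  rw [this]; exact S.continuous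

lemma RhoB_le {j : R2 → ℝ} (hj : Moll j) (k : R2) : ‖𝓕 (fun x => (j x : ℂ)) k‖ ≤ 1 := by
  have h := VectorFourier.norm_fourierIntegral_le_integral_norm Real.fourierChar
    (volume : Measure R2) (innerₗ R2) (fun x => (j x : ℂ)) k
  have h2 : ∫ x, ‖(j x : ℂ)‖ = 1 := by
    rw [← hj.mass]
    refine integral_congr_ae (Eventually.of_forall fun x => ?_)
    simp [abs_of_nonneg (hj.nonneg x)]
  rw [h2] at h
  exact h

lemma RhoB_neg (f : R2 → ℝ) (k : R2) :
    𝓕 (fun x => (f x : ℂ)) (-k) = (starRingEnd ℂ) (𝓕 (fun x => (f x : ℂ)) k) := by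
  rw [Real.fourier_eq, Real.fourier_eq, ← integral_conj]
  refine integral_congr_ae (Eventually.of_forall fun x => ?_)
  simp only [Circle.smul_def, smul_eq_mul, map_mul, Complex.conj_ofReal, inner_neg_right]
  congr 1
  rw [neg_neg, AddChar.map_neg_eq_inv, Circle.coe_inv_eq_conj, Complex.conj_conj]

lemma RhoB_comp_neg (f : R2 → ℂ) (k : R2) :
    𝓕 (fun x => f (-x)) k = 𝓕 f (-k) := by
  rw [Real.fourier_eq, Real.fourier_eq, ← integral_neg_eq_self]
  refine integral_congr_ae (Eventually.of_forall fun x => ?_)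
  simp

lemma rh_cont {j : R2 → ℝ} (hj : Moll j) (ε : ℝ) : Continuous (rh j ε) := by
  unfold rh
  exact (((RhoB_cont hj).comp (continuous_const_smul ε)).norm).pow 2

lemma rh_nonneg (j : R2 → ℝ) (ε : ℝ) (k : R2) : 0 ≤ rh j ε k := by unfold rh; positivity

lemma rh_le_one {j : R2 → ℝ} (hj : Moll j) (ε : ℝ) (k : R2) : rh j ε k ≤ 1 := by
  unfold rh
  exact pow_le_one₀ (norm_nonneg _) (RhoB_le hj _)

/-- `j` is real, so `𝓕 j (-k)` is the conjugate of `𝓕 j k` -/
lemma rh_even {j : R2 → ℝ} (hj : Moll j) (ε : ℝ) (k : R2) : rh j ε (-k) = rh j ε k := by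
  unfold rh
  rw [smul_neg, RhoB_neg, RCLike.norm_conj]

lemma RhoB_sq_int {j : R2 → ℝ} (hj : Moll j) :
    Integrable (fun k => ‖𝓕 (fun x => (j x : ℂ)) k‖ ^ 2) := by
  obtain ⟨S, hS⟩ := RhoB_fschwartz hj
  have h := (S.memLp 2 volume).integrable_norm_pow (by norm_num)
  refine h.congr (Eventually.of_forall fun x => ?_)
  simp [hS x]

lemma rh_integrable {j : R2 → ℝ} (hj : Moll j) {ε : ℝ} (hε : 0 < ε) : Integrable (rh j ε) := by
  unfold rh
  exact (integrable_comp_smul_iff (μ := volume) (fun k => ‖𝓕 (fun x => (j x : ℂ)) k‖ ^ 2) hε.ne').mpr (RhoB_sq_int hj)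

/-- `∫ rh j ε = I / ε²`; `j` is a Schwartz function, so `𝓕 j` is square integrable -/
lemma rh_lint {j : R2 → ℝ} (hj : Moll j) :
    ∃ I : ℝ, 0 ≤ I ∧ ∀ ε : ℝ, 0 < ε → ∫⁻ k, ENNReal.ofReal (rh j ε k) ≤ ENNReal.ofReal (I / ε ^ 2) := by
  refine ⟨∫ k, ‖𝓕 (fun x => (j x : ℂ)) k‖ ^ 2, integral_nonneg fun k => by positivity, ?_⟩
  intro ε hε
  rw [← ofReal_integral_eq_lintegral_ofReal (rh_integrable hj hε)
    (Eventually.of_forall fun k => rh_nonneg j ε k)]
  apply ENNReal.ofReal_le_ofReal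
  unfold rh
  rw [Measure.integral_comp_smul (μ := volume) (fun k => ‖𝓕 (fun x => (j x : ℂ)) k‖ ^ 2) ε]
  rw [finrank_euclideanSpace_fin, abs_of_pos (by positivity), smul_eq_mul, div_eq_inv_mul]

lemma RhoB_scale {j : R2 → ℝ} {ε : ℝ} (hε : 0 < ε) (k : R2) :
    𝓕 (fun x => (je j ε x : ℂ)) k = 𝓕 (fun x => (j x : ℂ)) (ε • k) := by
  rw [Real.fourier_eq, Real.fourier_eq]
  have h := Measure.integral_comp_smul (μ := (volume : Measure R2))
    (fun v => (ε ^ 2 : ℂ)⁻¹ • (Real.fourierChar (-inner ℝ v (ε • k)) • (j v : ℂ))) ε⁻¹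
  rw [finrank_euclideanSpace_fin, abs_of_pos (by positivity)] at h
  rw [integral_smul ((ε ^ 2 : ℂ)⁻¹) (fun v => Real.fourierChar (-inner ℝ v (ε • k)) • (j v : ℂ))] at h
  have e1 : ((ε⁻¹ ^ 2)⁻¹ : ℝ) • ((ε ^ 2 : ℂ)⁻¹ • ∫ v, Real.fourierChar (-inner ℝ v (ε • k)) • (j v : ℂ))
      = ∫ v, Real.fourierChar (-inner ℝ v (ε • k)) • (j v : ℂ) := by
    rw [Complex.real_smul, smul_eq_mul, ← mul_assoc]
    have : (((ε⁻¹ ^ 2)⁻¹ : ℝ) : ℂ) * (ε ^ 2 : ℂ)⁻¹ = 1 := by
      push_cast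
      have : (ε : ℂ) ≠ 0 := by exact_mod_cast hε.ne'
      field_simp
    rw [this, one_mul]
  rw [e1] at h
  rw [← h]
  refine integral_congr_ae (Eventually.of_forall fun x => ?_)
  simp only [je, inner_smul_left, inner_smul_right]
  have : (starRingEnd ℝ) ε⁻¹ * (ε * inner ℝ x k) = inner ℝ x k := by
    simp only [conj_trivial]
    field_simp
  rw [mul_left_comm] at this
  rw [show ε * ((starRingEnd ℝ) ε⁻¹ * inner ℝ x k) = inner ℝ x k from this]
  simp only [Circle.smul_def, smul_eq_mul]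
  push_cast
  ring

/-- `rh j ε` is the Fourier transform of `R_ε` (Fubini, `j` real) -/
lemma rh_fourier {j : R2 → ℝ} (hj : Moll j) {ε : ℝ} (hε : 0 < ε) (k : R2) :
    𝓕 (fun z => (Re j ε z : ℂ)) k = (rh j ε k : ℂ) := by
  have hi : Integrable (fun x => (je j ε x : ℂ)) := (je_int hj hε).ofReal
  have hi' : Integrable (fun x => (je j ε (-x) : ℂ)) := hi.comp_neg
  have h := Real.fourier_mul_convolution_eq hi' hi k
  have e : (fun z => (Re j ε z : ℂ)) = MeasureTheory.convolution (fun x => (je j ε (-x) : ℂ))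
      (fun x => (je j ε x : ℂ)) (ContinuousLinearMap.mul ℂ ℂ) volume := by
    ext z
    unfold Re
    rw [← integral_complex_ofReal, MeasureTheory.convolution, ← integral_neg_eq_self]
    refine integral_congr_ae (Eventually.of_forall fun x => ?_)
    simp [mul_comm, sub_eq_add_neg]
  rw [e, h, RhoB_comp_neg (fun x => (je j ε x : ℂ)) k, RhoB_neg, RhoB_scale hε]
  unfold rh
  rw [← Complex.normSq_eq_conj_mul_self, Complex.normSq_eq_norm_sq]

/-- Fourier inversion -/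
lemma Re_inv {j : R2 → ℝ} (hj : Moll j) {ε : ℝ} (hε : 0 < ε) (z : R2) :
    (Re j ε z : ℂ) = ∫ k, (rh j ε k : ℂ) * Complex.exp (2 * Real.pi * Complex.I * (inner ℝ k z : ℝ)) := by
  have hF : (𝓕 (fun z => (Re j ε z : ℂ))) = fun k => (rh j ε k : ℂ) := by
    ext k; exact rh_fourier hj hε k
  have h1 : Integrable (fun z => (Re j ε z : ℂ)) := (Re_integrable hj hε).ofReal
  have h2 : Integrable (𝓕 (fun z => (Re j ε z : ℂ))) := by
    rw [hF]; exact (rh_integrable hj hε).ofReal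
  have h3 : ContinuousAt (fun z => (Re j ε z : ℂ)) z :=
    (Complex.continuous_ofReal.comp (Re_cont hj hε)).continuousAt
  have h := h1.fourierInv_fourier_eq h2 h3
  rw [← h, hF, Real.fourierInv_eq']
  refine integral_congr_ae (Eventually.of_forall fun k => ?_)
  simp only [smul_eq_mul]
  rw [mul_comm]
  congr 2
  push_cast
  ring

end SHF
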