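import Pool.Agent.W_03a799_h55.Defs

/-! Fourier transforms of probability densities are positive definite: `PD`. -/

open MeasureTheory Filter Topology
open scoped ENNReal NNReal FourierTransform

namespace SHF

/-- bounded, bounded support, nonnegative, measurable -/
structure NiceG (g : R2 → ℝ) : Prop where
  meas : Measurable g
  nonneg : ∀ x, 0 ≤ g x
  bdd : ∃ N : ℝ, ∀ x, g x ≤ N
  supp : ∃ r : ℝ, ∀ x, r < ‖x‖ → g x = 0

/-- the phase -/
noncomputable def RhoC_E (v w : R2) : ℂ :=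
  Complex.exp (↑(-2 * Real.pi * inner ℝ v w) * Complex.I)

lemma RhoC_four (f : R2 → ℂ) (w : R2) : 𝓕 f w = ∫ v, RhoC_E v w * f v := by
  rw [Real.fourier_eq']
  rfl

lemma RhoC_norm (v w : R2) : ‖RhoC_E v w‖ = 1 := by
  unfold RhoC_E
  rw [Complex.norm_exp_ofReal_mul_I]

lemma RhoC_symm (v w : R2) : RhoC_E v w = RhoC_E w v := by
  unfold RhoC_E
  rw [real_inner_comm]

lemma RhoC_cont : Continuous (fun p : R2 × R2 => RhoC_E p.1 p.2) := by
  unfold RhoC_E
  fun_prop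

lemma RhoC_cont1 (w : R2) : Continuous (fun z => RhoC_E z w) := by
  unfold RhoC_E
  fun_prop

lemma RhoC_mul (z k l : R2) :
    RhoC_E z k * (starRingEnd ℂ) (RhoC_E z l) = RhoC_E z (k - l) := by
  unfold RhoC_E
  rw [← Complex.exp_conj, ← Complex.exp_add]
  congr 1
  rw [map_mul, Complex.conj_ofReal, Complex.conj_I, inner_sub_right]
  push_cast
  ring

lemma RhoC_int {g : R2 → ℝ} (hg : NiceG g) : Integrable g := by
  obtain ⟨N, hN⟩ := hg.bdd
  obtain ⟨r, hr⟩ := hg.supp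
  have h1 : Integrable ((Metric.closedBall (0 : R2) r).indicator fun _ => (N : ℝ)) := by
    rw [integrable_indicator_iff Metric.isClosed_closedBall.measurableSet]
    rw [integrableOn_const_iff]
    exact Or.inr (isCompact_closedBall _ _).measure_lt_top
  refine h1.mono' hg.meas.aestronglyMeasurable (ae_of_all _ fun x => ?_)
  rw [Real.norm_eq_abs, abs_of_nonneg (hg.nonneg x)]
  by_cases hx : x ∈ Metric.closedBall (0 : R2) r
  · rw [Set.indicator_of_mem hx]
    exact hN x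
  · rw [Set.indicator_of_notMem hx, hr x]
    rwa [Metric.mem_closedBall, dist_zero_right, not_le] at hx

lemma RhoC_intC {g : R2 → ℝ} (hg : NiceG g) : Integrable (fun x => (g x : ℂ)) :=
  (RhoC_int hg).ofReal

lemma RhoC_fub {A B : R2 → ℂ} (hA : Integrable A) (hB : Integrable B) {P : R2 → R2 → ℂ}
    (hP : Continuous (fun p : R2 × R2 => P p.1 p.2)) (h1 : ∀ z l, ‖P z l‖ ≤ 1) :
    ∫ z, A z * ∫ l, P z l * B l = ∫ l, (∫ z, A z * P z l) * B l := by
  have hint : Integrable (Function.uncurry fun z l => A z * (P z l * B l))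
      (volume.prod volume) := by
    have h := (hA.mul_prod hB).bdd_mul (c := 1) hP.aestronglyMeasurable
      (ae_of_all _ (fun p => h1 p.1 p.2))
    refine h.congr (ae_of_all _ fun p => ?_)
    simp only [Function.uncurry]
    ring
  calc ∫ z, A z * ∫ l, P z l * B l = ∫ z, ∫ l, A z * (P z l * B l) := by
        simp_rw [integral_const_mul]
    _ = ∫ l, ∫ z, A z * (P z l * B l) := integral_integral_swap hint
    _ = ∫ l, (∫ z, A z * P z l) * B l := by
        refine integral_congr_ae (ae_of_all _ fun l => ?_)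
        simp only
        rw [← integral_mul_const]
        refine integral_congr_ae (ae_of_all _ fun z => ?_)
        simp only
        ring

lemma RhoC_fcont {f : R2 → ℂ} (hf : Integrable f) : Continuous (𝓕 f) :=
  VectorFourier.fourierIntegral_continuous Real.continuous_fourierChar
    (by
      have : Continuous (fun p : R2 × R2 => (innerₗ R2) p.1 p.2) := by
        simp only [innerₗ_apply_apply]
        fun_prop
      exact this) hf

lemma RhoC_fbdd (f : R2 → ℂ) (w : R2) : ‖𝓕 f w‖ ≤ ∫ v, ‖f v‖ := by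
  rw [RhoC_four]
  refine (norm_integral_le_integral_norm _).trans (le_of_eq ?_)
  refine integral_congr_ae (ae_of_all _ fun v => ?_)
  simp only [norm_mul, RhoC_norm, one_mul]

lemma RhoC_conjF (h : R2 → ℝ) (z : R2) :
    (starRingEnd ℂ) (𝓕 (fun x => (h x : ℂ)) z) =
      ∫ l, (starRingEnd ℂ) (RhoC_E z l) * (h l : ℂ) := by
  rw [RhoC_four, ← integral_conj]
  refine integral_congr_ae (ae_of_all _ fun l => ?_)
  simp only [map_mul, Complex.conj_ofReal]
  rw [RhoC_symm]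

lemma RhoC_inner {R ρ : R2 → ℝ} (hRi : Integrable R)
    (hρ : ∀ k, 𝓕 (fun z => (R z : ℂ)) k = (ρ k : ℂ)) {h : R2 → ℝ} (hh : NiceG h) (k : R2) :
    ∫ z, ((R z : ℂ) * RhoC_E z k) * (starRingEnd ℂ) (𝓕 (fun x => (h x : ℂ)) z) =
      ((∫ l, ρ (k - l) * h l : ℝ) : ℂ) := by
  have hA : Integrable (fun z => (R z : ℂ) * RhoC_E z k) :=
    hRi.ofReal.mul_bdd (c := 1) (RhoC_cont1 k).aestronglyMeasurable
      (ae_of_all _ fun z => (RhoC_norm z k).le)
  have h1 : ∫ z, ((R z : ℂ) * RhoC_E z k) * (starRingEnd ℂ) (𝓕 (fun x => (h x : ℂ)) z) =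
      ∫ z, ((R z : ℂ) * RhoC_E z k) * ∫ l, (starRingEnd ℂ) (RhoC_E z l) * (h l : ℂ) := by
    refine integral_congr_ae (ae_of_all _ fun z => ?_)
    simp only
    rw [RhoC_conjF]
  rw [h1, RhoC_fub hA (RhoC_intC hh) (P := fun z l => (starRingEnd ℂ) (RhoC_E z l))
    (Complex.continuous_conj.comp RhoC_cont) (fun z l => by
      rw [Complex.norm_conj, RhoC_norm])]
  rw [← integral_complex_ofReal]
  refine integral_congr_ae (ae_of_all _ fun l => ?_)
  simp only
  have h2 : ∫ z, ((R z : ℂ) * RhoC_E z k) * (starRingEnd ℂ) (RhoC_E z l) = (ρ (k - l) : ℂ) := by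
    rw [← hρ, RhoC_four]
    refine integral_congr_ae (ae_of_all _ fun z => ?_)
    simp only
    rw [mul_assoc, RhoC_mul, mul_comm]
  rw [h2]
  push_cast
  rfl

/-- `∫∫ g(k) ρ(k-l) h(l) = ∫ R(z) ĝ(z) conj(ĥ(z)) dz` -/
lemma form_eq {R ρ : R2 → ℝ} (hR0 : ∀ z, 0 ≤ R z) (hRi : Integrable R)
    (hρ : ∀ k, 𝓕 (fun z => (R z : ℂ)) k = (ρ k : ℂ)) {g h : R2 → ℝ} (hg : NiceG g)
    (hh : NiceG h) :
    ((∫ k, ∫ l, ρ (k - l) * g k * h l : ℝ) : ℂ)
      = ∫ z, (R z : ℂ) * 𝓕 (fun x => (g x : ℂ)) z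
          * (starRingEnd ℂ) (𝓕 (fun x => (h x : ℂ)) z) := by
  have _ := hR0
  have hA : Integrable (fun z => (R z : ℂ) * (starRingEnd ℂ) (𝓕 (fun x => (h x : ℂ)) z)) := by
    refine hRi.ofReal.mul_bdd (c := ∫ v, ‖(h v : ℂ)‖)
      (Complex.continuous_conj.comp (RhoC_fcont (RhoC_intC hh))).aestronglyMeasurable
      (ae_of_all _ fun z => ?_)
    rw [Complex.norm_conj]
    exact RhoC_fbdd _ z
  have h1 : ∫ z, (R z : ℂ) * 𝓕 (fun x => (g x : ℂ)) z
          * (starRingEnd ℂ) (𝓕 (fun x => (h x : ℂ)) z) =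
      ∫ z, ((R z : ℂ) * (starRingEnd ℂ) (𝓕 (fun x => (h x : ℂ)) z)) *
        ∫ k, RhoC_E z k * (g k : ℂ) := by
    refine integral_congr_ae (ae_of_all _ fun z => ?_)
    simp only
    rw [RhoC_four (fun x => (g x : ℂ)) z]
    have h2 : ∫ v, RhoC_E v z * (g v : ℂ) = ∫ k, RhoC_E z k * (g k : ℂ) := by
      refine integral_congr_ae (ae_of_all _ fun v => ?_)
      simp only
      rw [RhoC_symm]
    rw [h2]
    ring
  rw [h1, RhoC_fub hA (RhoC_intC hg) (P := fun z k => RhoC_E z k) RhoC_cont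
    (fun z l => (RhoC_norm z l).le), ← integral_complex_ofReal]
  refine integral_congr_ae (ae_of_all _ fun k => ?_)
  simp only
  have h3 : ∫ z, ((R z : ℂ) * (starRingEnd ℂ) (𝓕 (fun x => (h x : ℂ)) z)) * RhoC_E z k =
      ((∫ l, ρ (k - l) * h l : ℝ) : ℂ) := by
    rw [← RhoC_inner hRi hρ hh k]
    refine integral_congr_ae (ae_of_all _ fun z => ?_)
    simp only
    ring
  rw [h3, ← Complex.ofReal_mul, ← integral_mul_const]
  congr 1
  refine integral_congr_ae (ae_of_all _ fun l => ?_)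
  simp only
  ring

/-- Cauchy-Schwarz with the weight `R` -/
lemma RhoC_cs {R : R2 → ℝ} (hR0 : ∀ z, 0 ≤ R z) (hRi : Integrable R) {u v : R2 → ℝ}
    (hu : Continuous u) (hv : Continuous v) {c d : ℝ} (hc : ∀ z, |u z| ≤ c)
    (hd : ∀ z, |v z| ≤ d) :
    (∫ z, R z * (u z * v z)) ^ 2 ≤ (∫ z, R z * u z ^ 2) * ∫ z, R z * v z ^ 2 := by
  have hc0 : 0 ≤ c := (abs_nonneg _).trans (hc 0)
  have hd0 : 0 ≤ d := (abs_nonneg _).trans (hd 0)
  have i1 : Integrable (fun z => R z * (u z * v z)) :=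
    hRi.mul_bdd (c := c * d) (hu.mul hv).aestronglyMeasurable (ae_of_all _ fun z => by
      rw [Real.norm_eq_abs, abs_mul]
      exact mul_le_mul (hc z) (hd z) (abs_nonneg _) hc0)
  have i2 : Integrable (fun z => R z * u z ^ 2) :=
    hRi.mul_bdd (c := c ^ 2) (hu.pow 2).aestronglyMeasurable (ae_of_all _ fun z => by
      rw [Real.norm_eq_abs, abs_pow]
      exact pow_le_pow_left₀ (abs_nonneg _) (hc z) 2)
  have i3 : Integrable (fun z => R z * v z ^ 2) :=
    hRi.mul_bdd (c := d ^ 2) (hv.pow 2).aestronglyMeasurable (ae_of_all _ fun z => by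
      rw [Real.norm_eq_abs, abs_pow]
      exact pow_le_pow_left₀ (abs_nonneg _) (hd z) 2)
  have key : ∀ t : ℝ, 0 ≤ (∫ z, R z * v z ^ 2) * (t * t) +
      (2 * ∫ z, R z * (u z * v z)) * t + ∫ z, R z * u z ^ 2 := by
    intro t
    have h0 : 0 ≤ ∫ z, R z * (u z + t * v z) ^ 2 :=
      integral_nonneg fun z => mul_nonneg (hR0 z) (sq_nonneg _)
    have h1 : ∫ z, R z * (u z + t * v z) ^ 2 = ∫ z, (R z * u z ^ 2 +
        (2 * t) * (R z * (u z * v z)) + (t * t) * (R z * v z ^ 2)) := by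
      refine integral_congr_ae (ae_of_all _ fun z => ?_)
      simp only
      ring
    have i4 : Integrable (fun z => R z * u z ^ 2 + (2 * t) * (R z * (u z * v z))) :=
      i2.add (i1.const_mul _)
    rw [h1, integral_add i4 (i3.const_mul _),
      integral_add i2 (i1.const_mul _), integral_const_mul, integral_const_mul] at h0
    linarith
  have h := discrim_le_zero key
  unfold discrim at h
  nlinarith

lemma RhoC_ofReal_normSq {R : R2 → ℝ} (f : R2 → ℂ) :
    ∫ z, (R z : ℂ) * f z * (starRingEnd ℂ) (f z) = ((∫ z, R z * ‖f z‖ ^ 2 : ℝ) : ℂ) := by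
  rw [← integral_complex_ofReal]
  refine integral_congr_ae (ae_of_all _ fun z => ?_)
  simp only
  rw [mul_assoc, Complex.mul_conj, Complex.normSq_eq_norm_sq]
  push_cast
  rfl

/-- Cauchy-Schwarz for nice functions -/
lemma cs_nice {R ρ : R2 → ℝ} (hR0 : ∀ z, 0 ≤ R z) (hRi : Integrable R)
    (hρ : ∀ k, 𝓕 (fun z => (R z : ℂ)) k = (ρ k : ℂ)) {g h : R2 → ℝ} (hg : NiceG g)
    (hh : NiceG h) :
    (∫ k, ∫ l, ρ (k - l) * g k * h l) ^ 2
      ≤ (∫ k, ∫ l, ρ (k - l) * g k * g l) * (∫ k, ∫ l, ρ (k - l) * h k * h l) := by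
  have cg := RhoC_fcont (RhoC_intC hg)
  have ch := RhoC_fcont (RhoC_intC hh)
  have e1 : (∫ k, ∫ l, ρ (k - l) * g k * g l) =
      ∫ z, R z * ‖𝓕 (fun x => (g x : ℂ)) z‖ ^ 2 := by
    have h1 := form_eq hR0 hRi hρ hg hg
    rw [RhoC_ofReal_normSq] at h1
    exact_mod_cast h1
  have e2 : (∫ k, ∫ l, ρ (k - l) * h k * h l) =
      ∫ z, R z * ‖𝓕 (fun x => (h x : ℂ)) z‖ ^ 2 := by
    have h1 := form_eq hR0 hRi hρ hh hh
    rw [RhoC_ofReal_normSq] at h1
    exact_mod_cast h1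
  have e3 : |∫ k, ∫ l, ρ (k - l) * g k * h l| ≤
      ∫ z, R z * (‖𝓕 (fun x => (g x : ℂ)) z‖ * ‖𝓕 (fun x => (h x : ℂ)) z‖) := by
    have h1 := form_eq hR0 hRi hρ hg hh
    have h2 : |∫ k, ∫ l, ρ (k - l) * g k * h l| =
        ‖((∫ k, ∫ l, ρ (k - l) * g k * h l : ℝ) : ℂ)‖ := by
      rw [Complex.norm_real, Real.norm_eq_abs]
    rw [h2, h1]
    refine (norm_integral_le_integral_norm _).trans (le_of_eq ?_)
    refine integral_congr_ae (ae_of_all _ fun z => ?_)
    simp only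
    rw [norm_mul, norm_mul, Complex.norm_conj, Complex.norm_real, Real.norm_eq_abs,
      abs_of_nonneg (hR0 z), mul_assoc]
  have e4 := RhoC_cs hR0 hRi (u := fun z => ‖𝓕 (fun x => (g x : ℂ)) z‖)
    (v := fun z => ‖𝓕 (fun x => (h x : ℂ)) z‖) cg.norm ch.norm
    (c := ∫ v, ‖(g v : ℂ)‖) (d := ∫ v, ‖(h v : ℂ)‖)
    (fun z => by rw [abs_norm]; exact RhoC_fbdd _ z)
    (fun z => by rw [abs_norm]; exact RhoC_fbdd _ z)
  rw [e1, e2]
  refine le_trans ?_ e4
  rw [← sq_abs]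
  exact pow_le_pow_left₀ (abs_nonneg _) e3 2

/-- `(∫ ρ(q-k) g(k) dk)² ≤ ∫∫ g ρ g` for nice functions when `∫ R = 1` -/
lemma cs0_nice {R ρ : R2 → ℝ} (hR0 : ∀ z, 0 ≤ R z) (hRi : Integrable R) (hR1 : ∫ z, R z = 1)
    (hρ : ∀ k, 𝓕 (fun z => (R z : ℂ)) k = (ρ k : ℂ)) {g : R2 → ℝ} (hg : NiceG g) (q : R2) :
    (∫ k, ρ (q - k) * g k) ^ 2 ≤ ∫ k, ∫ l, ρ (k - l) * g k * g l := by
  have cg := RhoC_fcont (RhoC_intC hg)
  have e1 : (∫ k, ∫ l, ρ (k - l) * g k * g l) =
      ∫ z, R z * ‖𝓕 (fun x => (g x : ℂ)) z‖ ^ 2 := by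
    have h1 := form_eq hR0 hRi hρ hg hg
    rw [RhoC_ofReal_normSq] at h1
    exact_mod_cast h1
  have e3 : |∫ k, ρ (q - k) * g k| ≤
      ∫ z, R z * ((1 : ℝ) * ‖𝓕 (fun x => (g x : ℂ)) z‖) := by
    have h1 := RhoC_inner hRi hρ hg q
    have h2 : |∫ k, ρ (q - k) * g k| = ‖((∫ k, ρ (q - k) * g k : ℝ) : ℂ)‖ := by
      rw [Complex.norm_real, Real.norm_eq_abs]
    rw [h2, ← h1]
    refine (norm_integral_le_integral_norm _).trans (le_of_eq ?_)
    refine integral_congr_ae (ae_of_all _ fun z => ?_)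
    simp only
    rw [norm_mul, norm_mul, Complex.norm_conj, Complex.norm_real, Real.norm_eq_abs,
      abs_of_nonneg (hR0 z), RhoC_norm, mul_one, one_mul]
  have e4 := RhoC_cs hR0 hRi (u := fun _ => (1 : ℝ))
    (v := fun z => ‖𝓕 (fun x => (g x : ℂ)) z‖) continuous_const cg.norm
    (c := 1) (d := ∫ v, ‖(g v : ℂ)‖)
    (fun z => by rw [abs_one])
    (fun z => by rw [abs_norm]; exact RhoC_fbdd _ z)
  have e5 : ∫ z, R z * (1 : ℝ) ^ 2 = 1 := by
    simp only [one_pow, mul_one]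
    exact hR1
  rw [e5, one_mul] at e4
  rw [e1]
  refine le_trans ?_ e4
  rw [← sq_abs]
  exact pow_le_pow_left₀ (abs_nonneg _) e3 2

/-- truncation -/
noncomputable def RhoC_T (g : R2 → ℝ≥0∞) (N : ℕ) (x : R2) : ℝ≥0∞ :=
  if ‖x‖ ≤ (N : ℝ) then min (g x) (N : ℝ≥0∞) else 0

lemma RhoC_T_le (g : R2 → ℝ≥0∞) (N : ℕ) (x : R2) : RhoC_T g N x ≤ g x := by
  unfold RhoC_T
  split_ifs
  · exact min_le_left _ _
  · exact zero_le

lemma RhoC_T_leN (g : R2 → ℝ≥0∞) (N : ℕ) (x : R2) : RhoC_T g N x ≤ (N : ℝ≥0∞) := by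
  unfold RhoC_T
  split_ifs
  · exact min_le_right _ _
  · exact zero_le

lemma RhoC_T_mono (g : R2 → ℝ≥0∞) (x : R2) : Monotone (fun N => RhoC_T g N x) := by
  intro N M hNM
  have hNM' : (N : ℝ) ≤ M := by exact_mod_cast hNM
  show RhoC_T g N x ≤ RhoC_T g M x
  unfold RhoC_T
  by_cases h : ‖x‖ ≤ (N : ℝ)
  · rw [if_pos h, if_pos (h.trans hNM')]
    exact min_le_min le_rfl (by exact_mod_cast hNM)
  · rw [if_neg h]
    exact zero_le

lemma RhoC_T_tendsto (g : R2 → ℝ≥0∞) (x : R2) :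
    Tendsto (fun N => RhoC_T g N x) atTop (𝓝 (g x)) := by
  have h1 : Tendsto (fun N : ℕ => min (g x) (N : ℝ≥0∞)) atTop (𝓝 (g x)) := by
    have h := (tendsto_const_nhds (x := g x)).min ENNReal.tendsto_nat_nhds_top
    rwa [min_eq_left le_top] at h
  refine h1.congr' ?_
  filter_upwards [eventually_ge_atTop (Nat.ceil ‖x‖)] with N hN
  unfold RhoC_T
  rw [if_pos (Nat.ceil_le.1 hN)]

lemma RhoC_T_meas {g : R2 → ℝ≥0∞} (hg : Measurable g) (N : ℕ) :
    Measurable (fun x => RhoC_T g N x) := by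
  unfold RhoC_T
  exact Measurable.ite (measurableSet_le measurable_norm measurable_const)
    (hg.min measurable_const) measurable_const

lemma RhoC_T_ne (g : R2 → ℝ≥0∞) (N : ℕ) (x : R2) : RhoC_T g N x ≠ ∞ :=
  ne_top_of_le_ne_top (ENNReal.natCast_ne_top N) (RhoC_T_leN g N x)

lemma RhoC_T_nice {g : R2 → ℝ≥0∞} (hg : Measurable g) (N : ℕ) :
    NiceG (fun x => (RhoC_T g N x).toReal) where
  meas := (RhoC_T_meas hg N).ennreal_toReal
  nonneg _ := ENNReal.toReal_nonneg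
  bdd := ⟨N, fun x => by
    have h := ENNReal.toReal_mono (ENNReal.natCast_ne_top N) (RhoC_T_leN g N x)
    rwa [ENNReal.toReal_natCast] at h⟩
  supp := ⟨N, fun x hx => by
    unfold RhoC_T
    rw [if_neg (not_le.2 hx)]
    rfl⟩

lemma RhoC_tmul {a b : ℕ → ℝ≥0∞} {A B : ℝ≥0∞} (ha : ∀ N, a N ≤ A) (hb : ∀ N, b N ≤ B)
    (hA : Tendsto a atTop (𝓝 A)) (hB : Tendsto b atTop (𝓝 B)) :
    Tendsto (fun N => a N * b N) atTop (𝓝 (A * B)) := by
  by_cases h : A = 0
  · subst h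
    have h1 : ∀ N, a N = 0 := fun N => le_antisymm (ha N) zero_le
    simp only [h1, zero_mul]
    exact tendsto_const_nhds
  · by_cases h' : B = 0
    · subst h'
      have h1 : ∀ N, b N = 0 := fun N => le_antisymm (hb N) zero_le
      simp only [h1, mul_zero]
      exact tendsto_const_nhds
    · exact ENNReal.Tendsto.mul hA (Or.inl h) hB (Or.inl h')

lemma RhoC_Bf_mono {ρ : R2 → ℝ} {g h g' h' : R2 → ℝ≥0∞} (hg : ∀ x, g x ≤ g' x)
    (hh : ∀ x, h x ≤ h' x) : Bf ρ g h ≤ Bf ρ g' h' := by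
  unfold Bf
  refine lintegral_mono fun k => lintegral_mono fun l => ?_
  exact mul_le_mul' (mul_le_mul' le_rfl (hg k)) (hh l)

lemma RhoC_Bf_tendsto {ρ : R2 → ℝ} (hm : Measurable ρ) {g h : R2 → ℝ≥0∞} (hg : Measurable g)
    (hh : Measurable h) : Tendsto (fun N => Bf ρ (fun x => RhoC_T g N x) fun x => RhoC_T h N x)
      atTop (𝓝 (Bf ρ g h)) := by
  unfold Bf
  have hρm : Measurable (fun p : R2 × R2 => ENNReal.ofReal (ρ (p.1 - p.2))) :=
    (hm.comp (measurable_fst.sub measurable_snd)).ennreal_ofReal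
  refine lintegral_tendsto_of_tendsto_of_monotone (fun N => ?_) (ae_of_all _ fun k => ?_)
    (ae_of_all _ fun k => ?_)
  · refine Measurable.aemeasurable ?_
    exact Measurable.lintegral_prod_right' (f := fun p : R2 × R2 =>
      ENNReal.ofReal (ρ (p.1 - p.2)) * RhoC_T g N p.1 * RhoC_T h N p.2)
      ((hρm.mul ((RhoC_T_meas hg N).comp measurable_fst)).mul
        ((RhoC_T_meas hh N).comp measurable_snd))
  · intro N M hNM
    refine lintegral_mono fun l => ?_
    exact mul_le_mul' (mul_le_mul' le_rfl (RhoC_T_mono g k hNM)) (RhoC_T_mono h l hNM)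
  · have hρk : Measurable (fun l : R2 => ENNReal.ofReal (ρ (k - l))) :=
      (hm.comp (measurable_const.sub measurable_id)).ennreal_ofReal
    refine lintegral_tendsto_of_tendsto_of_monotone (fun N => ?_) (ae_of_all _ fun l => ?_)
      (ae_of_all _ fun l => ?_)
    · exact ((hρk.mul measurable_const).mul (RhoC_T_meas hh N)).aemeasurable
    · intro N M hNM
      exact mul_le_mul' (mul_le_mul' le_rfl (RhoC_T_mono g k hNM)) (RhoC_T_mono h l hNM)
    · refine RhoC_tmul (fun N => mul_le_mul' le_rfl (RhoC_T_le g N k))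
        (fun N => RhoC_T_le h N l) ?_ (RhoC_T_tendsto h l)
      exact ENNReal.Tendsto.const_mul (RhoC_T_tendsto g k) (Or.inr ENNReal.ofReal_ne_top)

lemma RhoC_Bf_nice {ρ : R2 → ℝ} (hm : Measurable ρ) (h0 : ∀ k, 0 ≤ ρ k) (h1 : ∀ k, ρ k ≤ 1)
    {g h : R2 → ℝ} (hg : NiceG g) (hh : NiceG h) :
    Bf ρ (fun x => ENNReal.ofReal (g x)) (fun x => ENNReal.ofReal (h x)) =
      ENNReal.ofReal (∫ k, ∫ l, ρ (k - l) * g k * h l) := by
  have hρm : Measurable (fun p : R2 × R2 => ρ (p.1 - p.2)) :=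
    hm.comp (measurable_fst.sub measurable_snd)
  have hi : Integrable (fun p : R2 × R2 => ρ (p.1 - p.2) * g p.1 * h p.2)
      (volume.prod volume) := by
    have h2 := ((RhoC_int hg).mul_prod (RhoC_int hh)).bdd_mul (c := 1)
      hρm.aestronglyMeasurable (ae_of_all _ (fun p => by
        rw [Real.norm_eq_abs, abs_of_nonneg (h0 _)]
        exact h1 _))
    refine h2.congr (ae_of_all _ fun p => ?_)
    simp only
    ring
  have e1 : (∫ k, ∫ l, ρ (k - l) * g k * h l) =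
      ∫ p, ρ (p.1 - p.2) * g p.1 * h p.2 ∂((volume : Measure R2).prod (volume : Measure R2)) :=
    (integral_prod (fun p : R2 × R2 => ρ (p.1 - p.2) * g p.1 * h p.2) hi).symm
  have hmF : Measurable (fun p : R2 × R2 => ρ (p.1 - p.2) * g p.1 * h p.2) :=
    (hρm.mul (hg.meas.comp measurable_fst)).mul (hh.meas.comp measurable_snd)
  rw [e1, ofReal_integral_eq_lintegral_ofReal hi (ae_of_all _ fun p =>
    mul_nonneg (mul_nonneg (h0 _) (hg.nonneg _)) (hh.nonneg _)),
    lintegral_prod _ hmF.ennreal_ofReal.aemeasurable]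
  unfold Bf
  refine lintegral_congr fun k => lintegral_congr fun l => ?_
  rw [ENNReal.ofReal_mul (mul_nonneg (h0 _) (hg.nonneg _)), ENNReal.ofReal_mul (h0 _)]

/-- the structure `PD`: pass to monotone limits of truncations -/
theorem PD_of_fourier {R ρ : R2 → ℝ} (hR0 : ∀ z, 0 ≤ R z) (hRi : Integrable R)
    (hR1 : ∫ z, R z = 1) (hρ : ∀ k, 𝓕 (fun z => (R z : ℂ)) k = (ρ k : ℂ))
    (hm : Measurable ρ) (h0 : ∀ k, 0 ≤ ρ k) (h1 : ∀ k, ρ k ≤ 1) (he : ∀ k, ρ (-k) = ρ k)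
    (hi : Integrable ρ) : PD ρ where
  meas := hm
  nonneg := h0
  le_one := h1
  even := he
  int := hi.lintegral_lt_top
  cs := by
    intro g h hg hh
    have ht := ENNReal.Tendsto.pow (n := 2) (RhoC_Bf_tendsto hm hg hh)
    refine le_of_tendsto' ht fun N => ?_
    have ng := RhoC_T_nice hg N
    have nh := RhoC_T_nice hh N
    have eg : (fun x => RhoC_T g N x) = fun x => ENNReal.ofReal ((RhoC_T g N x).toReal) := by
      funext x
      exact (ENNReal.ofReal_toReal (RhoC_T_ne g N x)).symm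
    have eh : (fun x => RhoC_T h N x) = fun x => ENNReal.ofReal ((RhoC_T h N x).toReal) := by
      funext x
      exact (ENNReal.ofReal_toReal (RhoC_T_ne h N x)).symm
    have key : (Bf ρ (fun x => RhoC_T g N x) fun x => RhoC_T h N x) ^ 2 ≤
        Bf ρ (fun x => RhoC_T g N x) (fun x => RhoC_T g N x) *
          Bf ρ (fun x => RhoC_T h N x) (fun x => RhoC_T h N x) := by
      rw [eg, eh, RhoC_Bf_nice hm h0 h1 ng nh, RhoC_Bf_nice hm h0 h1 ng ng,
        RhoC_Bf_nice hm h0 h1 nh nh, ← ENNReal.ofReal_pow, ← ENNReal.ofReal_mul]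
      · exact ENNReal.ofReal_le_ofReal (cs_nice hR0 hRi hρ ng nh)
      · exact integral_nonneg fun k => integral_nonneg fun l =>
          mul_nonneg (mul_nonneg (h0 _) (ng.nonneg _)) (ng.nonneg _)
      · exact integral_nonneg fun k => integral_nonneg fun l =>
          mul_nonneg (mul_nonneg (h0 _) (ng.nonneg _)) (nh.nonneg _)
    exact key.trans (mul_le_mul' (RhoC_Bf_mono (RhoC_T_le g N) (RhoC_T_le g N))
      (RhoC_Bf_mono (RhoC_T_le h N) (RhoC_T_le h N)))
  cs0 := by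
    intro g hg q
    have ht0 : Tendsto (fun N => ∫⁻ k, ENNReal.ofReal (ρ (q - k)) * RhoC_T g N k) atTop
        (𝓝 (∫⁻ k, ENNReal.ofReal (ρ (q - k)) * g k)) := by
      have hρk : Measurable (fun l : R2 => ENNReal.ofReal (ρ (q - l))) :=
        (hm.comp (measurable_const.sub measurable_id)).ennreal_ofReal
      refine lintegral_tendsto_of_tendsto_of_monotone (fun N => ?_) (ae_of_all _ fun l => ?_)
        (ae_of_all _ fun l => ?_)
      · exact (hρk.mul (RhoC_T_meas hg N)).aemeasurable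
      · intro N M hNM
        exact mul_le_mul' le_rfl (RhoC_T_mono g l hNM)
      · exact ENNReal.Tendsto.const_mul (RhoC_T_tendsto g l) (Or.inr ENNReal.ofReal_ne_top)
    refine le_of_tendsto' (ENNReal.Tendsto.pow (n := 2) ht0) fun N => ?_
    have ng := RhoC_T_nice hg N
    have eg : (fun x => RhoC_T g N x) = fun x => ENNReal.ofReal ((RhoC_T g N x).toReal) := by
      funext x
      exact (ENNReal.ofReal_toReal (RhoC_T_ne g N x)).symm
    have e1 : ∫⁻ k, ENNReal.ofReal (ρ (q - k)) * RhoC_T g N k =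
        ENNReal.ofReal (∫ k, ρ (q - k) * (RhoC_T g N k).toReal) := by
      rw [ofReal_integral_eq_lintegral_ofReal]
      · refine lintegral_congr fun k => ?_
        rw [ENNReal.ofReal_mul (h0 _), ENNReal.ofReal_toReal (RhoC_T_ne g N k)]
      · exact (RhoC_int ng).bdd_mul (c := 1)
          (hm.comp (measurable_const.sub measurable_id)).aestronglyMeasurable
          (ae_of_all _ (fun p => by
            rw [Real.norm_eq_abs, abs_of_nonneg (h0 _)]
            exact h1 _))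
      · exact ae_of_all _ fun k => mul_nonneg (h0 _) (ng.nonneg _)
    have key : (∫⁻ k, ENNReal.ofReal (ρ (q - k)) * RhoC_T g N k) ^ 2 ≤
        Bf ρ (fun x => RhoC_T g N x) (fun x => RhoC_T g N x) := by
      rw [e1, eg, RhoC_Bf_nice hm h0 h1 ng ng, ← ENNReal.ofReal_pow]
      · exact ENNReal.ofReal_le_ofReal (cs0_nice hR0 hRi hR1 hρ ng q)
      · exact integral_nonneg fun k => mul_nonneg (h0 _) (ng.nonneg _)
    exact key.trans (RhoC_Bf_mono (RhoC_T_le g N) (RhoC_T_le g N))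

end SHF
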