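import Pool.Agent.W_03a799_h55.UpA
import Pool.Agent.W_03a799_h55.Asy
import Pool.Agent.W_03a799_h55.RhoB
import Pool.Agent.W_03a799_h55.RhoC

/-! Upper bound. -/

open MeasureTheory Filter Topology
open scoped ENNReal NNReal

namespace SHF

universe u

variable {n : ℕ}

/-- `Pot` for the mollified covariance in the critical window -/
theorem pot_crit {j : R2 → ℝ} (hj : Moll j) {θ : ℝ} {bsq : ℝ → ℝ} (hb : CritWin θ bsq) :
    ∃ C : ℝ, 0 < C ∧ ∀ n : ℕ, 2 ≤ n → ∀ᶠ ε in 𝓝[>] (0 : ℝ),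
      Pot n (Re j ε) (rh j ε) (bsq ε) (Real.exp (C * n)) := by
  obtain ⟨I, hI0, hI⟩ := rh_lint hj
  obtain ⟨C, hC0, hC⟩ := asy hb hI0
  refine ⟨C, hC0, fun n hn => ?_⟩
  filter_upwards [hC n (by omega), self_mem_nhdsWithin] with ε h hε
  have hε0 : 0 < ε := hε
  have hpd : PD (rh j ε) := PD_of_fourier (Re_nonneg hj ε) (Re_integrable hj hε0)
    (Re_mass hj hε0) (rh_fourier hj hε0) (rh_cont hj ε).measurable (rh_nonneg j ε)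
    (rh_le_one hj ε) (rh_even hj ε) (rh_integrable hj hε0)
  exact
    { hR0 := Re_nonneg hj ε
      hRc := Re_cont hj hε0
      pd := hpd
      inv := Re_inv hj hε0
      hb := h.1
      hl := Real.exp_pos _
      form := fun f hf => ms hpd (by positivity) (hI ε hε0) (by positivity)
        (Real.exp_pos _) h.1 h.2 hn hf }

/-- **upper bound**: `M_n^ε ≤ exp (t e^{Cn}) ‖φ‖^n ‖ψ‖^n` (squared) -/
theorem upper_final {j : R2 → ℝ} (hj : Moll j) {θ : ℝ} {bsq : ℝ → ℝ} (hb : CritWin θ bsq) :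
    ∃ C : ℝ, 0 < C ∧ ∀ n : ℕ, 2 ≤ n → ∀ᶠ ε in 𝓝[>] (0 : ℝ),
      ∀ (Ω : Type u) [MeasurableSpace Ω] (W : Fin n × Fin 2 → ℝ≥0 → Ω → ℝ) (P : Measure Ω),
      BMfam W P → ∀ t : ℝ≥0, 0 < t → ∀ φ ψ : R2 → ℝ, Measurable φ → Measurable ψ →
      ∫⁻ x, (ENNReal.ofReal (φ x)) ^ 2 < ∞ → ∫⁻ x, (ENNReal.ofReal (ψ x)) ^ 2 < ∞ →
      (Mom W P (bsq ε) (Re j ε) t φ ψ) ^ 2 ≤ ENNReal.ofReal (Real.exp (2 * Real.exp (C * n) * t))
        * (∫⁻ x, (ENNReal.ofReal (φ x)) ^ 2) ^ n * (∫⁻ x, (ENNReal.ofReal (ψ x)) ^ 2) ^ n := by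
  obtain ⟨C, hC0, hC⟩ := pot_crit hj hb
  obtain ⟨M, _, hM⟩ := Re_bdd hj
  refine ⟨C, hC0, fun n hn => ?_⟩
  filter_upwards [hC n hn, self_mem_nhdsWithin] with ε h hε
  have hε0 : 0 < ε := hε
  intro Ω _ W P hW t ht φ ψ hφ hψ hφ2 hψ2
  exact upper_pot h (hM ε hε0) hW ht hφ hψ hφ2 hψ2

end SHF
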