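import Pool.Agent.W_03a799_h55.Flow2
import Pool.Agent.W_03a799_h55.FlD
import Pool.Agent.W_03a799_h55.Upper
import Pool.Agent.W_03a799_h55.Lower

/-! Moment bounds for mollified flows. -/

open MeasureTheory Filter Topology ProbabilityTheory
open scoped ENNReal NNReal

namespace SHF

universe u v

/-- `upper_final` for flows (`mom_formula`, `WN_fam`) -/
theorem flow_upper {j : R2 → ℝ} (hj : Moll j) {θ : ℝ} {β : ℝ → ℝ}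
    (hb : CritWin θ (fun ε => β ε ^ 2)) {s t : ℝ} (hst : s < t) :
    ∃ C : ℝ, 0 < C ∧ ∀ n : ℕ, 2 ≤ n → ∀ᶠ ε in 𝓝[>] (0 : ℝ),
      ∀ (F : MFlow.{u, v} j (β ε) ε s t) (φ ψ : R2 → ℝ), Measurable φ → Measurable ψ →
      ∫⁻ x, (ENNReal.ofReal (φ x)) ^ 2 < ∞ → ∫⁻ x, (ENNReal.ofReal (ψ x)) ^ 2 < ∞ →
      (∫⁻ ω', (F.Z φ ψ ω') ^ n ∂F.Q) ^ 2
        ≤ ENNReal.ofReal (Real.exp (2 * Real.exp (C * n) * (t - s)))
          * (∫⁻ x, (ENNReal.ofReal (φ x)) ^ 2) ^ n * (∫⁻ x, (ENNReal.ofReal (ψ x)) ^ 2) ^ n := by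
  obtain ⟨C, hC0, hC⟩ := upper_final.{u} hj hb
  refine ⟨C, hC0, fun n hn => ?_⟩
  filter_upwards [hC n hn, self_mem_nhdsWithin] with ε h hε
  have hε0 : 0 < ε := hε
  intro F φ ψ hφ hψ hφ2 hψ2
  have ht : (0 : ℝ≥0) < (t - s).toNNReal := Real.toNNReal_pos.2 (by linarith)
  have h1 := mom_formula hj hε0 hst F.hB F.hH n hφ hψ
  have h2 := h (Fin n → F.Ω) (WN n F.B) (Measure.pi fun _ : Fin n => F.P) (WN_fam F.hB n)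
    (t - s).toNNReal ht φ ψ hφ hψ hφ2 hψ2
  rw [← h1, Real.coe_toNNReal _ (by linarith : (0 : ℝ) ≤ t - s)] at h2
  exact h2

/-- `lower_final` for flows -/
theorem flow_lower {j : R2 → ℝ} (hj : Moll j) {θ : ℝ} {β : ℝ → ℝ}
    (hb : CritWin θ (fun ε => β ε ^ 2)) {s t : ℝ} (hst : s < t) {α : ℝ} (hα : 0 < α) :
    ∃ c : ℝ, 0 < c ∧ ∃ n0 : ℕ, 2 ≤ n0 ∧ ∀ n : ℕ, n0 ≤ n → ∀ᶠ ε in 𝓝[>] (0 : ℝ),
      ∀ (F : MFlow.{u, v} j (β ε) ε s t) (φ ψ : R2 → ℝ), Measurable φ → Measurable ψ →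
      ∫⁻ x, (ENNReal.ofReal (φ x)) ^ 2 < ∞ → ∫⁻ x, (ENNReal.ofReal (ψ x)) ^ 2 < ∞ →
      ENNReal.ofReal α ≤ cI ((t - s) / 4) φ → ENNReal.ofReal α ≤ cI ((t - s) / 4) ψ →
      ENNReal.ofReal (Real.exp (Real.exp (c * n))) ≤ ∫⁻ ω', (F.Z φ ψ ω') ^ n ∂F.Q := by
  have ht : (0 : ℝ≥0) < (t - s).toNNReal := Real.toNNReal_pos.2 (by linarith)
  have hco : ((t - s).toNNReal : ℝ) = t - s := Real.coe_toNNReal _ (by linarith : (0 : ℝ) ≤ t - s)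
  obtain ⟨c, hc0, n0, hn0, hc⟩ := lower_final.{u} hj hb ht hα
  refine ⟨c, hc0, n0, hn0, fun n hn => ?_⟩
  filter_upwards [hc n hn, self_mem_nhdsWithin] with ε h hε
  have hε0 : 0 < ε := hε
  intro F φ ψ hφ hψ hφ2 hψ2 h3 h4
  have h1 := mom_formula hj hε0 hst F.hB F.hH n hφ hψ
  have h2 := h (Fin n → F.Ω) (WN n F.B) (Measure.pi fun _ : Fin n => F.P) (WN_fam F.hB n)
    φ ψ hφ hψ hφ2 hψ2 (by rw [hco]; exact h3) (by rw [hco]; exact h4)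
  rw [← h1] at h2
  exact h2

end SHF
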