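import Pool.Agent.W_03a799_h55.Defs

/-! Moments and convergence in distribution. -/

open MeasureTheory Filter Topology ProbabilityTheory
open scoped ENNReal NNReal

namespace SHF

variable {Ω : ℕ → Type*} {m : ∀ i, MeasurableSpace (Ω i)} {μ : (i : ℕ) → Measure (Ω i)}
  [∀ i, IsProbabilityMeasure (μ i)] {Ω' : Type*} {m' : MeasurableSpace Ω'} {μ' : Measure Ω'}
  [IsProbabilityMeasure μ']

theorem LimA_aux1 {X : (i : ℕ) → Ω i → ℝ} {Z : Ω' → ℝ}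
    (h : TendstoInDistribution X atTop Z μ μ') (n : ℕ) (A : ℝ≥0) :
    Tendsto (fun i => ∫⁻ ω, min ((ENNReal.ofReal (X i ω)) ^ n) (A : ℝ≥0∞) ∂(μ i)) atTop
      (𝓝 (∫⁻ ω, min ((ENNReal.ofReal (Z ω)) ^ n) (A : ℝ≥0∞) ∂μ')) := by
  have hc : Continuous (fun x : ℝ => min (x.toNNReal ^ n) A) := by fun_prop
  have hb : ∀ x y : ℝ, dist (min (x.toNNReal ^ n) A) (min (y.toNNReal ^ n) A) ≤ (A : ℝ) := by
    intro x y
    rw [NNReal.dist_eq, abs_sub_le_iff]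
    have h1 : ((min (x.toNNReal ^ n) A : ℝ≥0) : ℝ) ≤ A := by exact_mod_cast min_le_right _ _
    have h2 : ((min (y.toNNReal ^ n) A : ℝ≥0) : ℝ) ≤ A := by exact_mod_cast min_le_right _ _
    have h3 : (0 : ℝ) ≤ ((min (x.toNNReal ^ n) A : ℝ≥0) : ℝ) := NNReal.coe_nonneg _
    have h4 : (0 : ℝ) ≤ ((min (y.toNNReal ^ n) A : ℝ≥0) : ℝ) := NNReal.coe_nonneg _
    constructor <;> linarith
  have key := (ProbabilityMeasure.tendsto_iff_forall_lintegral_tendsto.1 h.tendsto)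
    (BoundedContinuousFunction.mkOfBound ⟨_, hc⟩ A hb)
  have hval : ∀ x : ℝ, (((BoundedContinuousFunction.mkOfBound ⟨_, hc⟩ A hb) x : ℝ≥0) : ℝ≥0∞)
      = min ((ENNReal.ofReal x) ^ n) (A : ℝ≥0∞) := by
    intro x
    show ((min (x.toNNReal ^ n) A : ℝ≥0) : ℝ≥0∞) = _
    rw [ENNReal.coe_min, ENNReal.coe_pow]
    rfl
  simp only [hval] at key
  have hmz : Measurable (fun x : ℝ => min ((ENNReal.ofReal x) ^ n) (A : ℝ≥0∞)) := by fun_prop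
  have e1 : ∀ i, ∫⁻ x, min ((ENNReal.ofReal x) ^ n) (A : ℝ≥0∞) ∂((μ i).map (X i)) =
      ∫⁻ ω, min ((ENNReal.ofReal (X i ω)) ^ n) (A : ℝ≥0∞) ∂(μ i) := fun i =>
    lintegral_map' hmz.aemeasurable (h.forall_aemeasurable i)
  have e2 : ∫⁻ x, min ((ENNReal.ofReal x) ^ n) (A : ℝ≥0∞) ∂(μ'.map Z) =
      ∫⁻ ω, min ((ENNReal.ofReal (Z ω)) ^ n) (A : ℝ≥0∞) ∂μ' :=
    lintegral_map' hmz.aemeasurable h.aemeasurable_limit
  simp only [ProbabilityMeasure.coe_mk, e1, e2] at key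
  exact key

/-- Fatou: test with the bounded continuous functions `min (max x 0 ^ n) A` -/
theorem lim_upper {X : (i : ℕ) → Ω i → ℝ} {Z : Ω' → ℝ}
    (h : TendstoInDistribution X atTop Z μ μ') (n : ℕ) {M : ℝ≥0∞}
    (hM : ∀ᶠ i in atTop, ∫⁻ ω, (ENNReal.ofReal (X i ω)) ^ n ∂(μ i) ≤ M) :
    ∫⁻ ω, (ENNReal.ofReal (Z ω)) ^ n ∂μ' ≤ M := by
  have hA : ∀ k : ℕ, ∫⁻ ω, min ((ENNReal.ofReal (Z ω)) ^ n) ((k : ℝ≥0) : ℝ≥0∞) ∂μ' ≤ M := by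
    intro k
    refine le_of_tendsto (LimA_aux1 h n (k : ℝ≥0)) ?_
    filter_upwards [hM] with i hi
    exact (lintegral_mono fun ω => min_le_left _ _).trans hi
  have hsup : ∀ ω, (ENNReal.ofReal (Z ω)) ^ n =
      ⨆ k : ℕ, min ((ENNReal.ofReal (Z ω)) ^ n) ((k : ℝ≥0) : ℝ≥0∞) := by
    intro ω
    refine le_antisymm ?_ (iSup_le fun k => min_le_left _ _)
    have hfin : (ENNReal.ofReal (Z ω)) ^ n ≠ ∞ := ENNReal.pow_ne_top ENNReal.ofReal_ne_top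
    obtain ⟨k, hk⟩ := ENNReal.exists_nat_gt hfin
    refine le_iSup_of_le k ?_
    rw [ENNReal.coe_natCast]
    exact le_min le_rfl hk.le
  have hZ := h.aemeasurable_limit
  calc ∫⁻ ω, (ENNReal.ofReal (Z ω)) ^ n ∂μ'
      = ∫⁻ ω, ⨆ k : ℕ, min ((ENNReal.ofReal (Z ω)) ^ n) ((k : ℝ≥0) : ℝ≥0∞) ∂μ' :=
        lintegral_congr hsup
    _ = ⨆ k : ℕ, ∫⁻ ω, min ((ENNReal.ofReal (Z ω)) ^ n) ((k : ℝ≥0) : ℝ≥0∞) ∂μ' := by
        refine lintegral_iSup' (fun k => by fun_prop) ?_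
        refine Eventually.of_forall fun ω k l hkl => min_le_min le_rfl ?_
        exact_mod_cast hkl
    _ ≤ M := iSup_le hA

/-- uniform integrability: `x^n ≤ min (x^n) A + x^{2n}/A` -/
theorem lim_lower {X : (i : ℕ) → Ω i → ℝ} {Z : Ω' → ℝ}
    (h : TendstoInDistribution X atTop Z μ μ') (n : ℕ) {M m0 : ℝ≥0∞} (hMf : M ≠ ∞)
    (hM : ∀ᶠ i in atTop, ∫⁻ ω, (ENNReal.ofReal (X i ω)) ^ (2 * n) ∂(μ i) ≤ M)
    (hm : ∀ᶠ i in atTop, m0 ≤ ∫⁻ ω, (ENNReal.ofReal (X i ω)) ^ n ∂(μ i)) :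
    m0 ≤ ∫⁻ ω, (ENNReal.ofReal (Z ω)) ^ n ∂μ' := by
  have hpt : ∀ (k : ℕ), k ≠ 0 → ∀ x : ℝ, (ENNReal.ofReal x) ^ n ≤
      min ((ENNReal.ofReal x) ^ n) ((k : ℝ≥0) : ℝ≥0∞) +
        (ENNReal.ofReal x) ^ (2 * n) * (k : ℝ≥0∞)⁻¹ := by
    intro k hk x
    rw [ENNReal.coe_natCast]
    rcases le_total ((ENNReal.ofReal x) ^ n) (k : ℝ≥0∞) with hle | hle
    · rw [min_eq_left hle]
      exact le_self_add
    · refine le_add_left ?_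
      rw [two_mul, pow_add, mul_assoc]
      have h1 : 1 ≤ (ENNReal.ofReal x) ^ n * (k : ℝ≥0∞)⁻¹ := by
        rw [← ENNReal.mul_inv_cancel (a := (k : ℝ≥0∞)) (by exact_mod_cast hk)
          (ENNReal.natCast_ne_top k)]
        gcongr
      calc (ENNReal.ofReal x) ^ n = (ENNReal.ofReal x) ^ n * 1 := (mul_one _).symm
        _ ≤ _ := by gcongr
  have hk : ∀ k : ℕ, k ≠ 0 → m0 ≤ ∫⁻ ω, (ENNReal.ofReal (Z ω)) ^ n ∂μ' +
      M * (k : ℝ≥0∞)⁻¹ := by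
    intro k hk0
    have hlim : Tendsto (fun i => ∫⁻ ω, min ((ENNReal.ofReal (X i ω)) ^ n)
        ((k : ℝ≥0) : ℝ≥0∞) ∂(μ i) + M * (k : ℝ≥0∞)⁻¹) atTop
        (𝓝 (∫⁻ ω, min ((ENNReal.ofReal (Z ω)) ^ n) ((k : ℝ≥0) : ℝ≥0∞) ∂μ' +
          M * (k : ℝ≥0∞)⁻¹)) := (LimA_aux1 h n (k : ℝ≥0)).add tendsto_const_nhds
    have h1 : m0 ≤ ∫⁻ ω, min ((ENNReal.ofReal (Z ω)) ^ n) ((k : ℝ≥0) : ℝ≥0∞) ∂μ' +
          M * (k : ℝ≥0∞)⁻¹ := by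
      refine ge_of_tendsto hlim ?_
      filter_upwards [hM, hm] with i hi hi'
      have hX := h.forall_aemeasurable i
      calc m0 ≤ ∫⁻ ω, (ENNReal.ofReal (X i ω)) ^ n ∂(μ i) := hi'
        _ ≤ ∫⁻ ω, (min ((ENNReal.ofReal (X i ω)) ^ n) ((k : ℝ≥0) : ℝ≥0∞) +
            (ENNReal.ofReal (X i ω)) ^ (2 * n) * (k : ℝ≥0∞)⁻¹) ∂(μ i) :=
          lintegral_mono fun ω => hpt k hk0 (X i ω)
        _ = ∫⁻ ω, min ((ENNReal.ofReal (X i ω)) ^ n) ((k : ℝ≥0) : ℝ≥0∞) ∂(μ i) +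
            (∫⁻ ω, (ENNReal.ofReal (X i ω)) ^ (2 * n) ∂(μ i)) * (k : ℝ≥0∞)⁻¹ := by
          rw [lintegral_add_left' (by fun_prop), lintegral_mul_const'' _ (by fun_prop)]
        _ ≤ _ := by gcongr
    refine h1.trans ?_
    gcongr
    exact min_le_left _ _
  have hlim2 : Tendsto (fun k : ℕ => ∫⁻ ω, (ENNReal.ofReal (Z ω)) ^ n ∂μ' +
      M * (k : ℝ≥0∞)⁻¹) atTop (𝓝 (∫⁻ ω, (ENNReal.ofReal (Z ω)) ^ n ∂μ' + M * 0)) := by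
    refine tendsto_const_nhds.add ?_
    exact ENNReal.Tendsto.const_mul ENNReal.tendsto_inv_nat_nhds_zero (Or.inr hMf)
  rw [mul_zero, add_zero] at hlim2
  refine ge_of_tendsto hlim2 ?_
  filter_upwards [eventually_ne_atTop 0] with k hk0
  exact hk k hk0

end SHF
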