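import Pool.Agent.W_03a799_h55.MeB

/-! Random measures: lower bound for functions of `L²`. -/

open MeasureTheory Filter Topology ProbabilityTheory
open scoped ENNReal NNReal

namespace SHF

variable {Ω₀ : Type*} [MeasurableSpace Ω₀] {Q₀ : Measure Ω₀} [IsProbabilityMeasure Q₀]
  {S : Ω₀ → Measure (R2 × R2)}

omit [IsProbabilityMeasure Q₀] in
/-- Minkowski -/
lemma MeC_mink {n : ℕ} (hn : 1 ≤ n) {X Y : Ω₀ → ℝ≥0∞} (hX : Measurable X) (hY : Measurable Y) :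
    (∫⁻ ω, (X ω + Y ω) ^ n ∂Q₀) ^ (1 / (n : ℝ)) ≤
      (∫⁻ ω, (X ω) ^ n ∂Q₀) ^ (1 / (n : ℝ)) + (∫⁻ ω, (Y ω) ^ n ∂Q₀) ^ (1 / (n : ℝ)) := by
  have h := ENNReal.lintegral_Lp_add_le (μ := Q₀) (p := (n : ℝ)) hX.aemeasurable hY.aemeasurable
    (by exact_mod_cast hn)
  simpa only [ENNReal.rpow_natCast, Pi.add_apply] using h

/-- convergence to zero from a bound on the square -/
lemma MeC_tend {n : ℕ} (hn : 1 ≤ n) {E b : ℕ → ℝ≥0∞} (hb : Tendsto b atTop (𝓝 0))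
    (hE : ∀ᶠ k in atTop, (E k) ^ 2 ≤ b k) :
    Tendsto (fun k => (E k) ^ (1 / (n : ℝ))) atTop (𝓝 0) := by
  have hn0 : (0 : ℝ) < n := by exact_mod_cast hn
  have h1 : ∀ a : ℝ≥0∞, a ^ (1 / (n : ℝ)) = (a ^ 2) ^ (1 / (2 * (n : ℝ))) := by
    intro a
    rw [← ENNReal.rpow_natCast, ← ENNReal.rpow_mul]
    congr 1
    push_cast
    field_simp
  have h2 : Tendsto (fun k => (b k) ^ (1 / (2 * (n : ℝ)))) atTop (𝓝 0) := by
    have h3 := (ENNReal.continuous_rpow_const (y := 1 / (2 * (n : ℝ)))).tendsto 0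
    rw [ENNReal.zero_rpow_of_pos (by positivity)] at h3
    exact h3.comp hb
  refine tendsto_of_tendsto_of_tendsto_of_le_of_le' tendsto_const_nhds h2
    (Eventually.of_forall fun k => zero_le) ?_
  filter_upwards [hE] with k hk
  rw [h1]
  exact ENNReal.rpow_le_rpow hk (by positivity)

/-- the pointwise inequality -/
lemma MeC_pt {a b c d : ℝ} (ha : 0 ≤ a) (hb : 0 ≤ b) (hc : 0 ≤ c) (hd : 0 ≤ d) :
    ENNReal.ofReal a * ENNReal.ofReal b ≤ ENNReal.ofReal c * ENNReal.ofReal d +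
      (ENNReal.ofReal |a - c| * ENNReal.ofReal b + ENNReal.ofReal c * ENNReal.ofReal |b - d|) := by
  rw [← ENNReal.ofReal_mul ha, ← ENNReal.ofReal_mul hc, ← ENNReal.ofReal_mul (abs_nonneg _),
    ← ENNReal.ofReal_mul hc, ← ENNReal.ofReal_add (by positivity) (by positivity),
    ← ENNReal.ofReal_add (by positivity) (by positivity)]
  refine ENNReal.ofReal_le_ofReal ?_
  have h1 : (a - c) * b ≤ |a - c| * b := mul_le_mul_of_nonneg_right (le_abs_self _) hb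
  have h2 : c * (b - d) ≤ c * |b - d| := mul_le_mul_of_nonneg_left (le_abs_self _) hc
  nlinarith

omit [MeasurableSpace Ω₀] in
lemma MeC_Sp_le (S : Ω₀ → Measure (R2 × R2)) {f g f' g' : R2 → ℝ} (hf : Measurable f)
    (hg : Measurable g) (hf' : Measurable f') (hg' : Measurable g') (hf0 : ∀ x, 0 ≤ f x)
    (hg0 : ∀ x, 0 ≤ g x) (hf'0 : ∀ x, 0 ≤ f' x) (hg'0 : ∀ x, 0 ≤ g' x) (ω : Ω₀) :
    Sp S f' g' ω ≤ Sp S f g ω +
      (Sp S (fun x => |f' x - f x|) g' ω + Sp S f (fun x => |g' x - g x|) ω) := by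
  have hm : ∀ {h₁ h₂ : R2 → ℝ}, Measurable h₁ → Measurable h₂ →
      Measurable fun z : R2 × R2 => ENNReal.ofReal (h₁ z.1) * ENNReal.ofReal (h₂ z.2) := by
    intro h₁ h₂ m₁ m₂
    exact (m₁.comp measurable_fst).ennreal_ofReal.mul (m₂.comp measurable_snd).ennreal_ofReal
  have ha : Measurable fun x => |f' x - f x| := by
    have := (hf'.sub hf)
    exact this.norm
  unfold Sp
  rw [← lintegral_add_left (hm ha hg'), ← lintegral_add_left (hm hf hg)]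
  refine lintegral_mono fun z => ?_
  exact MeC_pt (hf'0 _) (hg'0 _) (hf0 _) (hg0 _)

/-- the square of `g'` -/
lemma MeC_sq {g g' : R2 → ℝ} (hg : Measurable g) (hg' : Measurable g')
    (hg0 : ∀ x, 0 ≤ g x) (hg'0 : ∀ x, 0 ≤ g' x) :
    ∫⁻ x, (ENNReal.ofReal (g' x)) ^ 2 ≤ 2 * (∫⁻ x, (ENNReal.ofReal (g x)) ^ 2) +
      2 * ∫⁻ x, (ENNReal.ofReal |g' x - g x|) ^ 2 := by
  have hm : Measurable fun x => (ENNReal.ofReal (g x)) ^ 2 := (hg.ennreal_ofReal).pow_const 2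
  have hm' : Measurable fun x => (ENNReal.ofReal |g' x - g x|) ^ 2 := by
    have := (hg'.sub hg)
    exact (this.norm.ennreal_ofReal).pow_const 2
  rw [← lintegral_const_mul _ hm, ← lintegral_const_mul _ hm', ← lintegral_add_left
    (hm.const_mul 2)]
  refine lintegral_mono fun x => ?_
  have h2 : (2 : ℝ≥0∞) = ENNReal.ofReal 2 := by simp
  show (ENNReal.ofReal (g' x)) ^ 2 ≤ 2 * (ENNReal.ofReal (g x)) ^ 2 +
    2 * (ENNReal.ofReal |g' x - g x|) ^ 2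
  rw [h2, ← ENNReal.ofReal_pow (hg'0 x), ← ENNReal.ofReal_pow (hg0 x),
    ← ENNReal.ofReal_pow (abs_nonneg _), ← ENNReal.ofReal_mul (by norm_num),
    ← ENNReal.ofReal_mul (by norm_num), ← ENNReal.ofReal_add (by positivity) (by positivity)]
  refine ENNReal.ofReal_le_ofReal ?_
  rw [sq_abs]
  nlinarith [sq_nonneg (g' x - 2 * g x)]

/-- lower bound for `L²` functions: `f_k g_k ≤ f g + |f_k - f| g_k + f |g_k - g|`, Minkowski in
`L^n(Q₀)`, `ext_upper` for the two error terms -/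
theorem ext_lower (hS : Measurable S) {n : ℕ} (hn : 1 ≤ n) {K : ℝ≥0∞} (hK : K ≠ ∞)
    (h : CcBound Q₀ S n K) {f g : R2 → ℝ} (hf : Measurable f) (hg : Measurable g)
    (hf0 : ∀ x, 0 ≤ f x) (hg0 : ∀ x, 0 ≤ g x)
    (hf2 : ∫⁻ x, (ENNReal.ofReal (f x)) ^ 2 < ∞) (hg2 : ∫⁻ x, (ENNReal.ofReal (g x)) ^ 2 < ∞)
    {fk gk : ℕ → R2 → ℝ} (hfk : ∀ k, CcP (fk k)) (hgk : ∀ k, CcP (gk k))
    (hfl : Tendsto (fun k => ∫⁻ x, (ENNReal.ofReal |fk k x - f x|) ^ 2) atTop (𝓝 0))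
    (hgl : Tendsto (fun k => ∫⁻ x, (ENNReal.ofReal |gk k x - g x|) ^ 2) atTop (𝓝 0))
    {m0 : ℝ≥0∞} (hm : ∀ᶠ k in atTop, m0 ≤ ∫⁻ ω, (Sp S (fk k) (gk k) ω) ^ n ∂Q₀) :
    m0 ≤ ∫⁻ ω, (Sp S f g ω) ^ n ∂Q₀ := by
  have hn0 : (0 : ℝ) < n := by exact_mod_cast hn
  have hfkm : ∀ k, Measurable (fk k) := fun k => (hfk k).cont.measurable
  have hgkm : ∀ k, Measurable (gk k) := fun k => (hgk k).cont.measurable
  have hFm : ∀ k, Measurable fun x => |fk k x - f x| := fun k => by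
    have := (hfkm k).sub hf
    exact this.norm
  have hGm : ∀ k, Measurable fun x => |gk k x - g x| := fun k => by
    have := (hgkm k).sub hg
    exact this.norm
  set δ : ℕ → ℝ≥0∞ := fun k => ∫⁻ x, (ENNReal.ofReal |fk k x - f x|) ^ 2 with hδ
  set δ' : ℕ → ℝ≥0∞ := fun k => ∫⁻ x, (ENNReal.ofReal |gk k x - g x|) ^ 2 with hδ'
  set F : ℝ≥0∞ := ∫⁻ x, (ENNReal.ofReal (f x)) ^ 2 with hF
  set G : ℝ≥0∞ := ∫⁻ x, (ENNReal.ofReal (g x)) ^ 2 with hG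
  have hδ1 : ∀ᶠ k in atTop, δ k < ∞ := by
    filter_upwards [hfl.eventually_lt_const (show (0 : ℝ≥0∞) < 1 by norm_num)] with k hk
    exact hk.trans ENNReal.one_lt_top
  have hδ'1 : ∀ᶠ k in atTop, δ' k ≤ 1 := by
    filter_upwards [hgl.eventually_lt_const (show (0 : ℝ≥0∞) < 1 by norm_num)] with k hk
    exact hk.le
  set C : ℝ≥0∞ := 2 * G + 2 with hC
  have hCt : C ≠ ∞ := ENNReal.add_ne_top.2 ⟨ENNReal.mul_ne_top (by norm_num) hg2.ne, by norm_num⟩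
  have hgk2 : ∀ᶠ k in atTop, ∫⁻ x, (ENNReal.ofReal (gk k x)) ^ 2 ≤ C := by
    filter_upwards [hδ'1] with k hk
    refine (MeC_sq hg (hgkm k) hg0 (hgk k).nonneg).trans ?_
    rw [hC]
    refine add_le_add_right ?_ _
    calc 2 * δ' k ≤ 2 * 1 := mul_le_mul_right hk _
      _ = 2 := mul_one _
  set E1 : ℕ → ℝ≥0∞ := fun k =>
    ∫⁻ ω, (Sp S (fun x => |fk k x - f x|) (gk k) ω) ^ n ∂Q₀ with hE1
  set E2 : ℕ → ℝ≥0∞ := fun k =>
    ∫⁻ ω, (Sp S f (fun x => |gk k x - g x|) ω) ^ n ∂Q₀ with hE2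
  have hE1b : ∀ᶠ k in atTop, (E1 k) ^ 2 ≤ K * (δ k) ^ n * C ^ n := by
    filter_upwards [hδ1, hgk2] with k hk1 hk2
    refine (ext_upper hS hn hK h (hFm k) (hgkm k) (fun x => abs_nonneg _) (hgk k).nonneg hk1
      (hk2.trans_lt hCt.lt_top)).trans ?_
    exact mul_le_mul_right (pow_le_pow_left' hk2 n) _
  have hE2b : ∀ᶠ k in atTop, (E2 k) ^ 2 ≤ K * F ^ n * (δ' k) ^ n := by
    filter_upwards [hδ'1] with k hk
    exact ext_upper hS hn hK h hf (hGm k) hf0 (fun x => abs_nonneg _) hf2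
      (hk.trans_lt ENNReal.one_lt_top)
  have hb1 : Tendsto (fun k => K * (δ k) ^ n * C ^ n) atTop (𝓝 0) := by
    have h1 : Tendsto (fun k => (δ k) ^ n) atTop (𝓝 (0 ^ n)) := ENNReal.Tendsto.pow hfl
    rw [zero_pow (by omega)] at h1
    have h2 : Tendsto (fun k => K * (δ k) ^ n) atTop (𝓝 (K * 0)) :=
      ENNReal.Tendsto.const_mul h1 (Or.inr hK)
    rw [mul_zero] at h2
    have h3 : Tendsto (fun k => K * (δ k) ^ n * C ^ n) atTop (𝓝 (0 * C ^ n)) :=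
      ENNReal.Tendsto.mul_const h2 (Or.inr (ENNReal.pow_ne_top hCt))
    rwa [zero_mul] at h3
  have hb2 : Tendsto (fun k => K * F ^ n * (δ' k) ^ n) atTop (𝓝 0) := by
    have h1 : Tendsto (fun k => (δ' k) ^ n) atTop (𝓝 (0 ^ n)) := ENNReal.Tendsto.pow hgl
    rw [zero_pow (by omega)] at h1
    have h2 : Tendsto (fun k => K * F ^ n * (δ' k) ^ n) atTop (𝓝 (K * F ^ n * 0)) :=
      ENNReal.Tendsto.const_mul h1
        (Or.inr (ENNReal.mul_ne_top hK (ENNReal.pow_ne_top hf2.ne)))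
    rwa [mul_zero] at h2
  have ht1 := MeC_tend hn hb1 hE1b
  have ht2 := MeC_tend hn hb2 hE2b
  set A : ℝ≥0∞ := ∫⁻ ω, (Sp S f g ω) ^ n ∂Q₀ with hA
  have hlim : Tendsto (fun k => A ^ (1 / (n : ℝ)) + ((E1 k) ^ (1 / (n : ℝ)) +
      (E2 k) ^ (1 / (n : ℝ)))) atTop (𝓝 (A ^ (1 / (n : ℝ)) + (0 + 0))) :=
    tendsto_const_nhds.add (ht1.add ht2)
  rw [add_zero, add_zero] at hlim
  have hle : ∀ᶠ k in atTop, m0 ^ (1 / (n : ℝ)) ≤ A ^ (1 / (n : ℝ)) +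
      ((E1 k) ^ (1 / (n : ℝ)) + (E2 k) ^ (1 / (n : ℝ))) := by
    filter_upwards [hm] with k hk
    have m1 := Sp_meas hS hf hg
    have m2 := Sp_meas hS (hFm k) (hgkm k)
    have m3 := Sp_meas hS hf (hGm k)
    have h1 : m0 ≤ ∫⁻ ω, (Sp S f g ω + (Sp S (fun x => |fk k x - f x|) (gk k) ω +
        Sp S f (fun x => |gk k x - g x|) ω)) ^ n ∂Q₀ := by
      refine hk.trans (lintegral_mono fun ω => ?_)
      exact pow_le_pow_left' (MeC_Sp_le S hf hg (hfkm k) (hgkm k) hf0 hg0 (hfk k).nonneg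
        (hgk k).nonneg ω) n
    refine (ENNReal.rpow_le_rpow h1 (by positivity)).trans ?_
    refine (MeC_mink hn m1 (m2.add m3)).trans ?_
    exact add_le_add_right (MeC_mink hn m2 m3) _
  have hfin : m0 ^ (1 / (n : ℝ)) ≤ A ^ (1 / (n : ℝ)) := ge_of_tendsto hlim hle
  exact (ENNReal.rpow_le_rpow_iff (by positivity)).1 hfin

end SHF
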