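import Pool.Agent.W_03a799_h55.FinA
import Pool.Agent.W_03a799_h55.MeC
import Pool.Agent.W_03a799_h55.LimA
import Pool.Agent.W_03a799_h55.CIa

/-! The main theorem. -/

open MeasureTheory Filter Topology ProbabilityTheory
open scoped ENNReal NNReal

namespace SHF

universe u v w

/-- absorbing the constants -/
lemma FinB_absorb {C T : ℝ} (hC : 0 < C) (hT : 0 < T) {A B : ℝ≥0∞} (hA : A < ∞) (hB : B < ∞) :
    ∃ C' : ℝ, 0 < C' ∧ ∀ n : ℕ, 1 ≤ n →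
      ENNReal.ofReal (Real.exp (2 * Real.exp (C * n) * T)) * A ^ n * B ^ n
        ≤ (ENNReal.ofReal (Real.exp (Real.exp (C' * n)))) ^ 2 := by
  obtain ⟨a, ha⟩ : ∃ a : ℝ, a = A.toReal + 1 := ⟨_, rfl⟩
  obtain ⟨b, hb⟩ : ∃ b : ℝ, b = B.toReal + 1 := ⟨_, rfl⟩
  have ha1 : 1 ≤ a := by rw [ha]; linarith [ENNReal.toReal_nonneg (a := A)]
  have hb1 : 1 ≤ b := by rw [hb]; linarith [ENNReal.toReal_nonneg (a := B)]
  have hAa : A ≤ ENNReal.ofReal a := by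
    rw [← ENNReal.ofReal_toReal hA.ne]
    apply ENNReal.ofReal_le_ofReal
    rw [ha]; linarith
  have hBb : B ≤ ENNReal.ofReal b := by
    rw [← ENNReal.ofReal_toReal hB.ne]
    apply ENNReal.ofReal_le_ofReal
    rw [hb]; linarith
  have hla : 0 ≤ Real.log a := Real.log_nonneg ha1
  have hlb : 0 ≤ Real.log b := Real.log_nonneg hb1
  refine ⟨C + T + Real.log a + Real.log b + 1, by positivity, ?_⟩
  intro n hn
  have hn1 : (1 : ℝ) ≤ n := by exact_mod_cast hn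
  have h1 : ENNReal.ofReal (Real.exp (2 * Real.exp (C * n) * T)) * A ^ n * B ^ n
      ≤ ENNReal.ofReal (Real.exp (2 * Real.exp (C * n) * T) * a ^ n * b ^ n) := by
    rw [ENNReal.ofReal_mul (by positivity), ENNReal.ofReal_mul (by positivity),
      ENNReal.ofReal_pow (by positivity), ENNReal.ofReal_pow (by positivity)]
    gcongr
  refine h1.trans ?_
  rw [← ENNReal.ofReal_pow (by positivity)]
  apply ENNReal.ofReal_le_ofReal
  have h2 : a ^ n = Real.exp (Real.log a * n) := by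
    rw [mul_comm, Real.exp_nat_mul, Real.exp_log (by linarith)]
  have h3 : b ^ n = Real.exp (Real.log b * n) := by
    rw [mul_comm, Real.exp_nat_mul, Real.exp_log (by linarith)]
  rw [h2, h3, ← Real.exp_add, ← Real.exp_add, ← Real.exp_nat_mul]
  apply Real.exp_le_exp.mpr
  have h4 : Real.exp ((C + T + Real.log a + Real.log b + 1) * n)
      = Real.exp (C * n) * Real.exp ((T + Real.log a + Real.log b + 1) * n) := by
    rw [← Real.exp_add]; congr 1; ring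
  have h5 : 1 + (T + Real.log a + Real.log b + 1) * n
      ≤ Real.exp ((T + Real.log a + Real.log b + 1) * n) := by
    have := Real.add_one_le_exp ((T + Real.log a + Real.log b + 1) * n)
    linarith
  have h6 : (1 : ℝ) ≤ Real.exp (C * n) := Real.one_le_exp (by positivity)
  rw [h4]
  push_cast
  have h7 : Real.exp (C * n) * (1 + (T + Real.log a + Real.log b + 1) * n)
      ≤ Real.exp (C * n) * Real.exp ((T + Real.log a + Real.log b + 1) * n) :=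
    mul_le_mul_of_nonneg_left h5 (by positivity)
  have h8 : Real.exp (C * n) * T ≤ Real.exp (C * n) * (T * n) := by
    apply mul_le_mul_of_nonneg_left _ (by positivity)
    nlinarith
  have h9 : Real.log a * n ≤ Real.exp (C * n) * (Real.log a * n) := by
    nlinarith [mul_nonneg hla (by linarith : (0 : ℝ) ≤ n)]
  have h10 : Real.log b * n ≤ Real.exp (C * n) * (Real.log b * n) := by
    nlinarith [mul_nonneg hlb (by linarith : (0 : ℝ) ≤ n)]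
  have h11 : 0 ≤ Real.exp (C * n) * (1 + n) := by positivity
  nlinarith

lemma FinB_sq_le {x y : ℝ≥0∞} (h : x ^ 2 ≤ y ^ 2) : x ≤ y :=
  (ENNReal.pow_le_pow_left_iff (two_ne_zero)).mp h

/-- moments of the real version -/
lemma FinB_toReal_le {α : Type*} [MeasurableSpace α] {μ : Measure α} (Z : α → ℝ≥0∞) (n : ℕ) :
    ∫⁻ a, (ENNReal.ofReal (Z a).toReal) ^ n ∂μ ≤ ∫⁻ a, (Z a) ^ n ∂μ := by
  apply lintegral_mono
  intro a
  exact pow_le_pow_left' ENNReal.ofReal_toReal_le n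

lemma FinB_toReal_eq {α : Type*} [MeasurableSpace α] {μ : Measure α} {Z : α → ℝ≥0∞}
    (hZ : AEMeasurable Z μ) {n : ℕ} (hn : 1 ≤ n) (hf : ∫⁻ a, (Z a) ^ n ∂μ ≠ ∞) :
    ∫⁻ a, (ENNReal.ofReal (Z a).toReal) ^ n ∂μ = ∫⁻ a, (Z a) ^ n ∂μ := by
  apply lintegral_congr_ae
  have h1 : ∀ᵐ a ∂μ, (Z a) ^ n < ∞ := ae_lt_top' (hZ.pow_const n) hf
  filter_upwards [h1] with a ha
  have h2 : Z a ≠ ∞ := by
    intro h
    rw [h, ENNReal.top_pow (by omega)] at ha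
    exact lt_irrefl _ ha
  rw [ENNReal.ofReal_toReal h2]

lemma CcP.measurable {f : R2 → ℝ} (hf : CcP f) : Measurable f := hf.cont.measurable

lemma CcP.sq {f : R2 → ℝ} (hf : CcP f) : ∫⁻ x, (ENNReal.ofReal (f x)) ^ 2 < ∞ := by
  have h1 : MemLp f 2 volume := hf.cont.memLp_of_hasCompactSupport hf.supp
  have h2 := h1.eLpNorm_lt_top
  rw [eLpNorm_lt_top_iff_lintegral_rpow_enorm_lt_top (by norm_num) (by norm_num)] at h2
  refine lt_of_le_of_lt (lintegral_mono ?_) h2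
  intro x
  simp only [ENNReal.toReal_ofNat, ENNReal.rpow_ofNat]
  apply pow_le_pow_left'
  rw [← ofReal_norm_eq_enorm]
  exact ENNReal.ofReal_le_ofReal (le_abs_self _)

/-- `S` is a limit: `Sp` of test functions is finite -/
lemma FinB_Sp_fin {S : Measure (R2 × R2)} [IsLocallyFiniteMeasure S] {f g : R2 → ℝ} (hf : CcP f)
    (hg : CcP g) : ∫⁻ z, ENNReal.ofReal (f z.1) * ENNReal.ofReal (g z.2) ∂S ≠ ∞ := by
  have hc : Continuous (fun z : R2 × R2 => f z.1 * g z.2) :=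
    (hf.cont.comp continuous_fst).mul (hg.cont.comp continuous_snd)
  have hs : HasCompactSupport (fun z : R2 × R2 => f z.1 * g z.2) := by
    apply HasCompactSupport.intro (hf.supp.isCompact.prod hg.supp.isCompact)
    intro z hz
    rw [Set.mem_prod, not_and_or] at hz
    rcases hz with h | h
    · rw [image_eq_zero_of_notMem_tsupport h, zero_mul]
    · rw [image_eq_zero_of_notMem_tsupport h, mul_zero]
  have hi := (hc.integrable_of_hasCompactSupport hs (μ := S)).lintegral_lt_top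
  refine (lt_of_le_of_lt (lintegral_mono ?_) hi).ne
  intro z
  dsimp only
  rw [ENNReal.ofReal_mul (hf.nonneg _)]

/-- moment upper bound for limits of the pairings -/
lemma FinB_limU {j : R2 → ℝ} {β : ℝ → ℝ} {s t : ℝ} {n : ℕ} {K : ℝ≥0∞} {f g : R2 → ℝ}
    (hbd : ∀ᶠ ε in 𝓝[>] (0 : ℝ), ∀ F : MFlow.{u, v} j (β ε) ε s t,
      (∫⁻ ω', (F.Z f g ω') ^ n ∂F.Q) ^ 2 ≤ K)
    {ε : ℕ → ℝ} (hε : Tendsto ε atTop (𝓝[>] 0)) {F : ∀ k, MFlow.{u, v} j (β (ε k)) (ε k) s t}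
    {Ω₀ : Type w} [MeasurableSpace Ω₀] {Q₀ : Measure Ω₀} [IsProbabilityMeasure Q₀] {Z : Ω₀ → ℝ}
    (h : TendstoInDistribution (fun k ω' => ((F k).Z f g ω').toReal) atTop Z
      (fun k => (F k).Q) Q₀) :
    (∫⁻ ω, (ENNReal.ofReal (Z ω)) ^ n ∂Q₀) ^ 2 ≤ K := by
  have h1 : ∀ᶠ k in atTop, ∫⁻ ω', (ENNReal.ofReal ((F k).Z f g ω').toReal) ^ n ∂(F k).Q
      ≤ K ^ ((1 : ℝ) / 2) := by
    filter_upwards [hε.eventually hbd] with k hk
    refine (FinB_toReal_le _ n).trans ?_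
    apply FinB_sq_le
    have : (K ^ ((1 : ℝ) / 2)) ^ 2 = K := by
      rw [← ENNReal.rpow_natCast, ← ENNReal.rpow_mul]
      norm_num
    rw [this]
    exact hk (F k)
  have h2 := lim_upper h n h1
  calc (∫⁻ ω, (ENNReal.ofReal (Z ω)) ^ n ∂Q₀) ^ 2 ≤ (K ^ ((1 : ℝ) / 2)) ^ 2 :=
        pow_le_pow_left' h2 2
    _ = K := by
        rw [← ENNReal.rpow_natCast, ← ENNReal.rpow_mul]
        norm_num

/-- moment lower bound for limits of the pairings -/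
lemma FinB_limL {j : R2 → ℝ} (hj : Moll j) {β : ℝ → ℝ} {s t : ℝ} {n : ℕ} (hn : 1 ≤ n)
    {K K' m0 : ℝ≥0∞} (hK : K ≠ ∞) (hK' : K' ≠ ∞) {f g : R2 → ℝ} (hf : Measurable f)
    (hg : Measurable g)
    (hbd : ∀ᶠ ε in 𝓝[>] (0 : ℝ), ∀ F : MFlow.{u, v} j (β ε) ε s t,
      (∫⁻ ω', (F.Z f g ω') ^ (2 * n) ∂F.Q) ^ 2 ≤ K)
    (hbd' : ∀ᶠ ε in 𝓝[>] (0 : ℝ), ∀ F : MFlow.{u, v} j (β ε) ε s t,
      (∫⁻ ω', (F.Z f g ω') ^ n ∂F.Q) ^ 2 ≤ K')
    (hlo : ∀ᶠ ε in 𝓝[>] (0 : ℝ), ∀ F : MFlow.{u, v} j (β ε) ε s t,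
      m0 ≤ ∫⁻ ω', (F.Z f g ω') ^ n ∂F.Q)
    {ε : ℕ → ℝ} (hε : Tendsto ε atTop (𝓝[>] 0)) {F : ∀ k, MFlow.{u, v} j (β (ε k)) (ε k) s t}
    {Ω₀ : Type w} [MeasurableSpace Ω₀] {Q₀ : Measure Ω₀} [IsProbabilityMeasure Q₀] {Z : Ω₀ → ℝ}
    (h : TendstoInDistribution (fun k ω' => ((F k).Z f g ω').toReal) atTop Z
      (fun k => (F k).Q) Q₀) :
    m0 ≤ ∫⁻ ω, (ENNReal.ofReal (Z ω)) ^ n ∂Q₀ := by
  have hKf : K ^ ((1 : ℝ) / 2) ≠ ∞ := ENNReal.rpow_ne_top_of_nonneg (by norm_num) hK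
  have h1 : ∀ᶠ k in atTop, ∫⁻ ω', (ENNReal.ofReal ((F k).Z f g ω').toReal) ^ (2 * n) ∂(F k).Q
      ≤ K ^ ((1 : ℝ) / 2) := by
    filter_upwards [hε.eventually hbd] with k hk
    refine (FinB_toReal_le _ (2 * n)).trans ?_
    apply FinB_sq_le
    have : (K ^ ((1 : ℝ) / 2)) ^ 2 = K := by
      rw [← ENNReal.rpow_natCast, ← ENNReal.rpow_mul]
      norm_num
    rw [this]
    exact hk (F k)
  have h2 : ∀ᶠ k in atTop, m0 ≤ ∫⁻ ω', (ENNReal.ofReal ((F k).Z f g ω').toReal) ^ n ∂(F k).Q := by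
    filter_upwards [hε.eventually hbd', hε.eventually hlo] with k hk hk2
    have hm : AEMeasurable ((F k).Z f g) (F k).Q := ZZ_meas hj (F k).hB (F k).hH hf hg
    rw [FinB_toReal_eq hm hn]
    · exact hk2 (F k)
    · intro htop
      have := hk (F k)
      rw [htop, ENNReal.top_pow (two_ne_zero)] at this
      exact hK' (top_le_iff.mp this)
  exact lim_lower h n hKf h1 h2

/-- **Main theorem.** -/
theorem main {j : R2 → ℝ} (hj : Moll j) {θ : ℝ} {β : ℝ → ℝ}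
    (hb : CritWin θ (fun ε => β ε ^ 2)) {s t : ℝ} (hst : s < t) {φ ψ : R2 → ℝ}
    (hφ : Measurable φ) (hψ : Measurable ψ) (hφ2 : MemLp φ 2 volume) (hψ2 : MemLp ψ 2 volume)
    (hφ0 : ∀ x, 0 ≤ φ x) (hψ0 : ∀ x, 0 ≤ ψ x) (hφn : ¬ φ =ᵐ[volume] 0)
    (hψn : ¬ ψ =ᵐ[volume] 0) :
    ∃ c C : ℝ, 0 < c ∧ 0 < C ∧ ∃ n0 : ℕ, ∀ n : ℕ, n0 ≤ n →
      (∀ᶠ ε in 𝓝[>] (0 : ℝ), ∀ F : MFlow.{u, v} j (β ε) ε s t,
        ENNReal.ofReal (Real.exp (Real.exp (c * n))) ≤ ∫⁻ ω', (F.Z φ ψ ω') ^ n ∂F.Q ∧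
        ∫⁻ ω', (F.Z φ ψ ω') ^ n ∂F.Q ≤ ENNReal.ofReal (Real.exp (Real.exp (C * n)))) ∧
      (∀ (Ω₀ : Type w) [MeasurableSpace Ω₀] (Q₀ : Measure Ω₀) [IsProbabilityMeasure Q₀]
        (S : Ω₀ → Measure (R2 × R2)), IsSHF.{u, v, w} j β s t Q₀ S →
        ENNReal.ofReal (Real.exp (Real.exp (c * n))) ≤ ∫⁻ ω, (Sp S φ ψ ω) ^ n ∂Q₀ ∧
        ∫⁻ ω, (Sp S φ ψ ω) ^ n ∂Q₀ ≤ ENNReal.ofReal (Real.exp (Real.exp (C * n)))) ∧
      (∀ ε : ℕ → ℝ, Tendsto ε atTop (𝓝[>] 0) →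
        ∀ F : ∀ k, MFlow.{u, v} j (β (ε k)) (ε k) s t,
        ∀ (Ω₀ : Type w) [MeasurableSpace Ω₀] (Q₀ : Measure Ω₀) [IsProbabilityMeasure Q₀]
        (Z : Ω₀ → ℝ),
        TendstoInDistribution (fun k ω' => ((F k).Z φ ψ ω').toReal) atTop Z
          (fun k => (F k).Q) Q₀ →
        ENNReal.ofReal (Real.exp (Real.exp (c * n)))
          ≤ ∫⁻ ω, (ENNReal.ofReal (Z ω)) ^ n ∂Q₀ ∧
        ∫⁻ ω, (ENNReal.ofReal (Z ω)) ^ n ∂Q₀
          ≤ ENNReal.ofReal (Real.exp (Real.exp (C * n)))) := by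
  have hT : 0 < t - s := sub_pos.mpr hst
  have hsq : ∀ f : R2 → ℝ, MemLp f 2 volume → ∫⁻ x, (ENNReal.ofReal (f x)) ^ 2 < ∞ := by
    intro f h1
    have h2 := h1.eLpNorm_lt_top
    rw [eLpNorm_lt_top_iff_lintegral_rpow_enorm_lt_top (by norm_num) (by norm_num)] at h2
    refine lt_of_le_of_lt (lintegral_mono ?_) h2
    intro x
    simp only [ENNReal.toReal_ofNat, ENNReal.rpow_ofNat]
    apply pow_le_pow_left'
    rw [← ofReal_norm_eq_enorm]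
    exact ENNReal.ofReal_le_ofReal (le_abs_self _)
  have hA := hsq φ hφ2
  have hB := hsq ψ hψ2
  set A : ℝ≥0∞ := ∫⁻ x, (ENNReal.ofReal (φ x)) ^ 2 with hAdef
  set B : ℝ≥0∞ := ∫⁻ x, (ENNReal.ofReal (ψ x)) ^ 2 with hBdef
  -- the constant for the lower bound
  have hT4 : 0 < (t - s) / 4 := by positivity
  have hc1 := cI_pos hT4 hφ hφ0 hφn
  have hc2 := cI_pos hT4 hψ hψ0 hψn
  have hc1f := cI_lt_top hT4 hφ hA
  have hc2f := cI_lt_top hT4 hψ hB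
  obtain ⟨α, hα, hα1, hα2⟩ : ∃ α : ℝ, 0 < α ∧ ENNReal.ofReal α < cI ((t - s) / 4) φ ∧
      ENNReal.ofReal α < cI ((t - s) / 4) ψ := by
    refine ⟨min (cI ((t - s) / 4) φ).toReal (cI ((t - s) / 4) ψ).toReal / 2, ?_, ?_, ?_⟩
    · have h1 := ENNReal.toReal_pos hc1.ne' hc1f.ne
      have h2 := ENNReal.toReal_pos hc2.ne' hc2f.ne
      have := lt_min h1 h2
      linarith
    · have h1 := ENNReal.toReal_pos hc1.ne' hc1f.ne
      rw [ENNReal.ofReal_lt_iff_lt_toReal _ hc1f.ne]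
      · have := min_le_left (cI ((t - s) / 4) φ).toReal (cI ((t - s) / 4) ψ).toReal
        linarith
      · have := le_min h1.le (ENNReal.toReal_nonneg (a := cI ((t - s) / 4) ψ))
        linarith
    · have h1 := ENNReal.toReal_pos hc2.ne' hc2f.ne
      rw [ENNReal.ofReal_lt_iff_lt_toReal _ hc2f.ne]
      · have := min_le_right (cI ((t - s) / 4) φ).toReal (cI ((t - s) / 4) ψ).toReal
        linarith
      · have := le_min (ENNReal.toReal_nonneg (a := cI ((t - s) / 4) φ)) h1.le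
        linarith
  obtain ⟨C, hC, hup⟩ := flow_upper.{u, v} hj hb hst
  obtain ⟨c, hc, n0, hn0, hlow⟩ := flow_lower.{u, v} hj hb hst hα
  obtain ⟨C', hC', habs⟩ := FinB_absorb hC hT hA hB
  refine ⟨c, C', hc, hC', n0, ?_⟩
  intro n hn
  have hn2 : 2 ≤ n := hn0.trans hn
  have hn1 : 1 ≤ n := by omega
  have h2n : 2 ≤ 2 * n := by omega
  -- prelimit bounds
  have e1 : ∀ f g : R2 → ℝ, Measurable f → Measurable g →
      ∫⁻ x, (ENNReal.ofReal (f x)) ^ 2 < ∞ → ∫⁻ x, (ENNReal.ofReal (g x)) ^ 2 < ∞ →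
      ∀ m : ℕ, 2 ≤ m → ∀ᶠ ε in 𝓝[>] (0 : ℝ), ∀ F : MFlow.{u, v} j (β ε) ε s t,
      (∫⁻ ω', (F.Z f g ω') ^ m ∂F.Q) ^ 2
        ≤ ENNReal.ofReal (Real.exp (2 * Real.exp (C * m) * (t - s)))
          * (∫⁻ x, (ENNReal.ofReal (f x)) ^ 2) ^ m * (∫⁻ x, (ENNReal.ofReal (g x)) ^ 2) ^ m := by
    intro f g hf hg hf2 hg2 m hm
    filter_upwards [hup m hm] with ε hε F
    exact hε F f g hf hg hf2 hg2
  have e2 : ∀ f g : R2 → ℝ, Measurable f → Measurable g →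
      ∫⁻ x, (ENNReal.ofReal (f x)) ^ 2 < ∞ → ∫⁻ x, (ENNReal.ofReal (g x)) ^ 2 < ∞ →
      ENNReal.ofReal α ≤ cI ((t - s) / 4) f → ENNReal.ofReal α ≤ cI ((t - s) / 4) g →
      ∀ᶠ ε in 𝓝[>] (0 : ℝ), ∀ F : MFlow.{u, v} j (β ε) ε s t,
      ENNReal.ofReal (Real.exp (Real.exp (c * n))) ≤ ∫⁻ ω', (F.Z f g ω') ^ n ∂F.Q := by
    intro f g hf hg hf2 hg2 h1 h2
    filter_upwards [hlow n hn] with ε hε F
    exact hε F f g hf hg hf2 hg2 h1 h2
  have hfin : ∀ (m : ℕ) (f g : R2 → ℝ), ∫⁻ x, (ENNReal.ofReal (f x)) ^ 2 < ∞ →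
      ∫⁻ x, (ENNReal.ofReal (g x)) ^ 2 < ∞ →
      ENNReal.ofReal (Real.exp (2 * Real.exp (C * m) * (t - s)))
          * (∫⁻ x, (ENNReal.ofReal (f x)) ^ 2) ^ m * (∫⁻ x, (ENNReal.ofReal (g x)) ^ 2) ^ m ≠ ∞ := by
    intro m f g hf2 hg2
    exact ENNReal.mul_ne_top (ENNReal.mul_ne_top ENNReal.ofReal_ne_top
      (ENNReal.pow_ne_top hf2.ne)) (ENNReal.pow_ne_top hg2.ne)
  refine ⟨?_, ?_, ?_⟩
  · filter_upwards [e1 φ ψ hφ hψ hA hB n hn2, e2 φ ψ hφ hψ hA hB hα1.le hα2.le] with ε h1 h2 F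
    refine ⟨h2 F, FinB_sq_le ((h1 F).trans (habs n hn1))⟩
  · rintro Ω₀ _ Q₀ _ S ⟨hSm, hSl, ε, hε, F, hF⟩
    -- upper bound on C_c
    have hSp : ∀ f g : R2 → ℝ, CcP f → CcP g → ∀ m : ℕ,
        ∫⁻ ω, (ENNReal.ofReal (Sp S f g ω).toReal) ^ m ∂Q₀ = ∫⁻ ω, (Sp S f g ω) ^ m ∂Q₀ := by
      intro f g hf hg m
      apply lintegral_congr
      intro ω
      haveI := hSl ω
      have h1 : Sp S f g ω ≠ ∞ := FinB_Sp_fin hf hg
      rw [ENNReal.ofReal_toReal h1]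
    have hCc : CcBound Q₀ S n (ENNReal.ofReal (Real.exp (2 * Real.exp (C * n) * (t - s)))) := by
      intro f g hf hg
      have h1 := FinB_limU (e1 f g hf.measurable hg.measurable hf.sq hg.sq n hn2) hε
        (hF f g hf hg)
      rwa [hSp f g hf hg n] at h1
    constructor
    · obtain ⟨fk, hfk, hfl⟩ := exists_approx hφ hφ0 hA
      obtain ⟨gk, hgk, hgl⟩ := exists_approx hψ hψ0 hB
      refine ext_lower hSm hn1 ENNReal.ofReal_ne_top hCc hφ hψ hφ0 hψ0 hA hB hfk hgk hfl hgl ?_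
      have t1 := cI_tendsto hT4 hφ hφ0 hA (fun k => (hfk k).measurable)
        (fun k => (hfk k).nonneg) hfl
      have t2 := cI_tendsto hT4 hψ hψ0 hB (fun k => (hgk k).measurable)
        (fun k => (hgk k).nonneg) hgl
      filter_upwards [t1.eventually (lt_mem_nhds hα1), t2.eventually (lt_mem_nhds hα2)] with k h1 h2
      rw [← hSp (fk k) (gk k) (hfk k) (hgk k) n]
      have e3 := e1 (fk k) (gk k) (hfk k).measurable (hgk k).measurable (hfk k).sq (hgk k).sq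
        (2 * n) h2n
      exact FinB_limL hj hn1 (hfin (2 * n) _ _ (hfk k).sq (hgk k).sq)
        (hfin n _ _ (hfk k).sq (hgk k).sq) (hfk k).measurable (hgk k).measurable e3
        (e1 (fk k) (gk k) (hfk k).measurable (hgk k).measurable (hfk k).sq (hgk k).sq n hn2)
        (e2 (fk k) (gk k) (hfk k).measurable (hgk k).measurable (hfk k).sq (hgk k).sq h1.le h2.le)
        hε (hF (fk k) (gk k) (hfk k) (hgk k))
    · exact FinB_sq_le ((ext_upper hSm hn1 ENNReal.ofReal_ne_top hCc hφ hψ hφ0 hψ0 hA hB).trans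
        (habs n hn1))
  · intro ε hε F Ω₀ _ Q₀ _ Z hZ
    constructor
    · exact FinB_limL hj hn1 (hfin (2 * n) _ _ hA hB) (hfin n _ _ hA hB) hφ hψ
        (e1 φ ψ hφ hψ hA hB (2 * n) h2n) (e1 φ ψ hφ hψ hA hB n hn2)
        (e2 φ ψ hφ hψ hA hB hα1.le hα2.le) hε hZ
    · exact FinB_sq_le ((FinB_limU (e1 φ ψ hφ hψ hA hB n hn2) hε hZ).trans (habs n hn1))

end SHF
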