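import Pool.Agent.W_03a799_h55.Flow
import Pool.Agent.W_03a799_h55.RhoA

/-! The functions `ff`: square integrability and inner products. -/

open MeasureTheory Filter Topology ProbabilityTheory
open scoped ENNReal NNReal

namespace SHF

lemma FlA_cont {j : R2 → ℝ} (hj : Moll j) (β ε s : ℝ) (x : R2) {γ : ℝ≥0 → R2}
    (hγ : Continuous γ) :
    Continuous fun q : ℝ × R2 => β * je j ε (x + γ (q.1 - s).toNNReal - q.2) := by
  have h1 : Continuous fun q : ℝ × R2 => γ (q.1 - s).toNNReal :=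
    hγ.comp (continuous_real_toNNReal.comp (continuous_fst.sub continuous_const))
  exact continuous_const.mul ((je_cont hj ε).comp ((continuous_const.add h1).sub continuous_snd))

lemma FlA_bound {j : R2 → ℝ} (hj : Moll j) (β ε s t : ℝ) (x : R2) (γ : ℝ≥0 → R2) :
    ∃ M : ℝ, ∀ q, ‖ff j β ε s t x γ q‖ ≤ M := by
  obtain ⟨M, hM0, hM⟩ := RhoA_bound hj
  refine ⟨|β| * ((ε ^ 2)⁻¹ * M), fun q => ?_⟩
  unfold ff
  split_ifs
  · rw [norm_mul, Real.norm_eq_abs, Real.norm_of_nonneg (je_nonneg hj ε _)]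
    exact mul_le_mul_of_nonneg_left (RhoA_je_bound hM ε _) (abs_nonneg _)
  · rw [norm_zero]
    positivity

lemma FlA_supp {j : R2 → ℝ} (hj : Moll j) (β : ℝ) {ε : ℝ} (s t : ℝ) (hε : 0 < ε) (x : R2)
    {γ : ℝ≥0 → R2} (hγ : Continuous γ) :
    ∃ R : ℝ, ∀ q : ℝ × R2, q ∉ Set.Icc s t ×ˢ Metric.closedBall (0 : R2) R →
      ff j β ε s t x γ q = 0 := by
  obtain ⟨r, hr0, hr⟩ := RhoA_ball hj
  obtain ⟨M, hM⟩ := (isCompact_Icc (a := (0 : ℝ≥0)) (b := (t - s).toNNReal)).exists_bound_of_continuousOn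
    hγ.continuousOn
  refine ⟨‖x‖ + M + r * ε, fun q hq => ?_⟩
  unfold ff
  split_ifs with h
  · have h1 : r * ε < ‖x + γ (q.1 - s).toNNReal - q.2‖ := by
      have h2 : ‖x‖ + M + r * ε < ‖q.2‖ := by
        by_contra hc
        push Not at hc
        exact hq ⟨h, by rwa [Metric.mem_closedBall, dist_zero_right]⟩
      have h3 : ‖γ (q.1 - s).toNNReal‖ ≤ M :=
        hM _ ⟨zero_le, Real.toNNReal_le_toNNReal (by linarith [h.2])⟩
      have h4 : ‖q.2‖ ≤ ‖x + γ (q.1 - s).toNNReal‖ + ‖x + γ (q.1 - s).toNNReal - q.2‖ := by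
        have h5 := norm_sub_le (x + γ (q.1 - s).toNNReal) (x + γ (q.1 - s).toNNReal - q.2)
        rwa [sub_sub_cancel] at h5
      have h5 := norm_add_le x (γ (q.1 - s).toNNReal)
      linarith
    rw [RhoA_je_zero hr hε _ h1, mul_zero]
  · rfl

lemma ff_meas {j : R2 → ℝ} (hj : Moll j) {β ε s t : ℝ} (x : R2) {γ : ℝ≥0 → R2}
    (hγ : Continuous γ) : Measurable (ff j β ε s t x γ) := by
  unfold ff
  refine Measurable.ite ?_ (FlA_cont hj β ε s x hγ).measurable measurable_const
  exact (isClosed_le continuous_const continuous_fst).measurableSet.inter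
    (isClosed_le continuous_fst continuous_const).measurableSet

/-- bounded, bounded support -/
lemma ff_memLp {j : R2 → ℝ} (hj : Moll j) {β ε s t : ℝ} (hε : 0 < ε) (x : R2) {γ : ℝ≥0 → R2}
    (hγ : Continuous γ) : MemLp (ff j β ε s t x γ) 2 volume := by
  obtain ⟨M, hM⟩ := FlA_bound hj β ε s t x γ
  obtain ⟨R, hR⟩ := FlA_supp hj β s t hε x hγ
  set K : Set (ℝ × R2) := Set.Icc s t ×ˢ Metric.closedBall (0 : R2) R with hK
  have hKc : IsCompact K := isCompact_Icc.prod (isCompact_closedBall _ _)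
  have h1 : ff j β ε s t x γ = K.indicator (ff j β ε s t x γ) := by
    funext q
    by_cases hq : q ∈ K
    · rw [Set.indicator_of_mem hq]
    · rw [Set.indicator_of_notMem hq, hR q hq]
  rw [h1, memLp_indicator_iff_restrict hKc.measurableSet]
  have : IsFiniteMeasure ((volume : Measure (ℝ × R2)).restrict K) :=
    ⟨by rw [Measure.restrict_apply_univ]; exact hKc.measure_lt_top⟩
  exact MemLp.of_bound (ff_meas hj x hγ).aestronglyMeasurable M (Eventually.of_forall hM)

/-- Fubini and `∫ j_ε(z - y) j_ε(z' - y) dy = R_ε(z - z')` -/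
lemma ff_inner {j : R2 → ℝ} (hj : Moll j) {β ε s t : ℝ} (hε : 0 < ε) (hst : s ≤ t) (x x' : R2)
    {γ γ' : ℝ≥0 → R2} (hγ : Continuous γ) (hγ' : Continuous γ') :
    ∫ q : ℝ × R2, ff j β ε s t x γ q * ff j β ε s t x' γ' q
      = β ^ 2 * ∫ r in (0 : ℝ)..(t - s), Re j ε (x + γ r.toNNReal - (x' + γ' r.toNNReal)) := by
  have hint : Integrable (fun q : ℝ × R2 => ff j β ε s t x γ q * ff j β ε s t x' γ' q)
      ((volume : Measure ℝ).prod (volume : Measure R2)) :=
    (ff_memLp hj hε x hγ).integrable_mul (ff_memLp hj hε x' hγ')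
  rw [Measure.volume_eq_prod, integral_prod _ hint]
  have h1 : ∀ r : ℝ, ∫ y : R2, ff j β ε s t x γ (r, y) * ff j β ε s t x' γ' (r, y) =
      (Set.Icc s t).indicator (fun r => β ^ 2 * Re j ε (x + γ (r - s).toNNReal -
        (x' + γ' (r - s).toNNReal))) r := by
    intro r
    by_cases hr : r ∈ Set.Icc s t
    · rw [Set.indicator_of_mem hr]
      have h2 : ∀ y : R2, ff j β ε s t x γ (r, y) * ff j β ε s t x' γ' (r, y) =
          β ^ 2 * (je j ε (x + γ (r - s).toNNReal - y) *
            je j ε (x' + γ' (r - s).toNNReal - y)) := by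
        intro y
        unfold ff
        rw [if_pos ⟨hr.1, hr.2⟩, if_pos ⟨hr.1, hr.2⟩]
        ring
      simp only [h2]
      rw [integral_const_mul]
      congr 1
      unfold Re
      rw [← integral_sub_left_eq_self (fun u : R2 => je j ε (x + γ (r - s).toNNReal -
        (x' + γ' (r - s).toNNReal) + u) * je j ε u) volume (x' + γ' (r - s).toNNReal)]
      congr 1
      funext y
      congr 2
      abel
    · rw [Set.indicator_of_notMem hr]
      have h2 : ∀ y : R2, ff j β ε s t x γ (r, y) * ff j β ε s t x' γ' (r, y) = 0 := by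
        intro y
        unfold ff
        rw [if_neg (fun h => hr ⟨h.1, h.2⟩), zero_mul]
      simp only [h2, integral_zero]
  simp only [h1]
  rw [integral_indicator measurableSet_Icc, integral_Icc_eq_integral_Ioc,
    ← intervalIntegral.integral_of_le hst, intervalIntegral.integral_const_mul]
  congr 1
  rw [intervalIntegral.integral_comp_sub_right (fun r => Re j ε (x + γ r.toNNReal -
    (x' + γ' r.toNNReal))) s, sub_self]

end SHF
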