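import Pool.Agent.W_03a799_h55.FlA

/-! Exponential moments of the noise. -/

open MeasureTheory Filter Topology ProbabilityTheory
open scoped ENNReal NNReal

namespace SHF

variable {Ω Ω' : Type*} [MeasurableSpace Ω] [MeasurableSpace Ω'] {Q : Measure Ω'}

lemma FlB_aem (N : WNoise Q) {f : ℝ × R2 → ℝ} (hf : MemLp f 2 volume) :
    AEMeasurable (N.W f) Q := by
  by_contra h
  have h1 := N.gauss f hf
  rw [Measure.map_of_not_aemeasurable h] at h1
  have h2 : (0 : Measure ℝ) Set.univ = gaussianReal 0 (∫ q, f q ^ 2).toNNReal Set.univ := by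
    rw [← h1]
  simp at h2

/-- Gaussian exponential moment -/
lemma wn_mgf (N : WNoise Q) {f : ℝ × R2 → ℝ} (hf : MemLp f 2 volume) :
    ∫⁻ ω', ENNReal.ofReal (Real.exp (N.W f ω')) ∂Q
      = ENNReal.ofReal (Real.exp ((∫ q, f q ^ 2) / 2)) := by
  have hm : AEMeasurable (N.W f : Ω' → ℝ) Q := FlB_aem N hf
  have hg : Measurable (fun x : ℝ => ENNReal.ofReal (Real.exp x)) := by fun_prop
  have h1 : ∫⁻ ω', ENNReal.ofReal (Real.exp (N.W f ω')) ∂Q
      = ∫⁻ x, ENNReal.ofReal (Real.exp x) ∂(Q.map (N.W f)) :=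
    (lintegral_map' hg.aemeasurable hm).symm
  have h0 : 0 ≤ ∫ q, f q ^ 2 := integral_nonneg fun q => sq_nonneg _
  rw [h1, N.gauss f hf]
  have hi : Integrable (fun x : ℝ => Real.exp x) (gaussianReal 0 (∫ q, f q ^ 2).toNNReal) := by
    have := integrable_exp_mul_gaussianReal (μ := 0) (v := (∫ q, f q ^ 2).toNNReal) 1
    simpa using this
  rw [← ofReal_integral_eq_lintegral_ofReal hi (Eventually.of_forall fun x => (Real.exp_pos x).le)]
  congr 1
  have h2 := congrFun (mgf_id_gaussianReal (μ := 0) (v := (∫ q, f q ^ 2).toNNReal)) 1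
  simp only [mgf, id, one_mul] at h2
  rw [h2]
  simp [h0]

/-- symmetric double sums -/
lemma FlB_aux_sum {n : ℕ} (a : Fin n → Fin n → ℝ) (ha : ∀ i j, a i j = a j i) :
    ∑ i, ∑ j, a i j = ∑ i, a i i + 2 * ∑ p ∈ prs n, a p.1 p.2 := by
  classical
  have h1 : ∑ i, ∑ j, a i j = ∑ i, ∑ j, ((if i = j then a i j else 0) +
      ((if i < j then a i j else 0) + (if j < i then a i j else 0))) := by
    refine Finset.sum_congr rfl fun i _ => Finset.sum_congr rfl fun j _ => ?_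
    rcases lt_trichotomy i j with h | h | h
    · simp [h, h.ne, h.not_gt]
    · simp [h]
    · simp [h, h.ne', h.not_gt]
  have h2 : ∑ i, ∑ j, (if j < i then a i j else 0) = ∑ i, ∑ j, (if i < j then a i j else 0) := by
    rw [Finset.sum_comm]
    refine Finset.sum_congr rfl fun i _ => Finset.sum_congr rfl fun j _ => ?_
    rw [ha]
  have h3 : ∑ i, ∑ j, (if i < j then a i j else 0) = ∑ p ∈ prs n, a p.1 p.2 := by
    unfold prs
    rw [Finset.sum_filter, ← Finset.univ_product_univ, Finset.sum_product]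
  rw [h1]
  simp only [Finset.sum_add_distrib, Finset.sum_ite_eq, Finset.mem_univ, if_true]
  rw [h2, h3]
  ring

/-- square of a sum of `L²` functions -/
lemma FlB_aux_norm {n : ℕ} {f : Fin n → ℝ × R2 → ℝ} (hf : ∀ i, MemLp (f i) 2 volume) :
    ∫ q, (∑ i, f i q) ^ 2
      = (∑ i, ∫ q, f i q ^ 2) + 2 * ∑ p ∈ prs n, ∫ q, f p.1 q * f p.2 q := by
  have hi : ∀ i k, Integrable (fun q => f i q * f k q) := fun i k => (hf i).integrable_mul (hf k)
  have h1 : ∫ q, (∑ i, f i q) ^ 2 = ∑ i, ∑ k, ∫ q, f i q * f k q := by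
    have : ∀ q, (∑ i, f i q) ^ 2 = ∑ i, ∑ k, f i q * f k q := by
      intro q
      rw [sq, Finset.sum_mul_sum]
    simp_rw [this]
    rw [integral_finset_sum _ (fun i _ => integrable_finset_sum _ (fun k _ => hi i k))]
    refine Finset.sum_congr rfl fun i _ => ?_
    rw [integral_finset_sum _ (fun k _ => hi i k)]
  rw [h1, FlB_aux_sum (fun i k => ∫ q, f i q * f k q)
    (fun i k => by simp_rw [mul_comm (f i _)])]
  simp_rw [sq]

/-- additivity over finite sums -/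
lemma FlB_aux_add (N : WNoise Q) {ι : Type*} (A : Finset ι) {f : ι → ℝ × R2 → ℝ}
    (hf : ∀ i, MemLp (f i) 2 volume) :
    N.W (fun q => ∑ i ∈ A, f i q) =ᵐ[Q] fun ω' => ∑ i ∈ A, N.W (f i) ω' := by
  classical
  induction A using Finset.induction_on with
  | empty =>
    have h0 : MemLp (fun _ : ℝ × R2 => (0 : ℝ)) 2 volume := MemLp.zero'
    have h1 := N.add (fun _ => 0) (fun _ => 0) h0 h0
    filter_upwards [h1] with ω' hω
    simp only [add_zero, Finset.sum_empty] at hω ⊢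
    linarith
  | insert a A ha ih =>
    have hs : MemLp (fun q => ∑ i ∈ A, f i q) 2 volume := memLp_finset_sum A fun i _ => hf i
    have h1 := N.add (f a) (fun q => ∑ i ∈ A, f i q) (hf a) hs
    simp_rw [Finset.sum_insert ha]
    filter_upwards [h1, ih] with ω' h2 h3
    rw [h2, h3]

/-- `E ∏ exp(W(f_i) - ‖f_i‖²/2) = exp(∑_{i<j} ⟨f_i, f_j⟩)` -/
lemma wn_prod (N : WNoise Q) {n : ℕ} {f : Fin n → ℝ × R2 → ℝ} (hf : ∀ i, MemLp (f i) 2 volume) :
    ∫⁻ ω', ∏ i, ENNReal.ofReal (Real.exp (N.W (f i) ω' - (∫ q, f i q ^ 2) / 2)) ∂Q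
      = ENNReal.ofReal (Real.exp (∑ p ∈ prs n, ∫ q, f p.1 q * f p.2 q)) := by
  have hsum := FlB_aux_add N Finset.univ hf
  have hsm : MemLp (fun q => ∑ i, f i q) 2 volume := memLp_finset_sum _ fun i _ => hf i
  have h1 : ∫⁻ ω', ∏ i, ENNReal.ofReal (Real.exp (N.W (f i) ω' - (∫ q, f i q ^ 2) / 2)) ∂Q
      = ∫⁻ ω', ENNReal.ofReal (Real.exp (-∑ i, (∫ q, f i q ^ 2) / 2)) *
        ENNReal.ofReal (Real.exp (N.W (fun q => ∑ i, f i q) ω')) ∂Q := by
    refine lintegral_congr_ae ?_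
    filter_upwards [hsum] with ω' hω
    rw [hω, ← ENNReal.ofReal_mul (Real.exp_pos _).le, ← Real.exp_add,
      ← ENNReal.ofReal_prod_of_nonneg (fun i _ => (Real.exp_pos _).le), ← Real.exp_sum]
    congr 2
    rw [Finset.sum_sub_distrib]
    ring
  rw [h1, lintegral_const_mul' _ _ ENNReal.ofReal_ne_top, wn_mgf N hsm,
    ← ENNReal.ofReal_mul (Real.exp_pos _).le, ← Real.exp_add, FlB_aux_norm hf]
  congr 2
  rw [← Finset.sum_div]
  ring

/-- the same along `n` continuous paths -/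
theorem along_prod {j : R2 → ℝ} (hj : Moll j) {β ε s t : ℝ} (hε : 0 < ε) (hst : s ≤ t)
    {B : Fin 2 → ℝ≥0 → Ω → ℝ} {N : WNoise Q} {H : R2 → Ω → Ω' → ℝ}
    (hH : Along j β ε s t B N H) {n : ℕ} (x : Fin n → R2) (ω : Fin n → Ω)
    (hc : ∀ i, Continuous (pos B (ω i))) :
    ∫⁻ ω', ∏ i, ENNReal.ofReal (Real.exp (H (x i) (ω i) ω' - β ^ 2 * (t - s) * Re j ε 0 / 2)) ∂Q
      = ENNReal.ofReal (Real.exp (β ^ 2 * ∑ p ∈ prs n, ∫ r in (0 : ℝ)..(t - s),
          Re j ε (x p.1 + pos B (ω p.1) r.toNNReal - (x p.2 + pos B (ω p.2) r.toNNReal)))) := by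
  have hm : ∀ i, MemLp (ff j β ε s t (x i) (pos B (ω i))) 2 volume :=
    fun i => ff_memLp hj hε (x i) (hc i)
  have hin : ∀ i k, ∫ q, ff j β ε s t (x i) (pos B (ω i)) q * ff j β ε s t (x k) (pos B (ω k)) q =
      β ^ 2 * ∫ r in (0 : ℝ)..(t - s),
        Re j ε (x i + pos B (ω i) r.toNNReal - (x k + pos B (ω k) r.toNNReal)) := by
    intro i k
    rw [ff_inner hj hε hst (x i) (x k) (hc i) (hc k)]
  have hnorm : ∀ i, ∫ q, ff j β ε s t (x i) (pos B (ω i)) q ^ 2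
      = β ^ 2 * (t - s) * Re j ε 0 := by
    intro i
    simp_rw [sq (ff j β ε s t (x i) (pos B (ω i)) _)]
    rw [hin i i]
    simp only [sub_self, intervalIntegral.integral_const, smul_eq_mul, sub_zero]
    ring
  have hae : ∀ᵐ ω' ∂Q, ∀ i, H (x i) (ω i) ω' = N.W (ff j β ε s t (x i) (pos B (ω i))) ω' :=
    ae_all_iff.2 fun i => hH.eq (x i) (ω i) (hm i)
  have h1 : ∫⁻ ω', ∏ i, ENNReal.ofReal
        (Real.exp (H (x i) (ω i) ω' - β ^ 2 * (t - s) * Re j ε 0 / 2)) ∂Q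
      = ∫⁻ ω', ∏ i, ENNReal.ofReal
        (Real.exp (N.W (ff j β ε s t (x i) (pos B (ω i))) ω'
          - (∫ q, ff j β ε s t (x i) (pos B (ω i)) q ^ 2) / 2)) ∂Q := by
    refine lintegral_congr_ae ?_
    filter_upwards [hae] with ω' hω
    refine Finset.prod_congr rfl fun i _ => ?_
    rw [hω i, hnorm i]
  rw [h1, wn_prod N hm]
  congr 2
  rw [Finset.mul_sum]
  exact Finset.sum_congr rfl fun p _ => hin p.1 p.2

end SHF
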