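import Pool.Agent.W_03a799_h55.Base

/-!
# The mollified stochastic heat flow and its scaling limit: definitions

Space-time white noise is an isonormal Gaussian process over `L²(ℝ × ℝ²)`.  The solution of
`∂_t u = ½ Δu + β u ξ^ε` started at time `s` from `δ_x` is given by the Feynman-Kac formula; `ZZ` is
`∬ φ(x) ψ(y) u^ε_{s,t}(x,y) dx dy`.
-/

open MeasureTheory Filter Topology ProbabilityTheory
open scoped ENNReal NNReal

namespace SHF

/-- planar Brownian motion: two independent real Brownian motions -/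
structure BM2 {Ω : Type*} [MeasurableSpace Ω] (B : Fin 2 → ℝ≥0 → Ω → ℝ) (P : Measure Ω) :
    Prop where
  bm : ∀ a, IsBrownianReal (B a) P
  ind : iIndepFun (fun a ω (r : ℝ≥0) => B a r ω) P

/-- position of the planar Brownian motion at time `r` -/
noncomputable def pos {Ω : Type*} (B : Fin 2 → ℝ≥0 → Ω → ℝ) (ω : Ω) (r : ℝ≥0) : R2 :=
  WithLp.toLp 2 (fun a => B a r ω)

/-- the function `(r, y) ↦ β j_ε(x + γ(r - s) - y) 1_{[s,t]}(r)`: integrating white noise against it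
gives `β ∫_s^t ξ^ε(r, x + γ(r - s)) dr` -/
noncomputable def ff (j : R2 → ℝ) (β ε s t : ℝ) (x : R2) (γ : ℝ≥0 → R2) (q : ℝ × R2) : ℝ :=
  if s ≤ q.1 ∧ q.1 ≤ t then β * je j ε (x + γ (q.1 - s).toNNReal - q.2) else 0

/-- space-time white noise on `ℝ × ℝ²`: a linear map from `L²(ℝ × ℝ²)` to centred Gaussian random
variables with variance `∫ f²` (isonormal Gaussian process) -/
structure WNoise {Ω' : Type*} [MeasurableSpace Ω'] (Q : Measure Ω') where
  W : (ℝ × R2 → ℝ) → Ω' → ℝ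
  gauss : ∀ f, MemLp f 2 volume → Q.map (W f) = gaussianReal 0 (∫ q, f q ^ 2).toNNReal
  add : ∀ f g, MemLp f 2 volume → MemLp g 2 volume →
    W (fun q => f q + g q) =ᵐ[Q] fun ω => W f ω + W g ω
  smul : ∀ (c : ℝ) (f), MemLp f 2 volume → W (fun q => c * f q) =ᵐ[Q] fun ω => c * W f ω

/-- `H x ω ω'` is a jointly measurable version of the noise along the path `x + B(ω)` (it exists by
the standard theorem on measurable versions) -/
structure Along {Ω Ω' : Type*} [MeasurableSpace Ω] [MeasurableSpace Ω'] {Q : Measure Ω'}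
    (j : R2 → ℝ) (β ε s t : ℝ) (B : Fin 2 → ℝ≥0 → Ω → ℝ) (N : WNoise Q)
    (H : R2 → Ω → Ω' → ℝ) : Prop where
  meas : Measurable (fun z : R2 × Ω × Ω' => H z.1 z.2.1 z.2.2)
  eq : ∀ x ω, MemLp (ff j β ε s t x (pos B ω)) 2 volume →
    H x ω =ᵐ[Q] N.W (ff j β ε s t x (pos B ω))

/-- `∬ φ(x) ψ(y) u^ε_{s,t}(x,y) dx dy`, Feynman-Kac formula -/
noncomputable def ZZ {Ω Ω' : Type*} [MeasurableSpace Ω] (j : R2 → ℝ) (β ε s t : ℝ)
    (B : Fin 2 → ℝ≥0 → Ω → ℝ) (P : Measure Ω) (H : R2 → Ω → Ω' → ℝ) (φ ψ : R2 → ℝ) (ω' : Ω') :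
    ℝ≥0∞ :=
  ∫⁻ x, ENNReal.ofReal (φ x) * ∫⁻ ω, ENNReal.ofReal (ψ (x + pos B ω (t - s).toNNReal)) *
    ENNReal.ofReal (Real.exp (H x ω ω' - β ^ 2 * (t - s) * Re j ε 0 / 2)) ∂P

end SHF
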