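import Pool.Agent.W_03a799_h55.Flow

/-! Bundled mollified flows and their limits (the critical 2d stochastic heat flow). -/

open MeasureTheory Filter Topology ProbabilityTheory
open scoped ENNReal NNReal

namespace SHF

universe u v w

/-- a realisation of the mollified flow with mollifier `j`, noise strength `β`, scale `ε`, between
times `s` and `t`: a planar Brownian motion `B` (used in the Feynman-Kac formula), a space-time
white noise `N`, and a jointly measurable version `H` of the noise along Brownian paths -/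
structure MFlow (j : R2 → ℝ) (β ε s t : ℝ) where
  Ω : Type u
  [mΩ : MeasurableSpace Ω]
  P : Measure Ω
  [hP : IsProbabilityMeasure P]
  B : Fin 2 → ℝ≥0 → Ω → ℝ
  hB : BM2 B P
  Ω' : Type v
  [mΩ' : MeasurableSpace Ω']
  Q : Measure Ω'
  [hQ : IsProbabilityMeasure Q]
  N : WNoise Q
  H : R2 → Ω → Ω' → ℝ
  hH : Along j β ε s t B N H

attribute [instance] MFlow.mΩ MFlow.hP MFlow.mΩ' MFlow.hQ

/-- `∬ φ(x) ψ(y) u^ε_{s,t}(x,y) dx dy` -/
noncomputable def MFlow.Z {j : R2 → ℝ} {β ε s t : ℝ} (F : MFlow.{u, v} j β ε s t) (φ ψ : R2 → ℝ)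
    (ω' : F.Ω') : ℝ≥0∞ :=
  ZZ j β ε s t F.B F.P F.H φ ψ ω'

/-- continuous, compactly supported, nonnegative -/
structure CcP (f : R2 → ℝ) : Prop where
  cont : Continuous f
  supp : HasCompactSupport f
  nonneg : ∀ x, 0 ≤ f x

/-- `∬ f(x) g(y) S(dx,dy)` -/
noncomputable def Sp {Ω₀ : Type*} (S : Ω₀ → Measure (R2 × R2)) (f g : R2 → ℝ) (ω : Ω₀) : ℝ≥0∞ :=
  ∫⁻ z, ENNReal.ofReal (f z.1) * ENNReal.ofReal (g z.2) ∂(S ω)

/-- the random measure `S` is the limit in distribution of the random measures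
`u^ε_{s,t}(x,y) dx dy` along a sequence `ε k → 0`; the noise strength is `β ε` -/
def IsSHF (j : R2 → ℝ) (β : ℝ → ℝ) (s t : ℝ) {Ω₀ : Type w} [MeasurableSpace Ω₀]
    (Q₀ : Measure Ω₀) [IsProbabilityMeasure Q₀] (S : Ω₀ → Measure (R2 × R2)) : Prop :=
  Measurable S ∧ (∀ ω, IsLocallyFiniteMeasure (S ω)) ∧
    ∃ ε : ℕ → ℝ, Tendsto ε atTop (𝓝[>] 0) ∧
      ∃ F : ∀ k, MFlow.{u, v} j (β (ε k)) (ε k) s t, ∀ f g : R2 → ℝ, CcP f → CcP g →
        TendstoInDistribution (fun k ω' => ((F k).Z f g ω').toReal) atTop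
          (fun ω => (Sp S f g ω).toReal) (fun k => (F k).Q) Q₀

end SHF
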