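import Pool.Agent.W_03a799_h55.Defs

/-! The heat operator on nonnegative functions. -/

open MeasureTheory Filter Topology
open scoped ENNReal NNReal FourierTransform

namespace SHF

variable {E : Type*} [NormedAddCommGroup E] [InnerProductSpace ℝ E]
  [FiniteDimensional ℝ E] [MeasurableSpace E] [BorelSpace E]

lemma hk_pos {s : ℝ} (hs : 0 < s) (x : E) : 0 < hk s x := by
  unfold hk
  exact mul_pos (Real.rpow_pos_of_pos (by positivity) _) (Real.exp_pos _)

lemma hk_cont (s : ℝ) : Continuous (hk s : E → ℝ) := by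
  unfold hk
  fun_prop

lemma hk_neg (s : ℝ) (x : E) : hk s (-x) = hk s x := by
  unfold hk
  rw [norm_neg]

private lemma Heat_mulm {f g : E → ℝ≥0∞} (hf : Measurable f) (hg : Measurable g) :
    Measurable (fun y => f y * g y) := hf.mul hg

private lemma Heat_meas (s : ℝ) : Measurable (fun x : E => ENNReal.ofReal (hk s x)) :=
  (ENNReal.continuous_ofReal.comp (hk_cont s)).measurable

lemma hk_integrable {s : ℝ} (hs : 0 < s) : Integrable (hk s : E → ℝ) := by
  unfold hk
  refine Integrable.const_mul ?_ _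
  have h1 := (GaussianFourier.integrable_cexp_neg_mul_sq_norm_add (V := E)
    (b := (((2 * s)⁻¹ : ℝ) : ℂ)) (by simpa using hs) 0 0).re
  refine h1.congr (Filter.Eventually.of_forall fun v => ?_)
  have h2 : (-(((2 * s)⁻¹ : ℝ) : ℂ) * (‖v‖ : ℂ) ^ 2 + 0 * ((inner ℝ (0 : E) v : ℝ) : ℂ)) =
      ((-‖v‖ ^ 2 / (2 * s) : ℝ) : ℂ) := by
    push_cast
    ring
  show RCLike.re (Complex.exp _) = _
  rw [h2, ← Complex.ofReal_exp]
  exact Complex.ofReal_re _

lemma hk_lint {s : ℝ} (hs : 0 < s) : ∫⁻ x : E, ENNReal.ofReal (hk s x) = 1 := by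
  rw [← ofReal_integral_eq_lintegral_ofReal (hk_integrable hs)
    (Filter.Eventually.of_forall fun x => (hk_pos hs x).le)]
  have h1 := GaussianFourier.integral_rexp_neg_mul_sq_norm (V := E) (b := (2 * s)⁻¹)
    (by positivity)
  have h2 : ∫ x : E, hk s x = 1 := by
    unfold hk
    rw [integral_const_mul]
    have h3 : (∫ v : E, Real.exp (-‖v‖ ^ 2 / (2 * s))) =
        ∫ v : E, Real.exp (-(2 * s)⁻¹ * ‖v‖ ^ 2) := by
      congr 1
      ext v
      congr 1
      ring
    rw [h3, h1]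
    have h4 : Real.pi / (2 * s)⁻¹ = 2 * Real.pi * s := by
      rw [div_inv_eq_mul]
      ring
    rw [h4, ← Real.rpow_add (by positivity)]
    have h5 : -(Module.finrank ℝ E : ℝ) / 2 + (Module.finrank ℝ E : ℝ) / 2 = 0 := by ring
    rw [h5, Real.rpow_zero]
  rw [h2, ENNReal.ofReal_one]

private lemma Heat_sq {s t : ℝ} (hs : 0 < s) (ht : 0 < t) (a b : E) :
    ‖a‖ ^ 2 / (2 * s) + ‖b‖ ^ 2 / (2 * t) =
      ‖a + b‖ ^ 2 / (2 * (s + t)) +
        ‖(s / (s + t)) • b - (t / (s + t)) • a‖ ^ 2 / (2 * (s * t / (s + t))) := by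
  have h1 : ‖a + b‖ ^ 2 = ‖a‖ ^ 2 + 2 * inner ℝ a b + ‖b‖ ^ 2 := norm_add_sq_real a b
  have h2 : ‖(s / (s + t)) • b - (t / (s + t)) • a‖ ^ 2 =
      (s / (s + t)) ^ 2 * ‖b‖ ^ 2 - 2 * ((s / (s + t)) * (t / (s + t)) * inner ℝ a b) +
        (t / (s + t)) ^ 2 * ‖a‖ ^ 2 := by
    rw [norm_sub_sq_real, norm_smul, norm_smul, inner_smul_left, inner_smul_right,
      real_inner_comm a b, mul_pow, mul_pow, Real.norm_eq_abs, Real.norm_eq_abs, sq_abs, sq_abs]
    simp only [conj_trivial]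
    ring
  rw [h1, h2]
  have hst : s + t ≠ 0 := by positivity
  field_simp
  ring

/-- completing the square -/
lemma hk_mul {s t : ℝ} (hs : 0 < s) (ht : 0 < t) (x y z : E) :
    hk s (x - z) * hk t (z - y)
      = hk (s + t) (x - y) * hk (s * t / (s + t)) (z - ((t / (s + t)) • x + (s / (s + t)) • y)) := by
  have hst : 0 < s + t := by positivity
  have hst' : s + t ≠ 0 := hst.ne'
  have e1 : x - y = (x - z) + (z - y) := by abel
  have e2 : z - ((t / (s + t)) • x + (s / (s + t)) • y) =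
      (s / (s + t)) • (z - y) - (t / (s + t)) • (x - z) := by
    have h1 : z = (s / (s + t)) • z + (t / (s + t)) • z := by
      rw [← add_smul, ← add_div, div_self hst', one_smul]
    nth_rewrite 1 [h1]
    rw [smul_sub, smul_sub]
    abel
  have h := Heat_sq hs ht (x - z) (z - y)
  rw [← e1, ← e2] at h
  unfold hk
  have hpre : (2 * Real.pi * s) ^ (-(Module.finrank ℝ E : ℝ) / 2) *
      (2 * Real.pi * t) ^ (-(Module.finrank ℝ E : ℝ) / 2) =
      (2 * Real.pi * (s + t)) ^ (-(Module.finrank ℝ E : ℝ) / 2) *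
      (2 * Real.pi * (s * t / (s + t))) ^ (-(Module.finrank ℝ E : ℝ) / 2) := by
    rw [← Real.mul_rpow (by positivity) (by positivity),
      ← Real.mul_rpow (by positivity) (by positivity)]
    congr 1
    field_simp
  have hexp : Real.exp (-‖x - z‖ ^ 2 / (2 * s)) * Real.exp (-‖z - y‖ ^ 2 / (2 * t)) =
      Real.exp (-‖x - y‖ ^ 2 / (2 * (s + t))) *
      Real.exp (-‖z - ((t / (s + t)) • x + (s / (s + t)) • y)‖ ^ 2 /
        (2 * (s * t / (s + t)))) := by
    rw [← Real.exp_add, ← Real.exp_add]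
    congr 1
    simp only [neg_div]
    linarith
  calc _ = ((2 * Real.pi * s) ^ (-(Module.finrank ℝ E : ℝ) / 2) *
      (2 * Real.pi * t) ^ (-(Module.finrank ℝ E : ℝ) / 2)) *
      (Real.exp (-‖x - z‖ ^ 2 / (2 * s)) * Real.exp (-‖z - y‖ ^ 2 / (2 * t))) := by ring
    _ = _ := by
      rw [hpre, hexp]
      ring

lemma PE_meas (s : ℝ) {g : E → ℝ≥0∞} (hg : Measurable g) : Measurable (PE s g) := by
  unfold PE
  refine Measurable.lintegral_prod_right' (f := fun p : E × E =>
    ENNReal.ofReal (hk s (p.1 - p.2)) * g p.2) ?_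
  exact ((Heat_meas s).comp (measurable_fst.sub measurable_snd)).mul (hg.comp measurable_snd)

lemma PE_mono (s : ℝ) {g h : E → ℝ≥0∞} (hgh : ∀ x, g x ≤ h x) (x : E) : PE s g x ≤ PE s h x := by
  unfold PE
  exact lintegral_mono fun y => mul_le_mul_right (hgh y) _

private lemma Heat_meas_sub (s : ℝ) (x : E) :
    Measurable (fun y : E => ENNReal.ofReal (hk s (x - y))) :=
  (Heat_meas s).comp (measurable_const.sub measurable_id)

lemma PE_add (s : ℝ) {g h : E → ℝ≥0∞} (hg : Measurable g) (x : E) :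
    PE s (fun y => g y + h y) x = PE s g x + PE s h x := by
  unfold PE
  simp only [mul_add]
  exact lintegral_add_left (Heat_mulm (Heat_meas_sub s x) hg) _

lemma PE_const_mul (s : ℝ) {g : E → ℝ≥0∞} (hg : Measurable g) (c : ℝ≥0∞) (x : E) :
    PE s (fun y => c * g y) x = c * PE s g x := by
  unfold PE
  rw [← lintegral_const_mul _ (Heat_mulm (Heat_meas_sub s x) hg)]
  congr 1
  ext y
  ring

lemma PE_zero (s : ℝ) (x : E) : PE s (fun _ => 0) x = 0 := by
  unfold PE
  simp

lemma PE_sum (s : ℝ) {ι : Type*} (A : Finset ι) {g : ι → E → ℝ≥0∞}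
    (hg : ∀ i ∈ A, Measurable (g i)) (x : E) :
    PE s (fun y => ∑ i ∈ A, g i y) x = ∑ i ∈ A, PE s (g i) x := by
  unfold PE
  simp only [Finset.mul_sum]
  exact lintegral_finsetSum A fun i hi => (Heat_meas_sub s x).mul (hg i hi)

lemma PE_iSup (s : ℝ) {g : ℕ → E → ℝ≥0∞} (hg : ∀ i, Measurable (g i)) (hmono : Monotone g)
    (x : E) : PE s (fun y => ⨆ i, g i y) x = ⨆ i, PE s (g i) x := by
  unfold PE
  simp only [ENNReal.mul_iSup]
  refine lintegral_iSup (fun i => (Heat_meas_sub s x).mul (hg i)) ?_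
  intro i j hij y
  exact mul_le_mul_right (hmono hij y) _

/-- semigroup -/
lemma PE_semigroup {s t : ℝ} (hs : 0 < s) (ht : 0 < t) {g : E → ℝ≥0∞} (hg : Measurable g) :
    PE s (PE t g) = PE (s + t) g := by
  have hst : 0 < s + t := by positivity
  ext x
  have hm2 : Measurable fun p : E × E => ENNReal.ofReal (hk s (x - p.1)) *
      (ENNReal.ofReal (hk t (p.1 - p.2)) * g p.2) :=
    ((Heat_meas_sub s x).comp measurable_fst).mul
      (((Heat_meas t).comp (measurable_fst.sub measurable_snd)).mul (hg.comp measurable_snd))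
  have h1 : PE s (PE t g) x = ∫⁻ z : E, ∫⁻ y : E, ENNReal.ofReal (hk s (x - z)) *
      (ENNReal.ofReal (hk t (z - y)) * g y) := by
    unfold PE
    refine lintegral_congr fun z => ?_
    rw [← lintegral_const_mul _ (Heat_mulm (Heat_meas_sub t z) hg)]
  rw [h1, lintegral_lintegral_swap hm2.aemeasurable]
  unfold PE
  refine lintegral_congr fun y => ?_
  have h2 : ∀ z : E, ENNReal.ofReal (hk s (x - z)) * (ENNReal.ofReal (hk t (z - y)) * g y) =
      (ENNReal.ofReal (hk (s + t) (x - y)) * g y) * ENNReal.ofReal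
        (hk (s * t / (s + t)) (z - ((t / (s + t)) • x + (s / (s + t)) • y))) := by
    intro z
    rw [← mul_assoc, ← ENNReal.ofReal_mul (hk_pos hs _).le, hk_mul hs ht,
      ENNReal.ofReal_mul (hk_pos hst _).le]
    ring
  rw [lintegral_congr h2, lintegral_const_mul]
  · rw [lintegral_sub_right_eq_self (fun z : E => ENNReal.ofReal (hk (s * t / (s + t)) z)),
      hk_lint (by positivity), mul_one]
  · exact (Heat_meas _).comp (measurable_id.sub measurable_const)

/-- iterates of the heat operator -/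
lemma PE_iterate {s : ℝ} (hs : 0 < s) {g : E → ℝ≥0∞} (hg : Measurable g) (m : ℕ) :
    (PE s)^[m + 1] g = PE ((m + 1 : ℝ) * s) g := by
  induction m with
  | zero => simp
  | succ m ih =>
    rw [Function.iterate_succ_apply', ih, PE_semigroup hs (by positivity) hg]
    congr 1
    push_cast
    ring

lemma PE_symm (s : ℝ) {f g : E → ℝ≥0∞} (hf : Measurable f) (hg : Measurable g) :
    ∫⁻ x, f x * PE s g x = ∫⁻ x, PE s f x * g x := by
  have hm2 : Measurable fun p : E × E => f p.1 *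
      (ENNReal.ofReal (hk s (p.1 - p.2)) * g p.2) :=
    (hf.comp measurable_fst).mul
      (((Heat_meas s).comp (measurable_fst.sub measurable_snd)).mul (hg.comp measurable_snd))
  have h1 : ∫⁻ x, f x * PE s g x = ∫⁻ x : E, ∫⁻ y : E, f x *
      (ENNReal.ofReal (hk s (x - y)) * g y) := by
    unfold PE
    refine lintegral_congr fun x => ?_
    rw [← lintegral_const_mul _ (Heat_mulm (Heat_meas_sub s x) hg)]
  rw [h1, lintegral_lintegral_swap hm2.aemeasurable]
  unfold PE
  refine lintegral_congr fun y => ?_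
  rw [← lintegral_mul_const _ (Heat_mulm (Heat_meas_sub s y) hf)]
  refine lintegral_congr fun x => ?_
  have h2 : hk s (x - y) = hk s (y - x) := by
    rw [← hk_neg s (y - x)]
    congr 1
    abel
  rw [h2]
  ring

private lemma Heat_two_mul (a b : ℝ≥0∞) : 2 * (a * b) ≤ a ^ 2 + b ^ 2 := by
  rcases eq_or_ne a ∞ with rfl | ha
  · simp
  rcases eq_or_ne b ∞ with rfl | hb
  · simp
  lift a to ℝ≥0 using ha
  lift b to ℝ≥0 using hb
  have h : 2 * (a * b) ≤ a ^ 2 + b ^ 2 := by
    have := two_mul_le_add_sq a b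
    rw [mul_assoc] at this
    exact this
  exact_mod_cast h

private lemma Heat_jensen {s : ℝ} (hs : 0 < s) {g : E → ℝ≥0∞} (hg : Measurable g) (x : E) :
    (PE s g x) ^ 2 ≤ PE s (fun y => (g y) ^ 2) x := by
  set w : E → ℝ≥0∞ := fun y => ENNReal.ofReal (hk s (x - y)) with hw
  have hwm : Measurable w := Heat_meas_sub s x
  have hw1 : ∫⁻ y, w y = 1 := by
    rw [hw]
    rw [lintegral_sub_left_eq_self (fun z : E => ENNReal.ofReal (hk s z)) x]
    exact hk_lint hs
  have hA : PE s g x = ∫⁻ y, w y * g y := rfl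
  have hB : PE s (fun y => (g y) ^ 2) x = ∫⁻ y, w y * (g y) ^ 2 := rfl
  rw [hA, hB]
  have h1 : 2 * (∫⁻ y, w y * g y) ^ 2 = ∫⁻ y, ∫⁻ z, (w y * w z) * (2 * (g y * g z)) := by
    rw [sq, ← lintegral_mul_const _ (Heat_mulm hwm hg), ← lintegral_const_mul _
      ((Heat_mulm hwm hg).mul_const _)]
    refine lintegral_congr fun y => ?_
    rw [← mul_assoc, ← lintegral_const_mul _ (Heat_mulm hwm hg)]
    refine lintegral_congr fun z => ?_
    ring
  have h2 : ∫⁻ y, ∫⁻ z, (w y * w z) * (2 * (g y * g z)) ≤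
      ∫⁻ y, ∫⁻ z, ((w y * (g y) ^ 2) * w z + w y * (w z * (g z) ^ 2)) := by
    refine lintegral_mono fun y => lintegral_mono fun z => ?_
    calc (w y * w z) * (2 * (g y * g z)) ≤ (w y * w z) * ((g y) ^ 2 + (g z) ^ 2) :=
          mul_le_mul_right (Heat_two_mul _ _) _
      _ = _ := by ring
  have h3 : ∫⁻ y, ∫⁻ z, ((w y * (g y) ^ 2) * w z + w y * (w z * (g z) ^ 2)) =
      2 * ∫⁻ y, w y * (g y) ^ 2 := by
    have h4 : ∀ y, ∫⁻ z, ((w y * (g y) ^ 2) * w z + w y * (w z * (g z) ^ 2)) =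
        w y * (g y) ^ 2 + w y * ∫⁻ z, w z * (g z) ^ 2 := by
      intro y
      rw [lintegral_add_left (hwm.const_mul _), lintegral_const_mul _ hwm, hw1, mul_one,
        lintegral_const_mul _ (Heat_mulm hwm (hg.pow_const 2))]
    rw [lintegral_congr h4, lintegral_add_left (Heat_mulm hwm (hg.pow_const 2)),
      lintegral_mul_const _ hwm, hw1, one_mul, two_mul]
  have h5 : 2 * (∫⁻ y, w y * g y) ^ 2 ≤ 2 * ∫⁻ y, w y * (g y) ^ 2 := by
    rw [h1, ← h3]
    exact h2
  exact (ENNReal.mul_le_mul_iff_right (by norm_num) (by norm_num)).1 h5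

/-- contraction of `L²` -/
lemma PE_contr {s : ℝ} (hs : 0 < s) {g : E → ℝ≥0∞} (hg : Measurable g) :
    ∫⁻ x, (PE s g x) ^ 2 ≤ ∫⁻ x, (g x) ^ 2 := by
  have h1 : ∫⁻ x, (PE s g x) ^ 2 ≤ ∫⁻ x, PE s (fun y => (g y) ^ 2) x :=
    lintegral_mono fun x => Heat_jensen hs hg x
  refine h1.trans (le_of_eq ?_)
  have h2 := PE_symm s (f := fun _ => (1 : ℝ≥0∞)) (g := fun y => (g y) ^ 2) measurable_const
    (hg.pow_const 2)
  simp only [one_mul] at h2
  rw [h2]
  have h3 : ∀ x : E, PE s (fun _ => (1 : ℝ≥0∞)) x = 1 := by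
    intro x
    unfold PE
    simp only [mul_one]
    rw [lintegral_sub_left_eq_self (fun z : E => ENNReal.ofReal (hk s z)) x]
    exact hk_lint hs
  simp only [h3, one_mul]

end SHF
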