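import Pool.Agent.W_03a799_h55.Heat
import Pool.Agent.W_03a799_h55.Trot

/-! Discrete Duhamel expansion with one pair. -/

open MeasureTheory Filter Topology
open scoped ENNReal NNReal

namespace SHF

section gen

variable {E : Type*} [NormedAddCommGroup E] [InnerProductSpace ℝ E]
  [FiniteDimensional ℝ E] [MeasurableSpace E] [BorelSpace E]

/-- `D_m = K_r^m h - P^m h` where `K_r g = P ((1 + r) g)` -/
noncomputable def Dn (τ : ℝ) (r h : E → ℝ≥0∞) : ℕ → E → ℝ≥0∞
  | 0 => fun _ => 0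
  | m + 1 => PE τ (fun y => Dn τ r h m y + r y * ((PE τ)^[m] h y + Dn τ r h m y))

lemma PE_iter_meas (τ : ℝ) {h : E → ℝ≥0∞} (hh : Measurable h) (m : ℕ) :
    Measurable ((PE τ)^[m] h) := by
  induction m with
  | zero => exact hh
  | succ m ih =>
    rw [Function.iterate_succ_apply']
    exact PE_meas τ ih

lemma Dn_meas (τ : ℝ) {r h : E → ℝ≥0∞} (hr : Measurable r) (hh : Measurable h) (m : ℕ) :
    Measurable (Dn τ r h m) := by
  induction m with
  | zero => exact measurable_const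
  | succ m ih =>
    exact PE_meas τ (ih.add (hr.mul ((PE_iter_meas τ hh m).add ih)))

lemma LDu_iter_sum (τ : ℝ) {ι : Type*} (A : Finset ι) {g : ι → E → ℝ≥0∞}
    (hg : ∀ i ∈ A, Measurable (g i)) :
    PE τ (fun y => ∑ i ∈ A, g i y) = fun x => ∑ i ∈ A, PE τ (g i) x := by
  funext x
  exact PE_sum τ A hg x

/-- unrolled form -/
lemma Dn_sum (τ : ℝ) {r h : E → ℝ≥0∞} (hr : Measurable r) (hh : Measurable h) (m : ℕ) (x : E) :
    Dn τ r h m x = ∑ i ∈ Finset.range m, (PE τ)^[i + 1]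
      (fun y => r y * ((PE τ)^[m - 1 - i] h y + Dn τ r h (m - 1 - i) y)) x := by
  induction m generalizing x with
  | zero => simp [Dn]
  | succ m ih =>
    have hm : ∀ j, Measurable (fun y => r y * ((PE τ)^[j] h y + Dn τ r h j y)) := fun j =>
      hr.mul ((PE_iter_meas τ hh j).add (Dn_meas τ hr hh j))
    have h1 : Dn τ r h (m + 1) x = PE τ (Dn τ r h m) x +
        PE τ (fun y => r y * ((PE τ)^[m] h y + Dn τ r h m y)) x :=
      PE_add τ (Dn_meas τ hr hh m) x
    have h2 : Dn τ r h m = fun z => ∑ i ∈ Finset.range m, (PE τ)^[i + 1]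
        (fun y => r y * ((PE τ)^[m - 1 - i] h y + Dn τ r h (m - 1 - i) y)) z := by
      funext z
      exact ih z
    have h3 : PE τ (Dn τ r h m) x = ∑ i ∈ Finset.range m, (PE τ)^[i + 1 + 1]
        (fun y => r y * ((PE τ)^[m - 1 - i] h y + Dn τ r h (m - 1 - i) y)) x := by
      conv_lhs => rw [h2]
      rw [PE_sum τ (Finset.range m) (fun i _ => PE_iter_meas τ (hm (m - 1 - i)) (i + 1))]
      refine Finset.sum_congr rfl fun i _ => ?_
      rw [Function.iterate_succ_apply' (PE τ) (i + 1)]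
    rw [h1, h3, Finset.sum_range_succ']
    congr 1
    refine Finset.sum_congr rfl fun i _ => ?_
    have h4 : m + 1 - 1 - (i + 1) = m - 1 - i := by omega
    rw [h4]

end gen

variable {n : ℕ}

lemma LDu_df_meas (p : Fin n × Fin n) : Measurable (fun y : XX n => df p y) := by
  unfold df pt
  fun_prop

lemma LDu_alg {ι : Type*} (s : Finset ι) (A : ℝ≥0∞) (r D : ι → ℝ≥0∞) :
    A + ∑ p ∈ s, (D p + r p * (A + D p)) ≤ (1 + ∑ p ∈ s, r p) * (A + ∑ p ∈ s, D p) := by
  rw [Finset.sum_add_distrib, add_mul, one_mul, Finset.sum_mul, ← add_assoc]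
  refine add_le_add le_rfl (Finset.sum_le_sum fun p hp => ?_)
  exact mul_le_mul_right (add_le_add le_rfl
    (Finset.single_le_sum (f := D) (fun i _ => bot_le) hp)) _

lemma LDu_exp {τ b : ℝ} (hτ : 0 < τ) (hb : 0 ≤ b) {R : R2 → ℝ} (hR : ∀ z, 0 ≤ R z)
    (y : XX n) : 1 + ∑ p ∈ prs n, ENNReal.ofReal (τ * b * R (df p y)) ≤
      ENNReal.ofReal (Real.exp (τ * VV b R y)) := by
  have h0 : ∀ p ∈ prs n, 0 ≤ τ * b * R (df p y) := fun p _ =>
    mul_nonneg (mul_nonneg hτ.le hb) (hR _)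
  rw [← ENNReal.ofReal_sum_of_nonneg h0, ← ENNReal.ofReal_one,
    ← ENNReal.ofReal_add zero_le_one (Finset.sum_nonneg h0)]
  apply ENNReal.ofReal_le_ofReal
  have h1 : ∑ p ∈ prs n, τ * b * R (df p y) = τ * VV b R y := by
    unfold VV
    rw [Finset.mul_sum, Finset.mul_sum]
    refine Finset.sum_congr rfl fun p _ => ?_
    ring
  rw [h1, add_comm]
  exact Real.add_one_le_exp _

/-- `e^{τV} ≥ 1 + ∑ r_p`, and induction on `m` -/
theorem du_lower {τ b : ℝ} (hτ : 0 < τ) (hb : 0 ≤ b) {R : R2 → ℝ} (hR : ∀ z, 0 ≤ R z)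
    (hRm : Measurable R) {h : XX n → ℝ≥0∞} (hh : Measurable h) (m : ℕ) (x : XX n) :
    (PE τ)^[m] h x + ∑ p ∈ prs n, Dn τ (fun y => ENNReal.ofReal (τ * b * R (df p y))) h m x
      ≤ (KT τ (VV b R))^[m] h x := by
  induction m generalizing x with
  | zero => simp [Dn]
  | succ m ih =>
    have hr : ∀ p : Fin n × Fin n, Measurable
        (fun y : XX n => ENNReal.ofReal (τ * b * R (df p y))) := fun p =>
      ENNReal.measurable_ofReal.comp ((hRm.comp (LDu_df_meas p)).const_mul (τ * b))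
    have hP := PE_iter_meas τ hh m
    have hD := fun p => Dn_meas τ (hr p) hh m
    rw [Function.iterate_succ_apply', Function.iterate_succ_apply']
    have h1 : PE τ ((PE τ)^[m] h) x + ∑ p ∈ prs n,
        Dn τ (fun y => ENNReal.ofReal (τ * b * R (df p y))) h (m + 1) x =
        PE τ (fun y => (PE τ)^[m] h y + ∑ p ∈ prs n,
          (Dn τ (fun y => ENNReal.ofReal (τ * b * R (df p y))) h m y +
            ENNReal.ofReal (τ * b * R (df p y)) * ((PE τ)^[m] h y +
              Dn τ (fun y => ENNReal.ofReal (τ * b * R (df p y))) h m y))) x := by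
      rw [PE_add τ hP, PE_sum τ (prs n) (g := fun p y =>
        Dn τ (fun y => ENNReal.ofReal (τ * b * R (df p y))) h m y +
            ENNReal.ofReal (τ * b * R (df p y)) * ((PE τ)^[m] h y +
              Dn τ (fun y => ENNReal.ofReal (τ * b * R (df p y))) h m y))
        (fun p _ => (hD p).add ((hr p).mul (hP.add (hD p))))]
      rfl
    rw [h1]
    unfold KT
    refine PE_mono τ (fun y => ?_) x
    refine (LDu_alg (prs n) _ _ _).trans ?_
    exact mul_le_mul' (LDu_exp hτ hb hR y) (ih y)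

end SHF
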