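import Pool.Agent.W_03a799_h55.LPf

/-! Gaussian test functions. -/

open MeasureTheory Filter Topology
open scoped ENNReal NNReal

namespace SHF

variable {n : ℕ}

/-- Gaussian at scale `√w` -/
noncomputable def Ga (w : ℝ) (x : XX n) : ℝ≥0∞ := ENNReal.ofReal (Real.exp (-‖x‖ ^ 2 / (2 * w)))

lemma Ga_meas (w : ℝ) : Measurable (Ga w : XX n → ℝ≥0∞) := by
  unfold Ga
  exact (ENNReal.continuous_ofReal.comp (by fun_prop)).measurable

lemma LGa_hk {s : ℝ} (hs : 0 < s) (x : XX n) :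
    hk s x = ((2 * Real.pi * s) ^ n)⁻¹ * Real.exp (-‖x‖ ^ 2 / (2 * s)) := by
  unfold hk
  congr 1
  rw [finrank_euclideanSpace, Fintype.card_prod, Fintype.card_fin, Fintype.card_fin]
  have h : -((n * 2 : ℕ) : ℝ) / 2 = -(n : ℝ) := by
    push_cast
    ring
  rw [h, Real.rpow_neg (by positivity), Real.rpow_natCast]

lemma LGa_hk2 {s : ℝ} (hs : 0 < s) (x : R2) :
    hk s x = (2 * Real.pi * s)⁻¹ * Real.exp (-‖x‖ ^ 2 / (2 * s)) := by
  unfold hk
  congr 1
  rw [finrank_euclideanSpace, Fintype.card_fin]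
  have h : -((2 : ℕ) : ℝ) / 2 = -1 := by
    push_cast
    ring
  rw [h, Real.rpow_neg (by positivity), Real.rpow_one]

/-- completing the square -/
lemma LGa_mul {u w : ℝ} (hu : 0 < u) (hw : 0 < w) (x y : XX n) :
    hk u (x - y) * Real.exp (-‖y‖ ^ 2 / (2 * w)) =
      ((w / (u + w)) ^ n * Real.exp (-‖x‖ ^ 2 / (2 * (u + w)))) *
        hk (u * w / (u + w)) (y - (w / (u + w)) • x) := by
  have h1 := hk_mul hu hw x 0 y
  rw [sub_zero, sub_zero, smul_zero, add_zero, LGa_hk hw y, LGa_hk (by positivity) x] at h1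
  have h2 : (0 : ℝ) < (2 * Real.pi * w) ^ n := by positivity
  have h3 : (0 : ℝ) < (2 * Real.pi * (u + w)) ^ n := by positivity
  have h4 : (w / (u + w)) ^ n = (2 * Real.pi * w) ^ n * ((2 * Real.pi * (u + w)) ^ n)⁻¹ := by
    rw [← inv_pow, ← mul_pow]
    congr 1
    field_simp
  have h5 : hk u (x - y) * Real.exp (-‖y‖ ^ 2 / (2 * w)) = (2 * Real.pi * w) ^ n *
      (hk u (x - y) * (((2 * Real.pi * w) ^ n)⁻¹ * Real.exp (-‖y‖ ^ 2 / (2 * w)))) := by
    field_simp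
  rw [h5, h1, h4]
  ring

lemma LGa_K {u w : ℝ} (hu : 0 < u) (hw : 0 < w) (x : XX n) :
    Real.exp (-(n * u / w)) * Real.exp (-‖x‖ ^ 2 / (2 * w)) ≤
      (w / (u + w)) ^ n * Real.exp (-‖x‖ ^ 2 / (2 * (u + w))) := by
  refine mul_le_mul ?_ ?_ (Real.exp_pos _).le (by positivity)
  · have h1 : Real.exp (-(n * u / w)) = (Real.exp (-(u / w))) ^ n := by
      rw [← Real.exp_nat_mul]
      congr 1
      ring
    rw [h1]
    refine pow_le_pow_left₀ (Real.exp_pos _).le ?_ n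
    rw [Real.exp_neg]
    have h2 : w / (u + w) = (u / w + 1)⁻¹ := by
      field_simp
    rw [h2]
    exact inv_anti₀ (by positivity) (Real.add_one_le_exp _)
  · refine Real.exp_le_exp.2 ?_
    rw [neg_div, neg_div, neg_le_neg_iff]
    exact div_le_div_of_nonneg_left (sq_nonneg _) (by positivity) (by linarith)

lemma LGa_mulm {f g : XX n → ℝ≥0∞} (hf : Measurable f) (hg : Measurable g) :
    Measurable fun y => f y * g y := hf.mul hg

lemma LGa_PE {u w : ℝ} (hu : 0 < u) (hw : 0 < w) {F : XX n → ℝ≥0∞} (hF : Measurable F)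
    (x : XX n) : PE u (fun y => F y * Ga w y) x =
      ENNReal.ofReal ((w / (u + w)) ^ n * Real.exp (-‖x‖ ^ 2 / (2 * (u + w)))) *
        ∫⁻ y, ENNReal.ofReal (hk (u * w / (u + w)) (y - (w / (u + w)) • x)) * F y := by
  have hm : Measurable fun y : XX n =>
      ENNReal.ofReal (hk (u * w / (u + w)) (y - (w / (u + w)) • x)) :=
    (ENNReal.continuous_ofReal.comp
      ((hk_cont _).comp (continuous_id.sub continuous_const))).measurable
  unfold PE
  rw [← lintegral_const_mul _ (LGa_mulm hm hF)]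
  refine lintegral_congr fun y => ?_
  unfold Ga
  have h1 : ENNReal.ofReal (hk u (x - y)) * (F y * ENNReal.ofReal (Real.exp (-‖y‖ ^ 2 / (2 * w)))) =
      ENNReal.ofReal (hk u (x - y) * Real.exp (-‖y‖ ^ 2 / (2 * w))) * F y := by
    rw [ENNReal.ofReal_mul (hk_pos hu _).le]
    ring
  rw [h1, LGa_mul hu hw, ENNReal.ofReal_mul (by positivity), mul_assoc]

lemma LGa_hk_int {v : ℝ} (hv : 0 < v) (m0 : XX n) :
    ∫⁻ y : XX n, ENNReal.ofReal (hk v (y - m0)) = 1 := by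
  rw [lintegral_sub_right_eq_self (fun z : XX n => ENNReal.ofReal (hk v z)), hk_lint hv]

/-- `P_u G (x) = (w/(u+w))^n exp(-|x|²/(2(u+w))) ≥ e^{-nu/w} G(x)` -/
lemma PE_Ga {u w : ℝ} (hu : 0 < u) (hw : 0 < w) (x : XX n) :
    ENNReal.ofReal (Real.exp (-(n * u / w))) * Ga w x ≤ PE u (Ga w) x := by
  have h1 := LGa_PE hu hw (F := fun _ => (1 : ℝ≥0∞)) measurable_const x
  simp only [one_mul, mul_one] at h1
  have h2 : (fun y : XX n => Ga w y) = Ga w := rfl
  rw [h2] at h1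
  rw [h1, LGa_hk_int (by positivity), mul_one]
  unfold Ga
  rw [← ENNReal.ofReal_mul (Real.exp_pos _).le]
  exact ENNReal.ofReal_le_ofReal (LGa_K hu hw x)

/-- what is used of the covariance `R_ε`: density supported in the ball of radius `a` -/
structure Cov (R : R2 → ℝ) (a : ℝ) : Prop where
  meas : Measurable R
  nonneg : ∀ z, 0 ≤ R z
  mass : ∫⁻ z, ENNReal.ofReal (R z) = 1
  ha : 0 < a
  supp : ∀ z, a < ‖z‖ → R z = 0

lemma LGa_low {R : R2 → ℝ} {a : ℝ} (hR : Cov R a) (F : R2 → ℝ≥0∞) (c : ℝ≥0∞)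
    (h : ∀ z, ‖z‖ ≤ a → c ≤ F z) : c ≤ ∫⁻ z, F z * ENNReal.ofReal (R z) := by
  have h1 : c = ∫⁻ z, c * ENNReal.ofReal (R z) := by
    rw [lintegral_const_mul _ hR.meas.ennreal_ofReal, hR.mass, mul_one]
  rw [h1]
  refine lintegral_mono fun z => ?_
  by_cases hz : ‖z‖ ≤ a
  · exact mul_le_mul_left (h z hz) _
  · rw [hR.supp z (not_le.1 hz), ENNReal.ofReal_zero, mul_zero, mul_zero]

/-- near the diagonal. Complete the square: `hk u (x - y) G(y)` is
`(v'/u)^n exp(-|x|²/(2(u+w))) hk v' (y - m0)`, `v' = uw/(u+w)`, `m0 = (w/(u+w)) x`; then `pf`, and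
`hk (2v') (z - df p m0) ≥ (4πv')⁻¹ exp(-(2a)²/(4v'))` for `|z| ≤ a`, `1/v' = 1/u + 1/w` -/
theorem PE_R_Ga {R : R2 → ℝ} {a : ℝ} (hR : Cov R a) {u w : ℝ} (hu : 0 < u) (hw : 0 < w)
    {p : Fin n × Fin n} (hp : p.1 ≠ p.2) {x : XX n} (hx : ‖df p x‖ ≤ a) :
    ENNReal.ofReal (Real.exp (-(n * u / w)) * Real.exp (-(a ^ 2 / w))
        * (1 / (4 * Real.pi * u) * Real.exp (-(a ^ 2 / u)))) * Ga w x
      ≤ PE u (fun y => ENNReal.ofReal (R (df p y)) * Ga w y) x := by
  have hv : 0 < u * w / (u + w) := by positivity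
  have hF : Measurable fun y : XX n => ENNReal.ofReal (R (df p y)) :=
    (hR.meas.comp (continuous_df p).measurable).ennreal_ofReal
  rw [LGa_PE hu hw hF x, pf hv hp _ (F := fun z => ENNReal.ofReal (R z)) hR.meas.ennreal_ofReal]
  have h1 : ENNReal.ofReal (1 / (4 * Real.pi * u) * Real.exp (-(a ^ 2 / u)) *
      Real.exp (-(a ^ 2 / w))) ≤ ∫⁻ z, ENNReal.ofReal (hk (2 * (u * w / (u + w)))
        (z - df p ((w / (u + w)) • x))) * ENNReal.ofReal (R z) := by
    refine LGa_low hR _ _ fun z hz => ENNReal.ofReal_le_ofReal ?_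
    rw [LGa_hk2 (by positivity), df_smul]
    have h2 : ‖z - (w / (u + w)) • df p x‖ ≤ 2 * a := by
      have h3 : ‖(w / (u + w)) • df p x‖ ≤ a := by
        rw [norm_smul, Real.norm_of_nonneg (by positivity)]
        have h4 : w / (u + w) ≤ 1 := by
          rw [div_le_one (by positivity)]
          linarith
        calc w / (u + w) * ‖df p x‖ ≤ 1 * a :=
              mul_le_mul h4 hx (norm_nonneg _) zero_le_one
          _ = a := one_mul a
      calc ‖z - (w / (u + w)) • df p x‖ ≤ ‖z‖ + ‖(w / (u + w)) • df p x‖ := norm_sub_le _ _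
        _ ≤ 2 * a := by linarith
    have h5 : ‖z - (w / (u + w)) • df p x‖ ^ 2 ≤ 4 * a ^ 2 := by
      have := pow_le_pow_left₀ (norm_nonneg _) h2 2
      nlinarith
    rw [mul_assoc, ← Real.exp_add]
    refine mul_le_mul ?_ (Real.exp_le_exp.2 ?_) (Real.exp_pos _).le (by positivity)
    · rw [one_div]
      refine inv_anti₀ (by positivity) ?_
      have h6 : u * w / (u + w) ≤ u := by
        rw [div_le_iff₀ (by positivity)]
        nlinarith
      have h7 := Real.pi_pos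
      nlinarith
    · have h8 : -(a ^ 2 / u) + -(a ^ 2 / w) = -(4 * a ^ 2) / (2 * (2 * (u * w / (u + w)))) := by
        field_simp
        ring
      rw [h8, neg_div, neg_div, neg_le_neg_iff]
      exact div_le_div_of_nonneg_right h5 (by positivity)
  refine le_trans ?_ (mul_le_mul' le_rfl h1)
  unfold Ga
  rw [← ENNReal.ofReal_mul (by positivity), ← ENNReal.ofReal_mul (by positivity)]
  refine ENNReal.ofReal_le_ofReal ?_
  have h9 := mul_le_mul_of_nonneg_right (LGa_K hu hw x) (show 0 ≤ 1 / (4 * Real.pi * u) *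
    Real.exp (-(a ^ 2 / u)) * Real.exp (-(a ^ 2 / w)) by positivity)
  refine le_trans (le_of_eq ?_) h9
  ring

lemma LGa_sq {w : ℝ} (hw : 0 < w) (x : XX n) : (Ga w x) ^ 2 =
    ENNReal.ofReal ((Real.pi * w) ^ n) * ENNReal.ofReal (hk (w / 2) (x - 0)) := by
  unfold Ga
  rw [sub_zero, ← ENNReal.ofReal_mul (by positivity), ← ENNReal.ofReal_pow (Real.exp_pos _).le,
    LGa_hk (by positivity), ← Real.exp_nat_mul]
  congr 1
  have h1 : 2 * Real.pi * (w / 2) = Real.pi * w := by ring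
  have h2 : (2 : ℕ) * (-‖x‖ ^ 2 / (2 * w)) = -‖x‖ ^ 2 / (2 * (w / 2)) := by
    push_cast
    field_simp
  have h3 : (0 : ℝ) < (Real.pi * w) ^ n := by positivity
  rw [h1, h2, ← mul_assoc, mul_inv_cancel₀ h3.ne', one_mul]

lemma LGa_meas0 (v : ℝ) : Measurable fun x : XX n => ENNReal.ofReal (hk v (x - 0)) :=
  (ENNReal.continuous_ofReal.comp
    ((hk_cont _).comp (continuous_id.sub continuous_const))).measurable

lemma LGa_int {w : ℝ} (hw : 0 < w) :
    ∫⁻ x : XX n, (Ga w x) ^ 2 = ENNReal.ofReal ((Real.pi * w) ^ n) := by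
  simp only [LGa_sq hw]
  rw [lintegral_const_mul _ (LGa_meas0 _), LGa_hk_int (by positivity), mul_one]

/-- `∫ R(x_i - x_j) G² ≥ (2πw)⁻¹ e^{-a²/(2w)} ∫ G²` -/
theorem int_R_Ga {R : R2 → ℝ} {a : ℝ} (hR : Cov R a) {w : ℝ} (hw : 0 < w)
    {p : Fin n × Fin n} (hp : p.1 ≠ p.2) :
    ENNReal.ofReal (1 / (2 * Real.pi * w) * Real.exp (-(a ^ 2 / (2 * w))))
        * ∫⁻ x : XX n, (Ga w x) ^ 2
      ≤ ∫⁻ x : XX n, ENNReal.ofReal (R (df p x)) * (Ga w x) ^ 2 := by
  have hF : Measurable fun y : XX n => ENNReal.ofReal (R (df p y)) :=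
    (hR.meas.comp (continuous_df p).measurable).ennreal_ofReal
  rw [LGa_int hw]
  have h0 : ∫⁻ x : XX n, ENNReal.ofReal (R (df p x)) * (Ga w x) ^ 2 =
      ENNReal.ofReal ((Real.pi * w) ^ n) * ∫⁻ x : XX n, ENNReal.ofReal (hk (w / 2) (x - 0)) *
        ENNReal.ofReal (R (df p x)) := by
    rw [← lintegral_const_mul _ (LGa_mulm (LGa_meas0 _) hF)]
    refine lintegral_congr fun x => ?_
    rw [LGa_sq hw]
    ring
  rw [h0, pf (by positivity) hp 0 (F := fun z => ENNReal.ofReal (R z)) hR.meas.ennreal_ofReal,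
    mul_comm]
  refine mul_le_mul' le_rfl (LGa_low hR _ _ fun z hz => ENNReal.ofReal_le_ofReal ?_)
  have h1 : df p (0 : XX n) = 0 := by
    have := df_smul p 0 (0 : XX n)
    rwa [zero_smul, zero_smul] at this
  have h2 : 2 * (w / 2) = w := by ring
  rw [h1, sub_zero, h2, LGa_hk2 hw, one_div]
  refine mul_le_mul_of_nonneg_left (Real.exp_le_exp.2 ?_) (by positivity)
  rw [neg_div, neg_le_neg_iff]
  exact div_le_div_of_nonneg_right (pow_le_pow_left₀ (norm_nonneg _) hz 2) (by positivity)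

lemma int_Ga_sq {w : ℝ} (hw : 0 < w) :
    ∫⁻ x : XX n, (Ga w x) ^ 2 = ENNReal.ofReal ((Real.pi * w) ^ n) :=
  LGa_int hw

end SHF
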