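import Pool.Agent.W_03a799_h55.LGa
import Pool.Agent.W_03a799_h55.Prd

/-! Initial comparison with a Gaussian. -/

open MeasureTheory Filter Topology
open scoped ENNReal NNReal

namespace SHF

variable {n : ℕ}

/-- `(2πt₁)⁻¹ ∫ e^{-|y|²/t₁} φ(y) dy` -/
noncomputable def cI (t1 : ℝ) (φ : R2 → ℝ) : ℝ≥0∞ :=
  ∫⁻ y, ENNReal.ofReal (1 / (2 * Real.pi * t1) * Real.exp (-‖y‖ ^ 2 / t1)) * ENNReal.ofReal (φ y)

lemma LIn_hk (n : ℕ) {t1 : ℝ} (ht : 0 < t1) (z : XX n) :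
    hk t1 z = ∏ i : Fin n, (1 / (2 * Real.pi * t1) * Real.exp (-‖pt z i‖ ^ 2 / (2 * t1))) := by
  unfold hk
  rw [Finset.prod_mul_distrib, ← Real.exp_sum, Finset.prod_const, norm_sq_pt]
  congr 1
  · simp only [finrank_euclideanSpace, Fintype.card_prod, Fintype.card_fin, Finset.card_univ]
    push_cast
    rw [show -((n : ℝ) * 2) / 2 = -(n : ℝ) by ring, Real.rpow_neg (by positivity),
      Real.rpow_natCast, one_div, inv_pow]
  · congr 1
    rw [← Finset.sum_div, Finset.sum_neg_distrib]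

lemma LIn_le {t1 : ℝ} (ht : 0 < t1) (x y : XX n) :
    Real.exp (-‖x‖ ^ 2 / t1) * ∏ i : Fin n, (1 / (2 * Real.pi * t1) * Real.exp (-‖pt y i‖ ^ 2 / t1))
      ≤ hk t1 (x - y) := by
  unfold hk
  rw [Finset.prod_mul_distrib, ← Real.exp_sum, Finset.prod_const]
  have h1 : (1 / (2 * Real.pi * t1)) ^ (Finset.univ : Finset (Fin n)).card
      = (2 * Real.pi * t1) ^ (-(Module.finrank ℝ (XX n) : ℝ) / 2) := by
    simp only [finrank_euclideanSpace, Fintype.card_prod, Fintype.card_fin, Finset.card_univ]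
    push_cast
    rw [show -((n : ℝ) * 2) / 2 = -(n : ℝ) by ring, Real.rpow_neg (by positivity),
      Real.rpow_natCast, one_div, inv_pow]
  rw [h1]
  have h2 : ∑ i : Fin n, -‖pt y i‖ ^ 2 / t1 = -‖y‖ ^ 2 / t1 := by
    rw [← Finset.sum_div, Finset.sum_neg_distrib, norm_sq_pt]
  rw [h2]
  have h3 : Real.exp (-‖x‖ ^ 2 / t1) * Real.exp (-‖y‖ ^ 2 / t1)
      ≤ Real.exp (-‖x - y‖ ^ 2 / (2 * t1)) := by
    rw [← Real.exp_add]
    apply Real.exp_le_exp.mpr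
    rw [← add_div, div_le_div_iff₀ ht (by positivity)]
    have h4 : ‖x - y‖ ^ 2 + ‖x + y‖ ^ 2 = 2 * (‖x‖ ^ 2 + ‖y‖ ^ 2) := by
      have := parallelogram_law_with_norm ℝ x y
      nlinarith [this]
    nlinarith [sq_nonneg ‖x + y‖, mul_nonneg ht.le (sq_nonneg ‖x + y‖)]
  calc Real.exp (-‖x‖ ^ 2 / t1)
        * ((2 * Real.pi * t1) ^ (-(Module.finrank ℝ (XX n) : ℝ) / 2) * Real.exp (-‖y‖ ^ 2 / t1))
      = (2 * Real.pi * t1) ^ (-(Module.finrank ℝ (XX n) : ℝ) / 2)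
        * (Real.exp (-‖x‖ ^ 2 / t1) * Real.exp (-‖y‖ ^ 2 / t1)) := by ring
    _ ≤ _ := mul_le_mul_of_nonneg_left h3 (by positivity)

/-- `P_{t₁} Φ ≥ cI^n G`: `|x - y|² ≤ 2|x|² + 2|y|²`, `lint_tens`, `e^{-|x|²/t₁} ≥ e^{-|x|²/(2w)}` -/
theorem init_le {t1 w : ℝ} (ht : 0 < t1) (hw : 0 < w) (hwt : w ≤ t1 / 2) {φ : R2 → ℝ}
    (hφ : Measurable φ) (x : XX n) :
    (cI t1 φ) ^ n * Ga w x ≤ PE t1 (tens φ) x := by
  have hm : Measurable (fun y : R2 => ENNReal.ofReal (1 / (2 * Real.pi * t1)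
      * Real.exp (-‖y‖ ^ 2 / t1)) * ENNReal.ofReal (φ y)) := by
    have h1 : Measurable (fun y : R2 => ENNReal.ofReal (1 / (2 * Real.pi * t1)
      * Real.exp (-‖y‖ ^ 2 / t1))) := by fun_prop
    have h2 : Measurable (fun y : R2 => ENNReal.ofReal (φ y)) := hφ.ennreal_ofReal
    exact h1.mul h2
  have h1 := lint_tens (n := n) (F := fun _ y => ENNReal.ofReal (1 / (2 * Real.pi * t1)
      * Real.exp (-‖y‖ ^ 2 / t1)) * ENNReal.ofReal (φ y)) (fun _ => hm)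
  have h2 : (cI t1 φ) ^ n = ∫⁻ y : XX n, ∏ i, (ENNReal.ofReal (1 / (2 * Real.pi * t1)
      * Real.exp (-‖pt y i‖ ^ 2 / t1)) * ENNReal.ofReal (φ (pt y i))) := by
    rw [h1, Finset.prod_const, Finset.card_univ, Fintype.card_fin]
    rfl
  have h3 : Ga w x ≤ ENNReal.ofReal (Real.exp (-‖x‖ ^ 2 / t1)) := by
    unfold Ga
    apply ENNReal.ofReal_le_ofReal
    apply Real.exp_le_exp.mpr
    rw [div_le_div_iff₀ (by positivity) ht]
    nlinarith [mul_nonneg (sq_nonneg ‖x‖) (by linarith : 0 ≤ t1 - 2 * w)]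
  calc (cI t1 φ) ^ n * Ga w x ≤ (cI t1 φ) ^ n * ENNReal.ofReal (Real.exp (-‖x‖ ^ 2 / t1)) := by
        gcongr
    _ = ENNReal.ofReal (Real.exp (-‖x‖ ^ 2 / t1)) * ∫⁻ y : XX n, ∏ i, (ENNReal.ofReal (1 / (2 * Real.pi * t1)
      * Real.exp (-‖pt y i‖ ^ 2 / t1)) * ENNReal.ofReal (φ (pt y i))) := by
        rw [h2, mul_comm]
    _ ≤ ∫⁻ y : XX n, ENNReal.ofReal (Real.exp (-‖x‖ ^ 2 / t1)) * ∏ i, (ENNReal.ofReal (1 / (2 * Real.pi * t1)
      * Real.exp (-‖pt y i‖ ^ 2 / t1)) * ENNReal.ofReal (φ (pt y i))) :=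
        lintegral_const_mul_le _ _
    _ ≤ PE t1 (tens φ) x := by
        unfold PE
        apply lintegral_mono
        intro y
        dsimp only
        rw [Finset.prod_mul_distrib, ← mul_assoc]
        unfold tens
        gcongr
        rw [← ENNReal.ofReal_prod_of_nonneg (fun i _ => by positivity), ← ENNReal.ofReal_mul (by positivity)]
        exact ENNReal.ofReal_le_ofReal (LIn_le ht x y)

end SHF
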