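import Pool.Agent.W_03a799_h55.LDu
import Pool.Agent.W_03a799_h55.LGa

/-! Near-diagonal lower bound from a discrete Volterra inequality. -/

open MeasureTheory Filter Topology
open scoped ENNReal NNReal

namespace SHF

variable {n : ℕ}

/-- the kernel `f(u) = (4πu)⁻¹ e^{-a²/u}` -/
noncomputable def fk (a u : ℝ) : ℝ := 1 / (4 * Real.pi * u) * Real.exp (-(a ^ 2 / u))

/-- `U` is a subsolution up to time `M` -/
def Volt (τ b a w : ℝ) (M : ℕ) (U : ℕ → ℝ) : Prop :=
  (∀ l, 0 ≤ U l) ∧ ∀ l ≤ M, U l ≤ 1 + ∑ i ∈ Finset.range l,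
    τ * b * Real.exp (-(a ^ 2 / w)) * fk a ((i + 1) * τ) * U (l - 1 - i)

lemma LNd_mulm {E : Type*} [MeasurableSpace E] {f g : E → ℝ≥0∞} (hf : Measurable f)
    (hg : Measurable g) : Measurable (fun y => f y * g y) := hf.mul hg

lemma LNd_R_meas {R : R2 → ℝ} {a : ℝ} (hR : Cov R a) (p : Fin n × Fin n) :
    Measurable (fun y : XX n => ENNReal.ofReal (R (df p y))) :=
  (hR.meas.comp (continuous_df p).measurable).ennreal_ofReal

lemma LNd_r_meas {R : R2 → ℝ} {a : ℝ} (hR : Cov R a) (τ b : ℝ) (p : Fin n × Fin n) :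
    Measurable (fun y : XX n => ENNReal.ofReal (τ * b * R (df p y))) :=
  ((hR.meas.comp (continuous_df p).measurable).const_mul (τ * b)).ennreal_ofReal

/-- the integrand of one term of `Dn_sum` -/
lemma LNd_point {R : R2 → ℝ} {a : ℝ} (hR : Cov R a) {τ b w : ℝ} (hτ : 0 < τ) (hb : 0 ≤ b)
    {p : Fin n × Fin n} {u : ℝ} {S : XX n → ℝ≥0∞}
    (ih : ∀ y : XX n, ‖df p y‖ ≤ a → ENNReal.ofReal u * Ga w y ≤ S y) (y : XX n) :
    ENNReal.ofReal (τ * b * u) * (ENNReal.ofReal (R (df p y)) * Ga w y)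
      ≤ ENNReal.ofReal (τ * b * R (df p y)) * S y := by
  by_cases hy : ‖df p y‖ ≤ a
  · have h1 : ENNReal.ofReal (τ * b * u) = ENNReal.ofReal (τ * b) * ENNReal.ofReal u :=
      ENNReal.ofReal_mul (by positivity)
    have h2 : ENNReal.ofReal (τ * b * R (df p y)) =
        ENNReal.ofReal (τ * b) * ENNReal.ofReal (R (df p y)) :=
      ENNReal.ofReal_mul (by positivity)
    rw [h1, h2]
    calc ENNReal.ofReal (τ * b) * ENNReal.ofReal u * (ENNReal.ofReal (R (df p y)) * Ga w y)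
        = ENNReal.ofReal (τ * b) * ENNReal.ofReal (R (df p y)) * (ENNReal.ofReal u * Ga w y) := by
          ring
      _ ≤ _ := mul_le_mul_right (ih y hy) _
  · rw [hR.supp _ (not_le.1 hy)]
    simp

/-- `(P_τ)^l G ≥ e^{-nlτ/w} G` -/
lemma LNd_iter_Ga {τ w : ℝ} (hτ : 0 < τ) (hw : 0 < w) (l : ℕ) (x : XX n) :
    ENNReal.ofReal (Real.exp (-(n * (l * τ) / w))) * Ga w x ≤ (PE τ)^[l] (Ga w) x := by
  rcases l with _ | l
  · simp
  · rw [PE_iterate hτ (Ga_meas w) l]
    have h1 := PE_Ga (n := n) (u := ((l : ℝ) + 1) * τ) (w := w) (by positivity) hw x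
    refine le_trans (le_of_eq ?_) h1
    push_cast
    rfl

/-- strong induction on `l`: `Dn_sum`, `PE_iterate`, `PE_Ga`, `PE_R_Ga`; on the support of
`R (df p y)` the induction hypothesis applies -/
theorem near_diag {R : R2 → ℝ} {a : ℝ} (hR : Cov R a) {τ b w : ℝ} (hτ : 0 < τ) (hb : 0 ≤ b)
    (hw : 0 < w) {p : Fin n × Fin n} (hp : p.1 ≠ p.2) {M : ℕ} {U : ℕ → ℝ}
    (hU : Volt τ b a w M U) {l : ℕ} (hl : l ≤ M) {x : XX n} (hx : ‖df p x‖ ≤ a) :
    ENNReal.ofReal (U l * Real.exp (-(n * (l * τ) / w))) * Ga w x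
      ≤ (PE τ)^[l] (Ga w) x
        + Dn τ (fun y => ENNReal.ofReal (τ * b * R (df p y))) (Ga w) l x := by
  induction l using Nat.strong_induction_on generalizing x with
  | _ l ih =>
    set r : XX n → ℝ≥0∞ := fun y => ENNReal.ofReal (τ * b * R (df p y)) with hr
    have hrm : Measurable r := LNd_r_meas hR τ b p
    have hGm : Measurable (Ga w : XX n → ℝ≥0∞) := Ga_meas w
    set e : ℝ := Real.exp (-(n * (l * τ) / w)) with he
    have he0 : 0 < e := Real.exp_pos _
    -- one term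
    have hterm : ∀ i ∈ Finset.range l,
        ENNReal.ofReal (e * (τ * b * Real.exp (-(a ^ 2 / w)) * fk a ((i + 1) * τ) *
          U (l - 1 - i))) * Ga w x ≤
        (PE τ)^[i + 1] (fun y => r y * ((PE τ)^[l - 1 - i] (Ga w) y +
          Dn τ r (Ga w) (l - 1 - i) y)) x := by
      intro i hi
      have hi' : i < l := Finset.mem_range.1 hi
      set l' : ℕ := l - 1 - i with hl'
      have hl'l : l' < l := by omega
      have hll : (l : ℝ) = (l' : ℝ) + ((i : ℝ) + 1) := by
        have : l = l' + (i + 1) := by omega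
        rw [this]
        push_cast
        ring
      set e' : ℝ := Real.exp (-(n * (l' * τ) / w)) with he'
      have he'0 : 0 < e' := Real.exp_pos _
      have hU0 : 0 ≤ U l' := hU.1 l'
      have hSm : Measurable (fun y => (PE τ)^[l'] (Ga w) y + Dn τ r (Ga w) l' y) :=
        (PE_iter_meas τ hGm l').add (Dn_meas τ hrm hGm l')
      have hpt : ∀ y : XX n, ENNReal.ofReal (τ * b * (U l' * e')) *
          (ENNReal.ofReal (R (df p y)) * Ga w y) ≤
          r y * ((PE τ)^[l'] (Ga w) y + Dn τ r (Ga w) l' y) :=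
        fun y => LNd_point hR hτ hb
          (fun y hy => ih l' hl'l (by omega) hy) y
      have hu : 0 < ((i : ℝ) + 1) * τ := by positivity
      rw [PE_iterate hτ (LNd_mulm hrm hSm) i]
      refine le_trans ?_ (PE_mono _ hpt x)
      rw [PE_const_mul _ (LNd_mulm (LNd_R_meas hR p) hGm)]
      have h1 := PE_R_Ga hR hu hw hp hx
      refine le_trans (le_of_eq ?_) (mul_le_mul_right h1 _)
      rw [← mul_assoc (ENNReal.ofReal (τ * b * (U l' * e'))),
        ← ENNReal.ofReal_mul (by positivity)]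
      congr 2
      have h2 : e = e' * Real.exp (-(n * (((i : ℝ) + 1) * τ) / w)) := by
        rw [he, he', ← Real.exp_add, hll]
        congr 1
        ring
      rw [h2, fk]
      ring
    have h1 : U l * e ≤ e + ∑ i ∈ Finset.range l,
        e * (τ * b * Real.exp (-(a ^ 2 / w)) * fk a ((i + 1) * τ) * U (l - 1 - i)) := by
      rw [← Finset.mul_sum]
      have h2 := mul_le_mul_of_nonneg_left (hU.2 l hl) he0.le
      linarith
    have hnn : ∀ i ∈ Finset.range l,
        0 ≤ e * (τ * b * Real.exp (-(a ^ 2 / w)) * fk a ((i + 1) * τ) * U (l - 1 - i)) := by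
      intro i _
      have h3 : 0 ≤ fk a ((i + 1) * τ) := by
        unfold fk
        positivity
      have h4 : 0 ≤ U (l - 1 - i) := hU.1 _
      positivity
    rw [Dn_sum τ hrm hGm l x]
    calc ENNReal.ofReal (U l * e) * Ga w x
        ≤ ENNReal.ofReal (e + ∑ i ∈ Finset.range l,
          e * (τ * b * Real.exp (-(a ^ 2 / w)) * fk a ((i + 1) * τ) * U (l - 1 - i))) *
          Ga w x := mul_le_mul_left (ENNReal.ofReal_le_ofReal h1) _
      _ = ENNReal.ofReal e * Ga w x + ∑ i ∈ Finset.range l,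
          ENNReal.ofReal (e * (τ * b * Real.exp (-(a ^ 2 / w)) * fk a ((i + 1) * τ) *
            U (l - 1 - i))) * Ga w x := by
          rw [ENNReal.ofReal_add he0.le (Finset.sum_nonneg hnn),
            ENNReal.ofReal_sum_of_nonneg hnn, add_mul, Finset.sum_mul]
      _ ≤ _ := add_le_add (LNd_iter_Ga hτ hw l x) (Finset.sum_le_sum hterm)

/-- `∫ G D_k ≥ e^{-nkτ/w} τ b (∑_{i<k} U_i) (2πw)⁻¹ e^{-a²/(2w)} ∫ G²`:
`Dn_sum`, `PE_symm`, `PE_Ga`, `near_diag`, `int_R_Ga` -/
theorem int_Dn {R : R2 → ℝ} {a : ℝ} (hR : Cov R a) {τ b w : ℝ} (hτ : 0 < τ) (hb : 0 ≤ b)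
    (hw : 0 < w) {p : Fin n × Fin n} (hp : p.1 ≠ p.2) {M : ℕ} {U : ℕ → ℝ}
    (hU : Volt τ b a w M U) {k : ℕ} (hk : k ≤ M) :
    ENNReal.ofReal (Real.exp (-(n * (k * τ) / w)) * (τ * b * ∑ i ∈ Finset.range k, U i)
        * (1 / (2 * Real.pi * w) * Real.exp (-(a ^ 2 / (2 * w))))) * ∫⁻ x : XX n, (Ga w x) ^ 2
      ≤ ∫⁻ x : XX n, Ga w x
        * Dn τ (fun y => ENNReal.ofReal (τ * b * R (df p y))) (Ga w) k x := by
  set r : XX n → ℝ≥0∞ := fun y => ENNReal.ofReal (τ * b * R (df p y)) with hr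
  have hrm : Measurable r := LNd_r_meas hR τ b p
  have hGm : Measurable (Ga w : XX n → ℝ≥0∞) := Ga_meas w
  set e : ℝ := Real.exp (-(n * (k * τ) / w)) with he
  have he0 : 0 < e := Real.exp_pos _
  set q : ℝ := 1 / (2 * Real.pi * w) * Real.exp (-(a ^ 2 / (2 * w))) with hq
  have hq0 : 0 ≤ q := by positivity
  set J : ℝ≥0∞ := ∫⁻ x : XX n, (Ga w x) ^ 2 with hJ
  have hSm : ∀ l', Measurable (fun y => (PE τ)^[l'] (Ga w : XX n → ℝ≥0∞) y +
      Dn τ r (Ga w) l' y) := fun l' =>
    (PE_iter_meas τ hGm l').add (Dn_meas τ hrm hGm l')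
  have hTm : ∀ i l', Measurable ((PE τ)^[i] (fun y => r y * ((PE τ)^[l'] (Ga w) y +
      Dn τ r (Ga w) l' y))) := fun i l' => PE_iter_meas τ (LNd_mulm hrm (hSm l')) i
  have hterm : ∀ i ∈ Finset.range k,
      ENNReal.ofReal (e * (τ * b * U (k - 1 - i)) * q) * J ≤
      ∫⁻ x : XX n, Ga w x * (PE τ)^[i + 1] (fun y => r y * ((PE τ)^[k - 1 - i] (Ga w) y +
          Dn τ r (Ga w) (k - 1 - i) y)) x := by
    intro i hi
    have hi' : i < k := Finset.mem_range.1 hi
    set l' : ℕ := k - 1 - i with hl'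
    have hll : (k : ℝ) = (l' : ℝ) + ((i : ℝ) + 1) := by
      have : k = l' + (i + 1) := by omega
      rw [this]
      push_cast
      ring
    set e' : ℝ := Real.exp (-(n * (l' * τ) / w)) with he'
    have he'0 : 0 < e' := Real.exp_pos _
    have hU0 : 0 ≤ U l' := hU.1 l'
    have hu : 0 < ((i : ℝ) + 1) * τ := by positivity
    set e'' : ℝ := Real.exp (-(n * (((i : ℝ) + 1) * τ) / w)) with he''
    have he''0 : 0 < e'' := Real.exp_pos _
    have h2 : e = e' * e'' := by
      rw [he, he', he'', ← Real.exp_add, hll]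
      congr 1
      ring
    have hpt : ∀ y : XX n, ENNReal.ofReal (τ * b * (U l' * e')) *
        (ENNReal.ofReal (R (df p y)) * Ga w y) ≤
        r y * ((PE τ)^[l'] (Ga w) y + Dn τ r (Ga w) l' y) :=
      fun y => LNd_point hR hτ hb
        (fun y hy => near_diag hR hτ hb hw hp hU (l := l') (by omega) hy) y
    rw [PE_iterate hτ (LNd_mulm hrm (hSm l')) i, PE_symm _ hGm (LNd_mulm hrm (hSm l'))]
    calc ENNReal.ofReal (e * (τ * b * U l') * q) * J
        = ENNReal.ofReal e'' * (ENNReal.ofReal (τ * b * (U l' * e')) *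
          (ENNReal.ofReal q * J)) := by
          rw [← mul_assoc (ENNReal.ofReal (τ * b * (U l' * e'))),
            ← ENNReal.ofReal_mul (by positivity), ← mul_assoc (ENNReal.ofReal e''),
            ← ENNReal.ofReal_mul he''0.le]
          congr 2
          rw [h2]
          ring
      _ ≤ ENNReal.ofReal e'' * (ENNReal.ofReal (τ * b * (U l' * e')) *
          ∫⁻ x : XX n, ENNReal.ofReal (R (df p x)) * (Ga w x) ^ 2) := by
          gcongr
          exact int_R_Ga hR hw hp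
      _ = ∫⁻ x : XX n, (ENNReal.ofReal e'' * Ga w x) *
          (ENNReal.ofReal (τ * b * (U l' * e')) * (ENNReal.ofReal (R (df p x)) * Ga w x)) := by
          have hm1 : Measurable (fun x : XX n => ENNReal.ofReal (R (df p x)) * (Ga w x) ^ 2) :=
            LNd_mulm (LNd_R_meas hR p) (hGm.pow_const 2)
          rw [← lintegral_const_mul _ hm1, ← lintegral_const_mul _ (hm1.const_mul _)]
          refine lintegral_congr fun x => ?_
          ring
      _ ≤ _ := by
          refine lintegral_mono fun x => ?_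
          have h3 : ENNReal.ofReal e'' * Ga w x ≤ PE (((i : ℝ) + 1) * τ) (Ga w) x :=
            PE_Ga hu hw x
          exact mul_le_mul' h3 (hpt x)
  have h1 : ∫⁻ x : XX n, Ga w x * Dn τ r (Ga w) k x = ∑ i ∈ Finset.range k,
      ∫⁻ x : XX n, Ga w x * (PE τ)^[i + 1] (fun y => r y * ((PE τ)^[k - 1 - i] (Ga w) y +
          Dn τ r (Ga w) (k - 1 - i) y)) x := by
    rw [← lintegral_finsetSum _ fun i _ => LNd_mulm hGm (hTm (i + 1) (k - 1 - i))]
    refine lintegral_congr fun x => ?_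
    rw [Dn_sum τ hrm hGm k x, Finset.mul_sum]
  rw [h1]
  refine le_trans (le_of_eq ?_) (Finset.sum_le_sum hterm)
  rw [← Finset.sum_mul, ← ENNReal.ofReal_sum_of_nonneg]
  · congr 2
    rw [← Finset.sum_mul]
    congr 1
    rw [← Finset.mul_sum, ← Finset.mul_sum, Finset.sum_range_reflect U k]
  · intro i _
    have h4 : 0 ≤ U (k - 1 - i) := hU.1 _
    positivity

end SHF
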