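import Pool.Agent.W_03a799_h55.Geo
import Pool.Agent.W_03a799_h55.Heat

/-! Push-forward of an isotropic Gaussian under `x ↦ x_i - x_j`. -/

open MeasureTheory Filter Topology
open scoped ENNReal NNReal

namespace SHF

variable {n : ℕ}

lemma norm_es_sq {p : Fin n × Fin n} (hp : p.1 ≠ p.2) (k : R2) :
    ‖(es p k : XX n)‖ ^ 2 = 2 * ‖k‖ ^ 2 := by
  have h1 := inner_es hp k (es p k)
  rw [real_inner_self_eq_norm_sq, df_es hp, inner_smul_right, real_inner_self_eq_norm_sq] at h1
  exact h1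

lemma LPf_meas {E : Type*} [NormedAddCommGroup E] [InnerProductSpace ℝ E]
    [FiniteDimensional ℝ E] [MeasurableSpace E] [BorelSpace E] (v : ℝ) (m0 : E) :
    Measurable fun x : E => ENNReal.ofReal (hk v (x - m0)) :=
  (ENNReal.continuous_ofReal.comp ((hk_cont v).comp (continuous_id.sub continuous_const))).measurable

lemma LPf_fin {E : Type*} [NormedAddCommGroup E] [InnerProductSpace ℝ E]
    [FiniteDimensional ℝ E] [MeasurableSpace E] [BorelSpace E] {v : ℝ} (hv : 0 < v) (m0 : E) :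
    IsFiniteMeasure
      ((volume : Measure E).withDensity (fun x => ENNReal.ofReal (hk v (x - m0)))) := by
  refine isFiniteMeasure_withDensity ?_
  rw [lintegral_sub_right_eq_self (fun z : E => ENNReal.ofReal (hk v z)), hk_lint hv]
  exact ENNReal.one_ne_top

lemma LPf_pre {v : ℝ} (hv : 0 < v) (d : ℕ) :
    (((2 * Real.pi * v) ^ (-(d : ℝ) / 2) : ℝ) : ℂ) *
      ((Real.pi : ℂ) / (((2 * v)⁻¹ : ℝ) : ℂ)) ^ ((d : ℂ) / 2) = 1 := by
  have h1 : (Real.pi : ℂ) / (((2 * v)⁻¹ : ℝ) : ℂ) = ((2 * Real.pi * v : ℝ) : ℂ) := by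
    rw [← Complex.ofReal_div, div_inv_eq_mul]
    congr 1
    ring
  have h2 : ((d : ℂ) / 2) = (((d : ℝ) / 2 : ℝ) : ℂ) := by
    push_cast
    rfl
  rw [h1, h2, ← Complex.ofReal_cpow (by positivity), ← Complex.ofReal_mul,
    ← Real.rpow_add (by positivity)]
  have h5 : -(d : ℝ) / 2 + (d : ℝ) / 2 = 0 := by ring
  rw [h5, Real.rpow_zero, Complex.ofReal_one]

/-- characteristic function of the Gaussian density -/
lemma hk_charFun {E : Type*} [NormedAddCommGroup E] [InnerProductSpace ℝ E]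
    [FiniteDimensional ℝ E] [MeasurableSpace E] [BorelSpace E] {v : ℝ} (hv : 0 < v) (m0 t : E) :
    charFun ((volume : Measure E).withDensity (fun x => ENNReal.ofReal (hk v (x - m0)))) t
      = Complex.exp ((inner ℝ t m0 : ℝ) * Complex.I - (v * ‖t‖ ^ 2 / 2 : ℝ)) := by
  rw [charFun_apply, integral_withDensity_eq_integral_toReal_smul (LPf_meas v m0)
    (Filter.Eventually.of_forall fun x => ENNReal.ofReal_lt_top)]
  have h1 : (∫ x : E, (ENNReal.ofReal (hk v (x - m0))).toReal •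
      Complex.exp ((inner ℝ x t : ℝ) * Complex.I)) =
      ∫ x : E, (fun z : E => (hk v z : ℂ) *
        Complex.exp ((inner ℝ (z + m0) t : ℝ) * Complex.I)) (x - m0) := by
    refine integral_congr_ae (Filter.Eventually.of_forall fun x => ?_)
    beta_reduce
    rw [ENNReal.toReal_ofReal (hk_pos hv _).le, sub_add_cancel, Complex.real_smul]
  rw [h1, integral_sub_right_eq_self (fun z : E => (hk v z : ℂ) *
        Complex.exp ((inner ℝ (z + m0) t : ℝ) * Complex.I)) m0]
  have h2 : ∀ z : E, (hk v z : ℂ) * Complex.exp ((inner ℝ (z + m0) t : ℝ) * Complex.I) =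
      ((((2 * Real.pi * v) ^ (-(Module.finrank ℝ E : ℝ) / 2) : ℝ) : ℂ) *
        Complex.exp ((inner ℝ t m0 : ℝ) * Complex.I)) *
        Complex.exp (-(((2 * v)⁻¹ : ℝ) : ℂ) * (‖z‖ : ℂ) ^ 2 +
          Complex.I * ((inner ℝ t z : ℝ) : ℂ)) := by
    intro z
    unfold hk
    have h3 : ((Real.exp (-‖z‖ ^ 2 / (2 * v)) : ℝ) : ℂ) *
        Complex.exp ((inner ℝ (z + m0) t : ℝ) * Complex.I) =
        Complex.exp ((inner ℝ t m0 : ℝ) * Complex.I) *
        Complex.exp (-(((2 * v)⁻¹ : ℝ) : ℂ) * (‖z‖ : ℂ) ^ 2 +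
          Complex.I * ((inner ℝ t z : ℝ) : ℂ)) := by
      rw [Complex.ofReal_exp, ← Complex.exp_add, ← Complex.exp_add]
      congr 1
      rw [inner_add_left, real_inner_comm z t, real_inner_comm m0 t]
      push_cast
      ring
    rw [Complex.ofReal_mul, mul_assoc, h3]
    ring
  simp only [h2]
  rw [integral_const_mul, GaussianFourier.integral_cexp_neg_mul_sq_norm_add
    (by rw [Complex.ofReal_re]; positivity)]
  have h3 := LPf_pre hv (Module.finrank ℝ E)
  have h4 : Complex.I ^ 2 * (‖t‖ : ℂ) ^ 2 / (4 * (((2 * v)⁻¹ : ℝ) : ℂ)) =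
      -((v * ‖t‖ ^ 2 / 2 : ℝ) : ℂ) := by
    rw [Complex.I_sq]
    push_cast
    have hv' : (v : ℂ) ≠ 0 := by exact_mod_cast hv.ne'
    field_simp
    ring
  rw [h4, sub_eq_add_neg, Complex.exp_add]
  calc _ = ((((2 * Real.pi * v) ^ (-(Module.finrank ℝ E : ℝ) / 2) : ℝ) : ℂ) *
      ((Real.pi : ℂ) / (((2 * v)⁻¹ : ℝ) : ℂ)) ^ ((Module.finrank ℝ E : ℂ) / 2)) *
      (Complex.exp ((inner ℝ t m0 : ℝ) * Complex.I) *
        Complex.exp (-((v * ‖t‖ ^ 2 / 2 : ℝ) : ℂ))) := by ring
    _ = _ := by rw [h3, one_mul]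

/-- the law `N(m0, v)` on `XX n` is pushed by `df p` to `N(df p m0, 2v)` on the plane
(compare characteristic functions: `⟨k, df p x⟩ = ⟨es p k, x⟩`, `‖es p k‖² = 2‖k‖²`) -/
theorem pf {v : ℝ} (hv : 0 < v) {p : Fin n × Fin n} (hp : p.1 ≠ p.2) (m0 : XX n)
    {F : R2 → ℝ≥0∞} (hF : Measurable F) :
    ∫⁻ x : XX n, ENNReal.ofReal (hk v (x - m0)) * F (df p x)
      = ∫⁻ z, ENNReal.ofReal (hk (2 * v) (z - df p m0)) * F z := by
  haveI hf1 := LPf_fin hv m0
  haveI hf2 := LPf_fin (E := R2) (v := 2 * v) (by positivity) (df p m0)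
  have hm : Measurable (df p : XX n → R2) := (continuous_df p).measurable
  have h1 : ((volume : Measure (XX n)).withDensity
      (fun x => ENNReal.ofReal (hk v (x - m0)))).map (df p) =
      (volume : Measure R2).withDensity (fun x => ENNReal.ofReal (hk (2 * v) (x - df p m0))) := by
    refine Measure.ext_of_charFun ?_
    funext k
    rw [hk_charFun (by positivity), charFun_apply, integral_map hm.aemeasurable]
    · have h2 : ∀ x : XX n, (inner ℝ (df p x) k : ℝ) = inner ℝ x (es p k) := by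
        intro x
        rw [real_inner_comm, ← inner_es hp, real_inner_comm]
      simp only [h2]
      rw [← charFun_apply, hk_charFun hv, norm_es_sq hp, inner_es hp]
      congr 3
      ring
    · exact (by fun_prop : Continuous fun y : R2 =>
        Complex.exp ((inner ℝ y k : ℝ) * Complex.I)).aestronglyMeasurable
  have h3 := lintegral_withDensity_eq_lintegral_mul (volume : Measure (XX n)) (LPf_meas v m0)
    (hF.comp hm)
  have h4 := lintegral_withDensity_eq_lintegral_mul (volume : Measure R2)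
    (LPf_meas (2 * v) (df p m0)) hF
  have h5 := lintegral_map (μ := (volume : Measure (XX n)).withDensity
      (fun x => ENNReal.ofReal (hk v (x - m0)))) hF hm
  rw [h1, h4] at h5
  calc _ = ∫⁻ x, (F ∘ df p) x ∂((volume : Measure (XX n)).withDensity
      (fun x => ENNReal.ofReal (hk v (x - m0)))) := h3.symm
    _ = _ := h5.symm

end SHF
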