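import Pool.Agent.W_03a799_h55.LIn
import Pool.Agent.W_03a799_h55.LDb

/-! Reduction of the moment to Gaussian test functions. -/

open MeasureTheory Filter Topology
open scoped ENNReal NNReal

namespace SHF

variable {n : ℕ}

lemma LPre_const {E : Type*} [NormedAddCommGroup E] [InnerProductSpace ℝ E]
    [FiniteDimensional ℝ E] [MeasurableSpace E] [BorelSpace E] {τ : ℝ} {V : E → ℝ}
    (hV : Measurable V) {g : E → ℝ≥0∞} (hg : Measurable g) (c : ℝ≥0∞) (m : ℕ) (x : E) :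
    (KT τ V)^[m] (fun y => c * g y) x = c * (KT τ V)^[m] g x := by
  induction m generalizing x with
  | zero => rfl
  | succ m ih =>
    rw [Function.iterate_succ_apply', Function.iterate_succ_apply']
    have h1 : (KT τ V)^[m] (fun y => c * g y) = fun y => c * (KT τ V)^[m] g y := funext ih
    rw [h1]
    unfold KT
    have h2 : (fun y => ENNReal.ofReal (Real.exp (τ * V y)) * (c * (KT τ V)^[m] g y)) =
        fun y => c * (ENNReal.ofReal (Real.exp (τ * V y)) * (KT τ V)^[m] g y) := by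
      funext y
      ring
    have h3 : Measurable fun y => ENNReal.ofReal (Real.exp (τ * V y)) * (KT τ V)^[m] g y :=
      (Trot_wm hV).mul (KT_iter_meas hV hg m)
    have h4 := PE_const_mul τ h3 c x
    unfold KT at h2 h4
    rw [h2]
    exact h4

lemma LPre_PE {E : Type*} [NormedAddCommGroup E] [InnerProductSpace ℝ E]
    [FiniteDimensional ℝ E] [MeasurableSpace E] [BorelSpace E] {τ : ℝ} (hτ : 0 < τ)
    {g : E → ℝ≥0∞} (hg : Measurable g) {m : ℕ} (hm : 1 ≤ m) :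
    (PE τ)^[m] g = PE (m * τ) g := by
  obtain ⟨k, rfl⟩ : ∃ k, m = k + 1 := ⟨m - 1, by omega⟩
  rw [PE_iterate hτ hg]
  push_cast
  rfl

/-- `K^{4m₁} Ψ ≥ P^{m₁} K^{2m₁} P^{m₁} Ψ`, symmetry of `P`, `init_le`, `K ≥ e^{-τv/2} B` -/
theorem lower_pre {V : XX n → ℝ} (hV : Measurable V) (hV0 : ∀ x, 0 ≤ V x) {v : ℝ}
    (hv : ∀ x, V x ≤ v) {τ w : ℝ} (hτ : 0 < τ) (hw : 0 < w) {m1 : ℕ} (hm : 1 ≤ m1)
    (hwt : w ≤ m1 * τ / 2) {φ ψ : R2 → ℝ} (hφ : Measurable φ) (hψ : Measurable ψ) :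
    (cI (m1 * τ) φ) ^ n * (cI (m1 * τ) ψ) ^ n * ENNReal.ofReal (Real.exp (-(τ * v / 2)))
        * ∫⁻ x, Ga w x * (BT τ V)^[2 * m1] (Ga w) x
      ≤ ∫⁻ x, tens φ x * (KT τ V)^[4 * m1] (tens ψ) x := by
  have ht : 0 < (m1 : ℝ) * τ := by
    have : (1 : ℝ) ≤ m1 := by exact_mod_cast hm
    positivity
  have hΦ : Measurable (tens φ : XX n → ℝ≥0∞) := tens_meas hφ
  have hΨ : Measurable (tens ψ : XX n → ℝ≥0∞) := tens_meas hψ
  have hG : Measurable (Ga w : XX n → ℝ≥0∞) := Ga_meas w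
  obtain ⟨a, ha⟩ : ∃ a, a = (cI (m1 * τ) φ) ^ n := ⟨_, rfl⟩
  obtain ⟨b, hb⟩ : ∃ b, b = (cI (m1 * τ) ψ) ^ n := ⟨_, rfl⟩
  have hK : Measurable ((KT τ V)^[2 * m1] (PE (m1 * τ) (tens ψ))) :=
    KT_iter_meas hV (PE_meas _ hΨ) _
  have h1 : ∀ x, PE (m1 * τ) ((KT τ V)^[2 * m1] (PE (m1 * τ) (tens ψ))) x ≤
      (KT τ V)^[4 * m1] (tens ψ) x := by
    intro x
    have e : 4 * m1 = m1 + (2 * m1 + m1) := by ring
    rw [e, Function.iterate_add_apply, Function.iterate_add_apply]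
    rw [← LPre_PE hτ hK hm]
    refine (PE_le_KT hτ hV0 _ m1 x).trans ?_
    refine KT_iter_mono (fun y => ?_) m1 x
    refine KT_iter_mono (fun z => ?_) (2 * m1) y
    rw [← LPre_PE hτ hΨ hm]
    exact PE_le_KT hτ hV0 _ m1 z
  have h2 : ∀ x, b * (KT τ V)^[2 * m1] (Ga w) x ≤
      (KT τ V)^[2 * m1] (PE (m1 * τ) (tens ψ)) x := by
    intro x
    rw [← LPre_const hV hG]
    refine KT_iter_mono (fun y => ?_) (2 * m1) x
    rw [hb]
    exact init_le ht hw hwt hψ y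
  have h3 : ∀ x, ENNReal.ofReal (Real.exp (-(τ * v / 2))) * (BT τ V)^[2 * m1] (Ga w) x ≤
      (KT τ V)^[2 * m1] (Ga w) x := by
    intro x
    refine (mul_le_mul_right (BT_le_KT hτ hV0 hv (Ga w) (2 * m1) x) _).trans ?_
    rw [← mul_assoc, ← ENNReal.ofReal_mul (Real.exp_pos _).le, ← Real.exp_add, neg_add_cancel,
      Real.exp_zero, ENNReal.ofReal_one, one_mul]
  have hBm : Measurable fun x : XX n => Ga w x * (BT τ V)^[2 * m1] (Ga w) x :=
    hG.mul (BT_meas hV hG _)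
  calc (cI (m1 * τ) φ) ^ n * (cI (m1 * τ) ψ) ^ n * ENNReal.ofReal (Real.exp (-(τ * v / 2)))
        * ∫⁻ x, Ga w x * (BT τ V)^[2 * m1] (Ga w) x
      = ∫⁻ x, (a * Ga w x) * (b * (ENNReal.ofReal (Real.exp (-(τ * v / 2))) *
          (BT τ V)^[2 * m1] (Ga w) x)) := by
        rw [← ha, ← hb, ← lintegral_const_mul _ hBm]
        refine lintegral_congr fun x => ?_
        ring
    _ ≤ ∫⁻ x, PE (m1 * τ) (tens φ) x * (KT τ V)^[2 * m1] (PE (m1 * τ) (tens ψ)) x := by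
        refine lintegral_mono fun x => mul_le_mul' ?_ ?_
        · rw [ha]
          exact init_le ht hw hwt hφ x
        · exact (mul_le_mul_right (h3 x) _).trans (h2 x)
    _ = ∫⁻ x, tens φ x * PE (m1 * τ) ((KT τ V)^[2 * m1] (PE (m1 * τ) (tens ψ))) x :=
        (PE_symm _ hΦ hK).symm
    _ ≤ ∫⁻ x, tens φ x * (KT τ V)^[4 * m1] (tens ψ) x :=
        lintegral_mono fun x => mul_le_mul_right (h1 x) _

end SHF
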