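import Pool.Agent.W_03a799_h55.FibA
import Pool.Agent.W_03a799_h55.WinA

/-! The off-diagonal lemma. -/

open MeasureTheory Filter Topology
open scoped ENNReal

namespace SHF

variable {n : ℕ}

/-- weighted Young inequality in `ℝ≥0∞` -/
lemma young_enn (F G : ℝ≥0∞) {a b s : ℝ} (ha : 0 < a) (hb : 0 < b) (hs : 0 < s) :
    F * G * ENNReal.ofReal s⁻¹ ≤
      (1 / 2) * (ENNReal.ofReal (a / (b * s)) * F ^ 2 + ENNReal.ofReal (b / (a * s)) * G ^ 2) := by
  have h1 : 0 < a / (b * s) := by positivity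
  have h2 : 0 < b / (a * s) := by positivity
  have h1' : ENNReal.ofReal (a / (b * s)) ≠ 0 := (ENNReal.ofReal_pos.2 h1).ne'
  have h2' : ENNReal.ofReal (b / (a * s)) ≠ 0 := (ENNReal.ofReal_pos.2 h2).ne'
  have hhalf : (1 / 2 : ℝ≥0∞) ≠ 0 := by simp
  by_cases hF : F = ∞
  · have e : (1 / 2 : ℝ≥0∞) * (ENNReal.ofReal (a / (b * s)) * F ^ 2
        + ENNReal.ofReal (b / (a * s)) * G ^ 2) = ∞ := by
      rw [hF, ENNReal.top_pow (by norm_num), ENNReal.mul_top h1', top_add, ENNReal.mul_top hhalf]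
    rw [e]
    exact le_top
  by_cases hG : G = ∞
  · have e : (1 / 2 : ℝ≥0∞) * (ENNReal.ofReal (a / (b * s)) * F ^ 2
        + ENNReal.ofReal (b / (a * s)) * G ^ 2) = ∞ := by
      rw [hG, ENNReal.top_pow (by norm_num), ENNReal.mul_top h2', add_top, ENNReal.mul_top hhalf]
    rw [e]
    exact le_top
  obtain ⟨f, hf0, hf⟩ : ∃ f : ℝ, 0 ≤ f ∧ F = ENNReal.ofReal f :=
    ⟨F.toReal, ENNReal.toReal_nonneg, (ENNReal.ofReal_toReal hF).symm⟩
  obtain ⟨g, hg0, hg⟩ : ∃ g : ℝ, 0 ≤ g ∧ G = ENNReal.ofReal g :=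
    ⟨G.toReal, ENNReal.toReal_nonneg, (ENNReal.ofReal_toReal hG).symm⟩
  have hh : (1 / 2 : ℝ≥0∞) = ENNReal.ofReal (1 / 2) := by
    rw [ENNReal.ofReal_div_of_pos (by norm_num)]
    simp
  rw [hf, hg, hh, ← ENNReal.ofReal_pow hf0, ← ENNReal.ofReal_pow hg0,
    ← ENNReal.ofReal_mul hf0, ← ENNReal.ofReal_mul (mul_nonneg hf0 hg0),
    ← ENNReal.ofReal_mul h1.le, ← ENNReal.ofReal_mul h2.le,
    ← ENNReal.ofReal_add (by positivity) (by positivity), ← ENNReal.ofReal_mul (by norm_num)]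
  refine ENNReal.ofReal_le_ofReal ?_
  have key : 1 / 2 * (a / (b * s) * f ^ 2 + b / (a * s) * g ^ 2) - f * g * s⁻¹
      = (a * f - b * g) ^ 2 / (2 * (a * b * s)) := by
    field_simp
    ring
  have : 0 ≤ (a * f - b * g) ^ 2 / (2 * (a * b * s)) := by positivity
  linarith

/-- **off-diagonal lemma**: `∑_{σ≠ν} ∫ F_σ F_ν / s ≤ 72 π n ∑ ∫ θ(q_σ) F_σ²` -/
theorem od {m : ℝ} (hm : 0 < m) (hn : 2 ≤ n) {θ : R2 → ℝ≥0∞} (hθm : Measurable θ)
    (hθ : ∫⁻ k, θ k = 1) {F : Fin n × Fin n → XX n → ℝ≥0∞}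
    (hF : ∀ p ∈ prs n, Measurable (F p))
    (hinv : ∀ p ∈ prs n, ∀ x k, F p (x + es p k) = F p x) :
    ∑ p ∈ prs n, ∑ q ∈ (prs n).erase p, ∫⁻ x, F p x * F q x * ENNReal.ofReal (ss m x)⁻¹
      ≤ ENNReal.ofReal (72 * Real.pi * n) * ∑ p ∈ prs n, ∫⁻ x, θ (qq p x) * (F p x) ^ 2 := by
  have hT : ∀ p ∈ prs n, ∀ q ∈ prs n, Measurable
      (fun x : XX n => ENNReal.ofReal (aa m p x / (aa m q x * ss m x)) * (F p x) ^ 2) := by
    intro p hp q _
    refine Measurable.mul ?_ ((hF p hp).pow_const 2)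
    exact ((measurable_aa m p).div ((measurable_aa m q).mul (measurable_ss m))).ennreal_ofReal
  -- the pointwise Young inequality
  have h1 : ∀ p ∈ prs n, ∀ q ∈ prs n,
      ∫⁻ x, F p x * F q x * ENNReal.ofReal (ss m x)⁻¹ ≤
        (1 / 2) * ((∫⁻ x, ENNReal.ofReal (aa m p x / (aa m q x * ss m x)) * (F p x) ^ 2)
          + ∫⁻ x, ENNReal.ofReal (aa m q x / (aa m p x * ss m x)) * (F q x) ^ 2) := by
    intro p hp q hq
    have hm2 : Measurable (fun x : XX n =>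
        ENNReal.ofReal (aa m p x / (aa m q x * ss m x)) * (F p x) ^ 2
        + ENNReal.ofReal (aa m q x / (aa m p x * ss m x)) * (F q x) ^ 2) :=
      (hT p hp q hq).add (hT q hq p hp)
    rw [← lintegral_add_left (hT p hp q hq), ← lintegral_const_mul _ hm2]
    exact lintegral_mono fun x => young_enn _ _ (aa_pos hm hp x) (aa_pos hm hq x) (ss_pos hm x)
  have h2 : ∑ p ∈ prs n, ∑ q ∈ (prs n).erase p,
        ∫⁻ x, F p x * F q x * ENNReal.ofReal (ss m x)⁻¹ ≤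
      ∑ p ∈ prs n, ∑ q ∈ (prs n).erase p,
        ∫⁻ x, ENNReal.ofReal (aa m p x / (aa m q x * ss m x)) * (F p x) ^ 2 := by
    calc ∑ p ∈ prs n, ∑ q ∈ (prs n).erase p,
        ∫⁻ x, F p x * F q x * ENNReal.ofReal (ss m x)⁻¹
        ≤ ∑ p ∈ prs n, ∑ q ∈ (prs n).erase p, (1 / 2) *
          ((∫⁻ x, ENNReal.ofReal (aa m p x / (aa m q x * ss m x)) * (F p x) ^ 2)
          + ∫⁻ x, ENNReal.ofReal (aa m q x / (aa m p x * ss m x)) * (F q x) ^ 2) :=
          Finset.sum_le_sum fun p hp => Finset.sum_le_sum fun q hq =>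
            h1 p hp q (Finset.mem_of_mem_erase hq)
      _ = (1 / 2) * (∑ p ∈ prs n, ∑ q ∈ (prs n).erase p,
            ∫⁻ x, ENNReal.ofReal (aa m p x / (aa m q x * ss m x)) * (F p x) ^ 2)
          + (1 / 2) * (∑ p ∈ prs n, ∑ q ∈ (prs n).erase p,
            ∫⁻ x, ENNReal.ofReal (aa m q x / (aa m p x * ss m x)) * (F q x) ^ 2) := by
          simp_rw [← Finset.mul_sum, Finset.sum_add_distrib, mul_add]
      _ = _ := by
          have e : ∑ p ∈ prs n, ∑ q ∈ (prs n).erase p,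
              ∫⁻ x, ENNReal.ofReal (aa m q x / (aa m p x * ss m x)) * (F q x) ^ 2 =
              ∑ p ∈ prs n, ∑ q ∈ (prs n).erase p,
              ∫⁻ x, ENNReal.ofReal (aa m p x / (aa m q x * ss m x)) * (F p x) ^ 2 := by
            refine Finset.sum_comm' ?_
            intro x y
            rw [Finset.mem_erase, Finset.mem_erase]
            tauto
          rw [e, ← add_mul]
          have e2 : (1 / 2 : ℝ≥0∞) + 1 / 2 = 1 := by
            rw [ENNReal.add_halves]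
          rw [e2, one_mul]
  refine h2.trans ?_
  rw [Finset.mul_sum]
  refine Finset.sum_le_sum fun p hp => ?_
  rw [← lintegral_finsetSum _ fun q hq => hT p hp q (Finset.mem_of_mem_erase hq)]
  have e3 : ∀ x : XX n, ∑ q ∈ (prs n).erase p,
      ENNReal.ofReal (aa m p x / (aa m q x * ss m x)) * (F p x) ^ 2 =
      ENNReal.ofReal (WW m p x) * (F p x) ^ 2 := by
    intro x
    rw [← Finset.sum_mul, WW, ENNReal.ofReal_sum_of_nonneg]
    intro q hq
    have := aa_pos hm hp x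
    have := aa_pos hm (Finset.mem_of_mem_erase hq) x
    have := ss_pos hm x
    positivity
  simp_rw [e3]
  refine window_le hθm hθ (ne_of_prs hp) (measurable_WW m p).ennreal_ofReal
    ((hF p hp).pow_const 2) ?_ (fun x => fib_le hm hn hp x)
  intro x k
  rw [hinv p hp x k]

end SHF
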