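import Pool.Agent.W_03a799_h55.DgA
import Pool.Agent.W_03a799_h55.DD
import Pool.Agent.W_03a799_h55.OD

/-! The quadratic form inequality in momentum space. -/

open MeasureTheory Filter Topology
open scoped ENNReal

namespace SHF

variable {n : ℕ}

/-- the kinetic energy plus `λ` in momentum space -/
noncomputable def Sk (lam : ℝ) (x : XX n) : ℝ := 2 * Real.pi ^ 2 * ‖x‖ ^ 2 + lam

/-- `∑_σ ∫ f ζ_σ` -/
noncomputable def AA (ρ : R2 → ℝ) (f : XX n → ℝ≥0∞) : ℝ≥0∞ :=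
  ∑ p ∈ prs n, ∫⁻ x, f x * zt ρ p f x

lemma MSA_Sk_pos {lam : ℝ} (hl : 0 < lam) (x : XX n) : 0 < Sk lam x := by
  unfold Sk
  positivity

lemma MSA_Sk_meas (lam : ℝ) : Measurable (fun x : XX n => Sk lam x) := by
  unfold Sk
  exact (((measurable_norm.pow_const 2).const_mul _).add_const _)

/-- `ρ`-average of `1/S` along a fibre -/
lemma fib_S {ρ : R2 → ℝ} (hρ : PD ρ) {I K lam : ℝ} (hI0 : 0 ≤ I)
    (hI : ∫⁻ k, ENNReal.ofReal (ρ k) ≤ ENNReal.ofReal I) (hK : 0 < K) (hl : 0 < lam)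
    {p : Fin n × Fin n} (hp : p ∈ prs n) (x : XX n) (k : R2) :
    ∫⁻ l, ENNReal.ofReal (ρ (k - l)) * ENNReal.ofReal (Sk lam (x + es p l))⁻¹
      ≤ ENNReal.ofReal (Dc K lam I) := by
  have hne := ne_of_prs hp
  have hmain := DD_le hρ.meas hρ.nonneg hρ.le_one hI0 hI hK hl (qq p x + k)
  have htr := lintegral_add_left_eq_self (μ := (volume : Measure R2))
    (fun l : R2 => ENNReal.ofReal (ρ (qq p x + k - l)) *
      ENNReal.ofReal (4 * Real.pi ^ 2 * ‖l‖ ^ 2 + lam)⁻¹) (qq p x)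
  rw [← htr] at hmain
  refine le_trans (lintegral_mono (fun l => ?_)) hmain
  have h1 : qq p x + k - (qq p x + l) = k - l := by abel
  simp only [h1]
  refine mul_le_mul_right (ENNReal.ofReal_le_ofReal ?_) _
  have h2 := two_qq_le hne (x + es p l)
  rw [qq_add_es hne] at h2
  have h3 : 4 * Real.pi ^ 2 * ‖qq p x + l‖ ^ 2 + lam ≤ Sk lam (x + es p l) := by
    unfold Sk
    nlinarith [Real.pi_pos, sq_nonneg Real.pi]
  exact inv_anti₀ (by positivity) h3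

/-- a probability density on the plane -/
lemma MSA_theta : ∃ θ : R2 → ℝ≥0∞, Measurable θ ∧ ∫⁻ k, θ k = 1 := by
  set B : Set R2 := Metric.ball (0 : R2) 1
  have hB0 : (volume B) ≠ 0 := (Metric.measure_ball_pos volume (0 : R2) one_pos).ne'
  have hBt : (volume B) ≠ ∞ := measure_ball_lt_top.ne
  refine ⟨B.indicator (fun _ => (volume B)⁻¹), measurable_const.indicator measurableSet_ball, ?_⟩
  rw [lintegral_indicator measurableSet_ball, setLIntegral_const]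
  exact ENNReal.inv_mul_cancel hB0 hBt

lemma MSA_Dc_pos {K lam I : ℝ} (hI0 : 0 ≤ I) (hK : 0 < K) (hl : 0 < lam) :
    0 < Dc K lam I := by
  unfold Dc
  have h1 : 0 < Real.log (1 + 4 * Real.pi ^ 2 * K ^ 2 / lam) := by
    apply Real.log_pos
    have : 0 < 4 * Real.pi ^ 2 * K ^ 2 / lam := by positivity
    linarith
  positivity

lemma MSA_Sk_meas' (lam : ℝ) : Measurable (fun x : XX n => ENNReal.ofReal (Sk lam x)⁻¹) :=
  ((MSA_Sk_meas lam).inv).ennreal_ofReal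

lemma MSA_zt_le {ρ : R2 → ℝ} (hρ : PD ρ) (p : Fin n × Fin n) {f : XX n → ℝ≥0∞}
    (hf : Measurable f) (x : XX n) : zt ρ p f x ≤ (FF ρ p f x) ^ ((1 : ℝ) / 2) := by
  have h := zt_sq_le hρ p hf x
  have h2 : ((zt ρ p f x) ^ 2) ^ ((1 : ℝ) / 2) ≤ (FF ρ p f x) ^ ((1 : ℝ) / 2) :=
    ENNReal.rpow_le_rpow h (by norm_num)
  rwa [← ENNReal.rpow_natCast, ← ENNReal.rpow_mul, show ((2 : ℕ) : ℝ) * ((1 : ℝ) / 2) = 1 by
    norm_num, ENNReal.rpow_one] at h2

lemma MSA_half_sq (a : ℝ≥0∞) : (a ^ ((1 : ℝ) / 2)) ^ 2 = a := by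
  rw [← ENNReal.rpow_natCast, ← ENNReal.rpow_mul, show ((1 : ℝ) / 2) * ((2 : ℕ) : ℝ) = 1 by
    norm_num, ENNReal.rpow_one]

lemma MSA_Sk_inv {lam : ℝ} (x : XX n) :
    (Sk lam x)⁻¹ = (2 * Real.pi ^ 2)⁻¹ * (ss (lam / (2 * Real.pi ^ 2)) x)⁻¹ := by
  have hpi : (2 * Real.pi ^ 2) ≠ 0 := by positivity
  rw [← mul_inv]
  congr 1
  unfold Sk ss
  field_simp

/-- `∫ (∑ ζ)² / S ≤ (D + 13 n) ∑ ∫ f ζ` -/
lemma sum_sq_le {ρ : R2 → ℝ} (hρ : PD ρ) {I K lam : ℝ} (hI0 : 0 ≤ I)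
    (hI : ∫⁻ k, ENNReal.ofReal (ρ k) ≤ ENNReal.ofReal I) (hK : 0 < K) (hl : 0 < lam)
    (hn : 2 ≤ n) {f : XX n → ℝ≥0∞} (hf : Measurable f) :
    ∫⁻ x, ENNReal.ofReal (Sk lam x)⁻¹ * (∑ p ∈ prs n, zt ρ p f x) ^ 2
      ≤ ENNReal.ofReal (Dc K lam I + 13 * n) * AA ρ f := by
  obtain ⟨θ, hθm, hθ⟩ := MSA_theta
  set w : XX n → ℝ≥0∞ := fun x => ENNReal.ofReal (Sk lam x)⁻¹ with hw
  have hwm : Measurable w := MSA_Sk_meas' lam
  have hz : ∀ p, Measurable (zt ρ p f) := fun p => zt_meas hρ p hf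
  have hDpos := MSA_Dc_pos hI0 hK hl
  -- expansion of the square
  have hexp : ∀ x : XX n, w x * (∑ p ∈ prs n, zt ρ p f x) ^ 2
      = (∑ p ∈ prs n, w x * (zt ρ p f x) ^ 2)
        + ∑ p ∈ prs n, ∑ q ∈ (prs n).erase p, w x * (zt ρ p f x * zt ρ q f x) := by
    intro x
    rw [sq, Finset.sum_mul_sum, Finset.mul_sum, ← Finset.sum_add_distrib]
    refine Finset.sum_congr rfl (fun p hp => ?_)
    rw [Finset.mul_sum, ← Finset.add_sum_erase _ _ hp, sq]
  have hint : ∫⁻ x, w x * (∑ p ∈ prs n, zt ρ p f x) ^ 2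
      = (∑ p ∈ prs n, ∫⁻ x, w x * (zt ρ p f x) ^ 2)
        + ∑ p ∈ prs n, ∑ q ∈ (prs n).erase p, ∫⁻ x, w x * (zt ρ p f x * zt ρ q f x) := by
    have hm1 : ∀ p ∈ prs n, Measurable (fun x => w x * (zt ρ p f x) ^ 2) :=
      fun p _ => hwm.mul ((hz p).pow_const 2)
    have hm2 : ∀ p ∈ prs n, ∀ q ∈ (prs n).erase p,
        Measurable (fun x => w x * (zt ρ p f x * zt ρ q f x)) :=
      fun p _ q _ => hwm.mul ((hz p).mul (hz q))
    simp_rw [hexp]
    rw [lintegral_add_left (Finset.measurable_sum _ hm1), lintegral_finsetSum _ hm1,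
      lintegral_finsetSum _ (fun p hp => Finset.measurable_sum _ (hm2 p hp))]
    congr 1
    exact Finset.sum_congr rfl (fun p hp => lintegral_finsetSum _ (hm2 p hp))
  rw [hint]
  -- diagonal terms
  have hdiag : ∑ p ∈ prs n, ∫⁻ x, w x * (zt ρ p f x) ^ 2
      ≤ ENNReal.ofReal (Dc K lam I) * AA ρ f := by
    unfold AA
    rw [Finset.mul_sum]
    refine Finset.sum_le_sum (fun p hp => ?_)
    rw [AA_eq hρ (ne_of_prs hp) hf hθm hθ]
    exact diag_le hρ (ne_of_prs hp) hf hθm hθ hwm (fun x => ENNReal.ofReal_ne_top)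
      (ENNReal.ofReal_pos.mpr hDpos).ne' (fun x k => fib_S hρ hI0 hI hK hl hp x k)
  -- off-diagonal terms
  set m : ℝ := lam / (2 * Real.pi ^ 2) with hm
  have hmpos : 0 < m := by positivity
  have hod := od hmpos hn hθm hθ (F := fun p x => (FF ρ p f x) ^ ((1 : ℝ) / 2))
    (fun p _ => (FF_meas hρ p hf).pow_const _)
    (fun p _ x k => by simp only [FF_inv hρ p hf x k])
  have hAAθ : ∑ p ∈ prs n, ∫⁻ x, θ (qq p x) * ((FF ρ p f x) ^ ((1 : ℝ) / 2)) ^ 2 = AA ρ f := by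
    unfold AA
    refine Finset.sum_congr rfl (fun p hp => ?_)
    rw [AA_eq hρ (ne_of_prs hp) hf hθm hθ]
    simp_rw [MSA_half_sq]
  rw [hAAθ] at hod
  have hoff : ∑ p ∈ prs n, ∑ q ∈ (prs n).erase p, ∫⁻ x, w x * (zt ρ p f x * zt ρ q f x)
      ≤ ENNReal.ofReal (13 * n) * AA ρ f := by
    have hstep : ∑ p ∈ prs n, ∑ q ∈ (prs n).erase p, ∫⁻ x, w x * (zt ρ p f x * zt ρ q f x)
        ≤ ENNReal.ofReal (2 * Real.pi ^ 2)⁻¹ * ∑ p ∈ prs n, ∑ q ∈ (prs n).erase p,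
          ∫⁻ x, (FF ρ p f x) ^ ((1 : ℝ) / 2) * (FF ρ q f x) ^ ((1 : ℝ) / 2) *
            ENNReal.ofReal (ss m x)⁻¹ := by
      rw [Finset.mul_sum]
      refine Finset.sum_le_sum (fun p _ => ?_)
      rw [Finset.mul_sum]
      refine Finset.sum_le_sum (fun q _ => ?_)
      rw [← lintegral_const_mul' _ _ ENNReal.ofReal_ne_top]
      refine lintegral_mono (fun x => ?_)
      have hwx : w x = ENNReal.ofReal (2 * Real.pi ^ 2)⁻¹ * ENNReal.ofReal (ss m x)⁻¹ := by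
        simp only [hw]
        rw [MSA_Sk_inv, ENNReal.ofReal_mul (by positivity)]
      show w x * (zt ρ p f x * zt ρ q f x) ≤ _
      rw [hwx, mul_assoc]
      refine mul_le_mul_right ?_ _
      rw [mul_comm]
      exact mul_le_mul_left (mul_le_mul' (MSA_zt_le hρ p hf x) (MSA_zt_le hρ q hf x)) _
    refine hstep.trans ((mul_le_mul_right hod _).trans ?_)
    rw [← mul_assoc, ← ENNReal.ofReal_mul (by positivity)]
    refine mul_le_mul_left (ENNReal.ofReal_le_ofReal ?_) _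
    have hpi := Real.pi_gt_three
    have hn0 : (0 : ℝ) ≤ n := Nat.cast_nonneg n
    have : (2 * Real.pi ^ 2)⁻¹ * (72 * Real.pi * n) = 36 / Real.pi * n := by
      field_simp
      ring
    rw [this]
    refine mul_le_mul_of_nonneg_right ?_ hn0
    rw [div_le_iff₀ Real.pi_pos]
    linarith
  calc _ ≤ ENNReal.ofReal (Dc K lam I) * AA ρ f + ENNReal.ofReal (13 * n) * AA ρ f :=
        add_le_add hdiag hoff
    _ = ENNReal.ofReal (Dc K lam I + 13 * n) * AA ρ f := by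
        rw [ENNReal.ofReal_add hDpos.le (by positivity), add_mul]

lemma MSA_AA_eq {ρ : R2 → ℝ} (hρ : PD ρ) {f : XX n → ℝ≥0∞} (hf : Measurable f) :
    AA ρ f = ∫⁻ x, f x * ∑ p ∈ prs n, zt ρ p f x := by
  unfold AA
  have hm : ∀ p ∈ prs n, Measurable (fun x => f x * zt ρ p f x) :=
    fun p _ => hf.mul (zt_meas hρ p hf)
  rw [← lintegral_finsetSum _ hm]
  simp_rw [Finset.mul_sum]

/-- Cauchy-Schwarz in `ℝ≥0∞` -/
lemma MSA_cs {E : Type*} [MeasurableSpace E] (μ : Measure E) {g h : E → ℝ≥0∞}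
    (hg : Measurable g) (hh : Measurable h) :
    (∫⁻ x, g x * h x ∂μ) ^ 2 ≤ (∫⁻ x, (g x) ^ 2 ∂μ) * ∫⁻ x, (h x) ^ 2 ∂μ := by
  have hpq : (2 : ℝ).HolderConjugate 2 := Real.HolderConjugate.two_two
  have h1 := ENNReal.lintegral_mul_le_Lp_mul_Lq μ hpq hg.aemeasurable hh.aemeasurable
  have h2 : (∫⁻ x, g x * h x ∂μ) ≤ (∫⁻ x, (g x) ^ 2 ∂μ) ^ ((1 : ℝ) / 2) *
      (∫⁻ x, (h x) ^ 2 ∂μ) ^ ((1 : ℝ) / 2) := by
    simpa using h1
  calc (∫⁻ x, g x * h x ∂μ) ^ 2 ≤ ((∫⁻ x, (g x) ^ 2 ∂μ) ^ ((1 : ℝ) / 2) *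
      (∫⁻ x, (h x) ^ 2 ∂μ) ^ ((1 : ℝ) / 2)) ^ 2 := pow_le_pow_left' h2 2
    _ = _ := by rw [mul_pow, MSA_half_sq, MSA_half_sq]

/-- Cauchy-Schwarz -/
lemma cs_step {ρ : R2 → ℝ} (hρ : PD ρ) {I K lam : ℝ} (hI0 : 0 ≤ I)
    (hI : ∫⁻ k, ENNReal.ofReal (ρ k) ≤ ENNReal.ofReal I) (hK : 0 < K) (hl : 0 < lam)
    (hn : 2 ≤ n) {f : XX n → ℝ≥0∞} (hf : Measurable f) :
    (AA ρ f) ^ 2 ≤ (∫⁻ x, ENNReal.ofReal (Sk lam x) * (f x) ^ 2) *
      (ENNReal.ofReal (Dc K lam I + 13 * n) * AA ρ f) := by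
  have hS := sum_sq_le hρ hI0 hI hK hl hn hf
  refine le_trans ?_ (mul_le_mul_right hS _)
  rw [MSA_AA_eq hρ hf]
  set Z : XX n → ℝ≥0∞ := fun x => ∑ p ∈ prs n, zt ρ p f x with hZ
  have hZm : Measurable Z := Finset.measurable_sum _ (fun p _ => zt_meas hρ p hf)
  have hSm : Measurable (fun x : XX n => ENNReal.ofReal (Sk lam x)) :=
    (MSA_Sk_meas lam).ennreal_ofReal
  have hSm' : Measurable (fun x : XX n => ENNReal.ofReal (Sk lam x)⁻¹) := MSA_Sk_meas' lam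
  have hcs := MSA_cs (volume : Measure (XX n))
    (g := fun x => (ENNReal.ofReal (Sk lam x)) ^ ((1 : ℝ) / 2) * f x)
    (h := fun x => (ENNReal.ofReal (Sk lam x)⁻¹) ^ ((1 : ℝ) / 2) * Z x)
    ((hSm.pow_const _).mul hf) ((hSm'.pow_const _).mul hZm)
  have hprod : ∀ x : XX n, (ENNReal.ofReal (Sk lam x)) ^ ((1 : ℝ) / 2) * f x *
      ((ENNReal.ofReal (Sk lam x)⁻¹) ^ ((1 : ℝ) / 2) * Z x) = f x * Z x := by
    intro x
    have h1 : (ENNReal.ofReal (Sk lam x)) ^ ((1 : ℝ) / 2) *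
        (ENNReal.ofReal (Sk lam x)⁻¹) ^ ((1 : ℝ) / 2) = 1 := by
      rw [← ENNReal.mul_rpow_of_nonneg _ _ (by norm_num), ← ENNReal.ofReal_mul
        (MSA_Sk_pos hl x).le, mul_inv_cancel₀ (MSA_Sk_pos hl x).ne', ENNReal.ofReal_one,
        ENNReal.one_rpow]
    calc (ENNReal.ofReal (Sk lam x)) ^ ((1 : ℝ) / 2) * f x *
        ((ENNReal.ofReal (Sk lam x)⁻¹) ^ ((1 : ℝ) / 2) * Z x)
        = ((ENNReal.ofReal (Sk lam x)) ^ ((1 : ℝ) / 2) *
          (ENNReal.ofReal (Sk lam x)⁻¹) ^ ((1 : ℝ) / 2)) * (f x * Z x) := by ring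
      _ = f x * Z x := by rw [h1, one_mul]
  simp_rw [hprod, mul_pow, MSA_half_sq] at hcs
  exact hcs

/-- `AA` is finite for bounded `f` with bounded support -/
lemma AA_fin {ρ : R2 → ℝ} (hρ : PD ρ) {f : XX n → ℝ≥0∞} (hf : Measurable f) {N : ℝ≥0∞}
    (hN : N ≠ ∞) (hfN : ∀ x, f x ≤ N) {r : ℝ} (hr : ∀ x, r < ‖x‖ → f x = 0) :
    AA ρ f < ∞ := by
  unfold AA
  rw [ENNReal.sum_lt_top]
  intro p _
  set J : ℝ≥0∞ := ∫⁻ k, ENNReal.ofReal (ρ k) with hJ
  have hJt : J < ∞ := hρ.int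
  have hz : ∀ x, zt ρ p f x ≤ J * N := by
    intro x
    unfold zt
    calc ∫⁻ k, ENNReal.ofReal (ρ k) * f (x - es p k)
        ≤ ∫⁻ k, ENNReal.ofReal (ρ k) * N :=
          lintegral_mono (fun k => mul_le_mul_right (hfN _) _)
      _ = J * N := by rw [lintegral_mul_const' _ _ hN]
  have hfb : ∀ x, f x ≤ (Metric.closedBall (0 : XX n) r).indicator (fun _ => N) x := by
    intro x
    by_cases hx : x ∈ Metric.closedBall (0 : XX n) r
    · rw [Set.indicator_of_mem hx]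
      exact hfN x
    · rw [Set.indicator_of_notMem hx]
      rw [mem_closedBall_zero_iff, not_le] at hx
      exact (hr x hx).le
  calc ∫⁻ x, f x * zt ρ p f x
      ≤ ∫⁻ x, (Metric.closedBall (0 : XX n) r).indicator (fun _ => N) x * (J * N) :=
        lintegral_mono (fun x => mul_le_mul' (hfb x) (hz x))
    _ = (N * volume (Metric.closedBall (0 : XX n) r)) * (J * N) := by
        rw [lintegral_mul_const' _ _ (ENNReal.mul_ne_top hJt.ne hN),
          lintegral_indicator measurableSet_closedBall, setLIntegral_const]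
    _ < ∞ := by
        have hv : volume (Metric.closedBall (0 : XX n) r) < ∞ := measure_closedBall_lt_top
        exact ENNReal.mul_lt_top (ENNReal.mul_lt_top hN.lt_top hv)
          (ENNReal.mul_lt_top hJt hN.lt_top)

/-- truncation -/
noncomputable def tru (f : XX n → ℝ≥0∞) (N : ℕ) (x : XX n) : ℝ≥0∞ :=
  if ‖x‖ ≤ N then min (f x) N else 0

lemma MSA_tru_meas {f : XX n → ℝ≥0∞} (hf : Measurable f) (N : ℕ) : Measurable (tru f N) := by
  unfold tru
  exact Measurable.ite (measurableSet_le measurable_norm measurable_const)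
    (hf.min measurable_const) measurable_const

lemma MSA_tru_mono (f : XX n → ℝ≥0∞) (x : XX n) : Monotone (fun N => tru f N x) := by
  intro N M hNM
  have hc : (N : ℝ) ≤ M := by exact_mod_cast hNM
  have hc' : (N : ℝ≥0∞) ≤ M := by exact_mod_cast hNM
  simp only [tru]
  split_ifs with h1 h2
  · exact min_le_min le_rfl hc'
  · exact absurd (h1.trans hc) h2
  · exact zero_le
  · exact le_rfl

lemma MSA_tru_le (f : XX n → ℝ≥0∞) (N : ℕ) (x : XX n) : tru f N x ≤ f x := by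
  simp only [tru]
  split_ifs with h1
  · exact min_le_left _ _
  · exact zero_le

lemma MSA_tru_sup (f : XX n → ℝ≥0∞) (x : XX n) : ⨆ N, tru f N x = f x := by
  refine le_antisymm (iSup_le (fun N => MSA_tru_le f N x)) ?_
  refine le_of_forall_lt (fun c hc => ?_)
  obtain ⟨N1, hN1⟩ := exists_nat_ge ‖x‖
  have hct : c ≠ ∞ := (hc.trans_le le_top).ne
  obtain ⟨N2, hN2⟩ := ENNReal.exists_nat_gt hct
  refine lt_iSup_iff.mpr ⟨max N1 N2, ?_⟩
  have h1 : ‖x‖ ≤ ((max N1 N2 : ℕ) : ℝ) :=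
    hN1.trans (by exact_mod_cast le_max_left N1 N2)
  simp only [tru]
  rw [if_pos h1]
  refine lt_min hc (hN2.trans_le ?_)
  exact_mod_cast le_max_right N1 N2

lemma MSA_iSup_mul {g h : ℕ → ℝ≥0∞} (hg : Monotone g) (hh : Monotone h) :
    (⨆ N, g N) * (⨆ N, h N) = ⨆ N, g N * h N := by
  refine le_antisymm ?_ (iSup_le (fun N => mul_le_mul' (le_iSup g N) (le_iSup h N)))
  rw [ENNReal.iSup_mul]
  refine iSup_le (fun N => ?_)
  rw [ENNReal.mul_iSup]
  refine iSup_le (fun M => ?_)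
  exact (mul_le_mul' (hg (le_max_left N M)) (hh (le_max_right N M))).trans
    (le_iSup (fun K => g K * h K) (max N M))

lemma AA_mono_lim {ρ : R2 → ℝ} (hρ : PD ρ) {f : XX n → ℝ≥0∞} (hf : Measurable f) :
    AA ρ f = ⨆ N, AA ρ (tru f N) := by
  have hzmono : ∀ (p : Fin n × Fin n) (x : XX n), Monotone (fun N => zt ρ p (tru f N) x) := by
    intro p x N M hNM
    exact lintegral_mono (fun k => mul_le_mul_right (MSA_tru_mono f _ hNM) _)
  have hzsup : ∀ (p : Fin n × Fin n) (x : XX n),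
      zt ρ p f x = ⨆ N, zt ρ p (tru f N) x := by
    intro p x
    unfold zt
    rw [← lintegral_iSup]
    · refine lintegral_congr (fun k => ?_)
      rw [← ENNReal.mul_iSup, MSA_tru_sup]
    · intro N
      refine (hρ.meas.ennreal_ofReal).mul ((MSA_tru_meas hf N).comp ?_)
      exact (measurable_sub_es p).comp (measurable_const.prodMk measurable_id)
    · intro N M hNM k
      exact mul_le_mul_right (MSA_tru_mono f _ hNM) _
  unfold AA
  rw [← ENNReal.finsetSum_iSup_of_monotone]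
  · refine Finset.sum_congr rfl (fun p _ => ?_)
    rw [← lintegral_iSup]
    · refine lintegral_congr (fun x => ?_)
      rw [hzsup p x]
      conv_lhs => rw [← MSA_tru_sup f x]
      exact MSA_iSup_mul (MSA_tru_mono f x) (hzmono p x)
    · intro N
      exact (MSA_tru_meas hf N).mul (zt_meas hρ p (MSA_tru_meas hf N))
    · intro N M hNM x
      exact mul_le_mul' (MSA_tru_mono f x hNM) (hzmono p x hNM)
  · intro p N M hNM
    exact lintegral_mono (fun x => mul_le_mul' (MSA_tru_mono f x hNM) (hzmono p x hNM))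

/-- **the form inequality in momentum space** -/
theorem ms {ρ : R2 → ℝ} (hρ : PD ρ) {I K lam b : ℝ} (hI0 : 0 ≤ I)
    (hI : ∫⁻ k, ENNReal.ofReal (ρ k) ≤ ENNReal.ofReal I) (hK : 0 < K) (hl : 0 < lam)
    (hb : 0 ≤ b) (hbD : b * (Dc K lam I + 13 * n) ≤ 1) (hn : 2 ≤ n)
    {f : XX n → ℝ≥0∞} (hf : Measurable f) :
    ENNReal.ofReal b * AA ρ f ≤ ∫⁻ x, ENNReal.ofReal (Sk lam x) * (f x) ^ 2 := by
  rw [AA_mono_lim hρ hf, ENNReal.mul_iSup]
  refine iSup_le (fun N => ?_)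
  set T := AA ρ (tru f N) with hT
  have hTt : T < ∞ := by
    refine AA_fin hρ (MSA_tru_meas hf N) (N := (N : ℝ≥0∞)) (ENNReal.natCast_ne_top N) ?_
      (r := (N : ℝ)) ?_
    · intro x
      simp only [tru]
      split_ifs
      · exact min_le_right _ _
      · exact zero_le
    · intro x hx
      simp only [tru]
      rw [if_neg (not_le.mpr hx)]
  have hcs := cs_step hρ hI0 hI hK hl hn (MSA_tru_meas hf N)
  rw [← hT] at hcs
  have hle : ∫⁻ x, ENNReal.ofReal (Sk lam x) * (tru f N x) ^ 2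
      ≤ ∫⁻ x, ENNReal.ofReal (Sk lam x) * (f x) ^ 2 :=
    lintegral_mono (fun x => mul_le_mul_right (pow_le_pow_left' (MSA_tru_le f N x) 2) _)
  refine le_trans ?_ hle
  set Q := ∫⁻ x, ENNReal.ofReal (Sk lam x) * (tru f N x) ^ 2 with hQ
  by_cases hT0 : T = 0
  · rw [hT0, mul_zero]
    exact zero_le
  · have h1 : T ≤ Q * ENNReal.ofReal (Dc K lam I + 13 * n) := by
      have h2 : T * T ≤ (Q * ENNReal.ofReal (Dc K lam I + 13 * n)) * T := by
        rw [← sq, mul_assoc]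
        exact hcs
      exact (ENNReal.mul_le_mul_iff_left hT0 hTt.ne).mp h2
    have hD := (MSA_Dc_pos hI0 hK hl).le
    calc ENNReal.ofReal b * T
        ≤ ENNReal.ofReal b * (Q * ENNReal.ofReal (Dc K lam I + 13 * n)) :=
          mul_le_mul_right h1 _
      _ = ENNReal.ofReal (b * (Dc K lam I + 13 * n)) * Q := by
          rw [ENNReal.ofReal_mul hb]
          ring
      _ ≤ 1 * Q := by
          refine mul_le_mul_left ?_ _
          rw [← ENNReal.ofReal_one]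
          exact ENNReal.ofReal_le_ofReal hbD
      _ = Q := one_mul _

end SHF
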