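import Pool.Agent.W_03a799_h55.Flow2

/-! Random measures: extension of moment bounds from `C_c` to `L²`. -/

open MeasureTheory Filter Topology ProbabilityTheory
open scoped ENNReal NNReal

namespace SHF

variable {Ω₀ : Type*} [MeasurableSpace Ω₀] {Q₀ : Measure Ω₀} [IsProbabilityMeasure Q₀]
  {S : Ω₀ → Measure (R2 × R2)}

/-- the moment bound of order `n` on `C_c` -/
def CcBound (Q₀ : Measure Ω₀) (S : Ω₀ → Measure (R2 × R2)) (n : ℕ) (K : ℝ≥0∞) : Prop :=
  ∀ f g, CcP f → CcP g → (∫⁻ ω, (Sp S f g ω) ^ n ∂Q₀) ^ 2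
    ≤ K * (∫⁻ x, (ENNReal.ofReal (f x)) ^ 2) ^ n * (∫⁻ x, (ENNReal.ofReal (g x)) ^ 2) ^ n

lemma MeA_aux0 {f g : R2 → ℝ} (hf : Measurable f) (hg : Measurable g) :
    Measurable (fun z : R2 × R2 => ENNReal.ofReal (f z.1) * ENNReal.ofReal (g z.2)) :=
  ((hf.comp measurable_fst).ennreal_ofReal).mul ((hg.comp measurable_snd).ennreal_ofReal)

lemma Sp_meas (hS : Measurable S) {f g : R2 → ℝ} (hf : Measurable f) (hg : Measurable g) :
    Measurable (Sp S f g) :=
  (Measure.measurable_lintegral (MeA_aux0 hf hg)).comp hS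

lemma MeA_compl_ne (U : Set R2) (r : ℝ) : (U ∩ Metric.ball (0 : R2) r)ᶜ.Nonempty := by
  refine ⟨EuclideanSpace.single 0 (|r| + 1), ?_⟩
  intro h
  have h2 := h.2
  rw [Metric.mem_ball, dist_zero_right, PiLp.norm_single, Real.norm_eq_abs,
    abs_of_nonneg (by positivity)] at h2
  have := le_abs_self r
  linarith

/-- indicators of bounded open sets are increasing limits of `C_c` functions -/
lemma open_approx {U : Set R2} (hU : IsOpen U) (r : ℝ) :
    ∃ h : ℕ → R2 → ℝ, (∀ k, CcP (h k)) ∧ Monotone h ∧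
      ∀ x, Tendsto (fun k => h k x) atTop (𝓝 ((U ∩ Metric.ball 0 r).indicator (fun _ => 1) x)) := by
  set V := U ∩ Metric.ball (0 : R2) r with hV
  have hVo : IsOpen V := hU.inter Metric.isOpen_ball
  have hne : Vᶜ.Nonempty := MeA_compl_ne U r
  refine ⟨fun k x => min 1 ((k : ℝ) * Metric.infDist x Vᶜ), ?_, ?_, ?_⟩
  · intro k
    refine ⟨?_, ?_, ?_⟩
    · exact continuous_const.min (continuous_const.mul (Metric.continuous_infDist_pt _))
    · refine HasCompactSupport.intro (isCompact_closedBall (0 : R2) r) ?_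
      intro x hx
      have hxV : x ∈ Vᶜ := fun h => hx (Metric.ball_subset_closedBall h.2)
      simp only [Metric.infDist_zero_of_mem hxV, mul_zero]
      exact min_eq_right zero_le_one
    · intro x
      exact le_min zero_le_one (mul_nonneg (Nat.cast_nonneg _) Metric.infDist_nonneg)
  · intro k l hkl x
    exact min_le_min le_rfl (mul_le_mul_of_nonneg_right (Nat.cast_le.2 hkl)
      Metric.infDist_nonneg)
  · intro x
    by_cases hx : x ∈ V
    · rw [Set.indicator_of_mem hx]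
      have hpos : 0 < Metric.infDist x Vᶜ :=
        (hVo.isClosed_compl.notMem_iff_infDist_pos hne).1 (fun h => h hx)
      apply tendsto_const_nhds.congr'
      obtain ⟨N, hN⟩ := exists_nat_gt (1 / Metric.infDist x Vᶜ)
      filter_upwards [eventually_ge_atTop N] with k hk
      have h1 : 1 ≤ (k : ℝ) * Metric.infDist x Vᶜ := by
        have h2 : 1 / Metric.infDist x Vᶜ ≤ k := hN.le.trans (by exact_mod_cast hk)
        calc (1 : ℝ) = 1 / Metric.infDist x Vᶜ * Metric.infDist x Vᶜ := by field_simp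
          _ ≤ _ := mul_le_mul_of_nonneg_right h2 hpos.le
      exact (min_eq_left h1).symm
    · rw [Set.indicator_of_notMem hx]
      apply tendsto_const_nhds.congr'
      filter_upwards with k
      have hx' : x ∈ Vᶜ := hx
      rw [Metric.infDist_zero_of_mem hx', mul_zero]
      exact (min_eq_right zero_le_one).symm

lemma MeA_ofReal_ind (V : Set R2) (x : R2) :
    ENNReal.ofReal (V.indicator (fun _ => (1 : ℝ)) x) = V.indicator (fun _ => (1 : ℝ≥0∞)) x := by
  by_cases hx : x ∈ V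
  · simp [Set.indicator_of_mem hx]
  · simp [Set.indicator_of_notMem hx]

/-- bound for products of bounded open sets -/
lemma MeA_open (hS : Measurable S) {n : ℕ} {K : ℝ≥0∞}
    (h : CcBound Q₀ S n K) {U1 U2 : Set R2} (h1 : IsOpen U1) (h2 : IsOpen U2) (r : ℝ) :
    (∫⁻ ω, (S ω ((U1 ∩ Metric.ball 0 r) ×ˢ (U2 ∩ Metric.ball 0 r))) ^ n ∂Q₀) ^ 2
      ≤ K * (volume (U1 ∩ Metric.ball 0 r)) ^ n * (volume (U2 ∩ Metric.ball 0 r)) ^ n := by
  obtain ⟨f, hf, hfm, hfl⟩ := open_approx h1 r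
  obtain ⟨g, hg, hgm, hgl⟩ := open_approx h2 r
  set V1 := U1 ∩ Metric.ball (0 : R2) r with hV1
  set V2 := U2 ∩ Metric.ball (0 : R2) r with hV2
  have hV1m : MeasurableSet V1 := (h1.inter Metric.isOpen_ball).measurableSet
  have hV2m : MeasurableSet V2 := (h2.inter Metric.isOpen_ball).measurableSet
  have hle : ∀ (f : ℕ → R2 → ℝ) (V : Set R2), Monotone f →
      (∀ x, Tendsto (fun k => f k x) atTop (𝓝 (V.indicator (fun _ => 1) x))) →
      ∀ k x, f k x ≤ V.indicator (fun _ => 1) x := by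
    intro f V hm hl k x
    exact Monotone.ge_of_tendsto (f := fun k => f k x) (fun a b hab => hm hab x) (hl x) k
  have hint : ∀ (f : ℕ → R2 → ℝ) (V : Set R2), MeasurableSet V → (∀ k, CcP (f k)) → Monotone f →
      (∀ x, Tendsto (fun k => f k x) atTop (𝓝 (V.indicator (fun _ => 1) x))) →
      ∀ k, ∫⁻ x, (ENNReal.ofReal (f k x)) ^ 2 ≤ volume V := by
    intro f V hVm hc hm hl k
    calc ∫⁻ x, (ENNReal.ofReal (f k x)) ^ 2 ≤ ∫⁻ x, V.indicator (fun _ => (1 : ℝ≥0∞)) x := by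
          apply lintegral_mono
          intro x
          have h3 : ENNReal.ofReal (f k x) ≤ V.indicator (fun _ => (1 : ℝ≥0∞)) x := by
            rw [← MeA_ofReal_ind]
            exact ENNReal.ofReal_le_ofReal (hle f V hm hl k x)
          calc (ENNReal.ofReal (f k x)) ^ 2 ≤ (V.indicator (fun _ => (1 : ℝ≥0∞)) x) ^ 2 :=
                pow_le_pow_left' h3 2
            _ = _ := by
              by_cases hx : x ∈ V
              · simp [Set.indicator_of_mem hx]
              · simp [Set.indicator_of_notMem hx]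
      _ = volume V := lintegral_indicator_one hVm
  -- monotone convergence for `S ω`
  have hX : ∀ ω, Tendsto (fun k => Sp S (f k) (g k) ω) atTop (𝓝 (S ω (V1 ×ˢ V2))) := by
    intro ω
    have h5 : S ω (V1 ×ˢ V2) = ∫⁻ z, ENNReal.ofReal (V1.indicator (fun _ => (1:ℝ)) z.1)
        * ENNReal.ofReal (V2.indicator (fun _ => (1:ℝ)) z.2) ∂(S ω) := by
      rw [← lintegral_indicator_one (hV1m.prod hV2m)]
      apply lintegral_congr
      intro z
      rw [MeA_ofReal_ind, MeA_ofReal_ind]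
      by_cases hz1 : z.1 ∈ V1
      · by_cases hz2 : z.2 ∈ V2
        · rw [Set.indicator_of_mem (show z ∈ V1 ×ˢ V2 from ⟨hz1, hz2⟩),
            Set.indicator_of_mem hz1, Set.indicator_of_mem hz2]
          simp
        · rw [Set.indicator_of_notMem (fun hz : z ∈ V1 ×ˢ V2 => hz2 hz.2),
            Set.indicator_of_notMem hz2]
          simp
      · rw [Set.indicator_of_notMem (fun hz : z ∈ V1 ×ˢ V2 => hz1 hz.1),
            Set.indicator_of_notMem hz1]
        simp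
    rw [h5]
    apply lintegral_tendsto_of_tendsto_of_monotone
    · intro k
      exact (MeA_aux0 (hf k).cont.measurable (hg k).cont.measurable).aemeasurable
    · filter_upwards with z
      intro k l hkl
      exact mul_le_mul' (ENNReal.ofReal_le_ofReal (hfm hkl z.1))
        (ENNReal.ofReal_le_ofReal (hgm hkl z.2))
    · filter_upwards with z
      refine ENNReal.Tendsto.mul ?_ (Or.inr ENNReal.ofReal_ne_top) ?_
        (Or.inr ENNReal.ofReal_ne_top)
      · exact (ENNReal.continuous_ofReal.tendsto _).comp (hfl z.1)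
      · exact (ENNReal.continuous_ofReal.tendsto _).comp (hgl z.2)
  have hXm : ∀ ω, Monotone (fun k => Sp S (f k) (g k) ω) := by
    intro ω k l hkl
    apply lintegral_mono
    intro z
    exact mul_le_mul' (ENNReal.ofReal_le_ofReal (hfm hkl z.1))
        (ENNReal.ofReal_le_ofReal (hgm hkl z.2))
  have hlim : Tendsto (fun k => (∫⁻ ω, (Sp S (f k) (g k) ω) ^ n ∂Q₀) ^ 2) atTop
      (𝓝 ((∫⁻ ω, (S ω (V1 ×ˢ V2)) ^ n ∂Q₀) ^ 2)) := by
    refine ((ENNReal.continuous_pow 2).tendsto _).comp ?_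
    apply lintegral_tendsto_of_tendsto_of_monotone
    · intro k
      exact ((Sp_meas hS (hf k).cont.measurable (hg k).cont.measurable).pow_const n).aemeasurable
    · filter_upwards with ω
      intro k l hkl
      exact pow_le_pow_left' (hXm ω hkl) n
    · filter_upwards with ω
      exact ((ENNReal.continuous_pow n).tendsto _).comp (hX ω)
  refine le_of_tendsto hlim ?_
  filter_upwards with k
  refine (h _ _ (hf k) (hg k)).trans ?_
  gcongr
  · exact hint f V1 hV1m hf hfm hfl k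
  · exact hint g V2 hV2m hg hgm hgl k

/-- the common part of `null_left` and `null_right` -/
lemma MeA_null {μ : Measure Ω₀} {n : ℕ} (hn : 1 ≤ n) {C : ℝ≥0∞} (hC : C ≠ ∞)
    {X : ℕ → Ω₀ → ℝ≥0∞} (hX : ∀ m, Measurable (X m))
    (hb : ∀ m : ℕ, (∫⁻ ω, (X m ω) ^ n ∂μ) ^ 2 ≤ C * ((m : ℝ≥0∞)⁻¹) ^ n) :
    ∀ᵐ ω ∂μ, ⨅ m, X m ω = 0 := by
  have hY : Measurable (fun ω => (⨅ m, X m ω) ^ n) := (Measurable.iInf hX).pow_const n
  have h0 : ∫⁻ ω, (⨅ m, X m ω) ^ n ∂μ = 0 := by
    have h1 : ∀ m : ℕ, (∫⁻ ω, (⨅ m, X m ω) ^ n ∂μ) ^ 2 ≤ C * ((m : ℝ≥0∞)⁻¹) ^ n := by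
      intro m
      refine le_trans (pow_le_pow_left' ?_ 2) (hb m)
      apply lintegral_mono
      intro ω
      exact pow_le_pow_left' (iInf_le _ m) n
    have h2 : Tendsto (fun m : ℕ => C * ((m : ℝ≥0∞)⁻¹) ^ n) atTop (𝓝 0) := by
      have h3 : Tendsto (fun m : ℕ => ((m : ℝ≥0∞)⁻¹) ^ n) atTop (𝓝 (0 ^ n)) :=
        ((ENNReal.continuous_pow n).tendsto _).comp ENNReal.tendsto_inv_nat_nhds_zero
      rw [zero_pow (by omega)] at h3
      have h4 := ENNReal.Tendsto.const_mul h3 (Or.inr hC)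
      rwa [mul_zero] at h4
    have h5 : (∫⁻ ω, (⨅ m, X m ω) ^ n ∂μ) ^ 2 ≤ 0 :=
      ge_of_tendsto h2 (Eventually.of_forall h1)
    exact pow_eq_zero_iff (two_ne_zero) |>.1 (le_antisymm h5 zero_le)
  rw [lintegral_eq_zero_iff hY] at h0
  filter_upwards [h0] with ω hω
  exact pow_eq_zero_iff (by omega) |>.1 hω

lemma MeA_cover {E : Set R2} (hE : volume E = 0) :
    ∃ U : ℕ → Set R2, (∀ m, IsOpen (U m)) ∧ (∀ m, E ⊆ U m) ∧
      ∀ m : ℕ, volume (U m) ≤ (m : ℝ≥0∞)⁻¹ := by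
  have : ∀ m : ℕ, ∃ U : Set R2, IsOpen U ∧ E ⊆ U ∧ volume U ≤ (m : ℝ≥0∞)⁻¹ := by
    intro m
    have hm : (m : ℝ≥0∞)⁻¹ ≠ 0 := ENNReal.inv_ne_zero.2 (ENNReal.natCast_ne_top m)
    obtain ⟨U, hU1, hU2, hU3⟩ := E.exists_isOpen_lt_of_lt (μ := volume) (m : ℝ≥0∞)⁻¹
      (by rw [hE]; exact pos_iff_ne_zero.2 hm)
    exact ⟨U, hU2, hU1, hU3.le⟩
  choose U h1 h2 h3 using this
  exact ⟨U, h1, h2, h3⟩

/-- null sets: cover by open sets of small measure, `open_approx`, monotone convergence -/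
lemma null_left (hS : Measurable S) {n : ℕ} (hn : 1 ≤ n) {K : ℝ≥0∞} (hK : K ≠ ∞)
    (h : CcBound Q₀ S n K) {E : Set R2} (hE : volume E = 0) :
    ∀ᵐ ω ∂Q₀, S ω (E ×ˢ Set.univ) = 0 := by
  obtain ⟨U, hUo, hUE, hUv⟩ := MeA_cover hE
  have hr : ∀ r : ℕ, ∀ᵐ ω ∂Q₀, S ω ((E ∩ Metric.ball 0 (r : ℝ)) ×ˢ Metric.ball 0 (r : ℝ)) = 0 := by
    intro r
    have hb := MeA_null (μ := Q₀) hn (C := K * (volume (Set.univ ∩ Metric.ball (0 : R2) r)) ^ n)
      (ENNReal.mul_ne_top hK (ENNReal.pow_ne_top (by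
        rw [Set.univ_inter]; exact measure_ball_lt_top.ne)))
      (X := fun m ω => S ω ((U m ∩ Metric.ball 0 (r : ℝ)) ×ˢ (Set.univ ∩ Metric.ball 0 (r : ℝ))))
      (fun m => (Measure.measurable_coe (((hUo m).inter Metric.isOpen_ball).measurableSet.prod
        (isOpen_univ.inter Metric.isOpen_ball).measurableSet)).comp hS)
      (fun m => by
        refine (MeA_open hS h (hUo m) isOpen_univ (r : ℝ)).trans ?_
        rw [mul_assoc, mul_assoc, mul_comm ((volume (U m ∩ Metric.ball 0 (r : ℝ))) ^ n)]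
        gcongr
        exact (measure_mono Set.inter_subset_left).trans (hUv m))
    filter_upwards [hb] with ω hω
    refine le_antisymm ?_ zero_le
    rw [← hω]
    refine le_iInf (fun m => measure_mono ?_)
    rintro z ⟨⟨hz1, hz2⟩, hz3⟩
    exact ⟨⟨hUE m hz1, hz2⟩, trivial, hz3⟩
  filter_upwards [ae_all_iff.2 hr] with ω hω
  refine measure_mono_null ?_ (measure_iUnion_null hω)
  rintro ⟨x, y⟩ ⟨hx, -⟩
  obtain ⟨r, hr⟩ := exists_nat_gt (max ‖x‖ ‖y‖)
  refine Set.mem_iUnion.2 ⟨r, ⟨⟨hx, ?_⟩, ?_⟩⟩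
  · rw [Metric.mem_ball, dist_zero_right]; exact lt_of_le_of_lt (le_max_left _ _) hr
  · rw [Metric.mem_ball, dist_zero_right]; exact lt_of_le_of_lt (le_max_right _ _) hr

lemma null_right (hS : Measurable S) {n : ℕ} (hn : 1 ≤ n) {K : ℝ≥0∞} (hK : K ≠ ∞)
    (h : CcBound Q₀ S n K) {E : Set R2} (hE : volume E = 0) :
    ∀ᵐ ω ∂Q₀, S ω (Set.univ ×ˢ E) = 0 := by
  obtain ⟨U, hUo, hUE, hUv⟩ := MeA_cover hE
  have hr : ∀ r : ℕ, ∀ᵐ ω ∂Q₀, S ω (Metric.ball 0 (r : ℝ) ×ˢ (E ∩ Metric.ball 0 (r : ℝ))) = 0 := by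
    intro r
    have hb := MeA_null (μ := Q₀) hn (C := K * (volume (Set.univ ∩ Metric.ball (0 : R2) r)) ^ n)
      (ENNReal.mul_ne_top hK (ENNReal.pow_ne_top (by
        rw [Set.univ_inter]; exact measure_ball_lt_top.ne)))
      (X := fun m ω => S ω ((Set.univ ∩ Metric.ball 0 (r : ℝ)) ×ˢ (U m ∩ Metric.ball 0 (r : ℝ))))
      (fun m => (Measure.measurable_coe ((isOpen_univ.inter Metric.isOpen_ball).measurableSet.prod
        ((hUo m).inter Metric.isOpen_ball).measurableSet)).comp hS)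
      (fun m => by
        refine (MeA_open hS h isOpen_univ (hUo m) (r : ℝ)).trans ?_
        gcongr
        exact (measure_mono Set.inter_subset_left).trans (hUv m))
    filter_upwards [hb] with ω hω
    refine le_antisymm ?_ zero_le
    rw [← hω]
    refine le_iInf (fun m => measure_mono ?_)
    rintro z ⟨hz3, ⟨hz1, hz2⟩⟩
    exact ⟨⟨trivial, hz3⟩, ⟨hUE m hz1, hz2⟩⟩
  filter_upwards [ae_all_iff.2 hr] with ω hω
  refine measure_mono_null ?_ (measure_iUnion_null hω)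
  rintro ⟨x, y⟩ ⟨-, hy⟩
  obtain ⟨r, hr⟩ := exists_nat_gt (max ‖x‖ ‖y‖)
  refine Set.mem_iUnion.2 ⟨r, ⟨?_, ⟨hy, ?_⟩⟩⟩
  · rw [Metric.mem_ball, dist_zero_right]; exact lt_of_le_of_lt (le_max_left _ _) hr
  · rw [Metric.mem_ball, dist_zero_right]; exact lt_of_le_of_lt (le_max_right _ _) hr

/-- `C_c` is dense in the nonnegative functions of `L²`
(`MemLp.exists_hasCompactSupport_eLpNorm_sub_le`, positive part) -/
lemma exists_approx {f : R2 → ℝ} (hf : Measurable f) (hf0 : ∀ x, 0 ≤ f x)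
    (hf2 : ∫⁻ x, (ENNReal.ofReal (f x)) ^ 2 < ∞) :
    ∃ fk : ℕ → R2 → ℝ, (∀ k, CcP (fk k)) ∧
      Tendsto (fun k => ∫⁻ x, (ENNReal.ofReal |fk k x - f x|) ^ 2) atTop (𝓝 0) := by
  have hL : MemLp f 2 volume := by
    refine ⟨hf.aestronglyMeasurable, ?_⟩
    rw [eLpNorm_lt_top_iff_lintegral_rpow_enorm_lt_top two_ne_zero ENNReal.ofNat_ne_top]
    refine lt_of_le_of_lt (lintegral_mono (fun x => ?_)) hf2
    rw [ENNReal.toReal_ofNat, ENNReal.rpow_ofNat, Real.enorm_eq_ofReal (hf0 x)]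
  have hex : ∀ k : ℕ, ∃ g : R2 → ℝ, HasCompactSupport g ∧
      eLpNorm (f - g) 2 volume ≤ ((k : ℝ≥0∞)⁻¹) ∧ Continuous g ∧ MemLp g 2 volume := by
    intro k
    exact hL.exists_hasCompactSupport_eLpNorm_sub_le ENNReal.ofNat_ne_top
      (ENNReal.inv_ne_zero.2 (ENNReal.natCast_ne_top k))
  choose g hg1 hg2 hg3 hg4 using hex
  refine ⟨fun k x => max (g k x) 0, fun k => ⟨(hg3 k).max continuous_const, ?_,
    fun x => le_max_right _ _⟩, ?_⟩
  · refine (hg1 k).mono (fun x hx => ?_)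
    simp only [Function.mem_support] at hx ⊢
    intro h0
    rw [h0] at hx
    simp at hx
  · have hbd : ∀ k : ℕ, ∫⁻ x, (ENNReal.ofReal |max (g k x) 0 - f x|) ^ 2
        ≤ ((k : ℝ≥0∞)⁻¹) ^ 2 := by
      intro k
      calc ∫⁻ x, (ENNReal.ofReal |max (g k x) 0 - f x|) ^ 2
          ≤ ∫⁻ x, ‖(f - g k) x‖ₑ ^ (2 : ℝ≥0∞).toReal := by
            apply lintegral_mono
            intro x
            simp only [ENNReal.toReal_ofNat, ENNReal.rpow_ofNat]
            refine pow_le_pow_left' ?_ 2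
            rw [Real.enorm_eq_ofReal_abs]
            refine ENNReal.ofReal_le_ofReal ?_
            simp only [Pi.sub_apply]
            have h1 := hf0 x
            rcases le_total (g k x) 0 with h2 | h2
            · rw [max_eq_right h2, zero_sub, abs_neg, abs_of_nonneg h1, abs_of_nonneg (by linarith)]
              linarith
            · rw [max_eq_left h2, abs_sub_comm]
        _ = (eLpNorm (f - g k) 2 volume) ^ 2 := by
            rw [eLpNorm_eq_lintegral_rpow_enorm_toReal two_ne_zero ENNReal.ofNat_ne_top]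
            rw [← ENNReal.rpow_natCast, ← ENNReal.rpow_mul]
            norm_num
        _ ≤ _ := pow_le_pow_left' (hg2 k) 2
    have h3 : Tendsto (fun k : ℕ => ((k : ℝ≥0∞)⁻¹) ^ 2) atTop (𝓝 (0 ^ 2)) :=
        ((ENNReal.continuous_pow 2).tendsto _).comp ENNReal.tendsto_inv_nat_nhds_zero
    rw [zero_pow two_ne_zero] at h3
    exact tendsto_of_tendsto_of_tendsto_of_le_of_le tendsto_const_nhds h3
      (fun _ => zero_le) hbd

end SHF
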