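import Pool.Agent.W_03a799_h55.MeA

/-! Random measures: upper bound for functions of `L²`. -/

open MeasureTheory Filter Topology ProbabilityTheory
open scoped ENNReal NNReal

namespace SHF

variable {Ω₀ : Type*} [MeasurableSpace Ω₀] {Q₀ : Measure Ω₀} [IsProbabilityMeasure Q₀]
  {S : Ω₀ → Measure (R2 × R2)}

/-- the square integral as a power of the seminorm -/
lemma MeB_aux_sq (h : R2 → ℝ) :
    ∫⁻ x, (ENNReal.ofReal |h x|) ^ 2 = (eLpNorm h 2 volume) ^ 2 := by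
  have h1 := eLpNorm_nnreal_pow_eq_lintegral (f := h) (μ := (volume : Measure R2)) (p := 2)
    two_ne_zero
  have h2 : ((2 : ℝ≥0) : ℝ) = ((2 : ℕ) : ℝ) := by norm_num
  rw [h2] at h1
  simp only [ENNReal.rpow_natCast] at h1
  have h3 : ((2 : ℝ≥0) : ℝ≥0∞) = 2 := by norm_num
  rw [h3] at h1
  rw [h1]
  refine lintegral_congr fun x => ?_
  rw [Real.enorm_eq_ofReal_abs]

lemma MeB_aux_sq' {h : R2 → ℝ} (h0 : ∀ x, 0 ≤ h x) :
    ∫⁻ x, (ENNReal.ofReal (h x)) ^ 2 = (eLpNorm h 2 volume) ^ 2 := by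
  rw [← MeB_aux_sq]
  refine lintegral_congr fun x => ?_
  rw [abs_of_nonneg (h0 x)]

/-- convergence in `L²` and almost everywhere -/
lemma MeB_aux_sub {f : R2 → ℝ} (hf : Measurable f) {fk : ℕ → R2 → ℝ} (hk : ∀ k, CcP (fk k))
    (h : Tendsto (fun k => ∫⁻ x, (ENNReal.ofReal |fk k x - f x|) ^ 2) atTop (𝓝 0)) :
    Tendsto (fun k => eLpNorm (fk k - f) 2 volume) atTop (𝓝 0) := by
  have h1 : ∀ k, ∫⁻ x, (ENNReal.ofReal |fk k x - f x|) ^ 2 = (eLpNorm (fk k - f) 2 volume) ^ 2 :=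
    fun k => MeB_aux_sq (fk k - f)
  simp only [h1] at h
  have h3 : ∀ a : ℝ≥0∞, (a ^ 2) ^ (1 / 2 : ℝ) = a := by
    intro a
    rw [← ENNReal.rpow_natCast, ← ENNReal.rpow_mul]
    norm_num
  have h2 := (ENNReal.continuous_rpow_const (y := (1 / 2 : ℝ))).tendsto 0 |>.comp h
  simp only [Function.comp_def, h3] at h2
  have h4 : (0 : ℝ≥0∞) ^ (1 / 2 : ℝ) = 0 := by simp
  rwa [h4] at h2

/-- upper bound for `L²` functions: subsequence converging almost everywhere, `null_left`,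
`null_right`, Fatou for `S ω` and for `Q₀` -/
theorem ext_upper (hS : Measurable S) {n : ℕ} (hn : 1 ≤ n) {K : ℝ≥0∞} (hK : K ≠ ∞)
    (h : CcBound Q₀ S n K) {f g : R2 → ℝ} (hf : Measurable f) (hg : Measurable g)
    (hf0 : ∀ x, 0 ≤ f x) (hg0 : ∀ x, 0 ≤ g x)
    (hf2 : ∫⁻ x, (ENNReal.ofReal (f x)) ^ 2 < ∞) (hg2 : ∫⁻ x, (ENNReal.ofReal (g x)) ^ 2 < ∞) :
    (∫⁻ ω, (Sp S f g ω) ^ n ∂Q₀) ^ 2
      ≤ K * (∫⁻ x, (ENNReal.ofReal (f x)) ^ 2) ^ n * (∫⁻ x, (ENNReal.ofReal (g x)) ^ 2) ^ n := by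
  obtain ⟨fk, hfk, hfl⟩ := exists_approx hf hf0 hf2
  obtain ⟨gk, hgk, hgl⟩ := exists_approx hg hg0 hg2
  have hfL := MeB_aux_sub hf hfk hfl
  have hgL := MeB_aux_sub hg hgk hgl
  -- a common subsequence
  obtain ⟨ns, hns, hfae⟩ := (tendstoInMeasure_of_tendsto_eLpNorm (p := 2) two_ne_zero
    (fun k => (hfk k).cont.aestronglyMeasurable) hf.aestronglyMeasurable hfL).exists_seq_tendsto_ae
  have hgL' : Tendsto (fun k => eLpNorm (gk (ns k) - g) 2 volume) atTop (𝓝 0) :=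
    hgL.comp hns.tendsto_atTop
  obtain ⟨ms, hms, hgae⟩ := (tendstoInMeasure_of_tendsto_eLpNorm (p := 2) two_ne_zero
    (f := fun k => gk (ns k))
    (fun k => (hgk (ns k)).cont.aestronglyMeasurable) hg.aestronglyMeasurable
    hgL').exists_seq_tendsto_ae
  set φ : ℕ → ℕ := fun k => ns (ms k) with hφ
  have hφt : Tendsto φ atTop atTop := hns.tendsto_atTop.comp hms.tendsto_atTop
  have hfae' : ∀ᵐ x : R2, Tendsto (fun k => fk (φ k) x) atTop (𝓝 (f x)) := by
    filter_upwards [hfae] with x hx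
    exact hx.comp hms.tendsto_atTop
  have hgae' : ∀ᵐ x : R2, Tendsto (fun k => gk (φ k) x) atTop (𝓝 (g x)) := hgae
  -- the null sets
  have hE1 := null_left hS hn hK h (E := {x | ¬ Tendsto (fun k => fk (φ k) x) atTop (𝓝 (f x))})
    (ae_iff.1 hfae')
  have hE2 := null_right hS hn hK h (E := {x | ¬ Tendsto (fun k => gk (φ k) x) atTop (𝓝 (g x))})
    (ae_iff.1 hgae')
  -- Fatou for the random measure
  have hfatou : ∀ᵐ ω ∂Q₀, Sp S f g ω ≤ liminf (fun k => Sp S (fk (φ k)) (gk (φ k)) ω) atTop := by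
    filter_upwards [hE1, hE2] with ω h1 h2
    have h1' : ∀ᵐ z ∂(S ω), Tendsto (fun k => fk (φ k) z.1) atTop (𝓝 (f z.1)) := by
      rw [ae_iff]
      refine measure_mono_null ?_ h1
      intro z hz
      exact ⟨hz, Set.mem_univ _⟩
    have h2' : ∀ᵐ z ∂(S ω), Tendsto (fun k => gk (φ k) z.2) atTop (𝓝 (g z.2)) := by
      rw [ae_iff]
      refine measure_mono_null ?_ h2
      intro z hz
      exact ⟨Set.mem_univ _, hz⟩
    unfold Sp
    calc ∫⁻ z, ENNReal.ofReal (f z.1) * ENNReal.ofReal (g z.2) ∂(S ω)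
        = ∫⁻ z, liminf (fun k => ENNReal.ofReal (fk (φ k) z.1) * ENNReal.ofReal (gk (φ k) z.2))
            atTop ∂(S ω) := by
          refine lintegral_congr_ae ?_
          filter_upwards [h1', h2'] with z hz1 hz2
          symm
          refine Tendsto.liminf_eq ?_
          exact ENNReal.Tendsto.mul (ENNReal.tendsto_ofReal hz1) (Or.inr ENNReal.ofReal_ne_top)
            (ENNReal.tendsto_ofReal hz2) (Or.inr ENNReal.ofReal_ne_top)
      _ ≤ _ := by
          refine lintegral_liminf_le' fun k => Measurable.aemeasurable ?_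
          have hm1 := (hfk (φ k)).cont.measurable
          have hm2 := (hgk (φ k)).cont.measurable
          exact (ENNReal.measurable_ofReal.comp (hm1.comp measurable_fst)).mul
            (ENNReal.measurable_ofReal.comp (hm2.comp measurable_snd))
  have hpow : ∀ᵐ ω ∂Q₀, (Sp S f g ω) ^ n ≤
      liminf (fun k => (Sp S (fk (φ k)) (gk (φ k)) ω) ^ n) atTop := by
    filter_upwards [hfatou] with ω hω
    have hmono : Monotone (fun a : ℝ≥0∞ => a ^ n) := fun a b hab => pow_le_pow_left' hab n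
    have := hmono.map_liminf_of_continuousAt (F := atTop)
      (fun k => Sp S (fk (φ k)) (gk (φ k)) ω) (ENNReal.continuous_pow n).continuousAt
    simp only [Function.comp_def] at this
    rw [← this]
    exact hmono hω
  -- Fatou for the probability
  have hI : ∫⁻ ω, (Sp S f g ω) ^ n ∂Q₀ ≤
      liminf (fun k => ∫⁻ ω, (Sp S (fk (φ k)) (gk (φ k)) ω) ^ n ∂Q₀) atTop :=
    (lintegral_mono_ae hpow).trans (lintegral_liminf_le' fun k =>
      ((Sp_meas hS (hfk (φ k)).cont.measurable (hgk (φ k)).cont.measurable).pow_const n).aemeasurable)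
  have hI2 : (∫⁻ ω, (Sp S f g ω) ^ n ∂Q₀) ^ 2 ≤
      liminf (fun k => (∫⁻ ω, (Sp S (fk (φ k)) (gk (φ k)) ω) ^ n ∂Q₀) ^ 2) atTop := by
    have hmono : Monotone (fun a : ℝ≥0∞ => a ^ 2) := fun a b hab => pow_le_pow_left' hab 2
    have := hmono.map_liminf_of_continuousAt (F := atTop)
      (fun k => ∫⁻ ω, (Sp S (fk (φ k)) (gk (φ k)) ω) ^ n ∂Q₀) (ENNReal.continuous_pow 2).continuousAt
    simp only [Function.comp_def] at this
    rw [← this]
    exact hmono hI
  -- the bound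
  have hfin : eLpNorm f 2 volume ≠ ∞ := by
    intro h0
    rw [MeB_aux_sq' hf0, h0] at hf2
    simp at hf2
  have hgin : eLpNorm g 2 volume ≠ ∞ := by
    intro h0
    rw [MeB_aux_sq' hg0, h0] at hg2
    simp at hg2
  have hb : ∀ (u : R2 → ℝ), Measurable u → ∀ v : R2 → ℝ, CcP v →
      ∫⁻ x, (ENNReal.ofReal (v x)) ^ 2 ≤ (eLpNorm u 2 volume + eLpNorm (v - u) 2 volume) ^ 2 := by
    intro u hu v hv
    rw [MeB_aux_sq' hv.nonneg]
    refine pow_le_pow_left' ?_ 2
    have h1 : v = u + (v - u) := by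
      ext x
      simp
    calc eLpNorm v 2 volume = eLpNorm (u + (v - u)) 2 volume := by rw [← h1]
      _ ≤ _ := eLpNorm_add_le hu.aestronglyMeasurable
          (hv.cont.aestronglyMeasurable.sub hu.aestronglyMeasurable) (by norm_num)
  have hT : Tendsto (fun k => K *
      ((eLpNorm f 2 volume + eLpNorm (fk (φ k) - f) 2 volume) ^ 2) ^ n *
      ((eLpNorm g 2 volume + eLpNorm (gk (φ k) - g) 2 volume) ^ 2) ^ n) atTop
      (𝓝 (K * ((eLpNorm f 2 volume + 0) ^ 2) ^ n * ((eLpNorm g 2 volume + 0) ^ 2) ^ n)) := by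
    have e1 : Tendsto (fun k => ((eLpNorm f 2 volume + eLpNorm (fk (φ k) - f) 2 volume) ^ 2) ^ n)
        atTop (𝓝 (((eLpNorm f 2 volume + 0) ^ 2) ^ n)) := by
      refine ((ENNReal.continuous_pow n).tendsto _).comp
        (((ENNReal.continuous_pow 2).tendsto _).comp ?_)
      exact tendsto_const_nhds.add (hfL.comp hφt)
    have e2 : Tendsto (fun k => ((eLpNorm g 2 volume + eLpNorm (gk (φ k) - g) 2 volume) ^ 2) ^ n)
        atTop (𝓝 (((eLpNorm g 2 volume + 0) ^ 2) ^ n)) := by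
      refine ((ENNReal.continuous_pow n).tendsto _).comp
        (((ENNReal.continuous_pow 2).tendsto _).comp ?_)
      exact tendsto_const_nhds.add (hgL.comp hφt)
    have n1 : ((eLpNorm f 2 volume + 0) ^ 2) ^ n ≠ ∞ := by
      rw [add_zero]
      exact ENNReal.pow_ne_top (ENNReal.pow_ne_top hfin)
    have n2 : ((eLpNorm g 2 volume + 0) ^ 2) ^ n ≠ ∞ := by
      rw [add_zero]
      exact ENNReal.pow_ne_top (ENNReal.pow_ne_top hgin)
    refine ENNReal.Tendsto.mul (ENNReal.Tendsto.mul tendsto_const_nhds (Or.inr n1) e1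
      (Or.inr hK)) (Or.inr n2) e2 (Or.inr (ENNReal.mul_ne_top hK n1))
  calc (∫⁻ ω, (Sp S f g ω) ^ n ∂Q₀) ^ 2
      ≤ liminf (fun k => (∫⁻ ω, (Sp S (fk (φ k)) (gk (φ k)) ω) ^ n ∂Q₀) ^ 2) atTop := hI2
    _ ≤ liminf (fun k => K *
      ((eLpNorm f 2 volume + eLpNorm (fk (φ k) - f) 2 volume) ^ 2) ^ n *
      ((eLpNorm g 2 volume + eLpNorm (gk (φ k) - g) 2 volume) ^ 2) ^ n) atTop := by
        refine liminf_le_liminf (Eventually.of_forall fun k => ?_)
        refine (h _ _ (hfk (φ k)) (hgk (φ k))).trans ?_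
        have b1 := hb f hf _ (hfk (φ k))
        have b2 := hb g hg _ (hgk (φ k))
        gcongr
    _ = K * ((eLpNorm f 2 volume + 0) ^ 2) ^ n * ((eLpNorm g 2 volume + 0) ^ 2) ^ n := hT.liminf_eq
    _ = _ := by rw [add_zero, add_zero, MeB_aux_sq' hf0, MeB_aux_sq' hg0]

end SHF
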