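import Pool.Agent.W_03a799_h55.Defs

/-! The operator inequality `V G V ≤ D V` for a positive definite convolution kernel `V` and
a multiplication operator `G = w ≥ 0` with `V * w ≤ D`. -/

open MeasureTheory Filter Topology
open scoped ENNReal

namespace SHF

lemma PSD_aux_two (a b : ℝ≥0∞) : 2 * (a * b) ≤ a ^ 2 + b ^ 2 := by
  rcases eq_or_ne a ∞ with rfl | ha
  · simp
  rcases eq_or_ne b ∞ with rfl | hb
  · simp
  lift a to NNReal using ha
  lift b to NNReal using hb
  have h := two_mul_le_add_sq a b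
  rw [mul_assoc] at h
  exact_mod_cast h

lemma PSD_aux_meas {ρ : R2 → ℝ} (hρ : PD ρ) :
    Measurable fun p : R2 × R2 => ENNReal.ofReal (ρ (p.1 - p.2)) :=
  (hρ.meas.comp (measurable_fst.sub measurable_snd)).ennreal_ofReal

/-- Schur test: `Bf (w u) (w u) ≤ D ∫ w u²` -/
lemma schur {ρ : R2 → ℝ} (hρ : PD ρ) {w u : R2 → ℝ≥0∞} (hw : Measurable w) (hu : Measurable u)
    {D : ℝ≥0∞} (hD : ∀ k, ∫⁻ l, ENNReal.ofReal (ρ (k - l)) * w l ≤ D) :
    Bf ρ (fun k => w k * u k) (fun k => w k * u k) ≤ D * ∫⁻ k, w k * (u k) ^ 2 := by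
  have hm := PSD_aux_meas hρ
  have hA : Measurable fun p : R2 × R2 =>
      ENNReal.ofReal (ρ (p.1 - p.2)) * w p.2 * (w p.1 * (u p.1) ^ 2) :=
    (hm.mul (hw.comp measurable_snd)).mul
      ((hw.comp measurable_fst).mul ((hu.comp measurable_fst).pow_const 2))
  have hB : Measurable fun p : R2 × R2 =>
      ENNReal.ofReal (ρ (p.1 - p.2)) * w p.1 * (w p.2 * (u p.2) ^ 2) :=
    (hm.mul (hw.comp measurable_fst)).mul
      ((hw.comp measurable_snd).mul ((hu.comp measurable_snd).pow_const 2))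
  have h1 : ∀ k l, 2 * (ENNReal.ofReal (ρ (k - l)) * (w k * u k) * (w l * u l)) ≤
      ENNReal.ofReal (ρ (k - l)) * w l * (w k * (u k) ^ 2) +
        ENNReal.ofReal (ρ (k - l)) * w k * (w l * (u l) ^ 2) := by
    intro k l
    calc 2 * (ENNReal.ofReal (ρ (k - l)) * (w k * u k) * (w l * u l))
        = (ENNReal.ofReal (ρ (k - l)) * w k * w l) * (2 * (u k * u l)) := by ring
      _ ≤ (ENNReal.ofReal (ρ (k - l)) * w k * w l) * ((u k) ^ 2 + (u l) ^ 2) := by
          gcongr
          exact PSD_aux_two _ _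
      _ = _ := by ring
  have hmk : ∀ k : R2, Measurable fun l : R2 => ENNReal.ofReal (ρ (k - l)) * w l := fun k =>
    (hm.comp (measurable_const.prodMk measurable_id)).mul hw
  have hIA : ∫⁻ k, ∫⁻ l, ENNReal.ofReal (ρ (k - l)) * w l * (w k * (u k) ^ 2) ≤
      D * ∫⁻ k, w k * (u k) ^ 2 := by
    have hwu : Measurable fun k => w k * (u k) ^ 2 := hw.mul (hu.pow_const 2)
    rw [← lintegral_const_mul D hwu]
    refine lintegral_mono fun k => ?_
    beta_reduce
    rw [lintegral_mul_const _ (hmk k)]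
    gcongr
    exact hD k
  have hIB : ∫⁻ k, ∫⁻ l, ENNReal.ofReal (ρ (k - l)) * w k * (w l * (u l) ^ 2) ≤
      D * ∫⁻ k, w k * (u k) ^ 2 := by
    rw [lintegral_lintegral_swap hB.aemeasurable]
    refine le_trans (le_of_eq ?_) hIA
    refine lintegral_congr fun l => lintegral_congr fun k => ?_
    have e : ρ (k - l) = ρ (l - k) := by
      rw [← neg_sub l k, hρ.even]
    rw [e]
  have h2 : 2 * Bf ρ (fun k => w k * u k) (fun k => w k * u k) ≤
      2 * (D * ∫⁻ k, w k * (u k) ^ 2) := by
    calc 2 * Bf ρ (fun k => w k * u k) (fun k => w k * u k)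
        = ∫⁻ k, ∫⁻ l, 2 * (ENNReal.ofReal (ρ (k - l)) * (w k * u k) * (w l * u l)) := by
          unfold Bf
          rw [← lintegral_const_mul' _ _ (by norm_num)]
          refine lintegral_congr fun k => ?_
          rw [← lintegral_const_mul' _ _ (by norm_num)]
      _ ≤ ∫⁻ k, ∫⁻ l, (ENNReal.ofReal (ρ (k - l)) * w l * (w k * (u k) ^ 2) +
            ENNReal.ofReal (ρ (k - l)) * w k * (w l * (u l) ^ 2)) :=
          lintegral_mono fun k => lintegral_mono fun l => h1 k l
      _ = (∫⁻ k, ∫⁻ l, ENNReal.ofReal (ρ (k - l)) * w l * (w k * (u k) ^ 2)) +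
            ∫⁻ k, ∫⁻ l, ENNReal.ofReal (ρ (k - l)) * w k * (w l * (u l) ^ 2) := by
          rw [← lintegral_add_left hA.lintegral_prod_right']
          refine lintegral_congr fun k => ?_
          have hAk : Measurable fun l : R2 =>
              ENNReal.ofReal (ρ (k - l)) * w l * (w k * (u k) ^ 2) :=
            hA.comp (measurable_const.prodMk measurable_id)
          exact lintegral_add_left hAk _
      _ ≤ D * (∫⁻ k, w k * (u k) ^ 2) + D * ∫⁻ k, w k * (u k) ^ 2 := add_le_add hIA hIB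
      _ = 2 * (D * ∫⁻ k, w k * (u k) ^ 2) := by ring
  exact (ENNReal.mul_le_mul_iff_right (by norm_num) (by norm_num)).1 h2

/-- `∫ w (ρ * g)² ≤ D ⟨g, ρ * g⟩` -/
theorem dg2 {ρ : R2 → ℝ} (hρ : PD ρ) {g w : R2 → ℝ≥0∞} (hg : Measurable g)
    (hw : Measurable w) (hwf : ∀ k, w k ≠ ∞) {D : ℝ≥0∞}
    (hD : ∀ k, ∫⁻ l, ENNReal.ofReal (ρ (k - l)) * w l ≤ D) (hD0 : D ≠ 0) :
    ∫⁻ k, w k * (∫⁻ l, ENNReal.ofReal (ρ (k - l)) * g l) ^ 2 ≤ D * Bf ρ g g := by
  rcases eq_or_ne (Bf ρ g g) ∞ with hinf | hfin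
  · rw [hinf, ENNReal.mul_top hD0]
    exact le_top
  have hm := PSD_aux_meas hρ
  set u : R2 → ℝ≥0∞ := fun k => ∫⁻ l, ENNReal.ofReal (ρ (k - l)) * g l with hu
  have hum : Measurable u := by
    have h : Measurable fun p : R2 × R2 => ENNReal.ofReal (ρ (p.1 - p.2)) * g p.2 :=
      hm.mul (hg.comp measurable_snd)
    exact h.lintegral_prod_right'
  have hub : ∀ k, (u k) ^ 2 ≤ Bf ρ g g := fun k => hρ.cs0 g hg k
  -- truncations of the weight
  set wN : ℕ → R2 → ℝ≥0∞ := fun N => (Metric.ball (0 : R2) N).indicator fun k => min (w k) N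
    with hwN
  have hwNm : ∀ N, Measurable (wN N) := fun N =>
    (hw.min measurable_const).indicator Metric.isOpen_ball.measurableSet
  have hwle : ∀ N k, wN N k ≤ w k := by
    intro N k
    simp only [hwN, Set.indicator]
    split_ifs
    · exact min_le_left _ _
    · exact zero_le
  have hwmono : ∀ k, Monotone fun N => wN N k := by
    intro k N M hNM
    simp only [hwN, Set.indicator]
    by_cases h1 : k ∈ Metric.ball (0 : R2) N
    · have h2 : k ∈ Metric.ball (0 : R2) M :=
        Metric.ball_subset_ball (by exact_mod_cast hNM) h1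
      rw [if_pos h1, if_pos h2]
      exact min_le_min le_rfl (by exact_mod_cast hNM)
    · rw [if_neg h1]
      exact zero_le
  have key : ∀ N, ∫⁻ k, wN N k * (u k) ^ 2 ≤ D * Bf ρ g g := by
    intro N
    set T := ∫⁻ k, wN N k * (u k) ^ 2 with hT
    have hTfin : T ≠ ∞ := by
      have h1 : T ≤ ∫⁻ k, (Metric.ball (0 : R2) N).indicator (fun _ => (N : ℝ≥0∞) * Bf ρ g g) k := by
        refine lintegral_mono fun k => ?_
        simp only [hwN, Set.indicator]
        split_ifs with h
        · exact mul_le_mul' (min_le_right _ _) (hub k)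
        · simp
      rw [lintegral_indicator Metric.isOpen_ball.measurableSet, setLIntegral_const] at h1
      refine ne_top_of_le_ne_top ?_ h1
      exact ENNReal.mul_ne_top (ENNReal.mul_ne_top (ENNReal.natCast_ne_top N) hfin)
        measure_ball_lt_top.ne
    rcases eq_or_ne T 0 with h0 | h0
    · rw [h0]
      exact zero_le
    have hTB : T = Bf ρ (fun k => wN N k * u k) g := by
      unfold Bf
      rw [hT]
      refine lintegral_congr fun k => ?_
      have e : ∀ l, ENNReal.ofReal (ρ (k - l)) * (wN N k * u k) * g l =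
          (wN N k * u k) * (ENNReal.ofReal (ρ (k - l)) * g l) := fun l => by ring
      simp only [e]
      have hgk : Measurable fun l : R2 => ENNReal.ofReal (ρ (k - l)) * g l :=
        (hm.comp (measurable_const.prodMk measurable_id)).mul hg
      rw [lintegral_const_mul _ hgk, sq, mul_assoc]
    have hs := schur hρ (hwNm N) hum (D := D) fun k =>
      (lintegral_mono fun l => mul_le_mul' le_rfl (hwle N l)).trans (hD k)
    have hc := hρ.cs (fun k => wN N k * u k) g ((hwNm N).mul hum) hg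
    rw [← hTB] at hc
    have h3 : T * T ≤ T * (D * Bf ρ g g) := by
      calc T * T = T ^ 2 := (sq T).symm
        _ ≤ _ := hc
        _ ≤ (D * T) * Bf ρ g g := by gcongr
        _ = T * (D * Bf ρ g g) := by ring
    exact (ENNReal.mul_le_mul_iff_right h0 hTfin).1 h3
  have hlim : Tendsto (fun N => ∫⁻ k, wN N k * (u k) ^ 2) atTop
      (𝓝 (∫⁻ k, w k * (u k) ^ 2)) := by
    refine lintegral_tendsto_of_tendsto_of_monotone
      (fun N => ((hwNm N).mul (hum.pow_const 2)).aemeasurable)
      (Eventually.of_forall fun k N M hNM => mul_le_mul' (hwmono k hNM) le_rfl)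
      (Eventually.of_forall fun k => ?_)
    obtain ⟨N₁, hN₁⟩ := ENNReal.exists_nat_gt (hwf k)
    obtain ⟨N₂, hN₂⟩ := exists_nat_gt ‖k‖
    refine tendsto_const_nhds.congr' ?_
    filter_upwards [eventually_ge_atTop (max N₁ N₂)] with N hN
    have h1 : k ∈ Metric.ball (0 : R2) N := by
      rw [mem_ball_zero_iff]
      have : (N₂ : ℝ) ≤ N := by exact_mod_cast (le_max_right _ _).trans hN
      linarith
    have h2 : w k ≤ N := by
      refine hN₁.le.trans ?_
      exact_mod_cast (le_max_left _ _).trans hN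
    simp only [hwN, Set.indicator, if_pos h1, min_eq_left h2]
  exact le_of_tendsto' hlim key

end SHF
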