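import Pool.Agent.W_03a799_h55.Heat

/-! Fourier side of the heat operator on bounded functions with bounded support. -/

open MeasureTheory Filter Topology
open scoped ENNReal NNReal FourierTransform

namespace SHF

variable {E : Type*} [NormedAddCommGroup E] [InnerProductSpace ℝ E]
  [FiniteDimensional ℝ E] [MeasurableSpace E] [BorelSpace E]

/-- bounded, bounded support, nonnegative, measurable -/
structure Nice (g : E → ℝ) : Prop where
  meas : Measurable g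
  nonneg : ∀ x, 0 ≤ g x
  bdd : ∃ N : ℝ, ∀ x, g x ≤ N
  supp : ∃ r : ℝ, ∀ x, r < ‖x‖ → g x = 0

lemma Nice.integrable {g : E → ℝ} (hg : Nice g) : Integrable g := by
  obtain ⟨N, hN⟩ := hg.bdd
  obtain ⟨r, hr⟩ := hg.supp
  have h1 : Integrable (Set.indicator (Metric.closedBall (0 : E) r) fun _ => N) :=
    (integrable_indicator_iff Metric.isClosed_closedBall.measurableSet).2
      (integrableOn_const (isCompact_closedBall (0 : E) r).measure_lt_top.ne)
  refine h1.mono' hg.meas.aestronglyMeasurable (ae_of_all _ fun x => ?_)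
  rw [Real.norm_eq_abs, abs_of_nonneg (hg.nonneg x)]
  by_cases hx : x ∈ Metric.closedBall (0 : E) r
  · rw [Set.indicator_of_mem hx]
    exact hN x
  · rw [Set.indicator_of_notMem hx]
    rw [mem_closedBall_zero_iff, not_le] at hx
    exact (hr x hx).le

/-- the real valued heat flow of `g` -/
noncomputable def hg (s : ℝ) (g : E → ℝ) (x : E) : ℝ := ∫ y, hk s (x - y) * g y

lemma Planch_hk_le {s : ℝ} (hs : 0 < s) (x : E) :
    ‖hk s x‖ ≤ (2 * Real.pi * s) ^ (-(Module.finrank ℝ E : ℝ) / 2) := by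
  rw [Real.norm_eq_abs, abs_of_pos (hk_pos hs x)]
  unfold hk
  have h1 : Real.exp (-‖x‖ ^ 2 / (2 * s)) ≤ 1 := by
    rw [Real.exp_le_one_iff]
    exact div_nonpos_of_nonpos_of_nonneg (by nlinarith [sq_nonneg ‖x‖]) (by positivity)
  exact mul_le_of_le_one_right (by positivity) h1

lemma Planch_int {s : ℝ} (hs : 0 < s) {g : E → ℝ} (hg' : Nice g) (x : E) :
    Integrable fun y => hk s (x - y) * g y := by
  refine hg'.integrable.bdd_mul ?_ (ae_of_all _ fun y => Planch_hk_le hs (x - y))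
  exact ((hk_cont s).comp (continuous_const.sub continuous_id)).aestronglyMeasurable

lemma PE_eq_hg {s : ℝ} (hs : 0 < s) {g : E → ℝ} (hg' : Nice g) (x : E) :
    PE s (fun y => ENNReal.ofReal (g y)) x = ENNReal.ofReal (hg s g x) := by
  unfold PE hg
  rw [ofReal_integral_eq_lintegral_ofReal (Planch_int hs hg' x)
    (ae_of_all _ fun y => mul_nonneg (hk_pos hs _).le (hg'.nonneg y))]
  refine lintegral_congr fun y => ?_
  rw [ENNReal.ofReal_mul (hk_pos hs _).le]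

lemma hg_nonneg {s : ℝ} (hs : 0 < s) {g : E → ℝ} (hg' : Nice g) (x : E) : 0 ≤ hg s g x :=
  integral_nonneg fun y => mul_nonneg (hk_pos hs _).le (hg'.nonneg y)

lemma hg_cont {s : ℝ} (hs : 0 < s) {g : E → ℝ} (hg' : Nice g) : Continuous (hg s g) := by
  unfold hg
  refine continuous_of_dominated (bound := fun y =>
    (2 * Real.pi * s) ^ (-(Module.finrank ℝ E : ℝ) / 2) * g y)
    (fun x => (Planch_int hs hg' x).aestronglyMeasurable) (fun x => ae_of_all _ fun y => ?_)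
    (hg'.integrable.const_mul _) (ae_of_all _ fun y => ?_)
  · rw [norm_mul, Real.norm_eq_abs (g y), abs_of_nonneg (hg'.nonneg y)]
    exact mul_le_mul_of_nonneg_right (Planch_hk_le hs _) (hg'.nonneg y)
  · exact ((hk_cont s).comp (continuous_id.sub continuous_const)).mul continuous_const

lemma Planch_hg_conv (s : ℝ) (g : E → ℝ) :
    hg s g = convolution g (hk s) (ContinuousLinearMap.mul ℝ ℝ) volume := by
  funext x
  unfold hg convolution
  refine integral_congr_ae (ae_of_all _ fun y => ?_)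
  simp only [ContinuousLinearMap.mul_apply']
  exact mul_comm _ _

lemma hg_integrable {s : ℝ} (hs : 0 < s) {g : E → ℝ} (hg' : Nice g) : Integrable (hg s g) := by
  rw [Planch_hg_conv]
  exact hg'.integrable.integrable_convolution _ (hk_integrable hs)

lemma hg_bdd {s : ℝ} (hs : 0 < s) {g : E → ℝ} (hg' : Nice g) :
    ∃ N : ℝ, ∀ x, hg s g x ≤ N := by
  refine ⟨(2 * Real.pi * s) ^ (-(Module.finrank ℝ E : ℝ) / 2) * ∫ y, g y, fun x => ?_⟩
  unfold hg
  rw [← integral_const_mul]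
  refine integral_mono (Planch_int hs hg' x) (hg'.integrable.const_mul _) fun y => ?_
  exact mul_le_mul_of_nonneg_right ((le_abs_self _).trans (Planch_hk_le hs _)) (hg'.nonneg y)

/-- Fourier transform of the Gaussian density -/
lemma Planch_fourier_hk {s : ℝ} (hs : 0 < s) (ξ : E) :
    𝓕 (fun x : E => (hk s x : ℂ)) ξ = (Real.exp (-2 * Real.pi ^ 2 * s * ‖ξ‖ ^ 2) : ℂ) := by
  set b : ℂ := ((1 / (2 * s) : ℝ) : ℂ) with hb
  have hb0 : 0 < b.re := by
    rw [hb, Complex.ofReal_re]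
    positivity
  have h1 := fourier_gaussian_innerProductSpace (V := E) hb0 ξ
  set C : ℝ := (2 * Real.pi * s) ^ (-(Module.finrank ℝ E : ℝ) / 2) with hC
  have h2 : (fun x : E => (hk s x : ℂ)) = fun x : E => (C : ℂ) • Complex.exp (-b * ‖x‖ ^ 2) := by
    funext x
    unfold hk
    rw [Complex.ofReal_mul, ← hC, Complex.ofReal_exp, smul_eq_mul, hb]
    congr 2
    push_cast
    field_simp
  have h3 : 𝓕 (fun x : E => (C : ℂ) • Complex.exp (-b * ‖x‖ ^ 2)) ξ =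
      (C : ℂ) • 𝓕 (fun x : E => Complex.exp (-b * ‖x‖ ^ 2)) ξ := by
    rw [Real.fourier_eq, Real.fourier_eq, ← integral_smul]
    refine integral_congr_ae (ae_of_all _ fun v => ?_)
    exact smul_comm _ _ _
  rw [h2, h3, h1]
  have hpi := Real.pi_pos
  have h4 : ((Real.pi : ℂ) / b) ^ ((Module.finrank ℝ E : ℂ) / 2) =
      (((2 * Real.pi * s) ^ ((Module.finrank ℝ E : ℝ) / 2) : ℝ) : ℂ) := by
    rw [Complex.ofReal_cpow (by positivity), hb]
    congr 1
    · push_cast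
      field_simp
    · push_cast
      rfl
  have h5 : Complex.exp (-(Real.pi : ℂ) ^ 2 * ‖ξ‖ ^ 2 / b) =
      (Real.exp (-2 * Real.pi ^ 2 * s * ‖ξ‖ ^ 2) : ℂ) := by
    rw [Complex.ofReal_exp, hb]
    congr 1
    push_cast
    field_simp
  rw [h4, h5, smul_eq_mul, ← mul_assoc, ← Complex.ofReal_mul, hC,
    ← Real.rpow_add (by positivity)]
  have h6 : -(Module.finrank ℝ E : ℝ) / 2 + (Module.finrank ℝ E : ℝ) / 2 = 0 := by ring
  rw [h6, Real.rpow_zero, Complex.ofReal_one, one_mul]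

lemma Planch_hgC_conv (s : ℝ) (g : E → ℝ) : (fun x => (hg s g x : ℂ)) =
    convolution (fun x => (g x : ℂ)) (fun x => (hk s x : ℂ)) (ContinuousLinearMap.mul ℂ ℂ)
      volume := by
  funext x
  unfold hg convolution
  rw [← integral_complex_ofReal]
  refine integral_congr_ae (ae_of_all _ fun y => ?_)
  simp only [ContinuousLinearMap.mul_apply']
  push_cast
  exact mul_comm _ _

lemma Planch_intC {g : E → ℝ} (hg : Integrable g) : Integrable fun x => (g x : ℂ) := hg.ofReal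

/-- `𝓕 (P_s g) ξ = exp(-2π² s |ξ|²) 𝓕 g ξ` -/
lemma fourier_hg {s : ℝ} (hs : 0 < s) {g : E → ℝ} (hg' : Nice g) (ξ : E) :
    𝓕 (fun x => (hg s g x : ℂ)) ξ
      = (Real.exp (-2 * Real.pi ^ 2 * s * ‖ξ‖ ^ 2) : ℂ) * 𝓕 (fun x => (g x : ℂ)) ξ := by
  rw [Planch_hgC_conv, Real.fourier_mul_convolution_eq (Planch_intC hg'.integrable)
    (Planch_intC (hk_integrable hs)), Planch_fourier_hk hs, mul_comm]

lemma Planch_fourier_cont {h : E → ℂ} (hh : Integrable h) : Continuous (𝓕 h) :=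
  VectorFourier.fourierIntegral_continuous Real.continuous_fourierChar
    (by exact continuous_inner) hh

lemma Planch_fourier_le (h : E → ℂ) (ξ : E) : ‖𝓕 h ξ‖ ≤ ∫ x, ‖h x‖ :=
  VectorFourier.norm_fourierIntegral_le_integral_norm _ _ _ h ξ

lemma Planch_gauss_integrable {s : ℝ} (hs : 0 < s) :
    Integrable fun ξ : E => (Real.exp (-2 * Real.pi ^ 2 * s * ‖ξ‖ ^ 2) : ℂ) := by
  have h1 := GaussianFourier.integrable_cexp_neg_mul_sq_norm_add (V := E)
    (b := ((2 * Real.pi ^ 2 * s : ℝ) : ℂ)) (by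
      rw [Complex.ofReal_re]
      have := Real.pi_pos
      positivity) 0 0
  refine h1.congr (ae_of_all _ fun ξ => ?_)
  simp only [zero_mul, add_zero]
  rw [Complex.ofReal_exp]
  congr 1
  push_cast
  ring

lemma fourier_hg_integrable {s : ℝ} (hs : 0 < s) {g : E → ℝ} (hg' : Nice g) :
    Integrable (𝓕 (fun x => (hg s g x : ℂ))) := by
  have h1 : 𝓕 (fun x => (hg s g x : ℂ)) = fun ξ : E =>
      (Real.exp (-2 * Real.pi ^ 2 * s * ‖ξ‖ ^ 2) : ℂ) * 𝓕 (fun x => (g x : ℂ)) ξ :=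
    funext fun ξ => fourier_hg hs hg' ξ
  rw [h1]
  exact (Planch_gauss_integrable hs).mul_bdd
    (Planch_fourier_cont (Planch_intC hg'.integrable)).aestronglyMeasurable
    (ae_of_all _ fun ξ => Planch_fourier_le _ ξ)

lemma Planch_inv {s : ℝ} (hs : 0 < s) {g : E → ℝ} (hg' : Nice g) :
    𝓕⁻ (𝓕 (fun x => (hg s g x : ℂ))) = fun x => (hg s g x : ℂ) :=
  Continuous.fourierInv_fourier_eq (Complex.continuous_ofReal.comp (hg_cont hs hg'))
    (Planch_intC (hg_integrable hs hg')) (fourier_hg_integrable hs hg')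

/-- inversion -/
lemma hg_inv {s : ℝ} (hs : 0 < s) {g : E → ℝ} (hg' : Nice g) (x : E) :
    (hg s g x : ℂ) = ∫ ξ, 𝓕 (fun x => (hg s g x : ℂ)) ξ
        * Complex.exp (2 * Real.pi * Complex.I * (inner ℝ ξ x : ℝ)) := by
  have h1 := congrFun (Planch_inv hs hg') x
  rw [Real.fourierInv_eq'] at h1
  have h2 : (hg s g x : ℂ) = ∫ v, Complex.exp (((2 * Real.pi * inner ℝ v x : ℝ) : ℂ) * Complex.I) •
      𝓕 (fun x => (hg s g x : ℂ)) v := h1.symm
  rw [h2]
  refine integral_congr_ae (ae_of_all _ fun v => ?_)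
  show Complex.exp (((2 * Real.pi * inner ℝ v x : ℝ) : ℂ) * Complex.I) •
      𝓕 (fun x => (hg s g x : ℂ)) v = _
  rw [smul_eq_mul, mul_comm]
  congr 2
  push_cast
  ring

/-- modulus of the Fourier transform -/
noncomputable def Fm (g : E → ℝ) (ξ : E) : ℝ≥0∞ :=
  ENNReal.ofReal ‖𝓕 (fun x => (g x : ℂ)) ξ‖

/-- modulus of the Fourier transform of `P_s g` -/
noncomputable def Fs (s : ℝ) (g : E → ℝ) (ξ : E) : ℝ≥0∞ :=
  ENNReal.ofReal (Real.exp (-2 * Real.pi ^ 2 * s * ‖ξ‖ ^ 2)) * Fm g ξ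

lemma Fm_meas {g : E → ℝ} (hg' : Nice g) : Measurable (Fm g) :=
  (Planch_fourier_cont (Planch_intC hg'.integrable)).norm.measurable.ennreal_ofReal

lemma Fs_meas (s : ℝ) {g : E → ℝ} (hg' : Nice g) : Measurable (Fs s g) := by
  refine Measurable.mul ?_ (Fm_meas hg')
  exact (by fun_prop : Continuous fun ξ : E =>
    Real.exp (-2 * Real.pi ^ 2 * s * ‖ξ‖ ^ 2)).measurable.ennreal_ofReal

lemma Planch_Fs_eq {s : ℝ} (hs : 0 < s) {g : E → ℝ} (hg' : Nice g) (ξ : E) :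
    Fs s g ξ = ENNReal.ofReal ‖𝓕 (fun x => (hg s g x : ℂ)) ξ‖ := by
  unfold Fs Fm
  rw [fourier_hg hs hg', norm_mul, Complex.norm_real, Real.norm_eq_abs,
    abs_of_pos (Real.exp_pos _), ENNReal.ofReal_mul (Real.exp_pos _).le]

lemma Planch_sq {h : E → ℂ} (hh : Integrable h) (hF : Integrable (𝓕 h))
    (hinv : 𝓕⁻ (𝓕 h) = h) : ∫ ξ, ‖𝓕 h ξ‖ ^ 2 = ∫ x, ‖h x‖ ^ 2 := by
  have h0 := VectorFourier.integral_sesq_fourierIntegral_eq_neg_flip (innerSL ℂ) (L := innerₗ E)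
      Real.continuous_fourierChar continuous_inner hh hF
  rw [flip_innerₗ] at h0
  have h1 : ∫ ξ, inner ℂ (𝓕 h ξ) (𝓕 h ξ) = ∫ x, inner ℂ (h x) (𝓕⁻ (𝓕 h) x) := h0
  rw [hinv] at h1
  have h2 : ∀ z : ℂ, inner ℂ z z = ((‖z‖ ^ 2 : ℝ) : ℂ) := fun z => by
    rw [inner_self_eq_norm_sq_to_K]
    push_cast
    rfl
  simp only [h2] at h1
  rw [integral_complex_ofReal, integral_complex_ofReal] at h1
  exact_mod_cast h1

/-- Plancherel for `P_s g` -/
theorem planch_s {s : ℝ} (hs : 0 < s) {g : E → ℝ} (hg' : Nice g) :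
    ∫⁻ x, (PE s (fun y => ENNReal.ofReal (g y)) x) ^ 2 = ∫⁻ ξ, (Fs s g ξ) ^ 2 := by
  have h1 : ∫ ξ, ‖𝓕 (fun x => ((hg s g x : ℝ) : ℂ)) ξ‖ ^ 2 = ∫ x, ‖((hg s g x : ℝ) : ℂ)‖ ^ 2 :=
    Planch_sq (Planch_intC (hg_integrable hs hg')) (fourier_hg_integrable hs hg')
    (Planch_inv hs hg')
  obtain ⟨N, hN⟩ := hg_bdd hs hg'
  have hN' : ∀ x, ‖((hg s g x : ℝ) : ℂ)‖ ≤ N := fun x => by
    rw [Complex.norm_real, Real.norm_eq_abs, abs_of_nonneg (hg_nonneg hs hg' x)]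
    exact hN x
  have h2 : Integrable fun x => ‖((hg s g x : ℝ) : ℂ)‖ ^ 2 := by
    have h3 : Integrable fun x => ‖((hg s g x : ℝ) : ℂ)‖ :=
      (Planch_intC (hg_integrable hs hg')).norm
    have h4 := h3.bdd_mul h3.aestronglyMeasurable (ae_of_all _ fun x => by
      rw [norm_norm]
      exact hN' x)
    refine h4.congr (ae_of_all _ fun x => ?_)
    exact (sq _).symm
  have h5 : Integrable fun ξ => ‖𝓕 (fun x => ((hg s g x : ℝ) : ℂ)) ξ‖ ^ 2 := by
    have h3 : Integrable fun ξ => ‖𝓕 (fun x => ((hg s g x : ℝ) : ℂ)) ξ‖ :=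
      (fourier_hg_integrable hs hg').norm
    have h4 := h3.bdd_mul h3.aestronglyMeasurable (ae_of_all _ fun x => by
      rw [norm_norm]
      exact Planch_fourier_le _ x)
    refine h4.congr (ae_of_all _ fun x => ?_)
    exact (sq _).symm
  have h6 : ∀ x, (PE s (fun y => ENNReal.ofReal (g y)) x) ^ 2 =
      ENNReal.ofReal (‖((hg s g x : ℝ) : ℂ)‖ ^ 2) := fun x => by
    rw [PE_eq_hg hs hg', ← ENNReal.ofReal_pow (hg_nonneg hs hg' x), Complex.norm_real,
      Real.norm_eq_abs, sq_abs]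
  have h7 : ∀ ξ, (Fs s g ξ) ^ 2 =
      ENNReal.ofReal (‖𝓕 (fun x => ((hg s g x : ℝ) : ℂ)) ξ‖ ^ 2) := fun ξ => by
    rw [Planch_Fs_eq hs hg', ← ENNReal.ofReal_pow (norm_nonneg _)]
  rw [lintegral_congr h6, lintegral_congr h7,
    ← ofReal_integral_eq_lintegral_ofReal h2 (ae_of_all _ fun x => sq_nonneg _),
    ← ofReal_integral_eq_lintegral_ofReal h5 (ae_of_all _ fun x => sq_nonneg _)]
  exact congrArg ENNReal.ofReal h1.symm

/-- `∫ |𝓕 g|² ≤ ∫ g²` -/
theorem planch_0 {g : E → ℝ} (hg' : Nice g) :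
    ∫⁻ ξ, (Fm g ξ) ^ 2 ≤ ∫⁻ x, (ENNReal.ofReal (g x)) ^ 2 := by
  have h1 : ∀ k : ℕ, ∫⁻ ξ, (Fs (1 / ((k : ℝ) + 1)) g ξ) ^ 2 ≤
      ∫⁻ x, (ENNReal.ofReal (g x)) ^ 2 := by
    intro k
    have hk : (0 : ℝ) < 1 / ((k : ℝ) + 1) := by positivity
    rw [← planch_s hk hg']
    exact PE_contr hk hg'.meas.ennreal_ofReal
  have h2 : ∀ ξ : E, Tendsto (fun k : ℕ => (Fs (1 / ((k : ℝ) + 1)) g ξ) ^ 2) atTop
      (𝓝 ((Fm g ξ) ^ 2)) := by
    intro ξ
    have h3 : Tendsto (fun k : ℕ => Real.exp (-2 * Real.pi ^ 2 * (1 / ((k : ℝ) + 1)) * ‖ξ‖ ^ 2))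
        atTop (𝓝 1) := by
      have h4 : Tendsto (fun k : ℕ => -2 * Real.pi ^ 2 * (1 / ((k : ℝ) + 1)) * ‖ξ‖ ^ 2) atTop
          (𝓝 (-2 * Real.pi ^ 2 * 0 * ‖ξ‖ ^ 2)) :=
        (tendsto_one_div_add_atTop_nhds_zero_nat.const_mul _).mul_const _
      have h5 := (Real.continuous_exp.tendsto _).comp h4
      have h6 : Real.exp (-2 * Real.pi ^ 2 * 0 * ‖ξ‖ ^ 2) = 1 := by
        rw [mul_zero, zero_mul, Real.exp_zero]
      rw [h6] at h5
      exact h5
    have h7 : Tendsto (fun k : ℕ => Fs (1 / ((k : ℝ) + 1)) g ξ) atTop (𝓝 (Fm g ξ)) := by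
      have h8 := ENNReal.Tendsto.mul_const (b := Fm g ξ) (ENNReal.tendsto_ofReal h3)
        (Or.inr ENNReal.ofReal_ne_top)
      rw [ENNReal.ofReal_one, one_mul] at h8
      exact h8
    exact ENNReal.Tendsto.pow h7
  have h9 : ∫⁻ ξ, (Fm g ξ) ^ 2 =
      ∫⁻ ξ, liminf (fun k : ℕ => (Fs (1 / ((k : ℝ) + 1)) g ξ) ^ 2) atTop :=
    lintegral_congr fun ξ => (h2 ξ).liminf_eq.symm
  rw [h9]
  refine (lintegral_liminf_le fun k => (Fs_meas _ hg').pow_const 2).trans ?_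
  refine (liminf_le_liminf (Eventually.of_forall h1)).trans ?_
  exact le_of_eq tendsto_const_nhds.liminf_eq

end SHF
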