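import Pool.Agent.W_03a799_h55.Step
import Pool.Agent.W_03a799_h55.FKL
import Pool.Agent.W_03a799_h55.Prd

/-! From the form inequality to the moment bound. -/

open MeasureTheory Filter Topology
open scoped ENNReal NNReal

namespace SHF

universe u

variable {n : ℕ}

/-- the scalar limit -/
private lemma UpA_lim (lam t v : ℝ) :
    Tendsto (fun m : ℕ => (1 + lam * (t / (m + 1))
        + (t / (m + 1) * v) ^ 2 * Real.exp (t / (m + 1) * v)) ^ (2 * (m + 1))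
        * Real.exp (t / (m + 1) * v)) atTop (𝓝 (Real.exp (2 * lam * t))) := by
  have hinv : Tendsto (fun m : ℕ => t / ((m : ℝ) + 1)) atTop (𝓝 0) := by
    have h1 : Tendsto (fun m : ℕ => ((m : ℝ) + 1)⁻¹) atTop (𝓝 0) :=
      tendsto_inv_atTop_zero.comp (tendsto_atTop_add_const_right _ 1
        tendsto_natCast_atTop_atTop)
    simpa [div_eq_mul_inv] using h1.const_mul t
  have hexp : Tendsto (fun m : ℕ => Real.exp (t / ((m : ℝ) + 1) * v)) atTop (𝓝 1) := by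
    have h2 : Tendsto (fun m : ℕ => t / ((m : ℝ) + 1) * v) atTop (𝓝 0) := by
      simpa using hinv.mul_const v
    have h3 := (Real.continuous_exp.tendsto 0).comp h2
    rw [Real.exp_zero] at h3
    exact h3
  -- the function `g`
  set g : ℕ → ℝ := fun m => lam * (t / (m : ℝ))
        + (t / (m : ℝ) * v) ^ 2 * Real.exp (t / (m : ℝ) * v) with hg
  have hg1 : Tendsto (fun m : ℕ => ((m + 1 : ℕ) : ℝ) * g (m + 1)) atTop (𝓝 (lam * t)) := by
    have h4 : (fun m : ℕ => ((m + 1 : ℕ) : ℝ) * g (m + 1)) = fun m : ℕ => lam * t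
        + (t / ((m : ℝ) + 1)) * (t * v ^ 2 * Real.exp (t / ((m : ℝ) + 1) * v)) := by
      funext m
      have hm : ((m : ℝ) + 1) ≠ 0 := by positivity
      simp only [hg]
      push_cast
      field_simp
    rw [h4]
    have h5 : Tendsto (fun m : ℕ => lam * t
        + (t / ((m : ℝ) + 1)) * (t * v ^ 2 * Real.exp (t / ((m : ℝ) + 1) * v))) atTop
        (𝓝 (lam * t + 0 * (t * v ^ 2 * 1))) :=
      tendsto_const_nhds.add (hinv.mul (hexp.const_mul (t * v ^ 2)))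
    simpa using h5
  have hg2 : Tendsto (fun m : ℕ => (m : ℝ) * g m) atTop (𝓝 (lam * t)) :=
    (tendsto_add_atTop_iff_nat (f := fun m : ℕ => (m : ℝ) * g m) 1).1 hg1
  have hg3 := Real.tendsto_one_add_pow_exp_of_tendsto hg2
  have hg4 : Tendsto (fun m : ℕ => (1 + g (m + 1)) ^ (m + 1)) atTop (𝓝 (Real.exp (lam * t))) :=
    (tendsto_add_atTop_iff_nat (f := fun m : ℕ => (1 + g m) ^ m) 1).2 hg3
  have hg5 := (hg4.pow 2).mul hexp
  have e1 : Real.exp (lam * t) ^ 2 * 1 = Real.exp (2 * lam * t) := by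
    rw [mul_one, ← Real.exp_nat_mul]
    congr 1
    push_cast
    ring
  rw [e1] at hg5
  refine hg5.congr fun m => ?_
  simp only [hg]
  push_cast
  rw [← pow_mul, mul_comm (m + 1) 2]
  ring

/-- from the form inequality to the moment: `step`, `trot_upper`, Cauchy-Schwarz, `fk_lim`;
`(1 + λt/m + O(m⁻²))^m → e^{λt}` -/
theorem upper_pot {R ρ : R2 → ℝ} {b lam : ℝ} (h : Pot n R ρ b lam) {C : ℝ} (hC : ∀ z, R z ≤ C)
    {Ω : Type u} [MeasurableSpace Ω] {W : Fin n × Fin 2 → ℝ≥0 → Ω → ℝ} {P : Measure Ω}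
    (hW : BMfam W P) {t : ℝ≥0} (ht : 0 < t) {φ ψ : R2 → ℝ} (hφ : Measurable φ)
    (hψ : Measurable ψ) (hφ2 : ∫⁻ x, (ENNReal.ofReal (φ x)) ^ 2 < ∞)
    (hψ2 : ∫⁻ x, (ENNReal.ofReal (ψ x)) ^ 2 < ∞) :
    (Mom W P b R t φ ψ) ^ 2 ≤ ENNReal.ofReal (Real.exp (2 * lam * t))
      * (∫⁻ x, (ENNReal.ofReal (φ x)) ^ 2) ^ n * (∫⁻ x, (ENNReal.ofReal (ψ x)) ^ 2) ^ n := by
  have hC0 : 0 ≤ C := (h.hR0 0).trans (hC 0)
  set v : ℝ := b * n ^ 2 * C with hvdef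
  have hv0 : 0 ≤ v := by
    have := h.hb
    positivity
  have hVc : Continuous (VV b R : XX n → ℝ) := VV_cont h.hRc
  have hV0 : ∀ x : XX n, 0 ≤ VV b R x := VV_nonneg h.hb h.hR0
  have hv : ∀ x : XX n, VV b R x ≤ v := VV_le h.hb hC0 hC
  have hΦ : Measurable (tens φ : XX n → ℝ≥0∞) := tens_meas hφ
  have hΨ : Measurable (tens ψ : XX n → ℝ≥0∞) := tens_meas hψ
  have eΦ := tens_sq (n := n) hφ
  have eΨ := tens_sq (n := n) hψ
  have hΦ2 : ∫⁻ x : XX n, (tens φ x) ^ 2 < ∞ := by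
    rw [eΦ]
    exact ENNReal.pow_lt_top hφ2
  have hΨ2 : ∫⁻ x : XX n, (tens ψ x) ^ 2 < ∞ := by
    rw [eΨ]
    exact ENNReal.pow_lt_top hψ2
  have ht' : (0 : ℝ) < t := by exact_mod_cast ht
  have hlim := fk_lim hW hVc hV0 hv ht hΦ hΨ hΦ2 hΨ2
  have hlim2 : Tendsto (fun m : ℕ =>
      (∫⁻ x : XX n, tens φ x * (KT ((t : ℝ) / (m + 1)) (VV b R))^[m + 1] (tens ψ) x) ^ 2) atTop
      (𝓝 ((Mom W P b R t φ ψ) ^ 2)) := by
    have := ENNReal.Tendsto.pow (n := 2) hlim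
    exact this
  have hl := h.hl
  -- the bound for each `m`
  have hbd : ∀ m : ℕ,
      (∫⁻ x : XX n, tens φ x * (KT ((t : ℝ) / (m + 1)) (VV b R))^[m + 1] (tens ψ) x) ^ 2 ≤
      ENNReal.ofReal ((1 + lam * ((t : ℝ) / (m + 1))
        + ((t : ℝ) / (m + 1) * v) ^ 2 * Real.exp ((t : ℝ) / (m + 1) * v)) ^ (2 * (m + 1))
        * Real.exp ((t : ℝ) / (m + 1) * v)) *
        ((∫⁻ x : XX n, (tens φ x) ^ 2) * ∫⁻ x : XX n, (tens ψ x) ^ 2) := by
    intro m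
    have hτ : (0 : ℝ) < (t : ℝ) / (m + 1) := by positivity
    have hc : 1 ≤ 1 + lam * ((t : ℝ) / (m + 1))
        + ((t : ℝ) / (m + 1) * v) ^ 2 * Real.exp ((t : ℝ) / (m + 1) * v) := by
      have h1 : 0 ≤ lam * ((t : ℝ) / (m + 1)) := by positivity
      have h2 : 0 ≤ ((t : ℝ) / (m + 1) * v) ^ 2 * Real.exp ((t : ℝ) / (m + 1) * v) := by
        positivity
      linarith
    have h3 := trot_upper (E := XX n) hVc.measurable hV0 hv hτ hc
      (fun g hg => step h hτ hv hg) hΨ (m + 1)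
    have h4 := cs_lint hΦ (KT_iter_meas (τ := (t : ℝ) / (m + 1)) hVc.measurable hΨ (m + 1))
    calc _ ≤ (∫⁻ x : XX n, (tens φ x) ^ 2) *
          ∫⁻ x : XX n, ((KT ((t : ℝ) / (m + 1)) (VV b R))^[m + 1] (tens ψ) x) ^ 2 := h4
      _ ≤ _ := mul_le_mul_right h3 _
      _ = _ := mul_left_comm _ _ _
  have hlimR := (ENNReal.Tendsto.mul_const (b := ((∫⁻ x : XX n, (tens φ x) ^ 2) *
      ∫⁻ x : XX n, (tens ψ x) ^ 2)) (ENNReal.tendsto_ofReal (UpA_lim lam (t : ℝ) v))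
      (Or.inr (ENNReal.mul_ne_top hΦ2.ne hΨ2.ne)))
  have := le_of_tendsto_of_tendsto' hlim2 hlimR hbd
  rw [eΦ, eΨ] at this
  rw [mul_assoc]
  exact this

end SHF
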