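import Pool.Agent.W_03a799_h55.Geo

/-! Pointwise bounds on the weights, part A: the terms `ν` with `s_ν ≥ s/8`. -/

open MeasureTheory Filter Topology

namespace SHF

variable {n : ℕ}

lemma ss_pos {m : ℝ} (hm : 0 < m) (x : XX n) : 0 < ss m x := by
  unfold ss
  positivity

lemma WtA_base_pos {m : ℝ} (hm : 0 < m) (x : XX n) (k : Fin n) :
    0 < ‖pt x k‖ ^ 2 + ss m x / n := by
  have h1 : (0 : ℝ) < n := Nat.cast_pos.2 (Fin.pos k)
  have h2 := ss_pos hm x
  positivity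

lemma uu_pos {m : ℝ} (hm : 0 < m) (x : XX n) (k : Fin n) : 0 < uu m x k :=
  Real.rpow_pos_of_pos (WtA_base_pos hm x k) _

lemma sg_pos {m : ℝ} (hm : 0 < m) {p : Fin n × Fin n} (hp : p ∈ prs n) (x : XX n) :
    0 < sg m p x := lt_of_lt_of_le hm (sg_ge (ne_of_prs hp) x)

lemma sg_le_ss {m : ℝ} {p : Fin n × Fin n} (x : XX n) : sg m p x ≤ ss m x := by
  unfold sg
  have h1 : 0 ≤ ‖df p x‖ ^ 2 / 2 := by positivity
  linarith

lemma aa_pos {m : ℝ} (hm : 0 < m) {p : Fin n × Fin n} (hp : p ∈ prs n) (x : XX n) :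
    0 < aa m p x :=
  div_pos (Real.sqrt_pos.2 (sg_pos hm hp x)) (mul_pos (uu_pos hm x _) (uu_pos hm x _))

/-- power mean: `∑ (y_k + s/n)^{3/4} ≤ n ((∑ y_k + s)/n)^{3/4}`, `∑ y_k ≤ s` -/
lemma sum_uu {m : ℝ} (hm : 0 < m) (hn : 1 ≤ n) (x : XX n) :
    ∑ k, uu m x k ≤ n * (2 * ss m x / n) ^ ((3 : ℝ) / 4) := by
  have hn0 : (0 : ℝ) < n := by exact_mod_cast (by omega : 0 < n)
  have hs := ss_pos hm x
  have h1 := Real.rpow_arith_mean_le_arith_mean_rpow (Finset.univ : Finset (Fin n))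
    (fun _ => 1 / (n : ℝ)) (fun k => uu m x k) (fun _ _ => by positivity)
    (by
      rw [Finset.sum_const, Finset.card_univ, Fintype.card_fin, nsmul_eq_mul]
      field_simp) (fun k _ => (uu_pos hm x k).le) (p := 4 / 3) (by norm_num)
  rw [← Finset.mul_sum, ← Finset.mul_sum] at h1
  have h2 : ∀ k, uu m x k ^ ((4 : ℝ) / 3) = ‖pt x k‖ ^ 2 + ss m x / n := by
    intro k
    unfold uu
    rw [← Real.rpow_mul (WtA_base_pos hm x k).le]
    norm_num
  simp only [h2] at h1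
  have h3 : ∑ k, (‖pt x k‖ ^ 2 + ss m x / n) ≤ 2 * ss m x := by
    rw [Finset.sum_add_distrib, ← norm_sq_pt, Finset.sum_const, Finset.card_univ,
      Fintype.card_fin, nsmul_eq_mul, mul_div_cancel₀ _ hn0.ne']
    unfold ss
    linarith
  have h0 : 0 ≤ 1 / (n : ℝ) * ∑ k, uu m x k :=
    mul_nonneg (by positivity) (Finset.sum_nonneg fun k _ => (uu_pos hm x k).le)
  have h4 : (1 / (n : ℝ) * ∑ k, uu m x k) ^ ((4 : ℝ) / 3) ≤ 2 * ss m x / n := by
    refine h1.trans ?_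
    rw [one_div, inv_mul_eq_div]
    exact div_le_div_of_nonneg_right h3 hn0.le
  have h5 : 1 / (n : ℝ) * ∑ k, uu m x k ≤ (2 * ss m x / n) ^ ((3 : ℝ) / 4) := by
    have h6 := Real.rpow_le_rpow (Real.rpow_nonneg h0 _) h4 (by norm_num : (0 : ℝ) ≤ 3 / 4)
    rw [← Real.rpow_mul h0] at h6
    norm_num at h6
    rw [one_div]
    exact h6
  rw [one_div, inv_mul_eq_div, div_le_iff₀ hn0] at h5
  linarith

/-- `∑_{k<l} u_k u_l ≤ (1/2) (∑ u)²` -/
lemma sum_pairs_uu {m : ℝ} (hm : 0 < m) (hn : 1 ≤ n) (x : XX n) :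
    ∑ q ∈ prs n, uu m x q.1 * uu m x q.2
      ≤ Real.sqrt 2 * Real.sqrt n * (ss m x) ^ ((3 : ℝ) / 2) := by
  have hn0 : (0 : ℝ) < n := by exact_mod_cast (by omega : 0 < n)
  have hs := ss_pos hm x
  have h1 : 2 * ∑ q ∈ prs n, uu m x q.1 * uu m x q.2 ≤ (∑ k, uu m x k) ^ 2 := by
    have h2 : (∑ k, uu m x k) ^ 2 = ∑ q : Fin n × Fin n, uu m x q.1 * uu m x q.2 := by
      rw [sq, Fintype.sum_mul_sum, Fintype.sum_prod_type]
    have h3 : ∑ q ∈ prs n, uu m x q.1 * uu m x q.2 =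
        ∑ q ∈ Finset.univ.filter (fun q : Fin n × Fin n => q.2 < q.1),
          uu m x q.1 * uu m x q.2 := by
      unfold prs
      refine Finset.sum_nbij' Prod.swap Prod.swap ?_ ?_ ?_ ?_ ?_
      · intro q hq
        simp only [Finset.mem_filter, Finset.mem_univ, true_and, Prod.fst_swap,
          Prod.snd_swap] at hq ⊢
        exact hq
      · intro q hq
        simp only [Finset.mem_filter, Finset.mem_univ, true_and, Prod.fst_swap,
          Prod.snd_swap] at hq ⊢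
        exact hq
      · intro q _
        exact Prod.swap_swap q
      · intro q _
        exact Prod.swap_swap q
      · intro q _
        rw [Prod.fst_swap, Prod.snd_swap, mul_comm]
    have h4 : Disjoint (prs n) (Finset.univ.filter (fun q : Fin n × Fin n => q.2 < q.1)) := by
      rw [Finset.disjoint_left]
      intro q hq hq'
      unfold prs at hq
      rw [Finset.mem_filter] at hq hq'
      exact absurd hq.2 (not_lt.2 hq'.2.le)
    rw [two_mul]
    nth_rewrite 2 [h3]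
    rw [← Finset.sum_union h4, h2]
    exact Finset.sum_le_sum_of_subset_of_nonneg (Finset.subset_univ _)
      fun q _ _ => (mul_pos (uu_pos hm x _) (uu_pos hm x _)).le
  have h5 : (∑ k, uu m x k) ^ 2 ≤ (n * (2 * ss m x / n) ^ ((3 : ℝ) / 4)) ^ 2 :=
    pow_le_pow_left₀ (Finset.sum_nonneg fun k _ => (uu_pos hm x k).le) (sum_uu hm hn x) 2
  have h6 : (n * (2 * ss m x / n) ^ ((3 : ℝ) / 4)) ^ 2 =
      2 * (Real.sqrt 2 * Real.sqrt n * (ss m x) ^ ((3 : ℝ) / 2)) := by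
    have h7 : ∀ y : ℝ, 0 < y → y ^ ((3 : ℝ) / 2) = y * Real.sqrt y := by
      intro y hy
      rw [Real.sqrt_eq_rpow]
      nth_rewrite 2 [← Real.rpow_one y]
      rw [← Real.rpow_add hy]
      norm_num
    have hb : 0 < 2 * ss m x / n := by positivity
    have h8 : ((2 * ss m x / n) ^ ((3 : ℝ) / 4)) ^ 2 = (2 * ss m x / n) ^ ((3 : ℝ) / 2) := by
      rw [← Real.rpow_natCast, ← Real.rpow_mul hb.le]
      norm_num
    rw [mul_pow, h8, h7 _ hb, h7 _ hs, Real.sqrt_div (by positivity), Real.sqrt_mul (by norm_num)]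
    have h9 : Real.sqrt n * Real.sqrt n = n := Real.mul_self_sqrt hn0.le
    have h10 : 0 < Real.sqrt n := Real.sqrt_pos.2 hn0
    field_simp
    nlinarith [h9]
  rw [h6] at h5
  linarith

/-- `1/(u_i u_j) ≤ (1/2) ∑ (|x_i|² + κ/n)^{-3/2}` where `κ = s_σ ≤ s` -/
lemma inv_uu_le {m : ℝ} (hm : 0 < m) (hn : 1 ≤ n) {p : Fin n × Fin n} (hp : p ∈ prs n)
    (x : XX n) :
    1 / (uu m x p.1 * uu m x p.2) ≤
      ((‖pt x p.1‖ ^ 2 + sg m p x / n) ^ (-(3 : ℝ) / 2)
        + (‖pt x p.2‖ ^ 2 + sg m p x / n) ^ (-(3 : ℝ) / 2)) / 2 := by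
  have hn0 : (0 : ℝ) < n := by exact_mod_cast (by omega : 0 < n)
  have h1 : ∀ k, (1 / uu m x k) ^ 2 ≤
      (‖pt x k‖ ^ 2 + sg m p x / n) ^ (-(3 : ℝ) / 2) := by
    intro k
    have hb := WtA_base_pos hm x k
    have hsg := sg_pos hm hp x
    have hb' : 0 < ‖pt x k‖ ^ 2 + sg m p x / n := by positivity
    have h2 : (1 / uu m x k) ^ 2 = (‖pt x k‖ ^ 2 + ss m x / n) ^ (-(3 : ℝ) / 2) := by
      unfold uu
      rw [one_div, ← Real.rpow_neg hb.le, ← Real.rpow_natCast, ← Real.rpow_mul hb.le]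
      norm_num
    rw [h2]
    refine Real.rpow_le_rpow_of_nonpos hb' ?_ (by norm_num)
    have h3 : sg m p x / n ≤ ss m x / n := div_le_div_of_nonneg_right (sg_le_ss x) hn0.le
    linarith
  have h4 := h1 p.1
  have h5 := h1 p.2
  have h6 : 1 / (uu m x p.1 * uu m x p.2) = (1 / uu m x p.1) * (1 / uu m x p.2) := by
    rw [one_div_mul_one_div]
  rw [h6]
  nlinarith [sq_nonneg (1 / uu m x p.1 - 1 / uu m x p.2)]

/-- the normal terms -/
lemma normal_le {m : ℝ} (hm : 0 < m) (hn : 1 ≤ n) {p : Fin n × Fin n} (hp : p ∈ prs n)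
    (x : XX n) :
    ∑ q ∈ ((prs n).erase p).filter (fun q => ss m x / 8 ≤ sg m q x),
        aa m p x / (aa m q x * ss m x) ≤
      2 * Real.sqrt (n * sg m p x) * (‖pt x p.1‖ ^ 2 + sg m p x / n) ^ (-(3 : ℝ) / 2)
      + 2 * Real.sqrt (n * sg m p x) * (‖pt x p.2‖ ^ 2 + sg m p x / n) ^ (-(3 : ℝ) / 2) := by
  have hn0 : (0 : ℝ) < n := by exact_mod_cast (by omega : 0 < n)
  have hs := ss_pos hm x
  have hsg := sg_pos hm hp x
  have hss : 0 < Real.sqrt (ss m x) := Real.sqrt_pos.2 hs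
  have hup := mul_pos (uu_pos hm x p.1) (uu_pos hm x p.2)
  set A : ℝ := Real.sqrt (sg m p x) / (uu m x p.1 * uu m x p.2) with hA
  have hA0 : 0 ≤ A := div_nonneg (Real.sqrt_nonneg _) hup.le
  have h32 : (ss m x) ^ ((3 : ℝ) / 2) = ss m x * Real.sqrt (ss m x) := by
    rw [Real.sqrt_eq_rpow]
    nth_rewrite 2 [← Real.rpow_one (ss m x)]
    rw [← Real.rpow_add hs]
    norm_num
  have h1 : ∀ q ∈ ((prs n).erase p).filter (fun q => ss m x / 8 ≤ sg m q x),
      aa m p x / (aa m q x * ss m x) ≤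
        A * (Real.sqrt 8 / (ss m x) ^ ((3 : ℝ) / 2)) * (uu m x q.1 * uu m x q.2) := by
    intro q hq
    rw [Finset.mem_filter, Finset.mem_erase] at hq
    have hq1 := sg_pos hm hq.1.2 x
    have huq := mul_pos (uu_pos hm x q.1) (uu_pos hm x q.2)
    have hsq : 0 < Real.sqrt (sg m q x) := Real.sqrt_pos.2 hq1
    have h2 : aa m p x / (aa m q x * ss m x) =
        A * (uu m x q.1 * uu m x q.2) * (1 / (Real.sqrt (sg m q x) * ss m x)) := by
      unfold aa
      rw [← hA]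
      field_simp
    have h3 : Real.sqrt (ss m x) ≤ Real.sqrt 8 * Real.sqrt (sg m q x) := by
      rw [← Real.sqrt_mul (by norm_num)]
      exact Real.sqrt_le_sqrt (by linarith [hq.2])
    have h4 : 1 / (Real.sqrt (sg m q x) * ss m x) ≤ Real.sqrt 8 / (ss m x) ^ ((3 : ℝ) / 2) := by
      rw [h32, div_le_div_iff₀ (by positivity) (by positivity)]
      nlinarith [mul_le_mul_of_nonneg_left h3 hs.le]
    rw [h2]
    have h5 := mul_le_mul_of_nonneg_left h4 (mul_nonneg hA0 huq.le)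
    linarith
  refine (Finset.sum_le_sum h1).trans ?_
  rw [← Finset.mul_sum]
  have h6 : ∑ q ∈ ((prs n).erase p).filter (fun q => ss m x / 8 ≤ sg m q x),
      uu m x q.1 * uu m x q.2 ≤ Real.sqrt 2 * Real.sqrt n * (ss m x) ^ ((3 : ℝ) / 2) := by
    refine le_trans ?_ (sum_pairs_uu hm hn x)
    exact Finset.sum_le_sum_of_subset_of_nonneg
      ((Finset.filter_subset _ _).trans (Finset.erase_subset _ _))
      fun q _ _ => (mul_pos (uu_pos hm x _) (uu_pos hm x _)).le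
  have h7 : 0 ≤ A * (Real.sqrt 8 / (ss m x) ^ ((3 : ℝ) / 2)) := by positivity
  refine (mul_le_mul_of_nonneg_left h6 h7).trans ?_
  have h8 : Real.sqrt 8 * Real.sqrt 2 = 4 := by
    rw [← Real.sqrt_mul (by norm_num), show (8 : ℝ) * 2 = 4 ^ 2 by norm_num]
    exact Real.sqrt_sq (by norm_num)
  have h9 : A * (Real.sqrt 8 / (ss m x) ^ ((3 : ℝ) / 2)) *
      (Real.sqrt 2 * Real.sqrt n * (ss m x) ^ ((3 : ℝ) / 2)) =
      4 * Real.sqrt (n * sg m p x) * (1 / (uu m x p.1 * uu m x p.2)) := by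
    have h10 : 0 < (ss m x) ^ ((3 : ℝ) / 2) := Real.rpow_pos_of_pos hs _
    rw [Real.sqrt_mul hn0.le, hA]
    field_simp
    rw [h8]
  rw [h9]
  have h11 := mul_le_mul_of_nonneg_left (inv_uu_le hm hn hp x)
    (by positivity : 0 ≤ 4 * Real.sqrt (n * sg m p x))
  linarith

end SHF
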