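import Pool.Agent.W_03a799_h55.WtA

/-! Pointwise bounds on the weights, part B: the exceptional pair `ν` (`s_ν < s/8`). -/

open MeasureTheory Filter Topology

namespace SHF

variable {n : ℕ}

lemma WtB_ss {m : ℝ} (x : XX n) (T : Finset (Fin n)) :
    ∑ i ∈ T, ‖pt x i‖ ^ 2 + m ≤ ss m x := by
  unfold ss
  rw [norm_sq_pt]
  have := Finset.sum_le_sum_of_subset_of_nonneg (f := fun i => ‖pt x i‖ ^ 2)
    (Finset.subset_univ T) fun i _ _ => sq_nonneg _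
  linarith

lemma WtB_ss2 {m : ℝ} (x : XX n) {i j : Fin n} (h : i ≠ j) :
    ‖pt x i‖ ^ 2 + ‖pt x j‖ ^ 2 + m ≤ ss m x := by
  have := WtB_ss (m := m) x {i, j}
  rwa [Finset.sum_pair h] at this

lemma WtB_ss3 {m : ℝ} (x : XX n) {i j l : Fin n} (h : i ≠ j) (h1 : l ≠ i) (h2 : l ≠ j) :
    ‖pt x l‖ ^ 2 + (‖pt x i‖ ^ 2 + ‖pt x j‖ ^ 2) + m ≤ ss m x := by
  have := WtB_ss (m := m) x {l, i, j}
  rwa [Finset.sum_insert (by simp [h1, h2]), Finset.sum_pair h] at this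

lemma WtB_sg {m : ℝ} (hm : 0 < m) {q : Fin n × Fin n} (hq : q ∈ prs n) (x : XX n) {l : Fin n}
    (h1 : l ≠ q.1) (h2 : l ≠ q.2) : ‖pt x l‖ ^ 2 ≤ sg m q x := by
  rw [sg_eq (ne_of_prs hq)]
  have h3 : ‖pt x l‖ ^ 2 ≤ ∑ l ∈ (Finset.univ.erase q.1).erase q.2, ‖pt x l‖ ^ 2 :=
    Finset.single_le_sum (f := fun l => ‖pt x l‖ ^ 2) (fun i _ => sq_nonneg _) (by simp [h1, h2])
  have h4 := sq_nonneg ‖pt x q.1 + pt x q.2‖
  linarith

lemma WtB_sg2 {m : ℝ} (hm : 0 < m) {q : Fin n × Fin n} (hq : q ∈ prs n) (x : XX n) {k l : Fin n}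
    (hkl : k ≠ l) (h1 : l ≠ q.1) (h2 : l ≠ q.2) (h3 : k ≠ q.1) (h4 : k ≠ q.2) :
    ‖pt x k‖ ^ 2 + ‖pt x l‖ ^ 2 ≤ sg m q x := by
  rw [sg_eq (ne_of_prs hq)]
  have h5 : ∑ l ∈ ({k, l} : Finset (Fin n)), ‖pt x l‖ ^ 2 ≤
      ∑ l ∈ (Finset.univ.erase q.1).erase q.2, ‖pt x l‖ ^ 2 := by
    refine Finset.sum_le_sum_of_subset_of_nonneg ?_ fun i _ _ => sq_nonneg _
    intro a ha
    rw [Finset.mem_insert, Finset.mem_singleton] at ha
    rcases ha with rfl | rfl <;> simp [h1, h2, h3, h4]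
  rw [Finset.sum_pair hkl] at h5
  have h6 := sq_nonneg ‖pt x q.1 + pt x q.2‖
  linarith

/-- an exceptional pair: both particles carry more than `9s/64`, together more than `7s/8` -/
lemma exc_facts {m : ℝ} (hm : 0 < m) {q : Fin n × Fin n} (hq : q ∈ prs n) {x : XX n}
    (h : sg m q x < ss m x / 8) :
    9 * ss m x / 64 < ‖pt x q.1‖ ^ 2 ∧ 9 * ss m x / 64 < ‖pt x q.2‖ ^ 2 ∧
      7 * ss m x / 8 < ‖pt x q.1‖ ^ 2 + ‖pt x q.2‖ ^ 2 := by
  have hne := ne_of_prs hq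
  have hs := ss_pos hm x
  have h1 := WtB_ss2 (m := m) x hne
  unfold sg at h
  have h2 : ‖df q x‖ ≤ ‖pt x q.1‖ + ‖pt x q.2‖ := norm_sub_le _ _
  have h3 := norm_nonneg (df q x)
  obtain ⟨a, ha⟩ : ∃ a, a = ‖pt x q.1‖ := ⟨_, rfl⟩
  obtain ⟨b, hb⟩ : ∃ b, b = ‖pt x q.2‖ := ⟨_, rfl⟩
  obtain ⟨s, hs'⟩ : ∃ s, s = ss m x := ⟨_, rfl⟩
  have ha0 : 0 ≤ a := by rw [ha]; exact norm_nonneg _
  have hb0 : 0 ≤ b := by rw [hb]; exact norm_nonneg _
  rw [← ha, ← hb] at h1 h2 ⊢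
  rw [← hs'] at h hs h1 ⊢
  have h4 : ‖df q x‖ ^ 2 ≤ (a + b) ^ 2 := pow_le_pow_left₀ h3 h2 2
  have h5 : 7 * s / 4 < (a + b) ^ 2 := by linarith
  have h6 : 3 * s / 4 < 2 * (a * b) := by nlinarith
  have h7 : 9 * s / 64 * s < a ^ 2 * b ^ 2 := by
    have h8 : 3 * s / 8 < a * b := by linarith
    have h9 : (3 * s / 8) ^ 2 < (a * b) ^ 2 := pow_lt_pow_left₀ h8 (by positivity) two_ne_zero
    nlinarith
  have h8 := sq_nonneg a
  have h9 := sq_nonneg b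
  refine ⟨?_, ?_, ?_⟩
  · have h10 : a ^ 2 * b ^ 2 ≤ a ^ 2 * s := mul_le_mul_of_nonneg_left (by linarith) h8
    exact lt_of_mul_lt_mul_right (lt_of_lt_of_le h7 h10) hs.le
  · have h10 : a ^ 2 * b ^ 2 ≤ s * b ^ 2 := mul_le_mul_of_nonneg_right (by linarith) h9
    rw [mul_comm s] at h10
    exact lt_of_mul_lt_mul_right (lt_of_lt_of_le h7 h10) hs.le
  · nlinarith [sq_nonneg (a - b)]

/-- there is at most one exceptional pair -/
lemma exc_unique {m : ℝ} (hm : 0 < m) {q q' : Fin n × Fin n} (hq : q ∈ prs n)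
    (hq' : q' ∈ prs n) {x : XX n} (h : sg m q x < ss m x / 8) (h' : sg m q' x < ss m x / 8) :
    q = q' := by
  obtain ⟨a1, a2, a3⟩ := exc_facts hm hq h
  obtain ⟨b1, b2, b3⟩ := exc_facts hm hq' h'
  have hne := ne_of_prs hq
  have hs := ss_pos hm x
  have key : ∀ i, 9 * ss m x / 64 < ‖pt x i‖ ^ 2 → i = q.1 ∨ i = q.2 := by
    intro i hi
    by_contra hc
    rw [not_or] at hc
    have := WtB_ss3 (m := m) x hne hc.1 hc.2
    linarith
  have hlt : q.1 < q.2 := by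
    have := hq
    unfold prs at this
    exact (Finset.mem_filter.1 this).2
  have hlt' : q'.1 < q'.2 := by
    have := hq'
    unfold prs at this
    exact (Finset.mem_filter.1 this).2
  rcases key _ b1 with c1 | c1 <;> rcases key _ b2 with c2 | c2
  · rw [c1, c2] at hlt'
    exact absurd hlt' (lt_irrefl _)
  · exact Prod.ext c1.symm c2.symm
  · rw [c1, c2] at hlt'
    exact absurd (hlt.trans hlt') (lt_irrefl _)
  · rw [c1, c2] at hlt'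
    exact absurd hlt' (lt_irrefl _)

/-- `u_k u_l ≤ s^{3/2}` (AM-GM, `n ≥ 2`) -/
lemma uu_mul_le {m : ℝ} (hm : 0 < m) (hn : 2 ≤ n) {q : Fin n × Fin n} (hq : q ∈ prs n)
    (x : XX n) : uu m x q.1 * uu m x q.2 ≤ (ss m x) ^ ((3 : ℝ) / 2) := by
  have hne := ne_of_prs hq
  have hs := ss_pos hm x
  have h1 := WtB_ss2 (m := m) x hne
  have hn' : (2 : ℝ) ≤ n := by exact_mod_cast hn
  have hn0 : (0 : ℝ) < n := by linarith
  have h2 : ss m x / n ≤ ss m x / 2 := div_le_div_of_nonneg_left hs.le two_pos hn'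
  have h3 : 0 < ss m x / n := by positivity
  have h4 := sq_nonneg ‖pt x q.1‖
  have h5 := sq_nonneg ‖pt x q.2‖
  unfold uu
  rw [← Real.mul_rpow (by positivity) (by positivity)]
  have h6 : (‖pt x q.1‖ ^ 2 + ss m x / n) * (‖pt x q.2‖ ^ 2 + ss m x / n) ≤ ss m x ^ (2 : ℝ) := by
    rw [Real.rpow_two]
    obtain ⟨A, hA⟩ : ∃ A, A = ‖pt x q.1‖ ^ 2 + ss m x / n := ⟨_, rfl⟩
    obtain ⟨B, hB⟩ : ∃ B, B = ‖pt x q.2‖ ^ 2 + ss m x / n := ⟨_, rfl⟩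
    have hA0 : 0 < A := by rw [hA]; positivity
    have hB0 : 0 < B := by rw [hB]; positivity
    rw [← hA, ← hB]
    have h7 : A + B ≤ 2 * ss m x := by linarith
    nlinarith [sq_nonneg (A - B)]
  refine (Real.rpow_le_rpow (by positivity) h6 (by norm_num)).trans_eq ?_
  rw [← Real.rpow_mul hs.le]
  norm_num

lemma WtB_rpow32 {y : ℝ} (hy : 0 < y) :
    y ^ (-(3 : ℝ) / 2) = ((y ^ ((3 : ℝ) / 4)) ^ 2)⁻¹ := by
  rw [← Real.rpow_natCast, ← Real.rpow_mul hy.le, ← Real.rpow_neg hy.le]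
  norm_num

lemma WtB_rpow12 {y : ℝ} (hy : 0 < y) : y ^ (-(1 : ℝ) / 2) = (Real.sqrt y)⁻¹ := by
  rw [Real.sqrt_eq_rpow, ← Real.rpow_neg hy.le]
  norm_num

/-- real inequality for a pair which shares an index with `p` -/
lemma WtB_share {s κ r yi yj N : ℝ} (hs : 0 < s) (hκ : 0 < κ) (hκs : κ ≤ s)
    (h1 : 9 * s / 64 < κ) (hyj : 0 < yj) (hr : yj ≤ r) (hyi : 9 * s / 64 < yi) (hN : 0 < N)
    (hj : yj + s / N ≤ s) :
    Real.sqrt κ * Real.sqrt s / (Real.sqrt r *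
      ((yi + s / N) ^ ((3 : ℝ) / 4) * (yj + s / N) ^ ((3 : ℝ) / 4))) ≤
      16 * κ * yj ^ (-(1 : ℝ) / 2) * (yj + κ / N) ^ (-(3 : ℝ) / 2) := by
  have hyi0 : 0 < yi := lt_trans (by positivity) hyi
  have hr0 : 0 < r := lt_of_lt_of_le hyj hr
  have hκN : κ / N ≤ s / N := div_le_div_of_nonneg_right hκs hN.le
  rw [WtB_rpow12 hyj, WtB_rpow32 (by positivity)]
  obtain ⟨U, hU⟩ : ∃ U, U = (yi + s / N) ^ ((3 : ℝ) / 4) := ⟨_, rfl⟩
  obtain ⟨W, hW⟩ : ∃ W, W = (yj + s / N) ^ ((3 : ℝ) / 4) := ⟨_, rfl⟩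
  obtain ⟨Z, hZ⟩ : ∃ Z, Z = (yj + κ / N) ^ ((3 : ℝ) / 4) := ⟨_, rfl⟩
  have hU0 : 0 < U := by rw [hU]; positivity
  have hW0 : 0 < W := by rw [hW]; positivity
  have hZ0 : 0 < Z := by rw [hZ]; positivity
  have hZW : Z ≤ W := by
    rw [hZ, hW]
    exact Real.rpow_le_rpow (by positivity) (by linarith) (by norm_num)
  have hWU : W ≤ 6 * U := by
    have h2 : yj + s / N ≤ (64 / 9) * (yi + s / N) := by
      have : 0 < s / N := by positivity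
      linarith
    have h3 : W ≤ ((64 / 9) * (yi + s / N)) ^ ((3 : ℝ) / 4) := by
      rw [hW]
      exact Real.rpow_le_rpow (by positivity) h2 (by norm_num)
    rw [Real.mul_rpow (by norm_num) (by positivity), ← hU] at h3
    have h4 : ((64 / 9 : ℝ)) ^ ((3 : ℝ) / 4) ≤ 6 := by
      have h5 : (6 : ℝ) = ((6 : ℝ) ^ (4 : ℝ)) ^ ((1 : ℝ) / 4) := by
        rw [← Real.rpow_mul (by norm_num)]
        norm_num
      rw [h5, show ((3 : ℝ) / 4) = 3 * (1 / 4) by norm_num, Real.rpow_mul (by norm_num)]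
      refine Real.rpow_le_rpow (by positivity) ?_ (by norm_num)
      rw [show (3 : ℝ) = ((3 : ℕ) : ℝ) by norm_num, show (4 : ℝ) = ((4 : ℕ) : ℝ) by norm_num,
        Real.rpow_natCast, Real.rpow_natCast]
      norm_num
    exact h3.trans (mul_le_mul_of_nonneg_right h4 hU0.le)
  rw [← hU, ← hW, ← hZ]
  have hs2 : Real.sqrt s ≤ 8 / 3 * Real.sqrt κ := by
    have h2 : s ≤ (8 / 3) ^ 2 * κ := by linarith
    have h3 := Real.sqrt_le_sqrt h2
    rwa [Real.sqrt_mul (by positivity), Real.sqrt_sq (by norm_num)] at h3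
  have hsr : Real.sqrt yj ≤ Real.sqrt r := Real.sqrt_le_sqrt hr
  have hyj' : 0 < Real.sqrt yj := Real.sqrt_pos.2 hyj
  have hκ' : 0 < Real.sqrt κ := Real.sqrt_pos.2 hκ
  have h7 : Real.sqrt κ * Real.sqrt s ≤ 8 / 3 * κ := by
    have := mul_le_mul_of_nonneg_left hs2 hκ'.le
    have h8 := Real.mul_self_sqrt hκ.le
    nlinarith
  have h8 : 16 * κ * (Real.sqrt yj)⁻¹ * (Z ^ 2)⁻¹ = 16 * κ / (Real.sqrt yj * Z ^ 2) := by
    field_simp
  rw [h8]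
  calc Real.sqrt κ * Real.sqrt s / (Real.sqrt r * (U * W))
      ≤ 8 / 3 * κ / (Real.sqrt yj * (U * W)) := by
        gcongr
    _ ≤ 8 / 3 * κ / (Real.sqrt yj * (Z ^ 2 / 6)) := by
        gcongr
        have : Z ^ 2 ≤ W * W := by
          rw [sq]
          exact mul_le_mul hZW hZW hZ0.le hW0.le
        nlinarith
    _ = 16 * κ / (Real.sqrt yj * Z ^ 2) := by
        field_simp
        norm_num

/-- real inequality for a pair disjoint from `p` -/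
lemma WtB_disj {s κ r yi yj P A B : ℝ} (hs : 0 < s) (hκ : 0 < κ)
    (h1 : 7 * s / 8 < κ) (hyi : 0 < yi) (hyj : 0 < yj) (hri : yi ≤ r) (hrj : yj ≤ r)
    (hA : 0 ≤ A) (hB : 0 ≤ B) (hP : 0 < P) (hPAB : 1 / P ≤ (A + B) / 2) :
    Real.sqrt κ * Real.sqrt s / (Real.sqrt r * P) ≤
      16 * κ * yi ^ (-(1 : ℝ) / 2) * A + 16 * κ * yj ^ (-(1 : ℝ) / 2) * B := by
  have hr0 : 0 < r := lt_of_lt_of_le hyj hrj
  rw [WtB_rpow12 hyj, WtB_rpow12 hyi]
  have hs2 : Real.sqrt s ≤ 2 * Real.sqrt κ := by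
    have h2 : s ≤ 2 ^ 2 * κ := by linarith
    have h3 := Real.sqrt_le_sqrt h2
    rwa [Real.sqrt_mul (by positivity), Real.sqrt_sq (by norm_num)] at h3
  have hκ' : 0 < Real.sqrt κ := Real.sqrt_pos.2 hκ
  have hr' : 0 < Real.sqrt r := Real.sqrt_pos.2 hr0
  have h7 : Real.sqrt κ * Real.sqrt s ≤ 2 * κ := by
    have := mul_le_mul_of_nonneg_left hs2 hκ'.le
    have h8 := Real.mul_self_sqrt hκ.le
    nlinarith
  have hi' : 0 < Real.sqrt yi := Real.sqrt_pos.2 hyi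
  have hj' : 0 < Real.sqrt yj := Real.sqrt_pos.2 hyj
  have hi2 : (Real.sqrt r)⁻¹ ≤ (Real.sqrt yi)⁻¹ := inv_anti₀ hi' (Real.sqrt_le_sqrt hri)
  have hj2 : (Real.sqrt r)⁻¹ ≤ (Real.sqrt yj)⁻¹ := inv_anti₀ hj' (Real.sqrt_le_sqrt hrj)
  calc Real.sqrt κ * Real.sqrt s / (Real.sqrt r * P)
      = Real.sqrt κ * Real.sqrt s * (Real.sqrt r)⁻¹ * (1 / P) := by
        field_simp
    _ ≤ 2 * κ * (Real.sqrt r)⁻¹ * ((A + B) / 2) := by
        gcongr
    _ = κ * (Real.sqrt r)⁻¹ * A + κ * (Real.sqrt r)⁻¹ * B := by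
        ring
    _ ≤ κ * (Real.sqrt yi)⁻¹ * A + κ * (Real.sqrt yj)⁻¹ * B := by
        gcongr
    _ ≤ 16 * κ * (Real.sqrt yi)⁻¹ * A + 16 * κ * (Real.sqrt yj)⁻¹ * B := by
        have h9 : 0 ≤ κ * (Real.sqrt yi)⁻¹ * A := by positivity
        have h10 : 0 ≤ κ * (Real.sqrt yj)⁻¹ * B := by positivity
        linarith

/-- first step: `a_p/(a_q s) ≤ sqrt(s_p) sqrt s/(sqrt(s_q) u_i u_j)` -/
lemma WtB_first {m : ℝ} (hm : 0 < m) (hn : 2 ≤ n) {p q : Fin n × Fin n}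
    (hq : q ∈ prs n) (x : XX n) :
    aa m p x / (aa m q x * ss m x) ≤ Real.sqrt (sg m p x) * Real.sqrt (ss m x) /
      (Real.sqrt (sg m q x) * (uu m x p.1 * uu m x p.2)) := by
  have hs := ss_pos hm x
  have h1 := uu_mul_le hm hn hq x
  have h2 := uu_pos hm x p.1
  have h3 := uu_pos hm x p.2
  have h4 := uu_pos hm x q.1
  have h5 := uu_pos hm x q.2
  have h6 : 0 < Real.sqrt (sg m q x) := Real.sqrt_pos.2 (sg_pos hm hq x)
  have h7 : ss m x ^ ((3 : ℝ) / 2) = ss m x * Real.sqrt (ss m x) := by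
    rw [Real.sqrt_eq_rpow]
    nth_rewrite 2 [← Real.rpow_one (ss m x)]
    rw [← Real.rpow_add hs]
    norm_num
  rw [h7] at h1
  have h8 : aa m p x / (aa m q x * ss m x) = Real.sqrt (sg m p x) *
      (uu m x q.1 * uu m x q.2) / (ss m x * (Real.sqrt (sg m q x) *
        (uu m x p.1 * uu m x p.2))) := by
    unfold aa
    field_simp
  rw [h8, div_le_div_iff₀ (by positivity) (by positivity)]
  have h9 : 0 ≤ Real.sqrt (sg m p x) * (Real.sqrt (sg m q x) * (uu m x p.1 * uu m x p.2)) := by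
    positivity
  have h10 := mul_le_mul_of_nonneg_left h1 h9
  nlinarith

/-- the exceptional term; `κ = s_p` -/
lemma exc_term {m : ℝ} (hm : 0 < m) (hn : 2 ≤ n) {p q : Fin n × Fin n} (hp : p ∈ prs n)
    (hq : q ∈ (prs n).erase p) {x : XX n} (h1 : 0 < ‖pt x p.1‖) (h2 : 0 < ‖pt x p.2‖)
    (h : sg m q x < ss m x / 8) :
    aa m p x / (aa m q x * ss m x) ≤
      16 * sg m p x * (‖pt x p.1‖ ^ 2) ^ (-(1 : ℝ) / 2)
          * (‖pt x p.1‖ ^ 2 + sg m p x / n) ^ (-(3 : ℝ) / 2)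
        + 16 * sg m p x * (‖pt x p.2‖ ^ 2) ^ (-(1 : ℝ) / 2)
          * (‖pt x p.2‖ ^ 2 + sg m p x / n) ^ (-(3 : ℝ) / 2) := by
  rw [Finset.mem_erase] at hq
  obtain ⟨hqp, hq⟩ := hq
  have hs := ss_pos hm x
  have hκ := sg_pos hm hp x
  have hκs := sg_le_ss (m := m) (p := p) x
  obtain ⟨a1, a2, a3⟩ := exc_facts hm hq h
  have hnep := ne_of_prs hp
  have hneq := ne_of_prs hq
  have hn' : (2 : ℝ) ≤ n := by exact_mod_cast hn
  have hn0 : (0 : ℝ) < n := by linarith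
  have hsn : ss m x / n ≤ ss m x / 2 := div_le_div_of_nonneg_left hs.le two_pos hn'
  have hlp : p.1 < p.2 := by
    have := hp
    unfold prs at this
    exact (Finset.mem_filter.1 this).2
  have hlq : q.1 < q.2 := by
    have := hq
    unfold prs at this
    exact (Finset.mem_filter.1 this).2
  have hy1 : 0 < ‖pt x p.1‖ ^ 2 := by positivity
  have hy2 : 0 < ‖pt x p.2‖ ^ 2 := by positivity
  have hκn : 0 < sg m p x / n := by positivity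
  refine (WtB_first hm hn hq x).trans ?_
  -- the two terms of the right side are nonnegative
  have t1 : 0 ≤ 16 * sg m p x * (‖pt x p.1‖ ^ 2) ^ (-(1 : ℝ) / 2)
          * (‖pt x p.1‖ ^ 2 + sg m p x / n) ^ (-(3 : ℝ) / 2) := by positivity
  have t2 : 0 ≤ 16 * sg m p x * (‖pt x p.2‖ ^ 2) ^ (-(1 : ℝ) / 2)
          * (‖pt x p.2‖ ^ 2 + sg m p x / n) ^ (-(3 : ℝ) / 2) := by positivity
  have small : ∀ j, j ≠ q.1 → j ≠ q.2 → ‖pt x j‖ ^ 2 + ss m x / n ≤ ss m x := by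
    intro j hj1 hj2
    have := WtB_ss3 (m := m) x hneq hj1 hj2
    linarith
  -- `p.1` is shared, `p.2` is not
  have caseA : ∀ l, l ≠ p.1 → l ≠ p.2 → 9 * ss m x / 64 < ‖pt x l‖ ^ 2 →
      9 * ss m x / 64 < ‖pt x p.1‖ ^ 2 → p.2 ≠ q.1 → p.2 ≠ q.2 →
      Real.sqrt (sg m p x) * Real.sqrt (ss m x) /
        (Real.sqrt (sg m q x) * (uu m x p.1 * uu m x p.2)) ≤
      16 * sg m p x * (‖pt x p.2‖ ^ 2) ^ (-(1 : ℝ) / 2)
          * (‖pt x p.2‖ ^ 2 + sg m p x / n) ^ (-(3 : ℝ) / 2) := by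
    intro l hl1 hl2 hl hi hj1 hj2
    exact WtB_share hs hκ hκs (hl.trans_le (WtB_sg hm hp x hl1 hl2)) hy2
      (WtB_sg hm hq x hj1 hj2) hi hn0 (small _ hj1 hj2)
  have caseB : ∀ l, l ≠ p.1 → l ≠ p.2 → 9 * ss m x / 64 < ‖pt x l‖ ^ 2 →
      9 * ss m x / 64 < ‖pt x p.2‖ ^ 2 → p.1 ≠ q.1 → p.1 ≠ q.2 →
      Real.sqrt (sg m p x) * Real.sqrt (ss m x) /
        (Real.sqrt (sg m q x) * (uu m x p.1 * uu m x p.2)) ≤
      16 * sg m p x * (‖pt x p.1‖ ^ 2) ^ (-(1 : ℝ) / 2)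
          * (‖pt x p.1‖ ^ 2 + sg m p x / n) ^ (-(3 : ℝ) / 2) := by
    intro l hl1 hl2 hl hi hj1 hj2
    rw [mul_comm (uu m x p.1)]
    exact WtB_share hs hκ hκs (hl.trans_le (WtB_sg hm hp x hl1 hl2)) hy1
      (WtB_sg hm hq x hj1 hj2) hi hn0 (small _ hj1 hj2)
  by_cases e1 : p.1 = q.1
  · have e2 : p.2 ≠ q.2 := fun e => hqp (Prod.ext e1.symm e.symm)
    have e3 : p.2 ≠ q.1 := by rw [← e1]; exact hnep.symm
    have e4 : q.2 ≠ p.1 := by rw [e1]; exact hneq.symm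
    have := caseA q.2 e4 e2.symm a2 (by rw [e1]; exact a1) e3 e2
    linarith
  by_cases e2 : p.1 = q.2
  · have e3 : p.2 ≠ q.1 := by
      intro e
      rw [e2, e] at hlp
      exact absurd (hlp.trans hlq) (lt_irrefl _)
    have e4 : p.2 ≠ q.2 := by rw [← e2]; exact hnep.symm
    have e5 : q.1 ≠ p.1 := fun e => e1 e.symm
    have := caseA q.1 e5 e3.symm a1 (by rw [e2]; exact a2) e3 e4
    linarith
  by_cases e3 : p.2 = q.1
  · have e4 : q.2 ≠ p.2 := by rw [e3]; exact hneq.symm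
    have := caseB q.2 (fun e => e2 e.symm) e4 a2 (by rw [e3]; exact a1) e1 e2
    linarith
  by_cases e4 : p.2 = q.2
  · have e5 : q.1 ≠ p.2 := fun e => e3 e.symm
    have := caseB q.1 (fun e => e1 e.symm) e5 a1 (by rw [e4]; exact a2) e1 e2
    linarith
  -- disjoint pairs
  have b1 : ‖pt x q.1‖ ^ 2 + ‖pt x q.2‖ ^ 2 ≤ sg m p x :=
    WtB_sg2 hm hp x hneq (fun e => e2 e.symm) (fun e => e4 e.symm) (fun e => e1 e.symm)
      (fun e => e3 e.symm)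
  exact WtB_disj hs hκ (by linarith) hy1 hy2 (WtB_sg hm hq x e1 e2) (WtB_sg hm hq x e3 e4)
    (by positivity) (by positivity) (mul_pos (uu_pos hm x p.1) (uu_pos hm x p.2))
    (inv_uu_le hm (by omega) hp x)

/-- the pointwise bound -/
theorem WW_le {m : ℝ} (hm : 0 < m) (hn : 2 ≤ n) {p : Fin n × Fin n} (hp : p ∈ prs n)
    {x : XX n} (h1 : 0 < ‖pt x p.1‖) (h2 : 0 < ‖pt x p.2‖) :
    WW m p x ≤ Gf n (sg m p x) (‖pt x p.1‖ ^ 2) + Gf n (sg m p x) (‖pt x p.2‖ ^ 2) := by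
  have hs := ss_pos hm x
  have hκ := sg_pos hm hp x
  have hn0 : (0 : ℝ) < n := by
    have : 0 < n := by omega
    exact_mod_cast this
  have hκn : 0 < sg m p x / n := by positivity
  have hnorm := normal_le hm (by omega) hp x
  unfold WW Gf
  rw [← Finset.sum_filter_add_sum_filter_not ((prs n).erase p) (fun q => ss m x / 8 ≤ sg m q x)]
  have t1 : 0 ≤ 16 * sg m p x * (‖pt x p.1‖ ^ 2) ^ (-(1 : ℝ) / 2)
          * (‖pt x p.1‖ ^ 2 + sg m p x / n) ^ (-(3 : ℝ) / 2) := by positivity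
  have t2 : 0 ≤ 16 * sg m p x * (‖pt x p.2‖ ^ 2) ^ (-(1 : ℝ) / 2)
          * (‖pt x p.2‖ ^ 2 + sg m p x / n) ^ (-(3 : ℝ) / 2) := by positivity
  have hexc : ∑ q ∈ ((prs n).erase p).filter (fun q => ¬ ss m x / 8 ≤ sg m q x),
      aa m p x / (aa m q x * ss m x) ≤
      16 * sg m p x * (‖pt x p.1‖ ^ 2) ^ (-(1 : ℝ) / 2)
          * (‖pt x p.1‖ ^ 2 + sg m p x / n) ^ (-(3 : ℝ) / 2)
        + 16 * sg m p x * (‖pt x p.2‖ ^ 2) ^ (-(1 : ℝ) / 2)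
          * (‖pt x p.2‖ ^ 2 + sg m p x / n) ^ (-(3 : ℝ) / 2) := by
    rcases (((prs n).erase p).filter (fun q => ¬ ss m x / 8 ≤ sg m q x)).eq_empty_or_nonempty
      with h0 | ⟨q, hq⟩
    · rw [h0, Finset.sum_empty]
      linarith
    · have hq' := Finset.mem_filter.1 hq
      have hq1 := Finset.mem_erase.1 hq'.1
      have h0 : ((prs n).erase p).filter (fun q => ¬ ss m x / 8 ≤ sg m q x) = {q} := by
        refine Finset.eq_singleton_iff_unique_mem.2 ⟨hq, fun q' hq'' => ?_⟩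
        have h5 := Finset.mem_filter.1 hq''
        exact exc_unique hm (Finset.mem_erase.1 h5.1).2 hq1.2 (not_le.1 h5.2) (not_le.1 hq'.2)
      rw [h0, Finset.sum_singleton]
      exact exc_term hm hn hp hq'.1 h1 h2 (not_le.1 hq'.2)
  linarith

end SHF
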